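import Pool.Agent.Cec.Hz

/-!
# MP_cec948_nt: harmonic numbers `H_n`, `H_{2n}` modulo `p = 4n+1`

`dd` is the difference function `gam (x+p) - gam x` of `SC24/Gam.lean`.
Duplication for `dd`: apply `gam_dup_nat` at `n` and at `n + 2p`
(`cntU (n + 2p) = cntU n + 2 (p-1)`).
-/

namespace Cec

open Finset SC24

section
variable {p : ℕ} [hp : Fact p.Prime]

lemma cntU_add_p (n : ℕ) : cntU p (n + p) = cntU p n + (p - 1) := by
  induction n with
  | zero =>
    have h0 : cntU p 0 = 0 := by simp [cntU]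
    rw [zero_add, h0, zero_add]
    unfold cntU
    have : (range p).filter (fun j => ¬ p ∣ j) = (range p).erase 0 := by
      ext j
      simp only [mem_filter, mem_range, mem_erase]
      constructor
      · rintro ⟨h1, h2⟩
        exact ⟨fun h => h2 (by rw [h]; exact dvd_zero p), h1⟩
      · rintro ⟨h1, h2⟩
        exact ⟨h2, fun h => absurd (Nat.le_of_dvd (Nat.pos_of_ne_zero h1) h) (by omega)⟩
    rw [this, card_erase_of_mem (mem_range.mpr hp.out.pos), card_range]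
  | succ n ih =>
    have e : n + 1 + p = (n + p) + 1 := by ring
    rw [e, cntU_succ, cntU_succ, ih]
    have : p ∣ n + p ↔ p ∣ n := by
      rw [Nat.dvd_add_left (dvd_refl p)]
    by_cases h : p ∣ n
    · rw [if_pos h, if_pos (this.mpr h)]; ring
    · rw [if_neg h, if_neg (fun h' => h (this.mp h'))]; ring

/-- duplication formula for `dd` -/
lemma dd_dup (h2 : 2 < p) {h : ZMod (p ^ (2:ℕ))} (hh : 2 * h = 1) (n : ℕ) :
    dd p (h * n) + dd p (h * n + h) = 2 * dd p (n : ZMod (p ^ (2:ℕ))) + 2 * Lq p 2 := by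
  have e1 := gam_dup_nat h2 hh n
  have e2 := gam_dup_nat h2 hh (n + p + p)
  rw [cntU_add_p, cntU_add_p] at e2
  have e3 : h * ((n + p + p : ℕ) : ZMod (p ^ (2:ℕ))) = h * n + P2 p := by
    unfold P2; push_cast; linear_combination (p : ZMod (p ^ (2:ℕ))) * hh
  have e4 : h * (n : ZMod (p ^ (2:ℕ))) + P2 p + h = h * n + h + P2 p := by ring
  have e5 : ((n + p + p : ℕ) : ZMod (p ^ (2:ℕ))) = n + P2 p * 2 := by
    unfold P2; push_cast; ring
  rw [e3, e4, e5, gam_add_P h2] at e2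
  have e6 : ((cntU p n + (p - 1) + (p - 1) : ℕ) : ZMod (p ^ (2:ℕ))) = cntU p n + 2 * P2 p - 2 := by
    have := hp.out.one_le
    push_cast [Nat.cast_sub this]; unfold P2; ring
  rw [e6] at e2
  unfold dd at e2 ⊢
  have e7 := P_mul_Lq (p := p) 2
  linear_combination e2 - e1 + (-2 : ZMod (p ^ (2:ℕ))) * e7

lemma dd_half (h2 : 2 < p) {h : ZMod (p ^ (2:ℕ))} (hh : 2 * h = 1) :
    dd p h = dd p 0 + 2 * Lq p 2 := by
  have := dd_dup h2 hh 0
  simp only [Nat.cast_zero, mul_zero, zero_add] at this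
  linear_combination this

/-- uses `dd (1 - x) = dd x` at `x = 1/4` -/
lemma dd_quarter (h2 : 2 < p) {q : ZMod (p ^ (2:ℕ))} (hq : 4 * q = 1) :
    dd p q = dd p 0 + 3 * Lq p 2 := by
  have hh : 2 * (2 * q) = 1 := by linear_combination hq
  have e := dd_dup h2 hh (2 * q).val
  rw [ZMod.natCast_zmod_val, dd_half h2 hh] at e
  have e1 : 2 * q * (2 * q) = q := by linear_combination q * hq
  have e2 : q + 2 * q = 1 - q := by linear_combination hq
  rw [e1, e2, dd_one_sub h2] at e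
  have : dd p q - (dd p 0 + 3 * Lq p 2) = 0 := by
    apply two_cancel h2
    linear_combination e
  linear_combination this

lemma P_harm_n (h2 : 2 < p) {n : ℕ} (hpn : p = 4 * n + 1) :
    P2 p * harm (p ^ 2) n = -(3 * Lq p 2) := by
  obtain ⟨q, hq⟩ : ∃ q : ZMod (p ^ (2:ℕ)), 4 * q = 1 := by
    have h1 : IsUnit ((4 : ℕ) : ZMod (p ^ (2:ℕ))) := isUnit_nat (p := p) dvd_rfl (by
      intro h
      have h3 : p ∣ 2 ^ 2 := by simpa using h
      have := Nat.le_of_dvd (by norm_num) (hp.out.dvd_of_dvd_pow h3)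
      omega)
    obtain ⟨u, hu⟩ := h1
    refine ⟨((u⁻¹ : (ZMod (p ^ (2:ℕ)))ˣ) : ZMod (p ^ (2:ℕ))), ?_⟩
    have := u.mul_inv
    rw [hu] at this
    exact_mod_cast this
  have e := dd_harm (p := p) h2 (n := n) (by omega)
  have e1 : P2 p = 4 * (n : ZMod (p ^ (2:ℕ))) + 1 := by
    have := congrArg (Nat.cast : ℕ → ZMod (p ^ (2:ℕ))) hpn
    push_cast at this
    exact this
  have e2 : (n : ZMod (p ^ (2:ℕ))) + 1 = 1 - q + P2 p * q := by
    rw [e1]; linear_combination (-(n : ZMod (p ^ (2:ℕ)))) * hq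
  rw [e2, dd_add_P h2, dd_one_sub h2, dd_quarter h2 hq] at e
  linear_combination e

lemma P_harm_2n (h2 : 2 < p) {n : ℕ} (hpn : p = 4 * n + 1) :
    P2 p * harm (p ^ 2) (2 * n) = -(2 * Lq p 2) := by
  obtain ⟨h, hh⟩ : ∃ q : ZMod (p ^ (2:ℕ)), 2 * q = 1 := by
    have h1 : IsUnit ((2 : ℕ) : ZMod (p ^ (2:ℕ))) := isUnit_nat (p := p) dvd_rfl (by
      intro h
      have := Nat.le_of_dvd (by norm_num) h
      omega)
    obtain ⟨u, hu⟩ := h1
    refine ⟨((u⁻¹ : (ZMod (p ^ (2:ℕ)))ˣ) : ZMod (p ^ (2:ℕ))), ?_⟩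
    have := u.mul_inv
    rw [hu] at this
    exact_mod_cast this
  have e := dd_harm (p := p) h2 (n := 2 * n) (by omega)
  have e1 : P2 p = 4 * (n : ZMod (p ^ (2:ℕ))) + 1 := by
    have := congrArg (Nat.cast : ℕ → ZMod (p ^ (2:ℕ))) hpn
    push_cast at this
    exact this
  have e2 : ((2 * n : ℕ) : ZMod (p ^ (2:ℕ))) + 1 = h + P2 p * h := by
    rw [e1]; push_cast; linear_combination (-(2 * (n : ZMod (p ^ (2:ℕ))) + 1)) * hh
  rw [e2, dd_add_P h2, dd_half h2 hh] at e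
  linear_combination e

end

end Cec
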