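import Pool.Agent.Cec.Seq
import Pool.Agent.Cec.Harm

/-!
# MP_cec948_nt: Dwork congruences for the coefficients

Proof hints.
* `dwork_mul`: multiply `(k+1)^2 a_{k+1} = (k+q)(k+h) a_k` over `k = m p, ..., m p + p - 1`; the factors
  `m p + i + q = p (m + q')`, `m p + j + h = p (m + h')`, `m p + p = p (m+1)`; induct on `m`, cancel
  `p^2 (m+1)^2` (nonzero).
* `dwork_one`: `i = n`, `j = 2n`, `q' = q`, `h' = h` (so `b = a`, a sequence with `HS` is unique or just
  take `hb = ha`).  Modulo `p^2` the products for `l` are `u_0 (1 + l p ∑ 1/r) = u_0` because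
  `∑_{r ≠ 0} 1/r = 0` modulo `p` (`sum_range_shift`, `sum_inv_zmod`); so `a (m p) = a_m Λ^m` with
  `Λ = u_0 v_0 / w_0^2 = 1 + P λ` (Wilson: `prod_range_tp` or `Gp`), `Λ^m = 1 + m P λ`.
  `Lq Λ = dd q + dd h - 2 dd 1 = 5 Lq 2` (`dd_eq_sum`, `dd_quarter`, `dd_half`), `Lq Λ = - P λ`
  (`Lq_one_add`), so `P λ = -5 Lq 2` and `32 λ + K32 = 0` modulo `p`.  The other `e_k` are defined by the
  recursion (`k + 1 < p` is a unit) and the congruence for `a (m p + k)` follows by induction on `k`.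
* `dwork_three`: `i = (3p-1)/4`, `j = (p-1)/2`, `q' = 3/4`, `h' = 1/2`; only modulo `p`.
-/

namespace Cec

open Finset SC24

section
variable {p : ℕ} [hp : Fact p.Prime]

lemma dw_HS_prod {R : Type*} [CommRing R] {q h : R} {a : ℕ → R} (ha : HS q h a) (k N : ℕ) :
    (∏ r ∈ range N, ((k : R) + (r + 1))) ^ 2 * a (k + N) =
      (∏ r ∈ range N, ((k : R) + (r + q))) * (∏ r ∈ range N, ((k : R) + (r + h))) * a k := by
  induction N with
  | zero => simp
  | succ N ih =>
    rw [prod_range_succ, prod_range_succ, prod_range_succ]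
    have h1 := ha.succ (k + N)
    push_cast at h1
    rw [show k + (N + 1) = k + N + 1 by ring]
    linear_combination (∏ r ∈ range N, ((k : R) + (r + 1))) ^ 2 * h1 +
      ((k : R) + N + q) * ((k : R) + N + h) * ih

/-- the exact product formula for `a (m p)` -/
theorem dwork_mul {q h q' h' : ℤ_[p]} {i j : ℕ} (hi : i < p) (hj : j < p) (hqi : (i : ℤ_[p]) + q = p * q')
    (hhj : (j : ℤ_[p]) + h = p * h') {a b : ℕ → ℤ_[p]} (ha : HS q h a) (hb : HS q' h' b) (m : ℕ) :
    a (m * p) * ∏ l ∈ range m, (∏ r ∈ range (p - 1), ((l : ℤ_[p]) * p + (r + 1))) ^ 2 =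
      b m * ∏ l ∈ range m, ((∏ r ∈ (range p).erase i, ((l : ℤ_[p]) * p + (r + q))) *
        ∏ r ∈ (range p).erase j, ((l : ℤ_[p]) * p + (r + h))) := by
  induction m with
  | zero => simp [ha.zero, hb.zero]
  | succ m ih =>
    rw [prod_range_succ, prod_range_succ]
    have h1 := dw_HS_prod ha (m * p) p
    push_cast at h1
    have e1 : ∏ r ∈ range p, ((m : ℤ_[p]) * p + (r + 1)) =
        (∏ r ∈ range (p - 1), ((m : ℤ_[p]) * p + (r + 1))) * (p * (m + 1)) := by
      have hpp : p = (p - 1) + 1 := by have := hp.out.pos; omega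
      have h5 : ∏ r ∈ range p, ((m : ℤ_[p]) * p + (r + 1)) =
          ∏ r ∈ range ((p - 1) + 1), ((m : ℤ_[p]) * p + (r + 1)) := by rw [← hpp]
      rw [h5, prod_range_succ]
      have h6 : ((p - 1 : ℕ) : ℤ_[p]) = p - 1 := by
        rw [Nat.cast_sub hp.out.one_le]; simp
      rw [h6]; ring
    have e2 : ∏ r ∈ range p, ((m : ℤ_[p]) * p + (r + q)) =
        (p * (m + q')) * ∏ r ∈ (range p).erase i, ((m : ℤ_[p]) * p + (r + q)) := by
      rw [← mul_prod_erase (range p) (fun r : ℕ => (m : ℤ_[p]) * p + (r + q)) (mem_range.mpr hi), hqi]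
      ring
    have e3 : ∏ r ∈ range p, ((m : ℤ_[p]) * p + (r + h)) =
        (p * (m + h')) * ∏ r ∈ (range p).erase j, ((m : ℤ_[p]) * p + (r + h)) := by
      rw [← mul_prod_erase (range p) (fun r : ℕ => (m : ℤ_[p]) * p + (r + h)) (mem_range.mpr hj), hhj]
      ring
    rw [e1, e2, e3] at h1
    have h2 := hb.succ m
    rw [show (m + 1) * p = m * p + p by ring]
    generalize (∏ r ∈ range (p - 1), ((m : ℤ_[p]) * p + (r + 1))) = W at *
    generalize (∏ r ∈ (range p).erase i, ((m : ℤ_[p]) * p + (r + q))) = U at *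
    generalize (∏ r ∈ (range p).erase j, ((m : ℤ_[p]) * p + (r + h))) = V at *
    generalize (∏ l ∈ range m, (∏ r ∈ range (p - 1), ((l : ℤ_[p]) * p + (r + 1))) ^ 2) = WW at *
    generalize (∏ l ∈ range m, ((∏ r ∈ (range p).erase i, ((l : ℤ_[p]) * p + (r + q))) *
        ∏ r ∈ (range p).erase j, ((l : ℤ_[p]) * p + (r + h)))) = UV at *
    have hp0 : (p : ℤ_[p]) ≠ 0 := by exact_mod_cast hp.out.ne_zero
    have hm0 : ((m : ℤ_[p]) + 1) ≠ 0 := by
      have : ((m + 1 : ℕ) : ℤ_[p]) ≠ 0 := Nat.cast_ne_zero.mpr (by omega)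
      simpa using this
    have hne : ((p : ℤ_[p]) * (m + 1)) ^ 2 ≠ 0 := pow_ne_zero 2 (mul_ne_zero hp0 hm0)
    apply mul_left_cancel₀ hne
    linear_combination WW * h1 + (p : ℤ_[p]) ^ 2 * (m + q') * (m + h') * U * V * ih -
      (p : ℤ_[p]) ^ 2 * UV * U * V * h2

/-- product of the units among `x, x+1, ..., x+p-1` -/
noncomputable def dwT (p : ℕ) (x : ZMod (p ^ (2:ℕ))) : ZMod (p ^ (2:ℕ)) := ∏ r ∈ range p, tt p (x + r)

lemma dwT_unit (x : ZMod (p ^ (2:ℕ))) : IsUnit (dwT p x) :=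
  IsUnit.prod_iff.mpr (fun _ _ => isUnit_tt _)

lemma dwT_Lq (h2 : 2 < p) (x : ZMod (p ^ (2:ℕ))) : Lq p (dwT p x) = dd p x := by
  unfold dwT
  rw [Lq_prod _ _ (fun _ _ => isUnit_tt _), dd_eq_sum h2]
  exact Finset.sum_congr rfl (fun r _ => Lq_tt _)

lemma dwT_red (h2 : 2 < p) (x : ZMod (p ^ (2:ℕ))) : red p (dwT p x) = -1 := by
  unfold dwT
  rw [map_prod]
  have h3 : ∀ r ∈ range p, red p (tt p (x + r)) = tp p (red p x + r) := by
    intro r _
    rw [red_tt, map_add, map_natCast]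
  rw [Finset.prod_congr rfl h3]
  have h4 := Gp_add_nat h2 (red p x) p
  have hodd : Odd p := hp.out.odd_of_ne_two (by omega)
  rw [hodd.neg_one_pow, ZMod.natCast_self, add_zero] at h4
  have h5 := Gp_ne_zero (p := p) (red p x)
  have h6 : (∏ j ∈ range p, tp p (red p x + j) + 1) * Gp p (red p x) = 0 := by
    linear_combination h4
  rcases mul_eq_zero.mp h6 with h7 | h7
  · linear_combination h7
  · exact absurd h7 h5

lemma dwT_add_P (h2 : 2 < p) (x c : ZMod (p ^ (2:ℕ))) : dwT p (x + P2 p * c) = dwT p x := by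
  apply eq_of_Lq (dwT_unit _)
  · rw [dwT_red h2, dwT_red h2]
  · rw [dwT_Lq h2, dwT_Lq h2, dd_add_P h2]

/-- product with the non-unit factor removed -/
lemma dw_erase {x : ZMod (p ^ (2:ℕ))} {i : ℕ} (hi : i < p) (hx : red p x + i = 0) :
    ∏ r ∈ (range p).erase i, (x + r) = dwT p x := by
  unfold dwT
  rw [← mul_prod_erase (range p) (fun r : ℕ => tt p (x + r)) (mem_range.mpr hi)]
  have h1 : ¬ IsUnit (x + (i : ZMod (p ^ (2:ℕ)))) := by
    rw [isUnit_add_nat, not_not]; exact hx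
  rw [tt_nonunit h1, one_mul]
  apply Finset.prod_congr rfl
  intro r hr
  rw [mem_erase, mem_range] at hr
  rw [tt_unit]
  rw [isUnit_add_nat]
  intro h3
  apply hr.1
  have h4 : ((r : ℕ) : ZMod p) = ((i : ℕ) : ZMod p) := by linear_combination h3 - hx
  rw [ZMod.natCast_eq_natCast_iff'] at h4
  rwa [Nat.mod_eq_of_lt hr.2, Nat.mod_eq_of_lt hi] at h4

lemma dw_W (m : ℕ) : ∏ r ∈ range (p - 1), ((m : ZMod (p ^ (2:ℕ))) * P2 p + (r + 1)) =
    dwT p (1 + P2 p * m) := by
  have hp1 := hp.out.pos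
  rw [← dw_erase (i := p - 1) (by omega)]
  · have h1 : (range p).erase (p - 1) = range (p - 1) := by
      ext r; rw [mem_erase, mem_range, mem_range]; omega
    rw [h1]
    apply Finset.prod_congr rfl
    intro r _; ring
  · rw [map_add, map_mul, red_P, map_one, Nat.cast_sub hp.out.one_le, ZMod.natCast_self]
    push_cast; ring

lemma dw_U {q : ZMod (p ^ (2:ℕ))} {i : ℕ} (hi : i < p) (hq : (i : ZMod p) + red p q = 0) (m : ℕ) :
    ∏ r ∈ (range p).erase i, ((m : ZMod (p ^ (2:ℕ))) * P2 p + (r + q)) = dwT p (q + P2 p * m) := by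
  rw [← dw_erase hi]
  · apply Finset.prod_congr rfl
    intro r _; ring
  · rw [map_add, map_mul, red_P]
    linear_combination hq

/-- the product formula modulo `p^2` -/
lemma dwork_sq (h2 : 2 < p) {q h q' h' : ℤ_[p]} {i j : ℕ} (hi : i < p) (hj : j < p)
    (hqi : (i : ℤ_[p]) + q = p * q') (hhj : (j : ℤ_[p]) + h = p * h') {a b : ℕ → ℤ_[p]}
    (ha : HS q h a) (hb : HS q' h' b) (m : ℕ) :
    φ2 p (a (m * p)) * (dwT p 1 ^ 2) ^ m = φ2 p (b m) * (dwT p (φ2 p q) * dwT p (φ2 p h)) ^ m := by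
  have h1 := congrArg (φ2 p) (dwork_mul hi hj hqi hhj ha hb m)
  simp only [map_mul, map_prod, map_pow, map_add, map_natCast, map_one] at h1
  have hq' : (i : ZMod p) + red p (φ2 p q) = 0 := by
    have h5 := congrArg (fun x => red p (φ2 p x)) hqi
    simp only [map_add, map_mul, map_natCast, ZMod.natCast_self, zero_mul] at h5
    exact h5
  have hh' : (j : ZMod p) + red p (φ2 p h) = 0 := by
    have h5 := congrArg (fun x => red p (φ2 p x)) hhj
    simp only [map_add, map_mul, map_natCast, ZMod.natCast_self, zero_mul] at h5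
    exact h5
  have e1 : ∀ l ∈ range m, (∏ r ∈ range (p - 1), ((l : ZMod (p ^ (2:ℕ))) * (p : ZMod (p ^ (2:ℕ))) + (r + 1))) ^ 2
      = dwT p 1 ^ 2 := by
    intro l _
    have := dw_W (p := p) l
    rw [dwT_add_P h2] at this
    rw [← this]
  have e2 : ∀ l ∈ range m,
      (∏ r ∈ (range p).erase i, ((l : ZMod (p ^ (2:ℕ))) * (p : ZMod (p ^ (2:ℕ))) + (r + φ2 p q))) *
      (∏ r ∈ (range p).erase j, ((l : ZMod (p ^ (2:ℕ))) * (p : ZMod (p ^ (2:ℕ))) + (r + φ2 p h)))
      = dwT p (φ2 p q) * dwT p (φ2 p h) := by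
    intro l _
    have h5 := dw_U hi hq' l
    have h6 := dw_U hj hh' l
    rw [dwT_add_P h2] at h5 h6
    rw [← h5, ← h6]
  rw [Finset.prod_congr rfl e1, Finset.prod_congr rfl e2, prod_const, prod_const, card_range] at h1
  exact h1

omit hp in
lemma dw_pow_one_add (c : ZMod (p ^ (2:ℕ))) (n : ℕ) : (1 + P2 p * c) ^ n = 1 + P2 p * n * c := by
  induction n with
  | zero => simp
  | succ n ih =>
    rw [pow_succ (1 + P2 p * c) n, ih]; push_cast
    linear_combination (n : ZMod (p ^ (2:ℕ))) * c * c * P2_mul_self p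

lemma dw_red_of_P_mul {x : ZMod (p ^ (2:ℕ))} (h : P2 p * x = 0) : red p x = 0 := by
  have h1 : x = ((x.val : ℕ) : ZMod (p ^ (2:ℕ))) := (ZMod.natCast_zmod_val x).symm
  rw [h1, P2, ← Nat.cast_mul, ZMod.natCast_eq_zero_iff] at h
  have h3 : p * p ∣ p * x.val := (dvd_of_eq (pow_two p).symm).trans h
  rw [h1, map_natCast, ZMod.natCast_eq_zero_iff]
  exact Nat.dvd_of_mul_dvd_mul_left hp.out.pos h3

lemma dw_unit_nat {k : ℕ} (hk : k + 1 < p) : IsUnit ((k : ZMod (p ^ (2:ℕ))) + 1) := by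
  have : IsUnit ((k + 1 : ℕ) : ZMod (p ^ (2:ℕ))) := isUnit_nat dvd_rfl (by
    intro h; exact absurd (Nat.le_of_dvd (by omega) h) (by omega))
  simpa using this

/-- the derivatives `e_k`, defined by the recursion -/
noncomputable def dwE (p : ℕ) (q h l : ZMod (p ^ (2:ℕ))) (a : ℕ → ZMod (p ^ (2:ℕ))) : ℕ → ZMod (p ^ (2:ℕ))
  | 0 => l
  | k + 1 => (((k : ZMod (p ^ (2:ℕ))) + 1) ^ 2)⁻¹ * ((k + q) * (k + h) * dwE p q h l a k +
      (2 * k + q + h) * a k - 2 * ((k : ZMod (p ^ (2:ℕ))) + 1) * a (k + 1))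

lemma dwE_succ {q h l : ZMod (p ^ (2:ℕ))} {a : ℕ → ZMod (p ^ (2:ℕ))} {k : ℕ} (hk : k + 1 < p) :
    ((k : ZMod (p ^ (2:ℕ))) + 1) ^ 2 * dwE p q h l a (k + 1) + 2 * ((k : ZMod (p ^ (2:ℕ))) + 1) * a (k + 1) =
      (k + q) * (k + h) * dwE p q h l a k + (2 * k + q + h) * a k := by
  have hu : IsUnit (((k : ZMod (p ^ (2:ℕ))) + 1) ^ 2) := (dw_unit_nat hk).pow 2
  have h1 := ZMod.mul_inv_of_unit _ hu
  rw [dwE]
  linear_combination ((k + q) * (k + h) * dwE p q h l a k +
      (2 * k + q + h) * a k - 2 * ((k : ZMod (p ^ (2:ℕ))) + 1) * a (k + 1)) * h1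

theorem dwork_one (h5 : 5 < p) {n : ℕ} (hpn : p = 4 * n + 1) {q h : ℤ_[p]} (hq : 4 * q = 1) (hh : 2 * h = 1)
    {a : ℕ → ℤ_[p]} (ha : HS q h a) : ∃ e : ℕ → ZMod (p ^ (2:ℕ)),
    (∀ m k, k < p → φ2 p (a (m * p + k)) = φ2 p (a m) * (φ2 p (a k) + P2 p * m * e k)) ∧
    32 * red p (e 0) + (K32 p : ZMod p) = 0 ∧
    (∀ k, k + 1 < p → ((k : ZMod p) + 1) ^ 2 * red p (e (k + 1)) +
      2 * ((k : ZMod p) + 1) * red p (φ2 p (a (k + 1))) =
      (k + red p (φ2 p q)) * (k + red p (φ2 p h)) * red p (e k) +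
        (2 * k + red p (φ2 p q) + red p (φ2 p h)) * red p (φ2 p (a k))) := by
  have h2 : 2 < p := by omega
  have hqi : (n : ℤ_[p]) + q = p * q := by
    have h4 : (4 : ℤ_[p]) ≠ 0 := by norm_num
    apply mul_left_cancel₀ h4
    have : (p : ℤ_[p]) = 4 * n + 1 := by
      have := congrArg (fun x : ℕ => (x : ℤ_[p])) hpn
      push_cast at this
      exact this
    rw [this]
    linear_combination (1 - (4 * (n : ℤ_[p]) + 1)) * hq
  have hhj : ((2 * n : ℕ) : ℤ_[p]) + h = p * h := by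
    have h4 : (2 : ℤ_[p]) ≠ 0 := by norm_num
    apply mul_left_cancel₀ h4
    have : (p : ℤ_[p]) = 4 * n + 1 := by
      have := congrArg (fun x : ℕ => (x : ℤ_[p])) hpn
      push_cast at this
      exact this
    rw [this]
    push_cast
    linear_combination (1 - (4 * (n : ℤ_[p]) + 1)) * hh
  have hqz : 4 * φ2 p q = 1 := by
    have := congrArg (φ2 p) hq
    rwa [map_mul, map_ofNat, map_one] at this
  have hhz : 2 * φ2 p h = 1 := by
    have := congrArg (φ2 p) hh
    rwa [map_mul, map_ofNat, map_one] at this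
  have hsq := dwork_sq h2 (i := n) (j := 2 * n) (by omega) (by omega) hqi hhj ha ha
  -- the constant
  have hu1 : IsUnit (dwT p (1 : ZMod (p ^ (2:ℕ))) ^ 2) := (dwT_unit _).pow 2
  set Λ : ZMod (p ^ (2:ℕ)) := dwT p (φ2 p q) * dwT p (φ2 p h) * (dwT p 1 ^ 2)⁻¹ with hΛ
  have hΛ1 : Λ * dwT p 1 ^ 2 = dwT p (φ2 p q) * dwT p (φ2 p h) := by
    have := ZMod.mul_inv_of_unit _ hu1
    rw [hΛ]
    linear_combination (dwT p (φ2 p q) * dwT p (φ2 p h)) * this
  have hLΛ : Lq p Λ = 5 * Lq p 2 := by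
    rw [hΛ, Lq_mul ((dwT_unit _).mul (dwT_unit _)) (isUnit_inv' hu1), Lq_mul (dwT_unit _) (dwT_unit _),
      Lq_inv hu1, Lq_pow (dwT_unit _), dwT_Lq h2, dwT_Lq h2, dwT_Lq h2, dd_quarter h2 hqz,
      dd_half h2 hhz, dd_one h2]
    push_cast; ring
  have hrΛ : red p Λ = 1 := by
    have h6 := congrArg (red p) hΛ1
    simp only [map_mul, map_pow, dwT_red h2] at h6
    linear_combination h6
  obtain ⟨l, hl⟩ := exists_P_of_red (x := Λ - 1) (by rw [map_sub, hrΛ, map_one, sub_self])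
  have hΛl : Λ = 1 + P2 p * l := by linear_combination hl
  have hPl : P2 p * l = -(5 * Lq p 2) := by
    have h6 := Lq_one_add (p := p) l
    rw [← hΛl, hLΛ] at h6
    linear_combination h6
  have hap : ∀ m, φ2 p (a (m * p)) = φ2 p (a m) * (1 + P2 p * m * l) := by
    intro m
    have h6 := hsq m
    rw [← hΛ1, mul_pow, hΛl, dw_pow_one_add, ← mul_assoc] at h6
    exact (hu1.pow m).mul_right_cancel h6
  refine ⟨dwE p (φ2 p q) (φ2 p h) l (fun k => φ2 p (a k)), ?_, ?_, ?_⟩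
  · intro m k
    induction k with
    | zero =>
      intro _
      rw [add_zero, hap m, ha.zero, map_one]
      rfl
    | succ k ih =>
      intro hk
      have h6 := ih (by omega)
      have h7 := (ha.map (φ2 p)).succ (m * p + k)
      have h8 := (ha.map (φ2 p)).succ k
      have h9 := dwE_succ (q := φ2 p q) (h := φ2 p h) (l := l) (a := fun k => φ2 p (a k)) hk
      beta_reduce at h7 h8 h9
      generalize dwE p (φ2 p q) (φ2 p h) l (fun k => φ2 p (a k)) k = ek at *
      generalize dwE p (φ2 p q) (φ2 p h) l (fun k => φ2 p (a k)) (k + 1) = ek1 at *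
      push_cast at h7
      rw [h6] at h7
      rw [show m * p + (k + 1) = m * p + k + 1 by ring]
      have hu : IsUnit (((m : ZMod (p ^ (2:ℕ))) * p + k + 1) ^ 2) := by
        have h10 := isUnit_add_P ((k : ZMod (p ^ (2:ℕ))) + 1) (m : ZMod (p ^ (2:ℕ)))
        have h11 := h10.mpr (dw_unit_nat hk)
        rw [show (m : ZMod (p ^ (2:ℕ))) * p + k + 1 = (k : ZMod (p ^ (2:ℕ))) + 1 + P2 p * m by
          unfold P2; ring]
        exact h11.pow 2
      apply hu.mul_left_cancel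
      rw [h7]
      have hP : ((p : ℕ) : ZMod (p ^ (2:ℕ))) * (p : ℕ) = 0 := P2_mul_self p
      unfold P2
      generalize φ2 p (a m) = am at *
      generalize φ2 p (a k) = ak at *
      generalize φ2 p (a (k + 1)) = ak1 at *
      generalize φ2 p q = qq at *
      generalize φ2 p h = hhh at *
      generalize ((p : ℕ) : ZMod (p ^ (2:ℕ))) = P at *
      linear_combination (-am) * h8 - am * P * m * h9 +
        am * (m : ZMod (p ^ (2:ℕ))) ^ 2 * (ak + m * P * ek + (2 * k + qq + hhh) * ek - ak1 -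
          m * P * ek1 - 2 * (k + 1) * ek1) * hP
  · show 32 * red p l + (K32 p : ZMod p) = 0
    have h32 : (K32 p) * (p : ℤ) = (32 : ℤ) ^ p - 32 := by
      unfold K32
      apply Int.ediv_mul_cancel
      have h6 : (((32 : ℤ) ^ p - 32 : ℤ) : ZMod p) = 0 := by
        push_cast
        rw [ZMod.pow_card, sub_self]
      rwa [ZMod.intCast_zmod_eq_zero_iff_dvd] at h6
    have h7 := congrArg (fun x : ℤ => (x : ZMod (p ^ (2:ℕ)))) h32
    push_cast at h7
    have hu32 : IsUnit (2 : ZMod (p ^ (2:ℕ))) := isUnit_two h2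
    have h8 : (32 : ZMod (p ^ (2:ℕ))) ^ (p - 1) - 1 = 5 * Lq p 2 := by
      have h9 := Lq_pow hu32 5
      rw [show (2 : ZMod (p ^ (2:ℕ))) ^ 5 = 32 by norm_num, Lq_unit (by
        rw [show (32 : ZMod (p ^ (2:ℕ))) = 2 ^ 5 by norm_num]; exact hu32.pow 5)] at h9
      rw [h9]; push_cast; ring
    have h10 : (32 : ZMod (p ^ (2:ℕ))) ^ p = 32 ^ (p - 1) * 32 := by
      rw [← pow_succ]; congr 1; omega
    have h11 : P2 p * (32 * l + (K32 p : ZMod (p ^ (2:ℕ)))) = 0 := by
      rw [h10] at h7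
      unfold P2 at *
      linear_combination 32 * hPl + h7 + 32 * h8
    have h12 := dw_red_of_P_mul h11
    rw [map_add, map_mul, map_intCast, map_ofNat] at h12
    exact h12
  · intro k hk
    have h9 := dwE_succ (q := φ2 p q) (h := φ2 p h) (l := l) (a := fun k => φ2 p (a k)) hk
    have h10 := congrArg (red p) h9
    simp only [map_add, map_mul, map_pow, map_natCast, map_one, map_ofNat] at h10
    exact h10

theorem dwork_three (h3 : 3 < p) (hp4 : p % 4 = 3) {q h q' : ℤ_[p]} (hq : 4 * q = 1) (hh : 2 * h = 1)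
    (hq' : 4 * q' = 3) {a b : ℕ → ℤ_[p]} (ha : HS q h a) (hb : HS q' h b) (m k : ℕ) (hk : k < p) :
    red p (φ2 p (a (m * p + k))) = red p (φ2 p (b m)) * red p (φ2 p (a k)) := by
  have h2 : 2 < p := by omega
  have hqi : (((3 * p - 1) / 4 : ℕ) : ℤ_[p]) + q = p * q' := by
    have h4 : (4 : ℤ_[p]) ≠ 0 := by norm_num
    apply mul_left_cancel₀ h4
    have h6 : 4 * ((3 * p - 1) / 4) + 1 = 3 * p := by omega
    have h7 := congrArg (fun x : ℕ => (x : ℤ_[p])) h6
    push_cast at h7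
    linear_combination h7 + hq - (p : ℤ_[p]) * hq'
  have hhj : (((p - 1) / 2 : ℕ) : ℤ_[p]) + h = p * h := by
    have h4 : (2 : ℤ_[p]) ≠ 0 := by norm_num
    apply mul_left_cancel₀ h4
    have h6 : 2 * ((p - 1) / 2) + 1 = p := by omega
    have h7 := congrArg (fun x : ℕ => (x : ℤ_[p])) h6
    push_cast at h7
    linear_combination h7 + hh - (p : ℤ_[p]) * hh
  have hsq := dwork_sq h2 (i := (3 * p - 1) / 4) (j := (p - 1) / 2) (by omega) (by omega) hqi hhj ha hb m
  have hap : red p (φ2 p (a (m * p))) = red p (φ2 p (b m)) := by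
    have h6 := congrArg (red p) hsq
    simp only [map_mul, map_pow, dwT_red h2] at h6
    have h7 : ((-1 : ZMod p) ^ 2) = 1 := by ring
    have h8 : ((-1 : ZMod p) * -1) = 1 := by ring
    rw [h7, h8, one_pow, mul_one, mul_one] at h6
    exact h6
  induction k with
  | zero => rw [add_zero, hap, ha.zero, map_one, map_one, mul_one]
  | succ k ih =>
    have h6 := ih (by omega)
    have h7 := ((ha.map (φ2 p)).map (red p)).succ (m * p + k)
    have h8 := ((ha.map (φ2 p)).map (red p)).succ k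
    beta_reduce at h7 h8
    push_cast at h7
    rw [ZMod.natCast_self, mul_zero, zero_add] at h7
    rw [show m * p + (k + 1) = m * p + k + 1 by ring]
    have hne : ((k : ZMod p) + 1) ^ 2 ≠ 0 := by
      have h9 := (isUnit_iff_red _).mp (dw_unit_nat hk)
      rw [map_add, map_natCast, map_one] at h9
      exact pow_ne_zero 2 h9
    apply mul_left_cancel₀ hne
    rw [h7, h6]
    linear_combination (-red p (φ2 p (b m))) * h8

end

end Cec
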