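import Pool.Agent.Cec.Defs

/-!
# MP_cec948_nt: the 5-isogeny as an identity between power series

`θ = X d/dX`, `A = X+1`, `B = X+5`, `C = X^2-4X+5`, `D = X^2+4X+5`, `s = 1-X`, `r = 5-X`.
-/

namespace Cec

open PowerSeries Finset

noncomputable section

section
variable {K : Type*} [CommRing K]

/-- `z F'(z)` -/
theorem fe_shift (b : ℕ → K) {z : K⟦X⟧} (hz : X ∣ z) :
    z * cmp (dsq b) z = cmp (fun k => (k : K) * b k) z := by
  rw [cmp_shift _ hz]
  congr 1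
  funext k
  cases k with
  | zero => simp
  | succ k => simp [dsq]

theorem fe_theta {q h : K} {a : ℕ → K} (ha : HS q h a) {z E W : K⟦X⟧} (hz : X ∣ z)
    (hw : E * (X * d⁄dX K z) = W * z) {c1 c0 : ℕ} (hc1 : 8 * (q + h) = c1) (hc0 : 8 * (q * h) = c0) :
    ∃ G1 G2 : K⟦X⟧, E * (X * d⁄dX K (cmp a z)) = W * G1 ∧ E * (X * d⁄dX K G1) = W * G2 ∧
      8 * G2 = z * (8 * G2 + (c1 : K⟦X⟧) * G1 + (c0 : K⟦X⟧) * cmp a z) := by
  refine ⟨cmp (fun k => (k : K) * a k) z, cmp (fun k => (k : K) * ((k : K) * a k)) z, ?_, ?_, ?_⟩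
  · rw [← fe_shift a hz, cmp_deriv a hz]
    linear_combination (cmp (dsq a) z) * hw
  · rw [← fe_shift (fun k => (k : K) * a k) hz, cmp_deriv _ hz]
    linear_combination (cmp (dsq (fun k => (k : K) * a k)) z) * hw
  · have h8 : (8 : K⟦X⟧) = C (8 : K) := (map_ofNat C 8).symm
    have hcc1 : (c1 : K⟦X⟧) = C (c1 : K) := by simp
    have hcc0 : (c0 : K⟦X⟧) = C (c0 : K) := by simp
    have e1 : 8 * cmp (fun k => (k : K) * ((k : K) * a k)) z =
        cmp (fun k => 8 * ((k : K) * ((k : K) * a k))) z := by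
      rw [h8, ← cmp_smul]
    have e2 : (c1 : K⟦X⟧) * cmp (fun k => (k : K) * a k) z = cmp (fun k => (c1 : K) * ((k : K) * a k)) z := by
      rw [hcc1, ← cmp_smul]
    have e3 : (c0 : K⟦X⟧) * cmp a z = cmp (fun k => (c0 : K) * a k) z := by
      rw [hcc0, ← cmp_smul]
    rw [e1, e2, e3, ← cmp_add, ← cmp_add, cmp_shift _ hz]
    congr 1
    funext k
    cases k with
    | zero => simp
    | succ k =>
      have := ha.succ k
      push_cast
      rw [← hc1, ← hc0]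
      linear_combination 8 * this

end

variable {K : Type*} [CommRing K] [IsDomain K] [CharZero K]

/-- uniqueness for `α θ²y + β θy + γ y = 0` -/
theorem ode_unique {α β γ y : K⟦X⟧} (hα : constantCoeff α ≠ 0) (hβ : X ∣ β) (hγ : X ∣ γ)
    (h : α * (X * d⁄dX K (X * d⁄dX K y)) + β * (X * d⁄dX K y) + γ * y = 0) (h0 : constantCoeff y = 0) :
    y = 0 := by
  have key : ∀ M : ℕ, X ^ (M + 1) ∣ y := by
    intro M
    induction M with
    | zero => rw [zero_add, pow_one]; exact PowerSeries.X_dvd_iff.mpr h0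
    | succ M ih =>
      obtain ⟨g, hg⟩ := ih
      have hX : d⁄dX K (X : K⟦X⟧) = 1 := PowerSeries.derivative_X
      have hp : ∀ f : K⟦X⟧, X * d⁄dX K (X ^ (M + 1) * f) =
          X ^ (M + 1) * (((M : K⟦X⟧) + 1) * f + X * d⁄dX K f) := by
        intro f
        rw [Derivation.leibniz, Derivation.leibniz_pow, hX]
        simp only [smul_eq_mul, nsmul_eq_mul, Nat.add_sub_cancel]
        push_cast
        ring
      rw [hg, hp, hp] at h
      have h1 : X ^ (M + 1) * (α * (((M : K⟦X⟧) + 1) * (((M : K⟦X⟧) + 1) * g + X * d⁄dX K g) +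
          X * d⁄dX K (((M : K⟦X⟧) + 1) * g + X * d⁄dX K g)) +
          β * (((M : K⟦X⟧) + 1) * g + X * d⁄dX K g) + γ * g) = 0 := by
        linear_combination h
      have h2 := (mul_eq_zero.mp h1).resolve_left (pow_ne_zero _ PowerSeries.X_ne_zero)
      have h3 := congrArg constantCoeff h2
      simp only [map_add, map_mul, PowerSeries.constantCoeff_X, zero_mul, map_natCast, map_one,
        add_zero, PowerSeries.X_dvd_iff.mp hβ, PowerSeries.X_dvd_iff.mp hγ, map_zero] at h3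
      have h4 : ((M : K) + 1) ≠ 0 := by exact_mod_cast Nat.succ_ne_zero M
      have h5 : constantCoeff g = 0 := by
        rcases mul_eq_zero.mp h3 with h6 | h6
        · exact absurd h6 hα
        · rcases mul_eq_zero.mp h6 with h7 | h7
          · exact absurd h7 h4
          · rcases mul_eq_zero.mp h7 with h8 | h8
            · exact absurd h8 h4
            · exact h8
      obtain ⟨g', hg'⟩ := PowerSeries.X_dvd_iff.mpr h5
      exact ⟨g', by rw [hg, hg']; ring⟩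
  ext m
  exact PowerSeries.X_pow_dvd_iff.mp (key m) m (by omega)

set_option linter.unusedSectionVars false

/-- the operator `θ` -/
def fth (f : K⟦X⟧) : K⟦X⟧ := X * d⁄dX K f

theorem fth_add (f g : K⟦X⟧) : fth (f + g) = fth f + fth g := by
  unfold fth; rw [map_add]; ring

theorem fth_sub (f g : K⟦X⟧) : fth (f - g) = fth f - fth g := by
  unfold fth; rw [map_sub]; ring

theorem fth_mul (f g : K⟦X⟧) : fth (f * g) = fth f * g + f * fth g := by
  unfold fth; rw [Derivation.leibniz]; simp only [smul_eq_mul]; ring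

theorem fth_X : fth (X : K⟦X⟧) = X := by
  unfold fth; rw [PowerSeries.derivative_X]; ring

theorem fth_nat (n : ℕ) : fth (n : K⟦X⟧) = 0 := by
  unfold fth
  rw [Derivation.map_natCast]; ring

theorem fth_ofNat (n : ℕ) [n.AtLeastTwo] : fth (OfNat.ofNat n : K⟦X⟧) = 0 := by
  have := fth_nat (K := K) (OfNat.ofNat n)
  rwa [Nat.cast_ofNat] at this

theorem fth_one : fth (1 : K⟦X⟧) = 0 := by
  have := fth_nat (K := K) 1
  rwa [Nat.cast_one] at this

theorem fth_pow (f : K⟦X⟧) (n : ℕ) : fth (f ^ n) = n * f ^ (n - 1) * fth f := by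
  unfold fth
  rw [Derivation.leibniz_pow]
  simp only [smul_eq_mul, nsmul_eq_mul]
  ring

/-- the equation of `F(z1)` -/
theorem fe_ode1 {q h : K} {a : ℕ → K} (ha : HS q h a) {c1 c0 : ℕ} (hc1 : 8 * (q + h) = c1)
    (hc0 : 8 * (q * h) = c0) {z : K⟦X⟧}
    (h1 : z * ((X + 1) ^ 4 * (X ^ 2 - 4 * X + 5)) = 32 * X) {E D s : K⟦X⟧}
    (hE : E = (X + 1) * (X ^ 2 - 4 * X + 5)) (hD : D = X ^ 2 + 4 * X + 5) (hs : s = 1 - X) :
    s * D * E ^ 2 * fth (fth (cmp a z)) + D * E * (s * (3 * X ^ 3 - 6 * X ^ 2 + X) + 3 * X * E) * fth (cmp a z) =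
      20 * (c1 : K⟦X⟧) * X * E * fth (cmp a z) + 100 * (c0 : K⟦X⟧) * X * s ^ 3 * cmp a z := by
  have hc : (5 : K) ≠ 0 := by norm_num
  have hz : X ∣ z := by
    rw [PowerSeries.X_dvd_iff]
    have := congrArg constantCoeff h1
    simp only [map_mul, map_pow, map_add, map_sub, PowerSeries.constantCoeff_X, map_one, map_ofNat] at this
    have h5 : constantCoeff z * 5 = 0 := by linear_combination this
    exact (mul_eq_zero.mp h5).resolve_right hc
  have hA0 : (X + 1 : K⟦X⟧) ≠ 0 := by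
    intro h
    have := congrArg constantCoeff h
    simp at this
  have hs0 : s ≠ 0 := by
    intro h
    rw [hs] at h
    have := congrArg constantCoeff h
    simp at this
  -- logarithmic derivative of `z`
  have hth := congrArg fth h1
  have hXX := fth_X (K := K)
  have hth1 : fth z * ((X + 1) ^ 4 * (X ^ 2 - 4 * X + 5)) +
      z * (4 * (X + 1) ^ 3 * X * (X ^ 2 - 4 * X + 5) + (X + 1) ^ 4 * (2 * X ^ 2 - 4 * X)) = 32 * X := by
    rw [fth_mul, fth_mul, fth_mul, fth_pow, fth_add, fth_add, fth_sub, fth_mul, fth_pow, fth_X, fth_one,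
      fth_ofNat, fth_ofNat, fth_ofNat] at hth
    push_cast at hth
    linear_combination hth
  have hw0 : (X + 1) ^ 3 * (E * fth z) = (X + 1) ^ 3 * (5 * s ^ 3 * z) := by
    rw [hE, hs]
    linear_combination hth1 - h1
  have hw : E * (X * d⁄dX K z) = 5 * s ^ 3 * z := mul_left_cancel₀ (pow_ne_zero 3 hA0) hw0
  obtain ⟨G1, G2, g1, g2, g3⟩ := fe_theta ha hz hw hc1 hc0
  have e3 : 8 * s ^ 4 * D * G2 = 32 * X * ((c1 : K⟦X⟧) * G1 + (c0 : K⟦X⟧) * cmp a z) := by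
    rw [hs, hD]
    linear_combination ((X + 1) ^ 4 * (X ^ 2 - 4 * X + 5)) * g3 + (8 * G2 + (c1 : K⟦X⟧) * G1 + (c0 : K⟦X⟧) * cmp a z) * h1
  have e1 : E * fth (cmp a z) = 5 * s ^ 3 * G1 := g1
  have e2 : E * fth G1 = 5 * s ^ 3 * G2 := g2
  have hthE : fth E = 3 * X ^ 3 - 6 * X ^ 2 + X := by
    rw [hE]
    rw [fth_mul, fth_add, fth_add, fth_sub, fth_mul, fth_pow, fth_X, fth_one, fth_ofNat, fth_ofNat]
    push_cast
    ring
  have hths : fth s = -X := by rw [hs, fth_sub, fth_X, fth_one]; ring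
  have e4 := congrArg fth e1
  rw [fth_mul, fth_mul, fth_mul, fth_pow, hthE, hths, fth_ofNat] at e4
  push_cast at e4
  apply mul_left_cancel₀ (pow_ne_zero 6 hs0)
  apply mul_left_cancel₀ (show (40 : K⟦X⟧) ≠ 0 by
    intro h
    have := congrArg constantCoeff h
    simp only [map_ofNat, map_zero] at this
    exact absurd this (by norm_num))
  generalize fth (fth (cmp a z)) = T2 at *
  generalize fth (cmp a z) = T1 at *
  generalize cmp a z = F at *
  generalize fth G1 = U at *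
  linear_combination (40 * s ^ 7 * D * E) * e4 + (120 * s ^ 6 * D * X * E - 800 * X * s ^ 6 * (c1 : K⟦X⟧)) * e1 +
    200 * s ^ 10 * D * e2 + 125 * s ^ 9 * e3

/-- the equation of `F(z2)` -/
theorem fe_ode2 {q h : K} {a : ℕ → K} (ha : HS q h a) {c1 c0 : ℕ} (hc1 : 8 * (q + h) = c1)
    (hc0 : 8 * (q * h) = c0) {z : K⟦X⟧}
    (h1 : z * ((X + 5) ^ 4 * (X ^ 2 - 4 * X + 5)) = 32 * X ^ 5) {E D r : K⟦X⟧}
    (hE : E = (X + 5) * (X ^ 2 - 4 * X + 5)) (hD : D = X ^ 2 + 4 * X + 5) (hr : r = 5 - X) :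
    r * D * E ^ 2 * fth (fth (cmp a z)) + D * E * (r * (3 * X ^ 3 + 2 * X ^ 2 - 15 * X) + 3 * X * E) *
      fth (cmp a z) =
      4 * (c1 : K⟦X⟧) * X ^ 5 * E * fth (cmp a z) + 4 * (c0 : K⟦X⟧) * X ^ 5 * r ^ 3 * cmp a z := by
  have hc : (3125 : K) ≠ 0 := by norm_num
  have hz : X ∣ z := by
    rw [PowerSeries.X_dvd_iff]
    have := congrArg constantCoeff h1
    simp only [map_mul, map_pow, map_add, map_sub, PowerSeries.constantCoeff_X, map_ofNat] at this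
    have h5 : constantCoeff z * 3125 = 0 := by linear_combination this
    exact (mul_eq_zero.mp h5).resolve_right hc
  have hA0 : (X + 5 : K⟦X⟧) ≠ 0 := by
    intro h
    have := congrArg constantCoeff h
    simp only [map_add, PowerSeries.constantCoeff_X, map_ofNat, map_zero, zero_add] at this
    exact absurd this (by norm_num)
  have hs0 : r ≠ 0 := by
    intro h
    rw [hr] at h
    have := congrArg constantCoeff h
    simp only [map_sub, PowerSeries.constantCoeff_X, map_ofNat, map_zero, sub_zero] at this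
    exact absurd this (by norm_num)
  -- logarithmic derivative of `z`
  have hth := congrArg fth h1
  have hth1 : fth z * ((X + 5) ^ 4 * (X ^ 2 - 4 * X + 5)) +
      z * (4 * (X + 5) ^ 3 * X * (X ^ 2 - 4 * X + 5) + (X + 5) ^ 4 * (2 * X ^ 2 - 4 * X)) = 160 * X ^ 5 := by
    rw [fth_mul, fth_mul, fth_mul, fth_pow, fth_add, fth_add, fth_sub, fth_mul, fth_pow, fth_pow, fth_X,
      fth_ofNat, fth_ofNat, fth_ofNat] at hth
    push_cast at hth
    linear_combination hth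
  have hw0 : (X + 5) ^ 3 * (E * fth z) = (X + 5) ^ 3 * (r ^ 3 * z) := by
    rw [hE, hr]
    linear_combination hth1 - 5 * h1
  have hw : E * (X * d⁄dX K z) = r ^ 3 * z := mul_left_cancel₀ (pow_ne_zero 3 hA0) hw0
  obtain ⟨G1, G2, g1, g2, g3⟩ := fe_theta ha hz hw hc1 hc0
  have e3 : 8 * r ^ 4 * D * G2 = 32 * X ^ 5 * ((c1 : K⟦X⟧) * G1 + (c0 : K⟦X⟧) * cmp a z) := by
    rw [hr, hD]
    linear_combination ((X + 5) ^ 4 * (X ^ 2 - 4 * X + 5)) * g3 +
      (8 * G2 + (c1 : K⟦X⟧) * G1 + (c0 : K⟦X⟧) * cmp a z) * h1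
  have e1 : E * fth (cmp a z) = r ^ 3 * G1 := g1
  have e2 : E * fth G1 = r ^ 3 * G2 := g2
  have hthE : fth E = 3 * X ^ 3 + 2 * X ^ 2 - 15 * X := by
    rw [hE]
    rw [fth_mul, fth_add, fth_add, fth_sub, fth_mul, fth_pow, fth_X, fth_ofNat, fth_ofNat]
    push_cast
    ring
  have hths : fth r = -X := by rw [hr, fth_sub, fth_X, fth_ofNat]; ring
  have e4 := congrArg fth e1
  rw [fth_mul, fth_mul, fth_pow, hthE, hths] at e4
  push_cast at e4
  apply mul_left_cancel₀ (pow_ne_zero 6 hs0)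
  apply mul_left_cancel₀ (show (8 : K⟦X⟧) ≠ 0 by
    intro h
    have := congrArg constantCoeff h
    simp only [map_ofNat, map_zero] at this
    exact absurd this (by norm_num))
  generalize fth (fth (cmp a z)) = T2 at *
  generalize fth (cmp a z) = T1 at *
  generalize cmp a z = F at *
  generalize fth G1 = U at *
  linear_combination (8 * r ^ 7 * D * E) * e4 + (24 * r ^ 6 * D * X * E - 32 * X ^ 5 * r ^ 6 * (c1 : K⟦X⟧)) * e1 +
    8 * r ^ 10 * D * e2 + r ^ 9 * e3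

theorem fe1 {q h : K} (hq : 4 * q = 1) (hh : 2 * h = 1) {a : ℕ → K} (ha : HS q h a) {z1 z2 : K⟦X⟧}
    (h1 : z1 * ((X + 1) ^ 4 * (X ^ 2 - 4 * X + 5)) = 32 * X)
    (h2 : z2 * ((X + 5) ^ 4 * (X ^ 2 - 4 * X + 5)) = 32 * X ^ 5) :
    (X + 5) * cmp a z1 = 5 * (X + 1) * cmp a z2 := by
  have hc1 : 8 * (q + h) = (6 : ℕ) := by push_cast; linear_combination 2 * hq + 4 * hh
  have hc0 : 8 * (q * h) = (1 : ℕ) := by push_cast; linear_combination 2 * h * hq + hh
  have o1 := fe_ode1 ha hc1 hc0 h1 rfl rfl rfl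
  have o2 := fe_ode2 ha hc1 hc0 h2 rfl rfl rfl
  push_cast at o1 o2
  have hs0 : (1 - X : K⟦X⟧) ≠ 0 := by
    intro h
    have := congrArg constantCoeff h
    simp at this
  have hr0 : (5 - X : K⟦X⟧) ≠ 0 := by
    intro h
    have := congrArg constantCoeff h
    simp only [map_sub, PowerSeries.constantCoeff_X, map_ofNat, map_zero, sub_zero] at this
    exact absurd this (by norm_num)
  have p1 : (X ^ 2 + 4 * X + 5) * ((X + 1) * (X ^ 2 - 4 * X + 5)) ^ 2 * fth (fth (cmp a z1)) +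
      4 * X * (X ^ 2 + X - 10) * ((X + 1) * (X ^ 2 - 4 * X + 5)) * fth (cmp a z1) -
      100 * X * (1 - X) ^ 2 * cmp a z1 = 0 := by
    apply (mul_eq_zero.mp _).resolve_left hs0
    linear_combination o1
  have p2 : (X ^ 2 + 4 * X + 5) * ((X + 5) * (X ^ 2 - 4 * X + 5)) ^ 2 * fth (fth (cmp a z2)) +
      4 * X ^ 2 * (2 * X ^ 2 - X - 5) * ((X + 5) * (X ^ 2 - 4 * X + 5)) * fth (cmp a z2) -
      4 * X ^ 5 * (5 - X) ^ 2 * cmp a z2 = 0 := by
    apply (mul_eq_zero.mp _).resolve_left hr0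
    linear_combination o2
  have hd1 : fth ((X + 5) * cmp a z1 - 5 * (X + 1) * cmp a z2) =
      X * cmp a z1 + (X + 5) * fth (cmp a z1) - 5 * X * cmp a z2 - 5 * (X + 1) * fth (cmp a z2) := by
    rw [fth_sub, fth_mul, fth_mul, fth_mul, fth_add, fth_add, fth_X, fth_one, fth_ofNat]
    ring
  have hd2 : fth (fth ((X + 5) * cmp a z1 - 5 * (X + 1) * cmp a z2)) =
      X * cmp a z1 + 2 * X * fth (cmp a z1) + (X + 5) * fth (fth (cmp a z1)) - 5 * X * cmp a z2 -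
      10 * X * fth (cmp a z2) - 5 * (X + 1) * fth (fth (cmp a z2)) := by
    rw [hd1, fth_sub, fth_sub, fth_add, fth_mul, fth_mul, fth_mul, fth_mul, fth_mul, fth_mul, fth_add,
      fth_add, fth_X, fth_one, fth_ofNat]
    ring
  have hfin : (X + 5) * cmp a z1 - 5 * (X + 1) * cmp a z2 = 0 := by
    apply ode_unique (α := (X ^ 2 + 4 * X + 5) * (X + 1) ^ 2 * (X + 5) ^ 2 * (X ^ 2 - 4 * X + 5) ^ 2)
      (β := X * ((X + 1) * (X + 5) * (X ^ 2 - 4 * X + 5) *
        (-2 * (X ^ 2 + 4 * X + 5) * (X + 1) * (X ^ 2 - 4 * X + 5) + 4 * (X ^ 2 + X - 10) * (X + 5))))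
      (γ := X * (-(X + 5 - 2 * X) * (X ^ 2 + 4 * X + 5) * (X + 1) ^ 2 * (X ^ 2 - 4 * X + 5) ^ 2 -
        4 * X * (X ^ 2 + X - 10) * (X + 1) * (X ^ 2 - 4 * X + 5) * (X + 5) -
        100 * (1 - X) ^ 2 * (X + 5) ^ 2))
    · simp only [map_mul, map_pow, map_add, map_sub, PowerSeries.constantCoeff_X, map_ofNat, map_one]
      norm_num
    · exact Dvd.intro _ rfl
    · exact Dvd.intro _ rfl
    · have e1 : (X * d⁄dX K ((X + 5) * cmp a z1 - 5 * (X + 1) * cmp a z2)) =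
        fth ((X + 5) * cmp a z1 - 5 * (X + 1) * cmp a z2) := rfl
      have e2 : (X * d⁄dX K (fth ((X + 5) * cmp a z1 - 5 * (X + 1) * cmp a z2))) =
        fth (fth ((X + 5) * cmp a z1 - 5 * (X + 1) * cmp a z2)) := rfl
      rw [e1, e2, hd2, hd1]
      linear_combination (X + 5) ^ 3 * p1 - 5 * (X + 1) ^ 3 * p2
    · simp only [map_mul, map_add, map_sub, PowerSeries.constantCoeff_X, map_ofNat, map_one, cmp_const,
        ha.zero]
      norm_num
  linear_combination hfin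

theorem fe3 {q h : K} (hq : 4 * q = 3) (hh : 2 * h = 1) {a : ℕ → K} (ha : HS q h a) {z1 z2 : K⟦X⟧}
    (h1 : z1 * ((X + 1) ^ 4 * (X ^ 2 - 4 * X + 5)) = 32 * X)
    (h2 : z2 * ((X + 5) ^ 4 * (X ^ 2 - 4 * X + 5)) = 32 * X ^ 5) :
    (X + 5) ^ 2 * (1 - X) * cmp a z1 = 5 * (X + 1) ^ 2 * (5 - X) * cmp a z2 := by
  have hc1 : 8 * (q + h) = (10 : ℕ) := by push_cast; linear_combination 2 * hq + 4 * hh
  have hc0 : 8 * (q * h) = (3 : ℕ) := by push_cast; linear_combination 2 * h * hq + 3 * hh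
  have o1 := fe_ode1 ha hc1 hc0 h1 rfl rfl rfl
  have o2 := fe_ode2 ha hc1 hc0 h2 rfl rfl rfl
  push_cast at o1 o2
  have g1 : fth ((X + 5) ^ 2 * (1 - X) : K⟦X⟧) = X * (X + 5) * (2 * (1 - X) - (X + 5)) := by
    rw [fth_mul, fth_pow, fth_add, fth_sub, fth_X, fth_one, fth_ofNat]
    push_cast
    ring
  have g1' : fth (X * (X + 5) * (2 * (1 - X) - (X + 5)) : K⟦X⟧) =
      2 * X ^ 2 * (1 - X) + 2 * X * (X + 5) * (1 - X) - 4 * X ^ 2 * (X + 5) - X * (X + 5) ^ 2 := by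
    rw [fth_mul, fth_mul, fth_sub, fth_mul, fth_add, fth_sub, fth_X, fth_one, fth_ofNat, fth_ofNat]
    ring
  have g2 : fth (5 * (X + 1) ^ 2 * (5 - X) : K⟦X⟧) = 5 * (X * (X + 1) * (2 * (5 - X) - (X + 1))) := by
    rw [fth_mul, fth_mul, fth_pow, fth_add, fth_sub, fth_X, fth_one, fth_ofNat]
    push_cast
    ring
  have g2' : fth (5 * (X * (X + 1) * (2 * (5 - X) - (X + 1))) : K⟦X⟧) =
      5 * (2 * X ^ 2 * (5 - X) + 2 * X * (X + 1) * (5 - X) - 4 * X ^ 2 * (X + 1) - X * (X + 1) ^ 2) := by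
    rw [fth_mul, fth_mul, fth_mul, fth_sub, fth_mul, fth_add, fth_sub, fth_X, fth_one, fth_ofNat, fth_ofNat]
    ring
  have hd1 : fth ((X + 5) ^ 2 * (1 - X) * cmp a z1 - 5 * (X + 1) ^ 2 * (5 - X) * cmp a z2) =
      X * (X + 5) * (2 * (1 - X) - (X + 5)) * cmp a z1 + (X + 5) ^ 2 * (1 - X) * fth (cmp a z1) -
      5 * (X * (X + 1) * (2 * (5 - X) - (X + 1))) * cmp a z2 -
      5 * (X + 1) ^ 2 * (5 - X) * fth (cmp a z2) := by
    rw [fth_sub, fth_mul _ (cmp a z1), fth_mul _ (cmp a z2), g1, g2]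
    ring
  have hd2 : fth (fth ((X + 5) ^ 2 * (1 - X) * cmp a z1 - 5 * (X + 1) ^ 2 * (5 - X) * cmp a z2)) =
      (2 * X ^ 2 * (1 - X) + 2 * X * (X + 5) * (1 - X) - 4 * X ^ 2 * (X + 5) - X * (X + 5) ^ 2) * cmp a z1 +
      2 * (X * (X + 5) * (2 * (1 - X) - (X + 5))) * fth (cmp a z1) +
      (X + 5) ^ 2 * (1 - X) * fth (fth (cmp a z1)) -
      5 * (2 * X ^ 2 * (5 - X) + 2 * X * (X + 1) * (5 - X) - 4 * X ^ 2 * (X + 1) - X * (X + 1) ^ 2) * cmp a z2 -
      10 * (X * (X + 1) * (2 * (5 - X) - (X + 1))) * fth (cmp a z2) -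
      5 * (X + 1) ^ 2 * (5 - X) * fth (fth (cmp a z2)) := by
    rw [hd1, fth_sub, fth_sub, fth_add, fth_mul _ (cmp a z1), fth_mul _ (cmp a z2), fth_mul _ (fth (cmp a z1)),
      fth_mul _ (fth (cmp a z2)), g1, g2, g1', g2']
    ring
  have hfin : (X + 5) ^ 2 * (1 - X) * cmp a z1 - 5 * (X + 1) ^ 2 * (5 - X) * cmp a z2 = 0 := by
    apply ode_unique (α := (1 - X) ^ 2 * (5 - X) ^ 2 * (X ^ 2 + 4 * X + 5) * (X + 1) ^ 2 * (X + 5) ^ 2 *
        (X ^ 2 - 4 * X + 5) ^ 2)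
      (β := (1 - X) * (5 - X) ^ 2 * (X + 5) ^ 2 * ((X + 1) * (X ^ 2 - 4 * X + 5) * ((X ^ 2 + 4 * X + 5) *
          ((1 - X) * (3 * X ^ 3 - 6 * X ^ 2 + X) + 3 * X * ((X + 1) * (X ^ 2 - 4 * X + 5))) - 200 * X)) -
        2 * (1 - X) * (5 - X) ^ 2 * (X ^ 2 + 4 * X + 5) * (X + 1) ^ 2 * (X + 5) * (X ^ 2 - 4 * X + 5) ^ 2 * X *
          (2 * (1 - X) - (X + 5)))
      (γ := -300 * X * (1 - X) ^ 4 * (5 - X) ^ 2 * (X + 5) ^ 2 -
        (1 - X) * (5 - X) ^ 2 * (X ^ 2 + 4 * X + 5) * (X + 1) ^ 2 * (X ^ 2 - 4 * X + 5) ^ 2 *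
          (2 * X ^ 2 * (1 - X) + 2 * X * (X + 5) * (1 - X) - 4 * X ^ 2 * (X + 5) - X * (X + 5) ^ 2) -
        (5 - X) ^ 2 * X * (2 * (1 - X) - (X + 5)) * ((X + 5) * ((X + 1) * (X ^ 2 - 4 * X + 5) * ((X ^ 2 + 4 * X + 5) *
          ((1 - X) * (3 * X ^ 3 - 6 * X ^ 2 + X) + 3 * X * ((X + 1) * (X ^ 2 - 4 * X + 5))) - 200 * X)) -
          2 * (X ^ 2 + 4 * X + 5) * (X + 1) ^ 2 * (X ^ 2 - 4 * X + 5) ^ 2 * X * (2 * (1 - X) - (X + 5))))
    · simp only [map_mul, map_pow, map_add, map_sub, PowerSeries.constantCoeff_X, map_ofNat, map_one]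
      norm_num
    · rw [PowerSeries.X_dvd_iff]
      simp only [map_mul, map_pow, map_add, map_sub, PowerSeries.constantCoeff_X, map_ofNat, map_one]
      ring
    · rw [PowerSeries.X_dvd_iff]
      simp only [map_mul, map_pow, map_add, map_sub, map_neg, PowerSeries.constantCoeff_X, map_ofNat, map_one]
      ring
    · have e1 : (X * d⁄dX K ((X + 5) ^ 2 * (1 - X) * cmp a z1 - 5 * (X + 1) ^ 2 * (5 - X) * cmp a z2)) =
        fth ((X + 5) ^ 2 * (1 - X) * cmp a z1 - 5 * (X + 1) ^ 2 * (5 - X) * cmp a z2) := rfl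
      have e2 : (X * d⁄dX K (fth ((X + 5) ^ 2 * (1 - X) * cmp a z1 - 5 * (X + 1) ^ 2 * (5 - X) * cmp a z2))) =
        fth (fth ((X + 5) ^ 2 * (1 - X) * cmp a z1 - 5 * (X + 1) ^ 2 * (5 - X) * cmp a z2)) := rfl
      rw [e1, e2, hd2, hd1]
      linear_combination ((1 - X) ^ 2 * (5 - X) ^ 2 * (X + 5) ^ 4) * o1 -
        5 * ((1 - X) ^ 2 * (5 - X) ^ 2 * (X + 1) ^ 4) * o2
    · simp only [map_mul, map_pow, map_add, map_sub, PowerSeries.constantCoeff_X, map_ofNat, map_one, cmp_const,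
        ha.zero]
      norm_num
  linear_combination hfin

end

end Cec
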