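import Pool.Agent.Cec.Cmp

/-!
# MP_cec948_nt: basic definitions

`HS q h a`: the coefficients of `2F1(q,h;1)`.  `hm f N x y` homogenised polynomial.
`Dat` : the data modulo a prime `p = 4 n + 1`.
-/

namespace Cec

open Finset Polynomial

noncomputable section

/-- `a` is the sequence `(q)_k (h)_k / k!^2` -/
structure HS {R : Type*} [CommRing R] (q h : R) (a : ℕ → R) : Prop where
  zero : a 0 = 1
  succ : ∀ k : ℕ, ((k : R) + 1) ^ 2 * a (k + 1) = (k + q) * (k + h) * a k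

/-- homogenised polynomial `∑_{k ≤ N} f_k x^k y^{N-k}` -/
def hm {R A : Type*} [CommRing R] [CommRing A] [Algebra R A] (f : ℕ → R) (N : ℕ) (x y : A) : A :=
  ∑ k ∈ range (N + 1), algebraMap R A (f k) * x ^ k * y ^ (N - k)

/-- the polynomial `∑_{k ≤ N} f_k X^k` -/
def pl {R : Type*} [CommRing R] (f : ℕ → R) (N : ℕ) : R[X] := ∑ k ∈ range (N + 1), C (f k) * X ^ k

section
variable (R : Type*) [CommRing R]

/-- `t + 1` -/
def pA : R[X] := X + 1
/-- `t + 5` -/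
def pB : R[X] := X + 5
/-- `t^2 - 4t + 5` -/
def pC : R[X] := X ^ 2 - 4 * X + 5
/-- `t^2 + 4t + 5` -/
def pD : R[X] := X ^ 2 + 4 * X + 5
/-- `1 - t` -/
def pS : R[X] := 1 - X
/-- `5 - t` -/
def pF : R[X] := 5 - X
end

section
variable (p : ℕ) [hp : Fact p.Prime]

/-- the integer `(32^p - 32)/p` -/
def K32 : ℤ := ((32 : ℤ) ^ p - 32) / p

/-- data modulo `p = 4 n + 1`: `a` = coefficients of `2F1(1/4,1/2;1)`, `e` = their derivatives in
the direction `(1,1,2)` plus `l a`, where `32 l = - (32^p-32)/p`. -/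
structure Dat (n : ℕ) (q h l : ZMod p) (a e : ℕ → ZMod p) : Prop where
  hpn : p = 4 * n + 1
  hn : 1 < n
  hq : 4 * q = 1
  hh : 2 * h = 1
  a0 : a 0 = 1
  as : ∀ k, k + 1 < p → ((k : ZMod p) + 1) ^ 2 * a (k + 1) = (k + q) * (k + h) * a k
  e0 : e 0 = l
  es : ∀ k, k + 1 < p → ((k : ZMod p) + 1) ^ 2 * e (k + 1) + 2 * ((k : ZMod p) + 1) * a (k + 1) =
    (k + q) * (k + h) * e k + (2 * k + q + h) * a k
  e1 : ∑ k ∈ range p, e k = 0
  a1 : ∑ k ∈ range p, a k ≠ 0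
  l32 : 32 * l + (K32 p : ZMod p) = 0

end

end

end Cec
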