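import Pool.Agent.Cec.Harm
import Pool.Agent.Cec.Defs

/-!
# MP_cec948_nt: the value at `1`

Proof hints.
* `chu`: induction on `n` for all `b`, `c`: `S_{n+1}(b,c) = (c+n) S_n(b,c) - b S_n(b+1,c+1)`.
* `gauss_one`: `q - P q = -n`, `h - P h = -2n`.  `f s = hz (q + P q s) (h - P h s) 1 1` is affine, so
  `f(-1) + f(1) = 2 f(0)`; `f(-1) = hz (-n) (h + P h) 1 1 = (-2n)_n / n! = (-1)^n C(2n,n)`,
  `f(1) = hz (-2n) (q + P q) 1 1 = (1/2-n)_{2n} / (2n)! = (-1)^n C(2n,n) / 16^n`,
  `16^n = 2^{p-1} = 1 + Lq 2`.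
* `gauss_half`: `hz_chu`: value `* (1 - P h)_n = (h - P q)_n`; `(h - P h)_n = (-1)^n (2n)!/n!`,
  `(h - P q)_n = (h - P h)_n (1 + P q ∑_{i<n} 1/(h+i))`, `P ∑_{i<n} 1/(h+i) = dd h - dd (h+n) =
  dd h - dd q = - Lq 2` (`dd_add_nat`, `dd_congr`), `(1 - P h)_n = n! (1 - P h H_n)`, `P H_n = -3 Lq 2`.
  (Or `eq_of_Lq`.)
* `mkDat`: `a1` from `gauss_one` modulo `p`.  `e1`: put `g = e - l a`; by induction on `k < p`, in
  `ZMod (p^2)`: `(q + s P)_k (h + s P)_k / ((1 + 2 s P)_k k!) = a_k + s P g_k`.  Take `s = -q` and compare with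
  `gauss_half`: `-q P ∑ g_k = -5 q Lq 2 P(1)`, and `P l = -5 Lq 2` by `l32` (`32^p = 32 (1 + 5 Lq 2)`).
-/

namespace Cec

open Finset SC24

section
variable {p : ℕ} [hp : Fact p.Prime]

omit hp in
lemma poch_add' {R : Type*} [CommRing R] (a : R) (m n : ℕ) :
    poch a (m + n) = poch a m * poch (a + m) n := by
  unfold poch
  rw [prod_range_add]
  congr 1
  apply prod_congr rfl
  intro j _
  push_cast
  ring

lemma poch_succ_left {R : Type*} [CommRing R] (a : R) (n : ℕ) :
    poch a (n + 1) = a * poch (a + 1) n := by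
  rw [add_comm n 1, poch_add']
  simp [poch]

/-- Chu-Vandermonde -/
theorem chu (n : ℕ) {R : Type*} [CommRing R] (b c : R) :
    ∑ k ∈ range (n + 1), (-1) ^ k * (n.choose k : R) * poch b k * poch (c + k) (n - k) =
      poch (c - b) n := by
  induction n generalizing b c with
  | zero => simp [poch]
  | succ n ih =>
    have h1 : ∀ k, k ≤ n → poch (c + k) (n + 1 - k) = poch (c + k) (n - k) * (c + n) := by
      intro k hk
      rw [show n + 1 - k = (n - k) + 1 by omega, poch_succ, Nat.cast_sub hk]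
      ring
    have h2 : ∑ k ∈ range (n + 2), (-1) ^ k * ((n + 1).choose k : R) * poch b k *
        poch (c + k) (n + 1 - k) =
        ∑ k ∈ range (n + 1), (-1) ^ (k + 1) * (n.choose k : R) * poch b (k + 1) *
          poch (c + (k + 1 : ℕ)) (n + 1 - (k + 1)) +
        ∑ k ∈ range (n + 2), (-1) ^ k * (n.choose k : R) * poch b k *
          poch (c + k) (n + 1 - k) := by
      rw [sum_range_succ' _ (n + 1), sum_range_succ' _ (n + 1), ← add_assoc, ← sum_add_distrib]
      congr 1
      · apply sum_congr rfl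
        intro k _
        rw [Nat.choose_succ_succ]
        push_cast
        ring
      · simp
    have h3 : ∑ k ∈ range (n + 2), (-1) ^ k * (n.choose k : R) * poch b k *
          poch (c + k) (n + 1 - k) = (c + n) * poch (c - b) n := by
      rw [sum_range_succ, Nat.choose_succ_self, ← ih b c, mul_sum]
      simp only [Nat.cast_zero, mul_zero, zero_mul, add_zero]
      apply sum_congr rfl
      intro k hk
      rw [h1 k (by have := mem_range.mp hk; omega)]
      ring
    have h4 : ∑ k ∈ range (n + 1), (-1) ^ (k + 1) * (n.choose k : R) * poch b (k + 1) *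
          poch (c + (k + 1 : ℕ)) (n + 1 - (k + 1)) = - b * poch (c - b) n := by
      rw [show c - b = (c + 1) - (b + 1) by ring, ← ih (b + 1) (c + 1), mul_sum]
      apply sum_congr rfl
      intro k _
      rw [poch_succ_left, Nat.add_sub_add_right,
        show c + ((k + 1 : ℕ) : R) = c + 1 + k by push_cast; ring]
      ring
    rw [h2, h3, h4, poch_succ]
    ring

lemma poch_neg_desc {R : Type*} [CommRing R] (N k : ℕ) (h : k ≤ N) :
    poch (-(N : R)) k = (-1) ^ k * (N.descFactorial k : R) := by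
  induction k with
  | zero => simp [poch]
  | succ k ih =>
    rw [poch_succ, ih (by omega), Nat.descFactorial_succ, Nat.cast_mul, Nat.cast_sub (by omega)]
    ring

lemma poch_half {R : Type*} [CommRing R] {h : R} (hh : 2 * h = 1) (n : ℕ) :
    4 ^ n * (n.factorial : R) * poch h n = ((2 * n).factorial : R) := by
  induction n with
  | zero => simp [poch]
  | succ n ih =>
    rw [poch_succ, show 2 * (n + 1) = 2 * n + 1 + 1 by ring, Nat.factorial_succ, Nat.factorial_succ,
      Nat.factorial_succ]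
    push_cast
    rw [← ih]
    linear_combination 2 * (4 : R) ^ n * ((n : R) + 1) * (n.factorial : R) * poch h n * hh

lemma poch_half_refl {R : Type*} [CommRing R] {h : R} (hh : 2 * h = 1) (n : ℕ) :
    poch (h - n) n = (-1) ^ n * poch h n := by
  induction n with
  | zero => simp [poch]
  | succ n ih =>
    rw [poch_succ_left, show h - ((n + 1 : ℕ) : R) + 1 = h - n by push_cast; ring, ih, poch_succ]
    push_cast
    linear_combination (-1) ^ n * poch h n * hh

/-- `F(-N, b; c; 1)` modulo `p^2` -/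
theorem hz_chu {N : ℕ} (hN : N < p) (b : ZMod (p ^ (2:ℕ))) {c : ZMod (p ^ (2:ℕ))} (hc : Adm p c) :
    hz p (-(N : ZMod (p ^ (2:ℕ)))) b c 1 * poch c N = poch (c - b) N := by
  have h1 : hz p (-(N : ZMod (p ^ (2:ℕ)))) b c 1 = ∑ k ∈ range (N + 1),
      poch (-(N : ZMod (p ^ (2:ℕ)))) k * poch b k *
        (poch c k * (k.factorial : ZMod (p ^ (2:ℕ))))⁻¹ * 1 ^ k := by
    unfold hz
    symm
    refine Finset.sum_subset ?_ ?_
    · intro k hk; rw [mem_range] at hk ⊢; omega
    · intro k hk hk'
      rw [mem_range] at hk hk'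
      rw [poch_neg_nat (by omega)]; ring
  rw [h1, sum_mul, ← chu N b c]
  apply sum_congr rfl
  intro k hk
  have hk' : k ≤ N := by have := mem_range.mp hk; omega
  have hu : IsUnit (poch c k * (k.factorial : ZMod (p ^ (2:ℕ)))) :=
    (isUnit_poch_adm hc (by omega)).mul (isUnit_factorial (by omega))
  have h2 := ZMod.mul_inv_of_unit _ hu
  have h3 : poch c N = poch c k * poch (c + k) (N - k) := by
    rw [← poch_add']; congr 1; omega
  rw [poch_neg_desc N k hk', Nat.descFactorial_eq_factorial_mul_choose, h3, one_pow]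
  push_cast
  linear_combination (-1) ^ k * (N.choose k : ZMod (p ^ (2:ℕ))) * poch b k *
    poch (c + k) (N - k) * h2

lemma adm_one : Adm p (1 : ZMod (p ^ (2:ℕ))) := map_one _

lemma adm_one_add (c : ZMod (p ^ (2:ℕ))) : Adm p (1 + P2 p * c) := by
  unfold Adm
  rw [map_add, map_mul, red_P, map_one, zero_mul, add_zero]

omit hp in
lemma P_eq {n : ℕ} (hpn : p = 4 * n + 1) : P2 p = 4 * (n : ZMod (p ^ (2:ℕ))) + 1 := by
  have : ((p : ℕ) : ZMod (p ^ (2:ℕ))) = ((4 * n + 1 : ℕ) : ZMod (p ^ (2:ℕ))) := congrArg _ hpn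
  unfold P2
  rw [this]
  push_cast
  ring

lemma poch_one_nat {R : Type*} [CommRing R] (n : ℕ) : poch (1 : R) n = (n.factorial : R) := by
  induction n with
  | zero => simp [poch]
  | succ n ih => rw [poch_succ, ih, Nat.factorial_succ]; push_cast; ring

lemma pow_sixteen (h3 : 3 < p) {n : ℕ} (hpn : p = 4 * n + 1) :
    (16 : ZMod (p ^ (2:ℕ))) ^ n = 1 + Lq p 2 := by
  rw [Lq_unit (isUnit_two (by omega)), show p - 1 = 4 * n by omega, pow_mul]
  norm_num

theorem gauss_one (h3 : 3 < p) {n : ℕ} (hpn : p = 4 * n + 1) {q h : ZMod (p ^ (2:ℕ))} (hq : 4 * q = 1)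
    (hh : 2 * h = 1) :
    2 * hz p q h 1 1 = (-1) ^ n * ((2 * n).choose n : ZMod (p ^ (2:ℕ))) * (2 - Lq p 2) := by
  have hP := P_eq hpn
  have hqh : 2 * q = h := by linear_combination h * hq - 2 * q * hh
  obtain ⟨D, hD⟩ := isAff_hz (p := p) (IsAff.lin q q) (IsAff.lin h (-h)) (IsAff.const 1)
    adm_one 1
  have e0 := hD 1
  have e1 := hD (-1)
  simp only [mul_zero, add_zero, mul_one] at e0 e1
  -- value at `-1`
  have hn1 : q + P2 p * (q * -1) = -(n : ZMod (p ^ (2:ℕ))) := by
    rw [hP]; linear_combination (-(n : ZMod (p ^ (2:ℕ)))) * hq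
  have v1 : hz p (q + P2 p * (q * -1)) (h + P2 p * (-h * -1)) 1 1 =
      (-1) ^ n * ((2 * n).choose n : ZMod (p ^ (2:ℕ))) := by
    rw [hn1]
    have h5 := hz_chu (N := n) (by omega) (h + P2 p * (-h * -1)) (adm_one (p := p))
    have h6 : (1 : ZMod (p ^ (2:ℕ))) - (h + P2 p * (-h * -1)) =
        -((2 * n : ℕ) : ZMod (p ^ (2:ℕ))) := by
      push_cast
      rw [hP]; linear_combination (-2 * (n : ZMod (p ^ (2:ℕ))) - 1) * hh
    rw [h6, poch_neg_desc _ _ (by omega), Nat.descFactorial_eq_factorial_mul_choose,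
      poch_one_nat] at h5
    have hu := isUnit_factorial (p := p) (k := n) (by omega)
    apply hu.mul_right_cancel
    rw [h5]
    push_cast
    ring
  -- value at `1`
  have hn2 : h + P2 p * -h = -((2 * n : ℕ) : ZMod (p ^ (2:ℕ))) := by
    push_cast
    rw [hP]; linear_combination (-2 * (n : ZMod (p ^ (2:ℕ)))) * hh
  have v2 : hz p (q + P2 p * q) (h + P2 p * -h) 1 1 * (1 + Lq p 2) =
      (-1) ^ n * ((2 * n).choose n : ZMod (p ^ (2:ℕ))) := by
    rw [hn2, hz_comm, ← pow_sixteen h3 hpn]
    have h5 := hz_chu (N := 2 * n) (by omega) (q + P2 p * q) (adm_one (p := p))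
    have h6 : (1 : ZMod (p ^ (2:ℕ))) - (q + P2 p * q) = h - n := by
      rw [hP]; linear_combination (-(n : ZMod (p ^ (2:ℕ)))) * hq - hqh - hh
    have hA : poch (h - (n : ZMod (p ^ (2:ℕ)))) (2 * n) = (-1) ^ n * poch h n * poch h n := by
      rw [two_mul, poch_add', sub_add_cancel, poch_half_refl hh]
    rw [h6, hA, poch_one_nat] at h5
    have h7 := poch_half hh n
    have hu := isUnit_factorial (p := p) (k := n) (by omega)
    have hu2 := isUnit_factorial (p := p) (k := 2 * n) (by omega)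
    have h8 : ((2 * n).factorial : ZMod (p ^ (2:ℕ))) =
        ((2 * n).choose n : ZMod (p ^ (2:ℕ))) * (n.factorial : ZMod (p ^ (2:ℕ))) *
          (n.factorial : ZMod (p ^ (2:ℕ))) := by
      have := Nat.choose_mul_factorial_mul_factorial (show n ≤ 2 * n by omega)
      rw [show 2 * n - n = n by omega] at this
      have := congrArg (Nat.cast : ℕ → ZMod (p ^ (2:ℕ))) this
      push_cast at this
      exact this.symm
    apply (hu.mul (hu.mul hu2)).mul_right_cancel
    have h9 : (16 : ZMod (p ^ (2:ℕ))) ^ n = 4 ^ n * 4 ^ n := by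
      rw [← mul_pow]; norm_num
    rw [h9]
    calc _ = (hz p (-((2 * n : ℕ) : ZMod (p ^ (2:ℕ)))) (q + P2 p * q) 1 1 *
          ((2 * n).factorial : ZMod (p ^ (2:ℕ)))) *
          (4 ^ n * (n.factorial : ZMod (p ^ (2:ℕ)))) * (4 ^ n * (n.factorial : ZMod (p ^ (2:ℕ)))) := by
          ring
      _ = (-1) ^ n * (4 ^ n * (n.factorial : ZMod (p ^ (2:ℕ))) * poch h n) *
            (4 ^ n * (n.factorial : ZMod (p ^ (2:ℕ))) * poch h n) := by rw [h5]; ring
      _ = (-1) ^ n * ((2 * n).factorial : ZMod (p ^ (2:ℕ))) *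
            ((2 * n).factorial : ZMod (p ^ (2:ℕ))) := by rw [h7]
      _ = _ := by
        conv_lhs => rw [mul_assoc, h8]
        conv_rhs => rw [h8]
        ring
  have v2' : hz p (q + P2 p * q) (h + P2 p * -h) 1 1 =
      (-1) ^ n * ((2 * n).choose n : ZMod (p ^ (2:ℕ))) * (1 - Lq p 2) := by
    rw [← v2]
    linear_combination hz p (q + P2 p * q) (h + P2 p * -h) 1 1 * Lq_mul_Lq (p := p) 2 2
  rw [v1] at e1
  rw [v2'] at e0
  linear_combination -e0 - e1

theorem gauss_half (h3 : 3 < p) {n : ℕ} (hpn : p = 4 * n + 1) {q h : ZMod (p ^ (2:ℕ))} (hq : 4 * q = 1)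
    (hh : 2 * h = 1) :
    hz p (q - P2 p * q) (h - P2 p * q) (1 - P2 p * h) 1 = hz p q h 1 1 * (1 - 5 * q * Lq p 2) := by
  have h2 : 2 < p := by omega
  have hP := P_eq hpn
  have hqh : 2 * q = h := by linear_combination h * hq - 2 * q * hh
  have h1 := gauss_one h3 hpn hq hh
  have hn1 : q - P2 p * q = -(n : ZMod (p ^ (2:ℕ))) := by
    rw [hP]; linear_combination (-(n : ZMod (p ^ (2:ℕ)))) * hq
  have hadm : Adm p (1 - P2 p * h) := by
    have := adm_one_add (p := p) (-h)
    rwa [show 1 + P2 p * -h = 1 - P2 p * h by ring] at this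
  have h5 := hz_chu (N := n) (by omega) (h - P2 p * q) hadm
  rw [show 1 - P2 p * h - (h - P2 p * q) = h - P2 p * q by
    linear_combination (P2 p) * hqh - hh] at h5
  rw [hn1]
  -- `(1 - P h)_n = n! (1 - P h H_n) = n! (1 + 3 h Lq 2)`
  have hu := isUnit_factorial (p := p) (k := n) (by omega)
  have prodP : ∀ (x c : ZMod (p ^ (2:ℕ))) (m : ℕ), (∀ j < m, IsUnit (x + (j : ZMod (p ^ (2:ℕ))))) →
      poch (x + P2 p * c) m = poch x m * (1 + c * (P2 p * ∑ j ∈ range m, iv p (x + j))) := by
    intro x c m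
    induction m with
    | zero => intro _; simp [poch]
    | succ m ih =>
      intro hm
      have hum := hm m (by omega)
      have hi := ZMod.mul_inv_of_unit _ hum
      rw [poch_succ, poch_succ, ih (fun j hj => hm j (by omega)), sum_range_succ]
      have hiv : iv p (x + (m : ZMod (p ^ (2:ℕ)))) = (x + (m : ZMod (p ^ (2:ℕ))))⁻¹ := by
        rw [iv, if_pos hum]
      rw [hiv]
      generalize (x + (m : ZMod (p ^ (2:ℕ))))⁻¹ = y at *
      generalize ∑ j ∈ range m, iv p (x + j) = t
      linear_combination (-c * P2 p * poch x m) * hi +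
        (c * c * t * poch x m) * P2_mul_self p
  have hden : poch (1 - P2 p * h) n = (n.factorial : ZMod (p ^ (2:ℕ))) * (1 + 3 * h * Lq p 2) := by
    have h6 := prodP 1 (-h) n (fun j hj => by
      have := isUnit_nat (p := p) (M := p ^ (2:ℕ)) dvd_rfl (b := 1 + j) (by
        intro h; exact absurd (Nat.le_of_dvd (by omega) h) (by omega))
      push_cast at this
      exact this)
    have h7 := dd_add_nat h2 (1 : ZMod (p ^ (2:ℕ))) n
    have h8 := dd_harm h2 (show n < p by omega)
    have h9 := P_harm_n h2 hpn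
    rw [add_comm (n : ZMod (p ^ (2:ℕ))) 1, h7, dd_one h2] at h8
    rw [show 1 - P2 p * h = 1 + P2 p * -h by ring, h6, poch_one_nat]
    linear_combination (-h * (n.factorial : ZMod (p ^ (2:ℕ)))) * h9 +
      (h * (n.factorial : ZMod (p ^ (2:ℕ)))) * h8
  -- `(h - P q)_n = (h - P h)_n (1 - q Lq 2)`
  have hnum : poch (h - P2 p * q) n =
      (-1) ^ n * ((n.factorial : ZMod (p ^ (2:ℕ))) * ((2 * n).choose n : ZMod (p ^ (2:ℕ)))) *
        (1 - q * Lq p 2) := by
    have hx : h - P2 p * h = -((2 * n : ℕ) : ZMod (p ^ (2:ℕ))) := by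
      push_cast
      rw [hP]; linear_combination (-2 * (n : ZMod (p ^ (2:ℕ)))) * hh
    have hux : ∀ j < n, IsUnit (h - P2 p * h + (j : ZMod (p ^ (2:ℕ)))) := by
      intro j hj
      have := isUnit_nat (p := p) (M := p ^ (2:ℕ)) dvd_rfl (b := 2 * n - j) (by
        intro h; exact absurd (Nat.le_of_dvd (by omega) h) (by omega))
      rw [Nat.cast_sub (by omega)] at this
      rw [hx]
      have h8 := this.neg
      rwa [neg_sub', sub_neg_eq_add] at h8
    have h6 := prodP (h - P2 p * h) q n hux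
    have h7 := dd_add_nat h2 (h - P2 p * h) n
    have h8 : dd p (h - P2 p * h) = dd p h := by
      apply dd_congr h2
      rw [map_sub, map_mul, red_P]; ring
    have h9 : dd p (h - P2 p * h + n) = dd p q := by
      apply dd_congr h2
      have e3 := congrArg (red p) hP
      rw [red_P] at e3
      have e4 := congrArg (red p) hq
      have e5 := congrArg (red p) hqh
      simp only [map_add, map_sub, map_mul, map_one, map_natCast, map_ofNat,
        CharP.cast_eq_zero] at e3 e4 e5 ⊢
      linear_combination (-1) * e5 + (-(n : ZMod p)) * e4 - (red p q) * e3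
    rw [h8, h9, dd_half h2 hh, dd_quarter h2 hq] at h7
    have h10 : h - P2 p * h + P2 p * q = h - P2 p * q := by
      linear_combination (P2 p) * hqh
    rw [h10] at h6
    rw [h6, hx, poch_neg_desc _ _ (by omega), Nat.descFactorial_eq_factorial_mul_choose]
    rw [← hx]
    push_cast
    linear_combination ((-1) ^ n * ((n.factorial : ZMod (p ^ (2:ℕ))) *
      ((2 * n).choose n : ZMod (p ^ (2:ℕ)))) * q) * h7
  rw [hden, hnum] at h5
  have hLL := Lq_mul_Lq (p := p) 2 2
  have hval : hz p (-(n : ZMod (p ^ (2:ℕ)))) (h - P2 p * q) (1 - P2 p * h) 1 =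
      (-1) ^ n * ((2 * n).choose n : ZMod (p ^ (2:ℕ))) * (1 - 7 * q * Lq p 2) := by
    apply hu.mul_right_cancel
    generalize hz p (-(n : ZMod (p ^ (2:ℕ)))) (h - P2 p * q) (1 - P2 p * h) 1 = v at *
    generalize (n.factorial : ZMod (p ^ (2:ℕ))) = F at *
    generalize ((2 * n).choose n : ZMod (p ^ (2:ℕ))) = C at *
    generalize (-1 : ZMod (p ^ (2:ℕ))) ^ n = e at *
    generalize Lq p (2 : ZMod (p ^ (2:ℕ))) = L at *
    linear_combination (1 - 3 * h * L) * h5 + (9 * v * F * h * h + 3 * e * F * C * q * h) * hLL +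
      (3 * e * F * C * L) * hqh
  rw [hval]
  have hP1 : hz p q h 1 1 = (-1) ^ n * ((2 * n).choose n : ZMod (p ^ (2:ℕ))) * (1 - h * Lq p 2) := by
    apply (isUnit_two h2).mul_left_cancel
    rw [h1]
    linear_combination ((-1) ^ n * ((2 * n).choose n : ZMod (p ^ (2:ℕ))) * Lq p 2) * hh
  rw [hP1]
  generalize ((2 * n).choose n : ZMod (p ^ (2:ℕ))) = C at *
  generalize (-1 : ZMod (p ^ (2:ℕ))) ^ n = e at *
  generalize Lq p (2 : ZMod (p ^ (2:ℕ))) = L at *
  linear_combination (-5 * e * C * h * q) * hLL - (e * C * L) * hqh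

lemma exists_lift (x : ZMod p) : ∃ y : ZMod (p ^ (2:ℕ)), red p y = x := by
  have : NeZero p := ⟨hp.out.ne_zero⟩
  refine ⟨((x.val : ℕ) : ZMod (p ^ (2:ℕ))), ?_⟩
  rw [map_natCast, ZMod.natCast_zmod_val]

lemma P_mul_eq_zero {x : ZMod (p ^ (2:ℕ))} (h : P2 p * x = 0) : red p x = 0 := by
  by_contra hx
  have hu := (isUnit_iff_red x).2 hx
  have h1 : P2 p = 0 := by
    have := ZMod.mul_inv_of_unit _ hu
    linear_combination (-(P2 p)) * this + x⁻¹ * h
  rw [P2, ZMod.natCast_eq_zero_iff] at h1
  have h2 := Nat.le_of_dvd hp.out.pos h1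
  have h3 := hp.out.two_le
  nlinarith

theorem mkDat (h5 : 5 < p) {n : ℕ} (hpn : p = 4 * n + 1) {q h l : ZMod p} (hq : 4 * q = 1)
    (hh : 2 * h = 1) {a e : ℕ → ZMod p} (a0 : a 0 = 1)
    (as : ∀ k, k + 1 < p → ((k : ZMod p) + 1) ^ 2 * a (k + 1) = (k + q) * (k + h) * a k)
    (e0 : e 0 = l)
    (es : ∀ k, k + 1 < p → ((k : ZMod p) + 1) ^ 2 * e (k + 1) + 2 * ((k : ZMod p) + 1) * a (k + 1) =
      (k + q) * (k + h) * e k + (2 * k + q + h) * a k)
    (l32 : 32 * l + (K32 p : ZMod p) = 0) : Dat p n q h l a e := by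
  have h3 : 3 < p := by omega
  have h2 : 2 < p := by omega
  have u2 := isUnit_two (p := p) h2
  -- lifts
  have u4 : IsUnit (4 : ZMod (p ^ (2:ℕ))) := by
    have := u2.mul u2
    norm_num at this
    exact this
  obtain ⟨q', hq'⟩ : ∃ q' : ZMod (p ^ (2:ℕ)), 4 * q' = 1 := ⟨4⁻¹, ZMod.mul_inv_of_unit _ u4⟩
  set h' := 2 * q' with hh'd
  have hh' : 2 * h' = 1 := by rw [hh'd]; linear_combination hq'
  have h4ne : (4 : ZMod p) ≠ 0 := by
    intro h0; rw [h0, zero_mul] at hq; exact zero_ne_one hq
  have h2ne : (2 : ZMod p) ≠ 0 := by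
    intro h0; rw [h0, zero_mul] at hh; exact zero_ne_one hh
  have rq : red p q' = q := by
    have := congrArg (red p) hq'
    rw [map_mul, map_one, map_ofNat, ← hq] at this
    exact mul_left_cancel₀ h4ne this
  have rh : red p h' = h := by
    have := congrArg (red p) hh'
    rw [map_mul, map_one, map_ofNat, ← hh] at this
    exact mul_left_cancel₀ h2ne this
  -- the terms of the sum
  set T : ZMod (p ^ (2:ℕ)) → ℕ → ZMod (p ^ (2:ℕ)) := fun s k =>
    poch (q' + P2 p * s) k * poch (h' + P2 p * s) k *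
      (poch (1 + P2 p * (2 * s)) k * (k.factorial : ZMod (p ^ (2:ℕ))))⁻¹ with hT
  have hT0 : ∀ s, T s 0 = 1 := by
    intro s
    simp [hT, poch]
  have hTs : ∀ s k, k + 1 < p → T s (k + 1) * ((1 + P2 p * (2 * s) + k) * ((k : ZMod (p ^ (2:ℕ))) + 1)) =
      T s k * ((q' + P2 p * s + k) * (h' + P2 p * s + k)) := by
    intro s k hk
    have hu1 : IsUnit (poch (1 + P2 p * (2 * s)) k * (k.factorial : ZMod (p ^ (2:ℕ)))) :=
      (isUnit_poch_adm (adm_one_add _) (by omega)).mul (isUnit_factorial (by omega))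
    have hu2 : IsUnit (poch (1 + P2 p * (2 * s)) (k + 1) *
        ((k + 1).factorial : ZMod (p ^ (2:ℕ)))) :=
      (isUnit_poch_adm (adm_one_add _) hk).mul (isUnit_factorial hk)
    have i1 := ZMod.mul_inv_of_unit _ hu1
    have i2 := ZMod.mul_inv_of_unit _ hu2
    simp only [hT]
    generalize (poch (1 + P2 p * (2 * s)) (k + 1) *
        ((k + 1).factorial : ZMod (p ^ (2:ℕ))))⁻¹ = y2 at *
    generalize hy1 : (poch (1 + P2 p * (2 * s)) k * (k.factorial : ZMod (p ^ (2:ℕ))))⁻¹ = y1 at *
    rw [poch_succ, Nat.factorial_succ] at i2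
    rw [poch_succ, poch_succ]
    push_cast at i2
    generalize poch (1 + P2 p * (2 * s)) k = C at *
    generalize (k.factorial : ZMod (p ^ (2:ℕ))) = F at *
    generalize poch (q' + P2 p * s) k = A at *
    generalize poch (h' + P2 p * s) k = B at *
    have e3 : y2 * ((1 + P2 p * (2 * s) + k) * ((k : ZMod (p ^ (2:ℕ))) + 1)) = y1 := by
      linear_combination y1 * i2 - (y2 * (1 + P2 p * (2 * s) + k) * ((k : ZMod (p ^ (2:ℕ))) + 1)) * i1
    linear_combination (A * B * (q' + P2 p * s + k) * (h' + P2 p * s + k)) * e3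
  have hred : ∀ k < p, red p (T 0 k) = a k := by
    intro k
    induction k with
    | zero => intro _; rw [hT0, map_one, a0]
    | succ k ih =>
      intro hk
      have h6 := congrArg (red p) (hTs 0 k hk)
      simp only [mul_zero, add_zero, map_mul, map_add, map_one, map_natCast, ih (by omega),
        rq, rh] at h6
      have h7 := as k hk
      have h8 : ((k : ZMod p) + 1) ≠ 0 := by
        have : ((k + 1 : ℕ) : ZMod p) ≠ 0 := by
          rw [Ne, ZMod.natCast_eq_zero_iff]
          intro h0; exact absurd (Nat.le_of_dvd (by omega) h0) (by omega)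
        push_cast at this
        exact this
      apply mul_left_cancel₀ (pow_ne_zero 2 h8)
      rw [h7]
      linear_combination h6
  choose lift hlift using exists_lift (p := p)
  set g : ℕ → ZMod p := fun k => e k - l * a k with hg
  have gs : ∀ k, k + 1 < p → ((k : ZMod p) + 1) ^ 2 * g (k + 1) +
      2 * ((k : ZMod p) + 1) * a (k + 1) =
      (k + q) * (k + h) * g k + (2 * k + q + h) * a k := by
    intro k hk
    simp only [hg]
    linear_combination es k hk - l * as k hk
  have key : ∀ s, ∀ k < p, T s k = T 0 k + s * (P2 p * lift (g k)) := by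
    intro s k
    induction k with
    | zero =>
      intro _
      have hg0 : g 0 = 0 := by simp [hg, e0, a0]
      have : P2 p * lift (g 0) = 0 := by
        rw [P_mul_congr (x := lift (g 0)) (y := 0) (by rw [hlift, hg0, map_zero]), mul_zero]
      rw [hT0, hT0, this]; ring
    | succ k ih =>
      intro hk
      have ih' := ih (by omega)
      have h6 := hTs s k hk
      have h7 := hTs 0 k hk
      have huk : IsUnit ((1 + P2 p * (2 * s) + k) * ((k : ZMod (p ^ (2:ℕ))) + 1)) := by
        have hk1 : IsUnit ((k : ZMod (p ^ (2:ℕ))) + 1) := by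
          have := isUnit_nat (p := p) (M := p ^ (2:ℕ)) dvd_rfl (b := k + 1) (by
            intro h0; exact absurd (Nat.le_of_dvd (by omega) h0) (by omega))
          push_cast at this
          exact this
        refine IsUnit.mul ?_ hk1
        have := (isUnit_add_P ((k : ZMod (p ^ (2:ℕ))) + 1) (2 * s)).2 hk1
        rwa [show (k : ZMod (p ^ (2:ℕ))) + 1 + P2 p * (2 * s) = 1 + P2 p * (2 * s) + k by ring]
          at this
      have h8 : P2 p * (((k : ZMod (p ^ (2:ℕ))) + 1) ^ 2 * lift (g (k + 1)) +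
          2 * ((k : ZMod (p ^ (2:ℕ))) + 1) * T 0 (k + 1)) =
          P2 p * ((k + q') * (k + h') * lift (g k) + (2 * k + q' + h') * T 0 k) := by
        apply P_mul_congr
        simp only [map_mul, map_add, map_pow, map_one, map_natCast, map_ofNat, hlift, rq, rh,
          hred k (by omega), hred (k + 1) hk]
        exact gs k hk
      apply huk.mul_right_cancel
      rw [h6, ih']
      simp only [mul_zero, add_zero] at h7
      have hPP := P2_mul_self p
      generalize lift (g k) = G at *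
      generalize lift (g (k + 1)) = G' at *
      generalize T 0 k = A at *
      generalize T 0 (k + 1) = A' at *
      generalize P2 p = P at *
      linear_combination (-s) * h8 - h7 + (s * s * A + s * s * G * (q' + h' + 2 * k) +
        s * s * s * P * G - 2 * s * s * G' * (k + 1)) * hPP
  have hsum0 : ∑ k ∈ range p, T 0 k = hz p q' h' 1 1 := by
    unfold hz
    apply sum_congr rfl
    intro k _
    simp [hT]
  have hA : red p (hz p q' h' 1 1) = ∑ k ∈ range p, a k := by
    rw [← hsum0, map_sum]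
    apply sum_congr rfl
    intro k hk
    exact hred k (mem_range.mp hk)
  have hg1 := gauss_one h3 hpn hq' hh'
  have hL2 : red p (Lq p 2) = 0 := by
    obtain ⟨c, hc⟩ := Lq_P (p := p) 2
    rw [hc, map_mul, red_P, zero_mul]
  have a1 : ∑ k ∈ range p, a k ≠ 0 := by
    rw [← hA, ← isUnit_iff_red]
    have h6 : IsUnit (2 * hz p q' h' 1 1) := by
      rw [hg1]
      refine IsUnit.mul (IsUnit.mul ?_ ?_) ?_
      · exact (isUnit_one.neg).pow n
      · have := isUnit_choose (p := p) (m := n) (n := n) (by omega)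
        rwa [← two_mul] at this
      · rw [isUnit_iff_red, map_sub, hL2, map_ofNat, sub_zero]
        exact h2ne
    exact isUnit_of_mul_isUnit_right h6
  have e1 : ∑ k ∈ range p, e k = 0 := by
    have hs : ∑ k ∈ range p, T (-q') k = hz p (q' - P2 p * q') (h' - P2 p * q') (1 - P2 p * h') 1 := by
      unfold hz
      apply sum_congr rfl
      intro k _
      simp only [hT, one_pow, mul_one]
      rw [show q' + P2 p * -q' = q' - P2 p * q' by ring,
        show h' + P2 p * -q' = h' - P2 p * q' by ring,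
        show 1 + P2 p * (2 * -q') = 1 - P2 p * h' by rw [hh'd]; ring]
    rw [gauss_half h3 hpn hq' hh', ← hsum0,
      sum_congr rfl (fun k hk => key (-q') k (mem_range.mp hk)), sum_add_distrib, ← mul_sum,
      ← mul_sum] at hs
    -- `P ∑ g = 5 Lq 2 P(1)`
    have hG : P2 p * ∑ k ∈ range p, lift (g k) = 5 * Lq p 2 * ∑ k ∈ range p, T 0 k := by
      generalize ∑ k ∈ range p, T 0 k = A at *
      generalize P2 p * ∑ k ∈ range p, lift (g k) = B at *
      linear_combination (-4) * hs + (5 * Lq p 2 * A - B) * hq'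
    -- `P l = -5 Lq 2`
    have hl : P2 p * lift l = -(5 * Lq p 2) := by
      have u32 : IsUnit (32 : ZMod (p ^ (2:ℕ))) := by
        have := u2.pow 5
        norm_num at this
        exact this
      have h32 : Lq p (32 : ZMod (p ^ (2:ℕ))) = 5 * Lq p 2 := by
        have := Lq_pow u2 5
        norm_num at this
        exact this
      have hK : P2 p * (K32 p : ZMod (p ^ (2:ℕ))) = 32 * Lq p 32 := by
        have hdvd : (p : ℤ) ∣ (32 : ℤ) ^ p - 32 := by
          have : (((32 : ℤ) ^ p - 32 : ℤ) : ZMod p) = 0 := by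
            push_cast
            rw [ZMod.pow_card, sub_self]
          exact (ZMod.intCast_zmod_eq_zero_iff_dvd _ _).1 this
        have h6 : (p : ℤ) * K32 p = (32 : ℤ) ^ p - 32 := Int.mul_ediv_cancel' hdvd
        have h7 := congrArg (Int.cast : ℤ → ZMod (p ^ (2:ℕ))) h6
        push_cast at h7
        rw [Lq_unit u32]
        have h8 : (32 : ZMod (p ^ (2:ℕ))) ^ p = 32 * 32 ^ (p - 1) :=
          (mul_pow_sub_one hp.out.ne_zero _).symm
        rw [h8] at h7
        linear_combination h7
      have h9 : P2 p * (32 * lift l + (K32 p : ZMod (p ^ (2:ℕ)))) = P2 p * 0 := by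
        apply P_mul_congr
        rw [map_add, map_mul, hlift, map_intCast, map_ofNat, l32, map_zero]
      apply u32.mul_left_cancel
      rw [mul_zero] at h9
      linear_combination h9 - hK - 32 * h32
    have hfin : P2 p * ∑ k ∈ range p, (lift (g k) + lift l * T 0 k) = 0 := by
      rw [sum_add_distrib, ← mul_sum, mul_add, hG]
      linear_combination (∑ k ∈ range p, T 0 k) * hl
    have := P_mul_eq_zero hfin
    rw [map_sum] at this
    rw [← this]
    apply sum_congr rfl
    intro k hk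
    rw [map_add, map_mul, hlift, hlift, hred k (mem_range.mp hk)]
    simp [hg]
  exact ⟨hpn, by omega, hq, hh, a0, as, e0, es, e1, a1, l32⟩

end

end Cec
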