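import Pool.Agent.Cec.PiF

/-!
# Comparison of the two polynomials `Q`

Proof hints.
* `log_deriv_zero`: `(f G^{p-1})' = G^{p-2} (f' G - f G') = 0` so `f G^{p-1} = expand p g` with
  `natDegree g < 6n`; multiply by `G`: `f * expand p G = G * expand p g`; apply
  `Polynomial.contract p` (`contract_mul_expand`): `contract f * G = contract G * g` and
  `contract G = C (G.coeff 0)` (`G` is even, `p` odd, `deg G < 2p`), so by degrees `contract f = 0`,
  `g = 0`, `f = 0`.
* `exists_Q3`: by `QP_div` and coprimality `Q1 = s1^{3p} Q3`, `Q2 = s2^{3p} Q4` (`s1 = 1-X`,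
  `s2 = 5-X`); `N = s2^{3p} Q1 - 5 s1^{3p} Q2 = (s1 s2)^{3p} X0`, `deg X0 < 6n` by `QP_natDegree`;
  `QP_deriv` gives `N' Π = N Π'`, hence `X0' Π = X0 Π'` and `X0 = 0`.  So `5 Q4 = Q3`.
  `Q3(1) = 0`: evaluate `QP_div` (after cancelling `s^{3p}`) at `1`, where `dl p (1 - X)` vanishes.
-/

namespace Cec

open Finset Polynomial

noncomputable section

variable {p : ℕ} [hp : Fact p.Prime] {n : ℕ} {q h l : ZMod p} {a e : ℕ → ZMod p}

/-- A polynomial of degree `< deg G` with `f' G = f G'` vanishes if `G` is even of degree `6 n < 2 p`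
with non-zero constant term. -/
theorem log_deriv_zero (hpn : p = 4 * n + 1) {G f : (ZMod p)[X]} (hG : G.comp (-X) = G)
    (hdeg : G.natDegree = 6 * n) (h0 : G.coeff 0 ≠ 0)
    (hf : f.natDegree < 6 * n) (h : derivative f * G = f * derivative G) : f = 0 := by
  by_contra hf0
  have hp1 : 1 < p := hp.out.one_lt
  have hp0 : p ≠ 0 := by omega
  have hG0 : G ≠ 0 := by
    rintro rfl
    simp at h0
  have hcast : ((p - 1 : ℕ) : (ZMod p)[X]) = -1 := by
    have h1 : ((p : ℕ) : (ZMod p)[X]) = 0 := CharP.cast_eq_zero _ p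
    rw [Nat.cast_sub hp1.le, h1]
    simp
  have hD : derivative (f * G ^ (p - 1)) = 0 := by
    have hpp : G ^ (p - 1) = G ^ (p - 1 - 1) * G := by
      rw [← pow_succ]
      congr 1
      omega
    rw [derivative_mul, derivative_pow, map_natCast, hcast, hpp]
    linear_combination G ^ (p - 1 - 1) * h
  have hexp := expand_contract p hD hp0
  set g := contract p (f * G ^ (p - 1)) with hg
  have key : f * expand (ZMod p) p G = G * expand (ZMod p) p g := by
    rw [hexp, ZMod.expand_card]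
    have : G ^ p = G ^ (p - 1) * G := by
      rw [← pow_succ]
      congr 1
      omega
    rw [this]
    ring
  have key2 := congrArg (contract p) key
  rw [contract_mul_expand hp0, contract_mul_expand hp0] at key2
  have hcG : contract p G = C (G.coeff 0) := by
    ext k
    rw [coeff_contract hp0, coeff_C]
    split_ifs with hk
    · rw [hk, zero_mul]
    · rcases Nat.lt_or_ge k 2 with hk2 | hk2
      · have hk1 : k = 1 := by omega
        rw [hk1, one_mul]
        have h1 := congrArg (fun q : (ZMod p)[X] => q.coeff p) hG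
        have h2 : (-X : (ZMod p)[X]) = C (-1) * X := by
          rw [C_neg, C_1]; ring
        simp only [h2, comp_C_mul_X_coeff] at h1
        have hodd : Odd p := by
          rw [hpn]
          exact ⟨2 * n, by ring⟩
        rw [hodd.neg_one_pow] at h1
        have h3 : (2 : ZMod p) * G.coeff p = 0 := by linear_combination -h1
        rcases mul_eq_zero.1 h3 with h4 | h4
        · exfalso
          have h5 : ((2 : ℕ) : ZMod p) = 0 := by exact_mod_cast h4
          rw [ZMod.natCast_eq_zero_iff] at h5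
          have := Nat.le_of_dvd (by norm_num) h5
          omega
        · exact h4
      · apply coeff_eq_zero_of_natDegree_lt
        rw [hdeg]
        have : 2 * p ≤ k * p := Nat.mul_le_mul_right _ hk2
        omega
  rw [hcG] at key2
  have hdg : g.natDegree < 6 * n := by
    have h1 : (expand (ZMod p) p g).natDegree = f.natDegree + (p - 1) * (6 * n) := by
      rw [hexp, natDegree_mul hf0 (pow_ne_zero _ hG0), natDegree_pow, hdeg]
    rw [natDegree_expand] at h1
    by_contra h2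
    push Not at h2
    have h3 : 6 * n * p ≤ g.natDegree * p := Nat.mul_le_mul_right _ h2
    have h4 : 6 * n * p = 6 * n + (p - 1) * (6 * n) := by
      obtain ⟨m, hm⟩ : ∃ m, p = m + 1 := ⟨p - 1, by omega⟩
      rw [hm, Nat.add_sub_cancel]
      ring
    omega
  have hcf : contract p f = 0 := by
    by_contra h1
    have h2 : (contract p f * G).natDegree = (contract p f).natDegree + 6 * n := by
      rw [natDegree_mul h1 hG0, hdeg]
    rw [key2] at h2
    have h3 : (C (G.coeff 0) * g).natDegree ≤ g.natDegree := natDegree_C_mul_le _ _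
    omega
  rw [hcf, zero_mul] at key2
  have hg0 : g = 0 := by
    rcases mul_eq_zero.1 key2.symm with h1 | h1
    · exact absurd (C_eq_zero.1 h1) h0
    · exact h1
  rw [hg0, map_zero] at hexp
  exact (mul_ne_zero hf0 (pow_ne_zero _ hG0)) hexp.symm

theorem cov1 : Cov (pA ℤ) (pC ℤ) (pS ℤ) (pD ℤ) (C 32 * X) 1 5 := by
  have e32 : (C 32 : ℤ[X]) = 32 := rfl
  have e5 : (C 5 : ℤ[X]) = 5 := rfl
  refine ⟨?_, ?_, ?_, ?_⟩
  · simp [pA]
  · rw [e32]
    simp only [pA, pC, pS, pD]
    ring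
  · rw [derivative_C_mul, derivative_X, C_1]
    ring
  · have h1 : derivative (pC ℤ) = 2 * X - 4 := by
      unfold pC
      rw [derivative_add, derivative_sub, derivative_X_pow, derivative_mul]
      simp
    rw [h1, C_1, e5]
    simp only [pA, pC, pS]
    ring

theorem cov2 : Cov (pB ℤ) (pC ℤ) (pF ℤ) (pD ℤ) (C 32 * X ^ 5) 5 1 := by
  have e32 : (C 32 : ℤ[X]) = 32 := rfl
  have e5 : (C 5 : ℤ[X]) = 5 := rfl
  refine ⟨?_, ?_, ?_, ?_⟩
  · simp [pB]
  · rw [e32]
    simp only [pB, pC, pF, pD]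
    ring
  · rw [derivative_C_mul, derivative_X_pow, e5]
    simp
    ring
  · have h1 : derivative (pC ℤ) = 2 * X - 4 := by
      unfold pC
      rw [derivative_add, derivative_sub, derivative_X_pow, derivative_mul]
      simp
    rw [h1, C_1, e5]
    simp only [pB, pC, pF]
    ring

private theorem nat_ne_zero {m : ℕ} (h1 : m ∣ 100000) (h2 : p.Coprime 10) :
    ((m : ℕ) : ZMod p) ≠ 0 := by
  rw [Ne, ZMod.natCast_eq_zero_iff]
  intro h3
  have h4 : p ∣ 10 ^ 5 := h3.trans h1
  have h5 := hp.out.dvd_of_dvd_pow h4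
  have h6 := Nat.dvd_gcd dvd_rfl h5
  rw [h2] at h6
  exact hp.out.one_lt.ne' (Nat.dvd_one.1 h6)

private theorem cop10 (D : Dat p n q h l a e) : p.Coprime 10 := by
  have h1 := D.hpn
  have h2 := D.hn
  rw [Nat.Prime.coprime_iff_not_dvd hp.out]
  intro h3
  have h4 := Nat.le_of_dvd (by norm_num) h3
  have h5 : n = 2 := by omega
  rw [h5] at h1
  rw [h1] at h3
  revert h3
  norm_num

/-- cancel the coprime factor -/
private theorem dvd_of_cop {s A c : (ZMod p)[X]} {Q W : (ZMod p)[X]} {m m1 m2 : ℕ}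
    (hA : IsCoprime s A) (hc : IsCoprime s c)
    (h : Q * A ^ m1 * (A ^ 4 * c) ^ m2 = s ^ m * W) : s ^ m ∣ Q := by
  have h1 : IsCoprime (s ^ m) (A ^ m1 * (A ^ 4 * c) ^ m2) := by
    apply IsCoprime.pow_left
    apply IsCoprime.mul_right
    · exact hA.pow_right
    · exact (hA.pow_right.mul_right hc).pow_right
  have h2 : s ^ m ∣ Q * (A ^ m1 * (A ^ 4 * c) ^ m2) := ⟨W, by rw [← h]; ring⟩
  exact h1.dvd_of_dvd_mul_right h2

private theorem cop_lin {r : ZMod p} {f : (ZMod p)[X]} (h : f.eval r ≠ 0) :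
    IsCoprime (C r - X) f := by
  have h1 : IsCoprime (X - C r) f := by
    rw [Irreducible.coprime_iff_not_dvd (irreducible_X_sub_C r), dvd_iff_isRoot]
    exact h
  have h2 : (C r - X : (ZMod p)[X]) = -(X - C r) := by ring
  rw [h2]
  exact h1.neg_left

private theorem deriv_pow_p (s : (ZMod p)[X]) : derivative (s ^ (3 * p)) = 0 := by
  rw [derivative_pow]
  have h1 : ((p : ℕ) : (ZMod p)[X]) = 0 := CharP.cast_eq_zero _ p
  have h2 : (C ((3 * p : ℕ) : ZMod p)) = 0 := by
    rw [map_natCast]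
    push_cast
    rw [h1, mul_zero]
  rw [h2, zero_mul, zero_mul]

private theorem nd_cancel {r : ZMod p} {Q R : (ZMod p)[X]} (h : Q = (C r - X) ^ (3 * p) * R)
    (hn : 1 < n) (hd : Q.natDegree ≤ 3 * p - 1 + 6 * n) : R.natDegree < 6 * n := by
  by_cases hR : R = 0
  · rw [hR, natDegree_zero]; omega
  have hpp := hp.out.pos
  have h1 : (C r - X : (ZMod p)[X]).natDegree = 1 := by
    have h2 : (C r - X : (ZMod p)[X]) = -(X - C r) := by ring
    rw [h2, natDegree_neg, natDegree_X_sub_C]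
  have h0 : (C r - X : (ZMod p)[X]) ≠ 0 := by
    intro h3
    rw [h3, natDegree_zero] at h1
    exact one_ne_zero h1.symm
  rw [h, natDegree_mul (pow_ne_zero _ h0) hR, natDegree_pow, h1] at hd
  omega

/-- main comparison: `Q1 = (1-X)^{3p} Q3`, `5 Q2 = (5-X)^{3p} Q3`, `Q3(1) = 0` -/
theorem exists_Q3 (D : Dat p n q h l a e)
    (hPi : PiP p n a (pA ℤ) (pC ℤ) (C 32 * X) = PiP p n a (pB ℤ) (pC ℤ) (C 32 * X ^ 5)) :
    ∃ Q3 : (ZMod p)[X], QP p n l a e (pA ℤ) (pC ℤ) (C 32 * X) = pS (ZMod p) ^ (3 * p) * Q3 ∧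
      5 * QP p n l a e (pB ℤ) (pC ℤ) (C 32 * X ^ 5) = pF (ZMod p) ^ (3 * p) * Q3 ∧ Q3.eval 1 = 0 := by
  have hc10 := cop10 D
  have h2ne : ((2 : ℕ) : ZMod p) ≠ 0 := nat_ne_zero (by norm_num) hc10
  have h10ne : ((10 : ℕ) : ZMod p) ≠ 0 := nat_ne_zero (by norm_num) hc10
  have h32ne : ((32 : ℕ) : ZMod p) ≠ 0 := nat_ne_zero (by norm_num) hc10
  push_cast at h2ne h10ne h32ne
  have bA : br p (pA ℤ) = X + 1 := by simp [br, pA]
  have bB : br p (pB ℤ) = X + 5 := by simp [br, pB]
  have bC : br p (pC ℤ) = X ^ 2 - 4 * X + 5 := by simp [br, pC]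
  have bS : br p (pS ℤ) = C 1 - X := by simp [br, pS]
  have e55 : (C 5 : (ZMod p)[X]) = 5 := map_ofNat (C : ZMod p →+* (ZMod p)[X]) 5
  have bF : br p (pF ℤ) = C 5 - X := by rw [e55]; simp [br, pF]
  have e1 : pS (ZMod p) = C 1 - X := by simp [pS]
  have e5 : pF (ZMod p) = C 5 - X := by rw [e55, pF]
  obtain ⟨Y1, hY1⟩ := QP_div D cov1.hden (j := 1) (by rw [pow_one])
  obtain ⟨Y2, hY2⟩ := QP_div D cov2.hden (j := 5) rfl
  have hD1 := QP_deriv D cov1
  have hD2 := QP_deriv D cov2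
  have hN1 : (QP p n l a e (pA ℤ) (pC ℤ) (C 32 * X)).natDegree ≤ 3 * p - 1 + 6 * n := by
    have := QP_natDegree D (A := pA ℤ) (α := 1) (by simp [pA]) (j := 1) le_rfl (by norm_num)
    rwa [pow_one] at this
  have hN2 : (QP p n l a e (pB ℤ) (pC ℤ) (C 32 * X ^ 5)).natDegree ≤ 3 * p - 1 + 6 * n :=
    QP_natDegree D (A := pB ℤ) (α := 5) (by simp [pB]) (j := 5) (by norm_num) (by norm_num)
  have hq1 : (C 1 - X) ^ (3 * p) ∣ QP p n l a e (pA ℤ) (pC ℤ) (C 32 * X) := by
    refine dvd_of_cop (W := (br p (pS ℤ) * Y1 + 4 * br p (pD ℤ) ^ p * br p (dl p (pS ℤ)) *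
      PiP p n a (pA ℤ) (pC ℤ) (C 32 * X) * (br p (pA ℤ) ^ 4 * br p (pC ℤ)) ^ n))
      (A := br p (pA ℤ)) (c := br p (pC ℤ)) (cop_lin ?_) (cop_lin ?_) (by rw [hY1, bS])
    · rw [bA]
      simp only [eval_add, eval_X, eval_one]
      norm_num
      exact h2ne
    · rw [bC]
      simp only [eval_add, eval_X, eval_sub, eval_mul, eval_pow, eval_ofNat]
      norm_num
      exact h2ne
  have hq2 : (C 5 - X) ^ (3 * p) ∣ QP p n l a e (pB ℤ) (pC ℤ) (C 32 * X ^ 5) := by
    refine dvd_of_cop (W := (br p (pF ℤ) * Y2 + 4 * br p (pD ℤ) ^ p * br p (dl p (pF ℤ)) *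
      PiP p n a (pB ℤ) (pC ℤ) (C 32 * X ^ 5) * (br p (pB ℤ) ^ 4 * br p (pC ℤ)) ^ n))
      (A := br p (pB ℤ)) (c := br p (pC ℤ)) (cop_lin ?_) (cop_lin ?_) (by rw [hY2, bF])
    · rw [bB]
      simp only [eval_add, eval_X, eval_ofNat]
      norm_num
      exact h10ne
    · rw [bC]
      simp only [eval_add, eval_X, eval_sub, eval_mul, eval_pow, eval_ofNat]
      norm_num
      exact h10ne
  obtain ⟨Q3, hQ3⟩ := hq1
  obtain ⟨Q4, hQ4⟩ := hq2
  have hn3 := nd_cancel hQ3 D.hn hN1
  have hn4 := nd_cancel hQ4 D.hn hN2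
  have hs1 : (C 1 - X : (ZMod p)[X]) ^ (3 * p) ≠ 0 := by
    apply pow_ne_zero
    intro h3
    have := congrArg (fun q : (ZMod p)[X] => q.coeff 1) h3
    simp [coeff_one] at this
  have hs5 : (C 5 - X : (ZMod p)[X]) ^ (3 * p) ≠ 0 := by
    apply pow_ne_zero
    intro h3
    have := congrArg (fun q : (ZMod p)[X] => q.coeff 1) h3
    simp at this
  have hfive : ((5 : ℤ) : ZMod p) = 5 := by norm_num
  have hone : ((1 : ℤ) : ZMod p) = 1 := by norm_num
  rw [← hPi, bF, hone, C_1, one_mul] at hD2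
  rw [bS, hfive] at hD1
  have hX0 : Q3 - 5 * Q4 = 0 := by
    refine log_deriv_zero D.hpn D.pi_even D.pi_natDegree D.pi_coeff_zero ?_ ?_
    · refine lt_of_le_of_lt (natDegree_sub_le _ _) (max_lt hn3 ?_)
      refine lt_of_le_of_lt ?_ hn4
      rw [show (5 : (ZMod p)[X]) = C 5 from (map_ofNat (C : ZMod p →+* (ZMod p)[X]) 5).symm]
      exact natDegree_C_mul_le _ _
    · apply mul_left_cancel₀ (mul_ne_zero (mul_ne_zero (X_ne_zero (R := ZMod p)) hs1) hs5)
      rw [hQ3, derivative_mul, deriv_pow_p] at hD1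
      rw [hQ4, derivative_mul, deriv_pow_p] at hD2
      rw [derivative_sub, derivative_mul, derivative_ofNat]
      generalize (C 1 - X : (ZMod p)[X]) ^ (3 * p) = S1 at *
      generalize (C 5 - X : (ZMod p)[X]) ^ (3 * p) = S5 at *
      rw [e55] at hD1
      linear_combination S5 * hD1 - 5 * S1 * hD2
  refine ⟨Q3, ?_, ?_, ?_⟩
  · rw [e1]; exact hQ3
  · rw [hQ4, e5]
    linear_combination -(C 5 - X) ^ (3 * p) * hX0
  · rw [hQ3, bS] at hY1
    have h1 : Q3 * br p (pA ℤ) ^ (3 * p) * (br p (pA ℤ) ^ 4 * br p (pC ℤ)) ^ n =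
        ((C 1 - X) * Y1 + 4 * br p (pD ℤ) ^ p * br p (dl p (pS ℤ)) *
        PiP p n a (pA ℤ) (pC ℤ) (C 32 * X) * (br p (pA ℤ) ^ 4 * br p (pC ℤ)) ^ n) := by
      apply mul_left_cancel₀ hs1
      rw [← hY1]
      ring
    have h2 : (br p (dl p (pS ℤ))).eval 1 = 0 := by
      have h3 := congrArg (fun q : ℤ[X] => q.eval 1) (dl_spec p (pS ℤ))
      simp only [expand_eval, one_pow, eval_add, eval_pow, eval_mul, eval_C] at h3
      have h4 : (pS ℤ).eval 1 = 0 := by simp [pS]
      rw [h4, zero_pow hp.out.ne_zero, zero_add] at h3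
      have h5 : (p : ℤ) ≠ 0 := by exact_mod_cast hp.out.ne_zero
      have h6 := (mul_eq_zero.1 h3.symm).resolve_left h5
      have h7 : eval (Int.castRingHom (ZMod p) 1) ((dl p (pS ℤ)).map (Int.castRingHom (ZMod p))) =
          (Int.castRingHom (ZMod p)) ((dl p (pS ℤ)).eval 1) := by
        rw [eval_map, eval₂_at_apply]
      rw [map_one, h6, map_zero] at h7
      exact h7
    have h3 := congrArg (fun q : (ZMod p)[X] => q.eval 1) h1
    simp only [eval_mul, eval_add, eval_sub, eval_C, eval_X, eval_pow, h2, sub_self, zero_mul,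
      mul_zero, add_zero] at h3
    rw [bA, bC] at h3
    simp only [eval_add, eval_X, eval_sub, eval_mul, eval_pow, eval_ofNat, eval_one] at h3
    rcases mul_eq_zero.1 h3 with h4 | h4
    · rcases mul_eq_zero.1 h4 with h5 | h5
      · exact h5
      · exfalso
        have := pow_eq_zero_iff (by have := hp.out.pos; omega) |>.1 h5
        apply h2ne
        rw [← this]
        norm_num
    · exfalso
      have h5 : ((1 + 1) ^ 4 * (1 ^ 2 - 4 * 1 + 5) : ZMod p) = 0 :=
        pow_eq_zero_iff (by have := D.hn; omega) |>.1 h4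
      apply h32ne
      rw [← h5]
      norm_num

end

end Cec
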