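import Pool.Agent.Cec.Seq

/-!
# MP_cec948_nt: the two coverings as power series over `ℤ_[p]`
-/

namespace Cec

open PowerSeries

noncomputable section

variable {p : ℕ} [hp : Fact p.Prime]

lemma cec_isUnit_of_not_dvd {m : ℕ} (h : ¬ p ∣ m) : IsUnit ((m : ℕ) : ℤ_[p]) := by
  rw [PadicInt.isUnit_iff]
  by_contra h1
  apply h
  have h2 : ‖((m : ℕ) : ℤ_[p])‖ < 1 := lt_of_le_of_ne (PadicInt.norm_le_one _) h1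
  have h3 : ‖(((m : ℕ) : ℤ) : ℤ_[p])‖ < 1 := by simpa using h2
  rw [PadicInt.norm_int_lt_one_iff_dvd] at h3
  exact_mod_cast h3

omit hp in
lemma cec_not_dvd_of_lt {m : ℕ} (h0 : 0 < m) (h : m < p) : ¬ p ∣ m := fun h' =>
  absurd (Nat.le_of_dvd h0 h') (by omega)

theorem exists_zs (h5 : 5 < p) : ∃ z1 z2 : ℤ_[p]⟦X⟧,
    z1 * ((X + 1) ^ 4 * (X ^ 2 - 4 * X + 5)) = 32 * X ∧
    z2 * ((X + 5) ^ 4 * (X ^ 2 - 4 * X + 5)) = 32 * X ^ 5 := by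
  have u5 : IsUnit (5 : ℤ_[p]) := by
    simpa using cec_isUnit_of_not_dvd (p := p) (m := 5) (cec_not_dvd_of_lt (by norm_num) h5)
  have k5 : constantCoeff (5 : ℤ_[p]⟦X⟧) = 5 := map_ofNat _ 5
  have c1 : IsUnit (((X : ℤ_[p]⟦X⟧) + 1) ^ 4 * (X ^ 2 - 4 * X + 5)) := by
    rw [PowerSeries.isUnit_iff_constantCoeff]
    have : constantCoeff (((X : ℤ_[p]⟦X⟧) + 1) ^ 4 * (X ^ 2 - 4 * X + 5)) = 5 := by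
      simp [k5]
    rw [this]; exact u5
  have c2 : IsUnit (((X : ℤ_[p]⟦X⟧) + 5) ^ 4 * (X ^ 2 - 4 * X + 5)) := by
    rw [PowerSeries.isUnit_iff_constantCoeff]
    have : constantCoeff (((X : ℤ_[p]⟦X⟧) + 5) ^ 4 * (X ^ 2 - 4 * X + 5)) = 5 ^ 4 * 5 := by
      simp [k5]
    rw [this]; exact (u5.pow 4).mul u5
  obtain ⟨v1, hv1⟩ := c1
  obtain ⟨v2, hv2⟩ := c2
  refine ⟨32 * X * ((v1⁻¹ : (ℤ_[p]⟦X⟧)ˣ) : ℤ_[p]⟦X⟧), 32 * X ^ 5 * ((v2⁻¹ : (ℤ_[p]⟦X⟧)ˣ) : ℤ_[p]⟦X⟧), ?_, ?_⟩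
  · rw [← hv1, mul_assoc, Units.inv_mul, mul_one]
  · rw [← hv2, mul_assoc, Units.inv_mul, mul_one]

theorem exists_qh (h2 : 2 < p) : ∃ q h q' : ℤ_[p], 4 * q = 1 ∧ 2 * h = 1 ∧ 4 * q' = 3 := by
  have u2 : IsUnit (2 : ℤ_[p]) := by
    simpa using cec_isUnit_of_not_dvd (p := p) (m := 2) (cec_not_dvd_of_lt (by norm_num) h2)
  obtain ⟨v, hv⟩ := u2
  have hv' : (2 : ℤ_[p]) * ((v⁻¹ : (ℤ_[p])ˣ) : ℤ_[p]) = 1 := by rw [← hv, Units.mul_inv]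
  refine ⟨((v⁻¹ : (ℤ_[p])ˣ) : ℤ_[p]) ^ 2, ((v⁻¹ : (ℤ_[p])ˣ) : ℤ_[p]), 3 * ((v⁻¹ : (ℤ_[p])ˣ) : ℤ_[p]) ^ 2, ?_, hv', ?_⟩
  · linear_combination (2 * ((v⁻¹ : (ℤ_[p])ˣ) : ℤ_[p]) + 1) * hv'
  · linear_combination 3 * (2 * ((v⁻¹ : (ℤ_[p])ˣ) : ℤ_[p]) + 1) * hv'

end

end Cec
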