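import Pool.Agent.Cec.AsmB
import Pool.Agent.Cec.X0
import Pool.Agent.Cec.Dwork
import Pool.Agent.Cec.FE
import Pool.Agent.Cec.Zs
import Pool.Agent.Cec.Gauss

/-!
# MP_cec948_nt: `T_p = P(1)` modulo `p^2`
-/

set_option linter.unusedSectionVars false

namespace Cec

open Finset SC24

noncomputable section

variable {p : ℕ} [hp : Fact p.Prime]

open PowerSeries in
theorem asm_phi {a2 e2 : ℕ → ZMod (p ^ (2:ℕ))}
    (hdw : ∀ m k, k < p → a2 (m * p + k) = a2 m * (a2 k + P2 p * m * e2 k))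
    {Z δ ρ : (ZMod (p ^ (2:ℕ)))⟦X⟧} (hX : X ∣ Z)
    (hδ : Z ^ p = PowerSeries.expand p hp.out.ne_zero Z + C (P2 p) * δ)
    (hrel : (∑ k ∈ range p, C (red p (e2 k)) * (PowerSeries.map (red p) Z) ^ k) * (PowerSeries.map (red p) Z) ^ p +
      (∑ k ∈ range p, C (red p (a2 k)) * (PowerSeries.map (red p) Z) ^ k) * PowerSeries.map (red p) δ =
      (∑ k ∈ range p, C (red p (a2 k)) * (PowerSeries.map (red p) Z) ^ k) *
        (d⁄dX (ZMod p) (PowerSeries.map (red p) Z)) ^ p * PowerSeries.map (red p) ρ) :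
    cmp a2 Z = (∑ k ∈ range p, C (a2 k) * Z ^ k) * (PowerSeries.expand p hp.out.ne_zero (cmp a2 Z) +
      C (P2 p) * ρ * PowerSeries.expand p hp.out.ne_zero (d⁄dX (ZMod (p ^ (2:ℕ))) (cmp a2 Z))) := by
  have h1 := cmp_dwork hp.out.pos (P2 p) (P2_mul_self p) a2 a2 e2 hdw hX (X_dvd_expand hp.out.ne_zero hX) hδ
  have hsum : ∀ f : ℕ → ZMod (p ^ (2:ℕ)), PowerSeries.map (red p) (∑ k ∈ range p, C (f k) * Z ^ k) =
      ∑ k ∈ range p, C (red p (f k)) * (PowerSeries.map (red p) Z) ^ k := by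
    intro f
    rw [map_sum]
    apply Finset.sum_congr rfl
    intro k _
    rw [map_mul, map_pow, PowerSeries.map_C]
  have hder : PowerSeries.map (red p) (d⁄dX (ZMod (p ^ (2:ℕ))) Z) = d⁄dX (ZMod p) (PowerSeries.map (red p) Z) := by
    ext m
    rw [PowerSeries.coeff_map, PowerSeries.coeff_derivative, PowerSeries.coeff_derivative,
      PowerSeries.coeff_map, map_mul, map_add, map_natCast, map_one]
  have h2 : C (P2 p) * ((∑ k ∈ range p, C (e2 k) * Z ^ k) * PowerSeries.expand p hp.out.ne_zero Z +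
      (∑ k ∈ range p, C (a2 k) * Z ^ k) * δ) =
      C (P2 p) * ((∑ k ∈ range p, C (a2 k) * Z ^ k) *
        PowerSeries.expand p hp.out.ne_zero (d⁄dX (ZMod (p ^ (2:ℕ))) Z) * ρ) := by
    apply as_P_congr
    rw [map_add, map_mul, map_mul, map_mul, map_mul, hsum, hsum, as_map_expand, as_map_expand, hder]
    exact hrel
  have h3 : PowerSeries.expand p hp.out.ne_zero (d⁄dX (ZMod (p ^ (2:ℕ))) (cmp a2 Z)) =
      cmp (dsq a2) (PowerSeries.expand p hp.out.ne_zero Z) *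
        PowerSeries.expand p hp.out.ne_zero (d⁄dX (ZMod (p ^ (2:ℕ))) Z) := by
    rw [cmp_deriv a2 hX, map_mul, cmp_expand hp.out.ne_zero _ hX]
  rw [h3, cmp_expand hp.out.ne_zero _ hX]
  rw [h2] at h1
  linear_combination h1

open PowerSeries in
/-- comparison of the two composites -/
theorem asm_main {F1 F2 P1 P2' ρ : (ZMod (p ^ (2:ℕ)))⟦X⟧} (hM : (X + 5) * F1 = 5 * (X + 1) * F2)
    (h1 : F1 = P1 * (PowerSeries.expand p hp.out.ne_zero F1 +
      C (P2 p) * ρ * PowerSeries.expand p hp.out.ne_zero (d⁄dX (ZMod (p ^ (2:ℕ))) F1)))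
    (h2 : F2 = P2' * (PowerSeries.expand p hp.out.ne_zero F2 +
      C (P2 p) * ρ * PowerSeries.expand p hp.out.ne_zero (d⁄dX (ZMod (p ^ (2:ℕ))) F2)))
    (h0 : constantCoeff F2 = 1) :
    (X + 5) * P1 * (5 * (X ^ p + 1) * (X ^ p + 5) + 20 * C (P2 p) * ρ) =
      5 * (X + 1) * (X ^ p + 5) ^ 2 * P2' := by
  have e1 := congrArg (PowerSeries.expand p hp.out.ne_zero) hM
  simp only [map_mul, map_add, PowerSeries.expand_X, map_ofNat, map_one] at e1
  have e2 := congrArg (fun t => PowerSeries.expand p hp.out.ne_zero (d⁄dX (ZMod (p ^ (2:ℕ))) t)) hM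
  have hd5 : d⁄dX (ZMod (p ^ (2:ℕ))) (5 : (ZMod (p ^ (2:ℕ)))⟦X⟧) = 0 := by
    have := Derivation.map_natCast (d⁄dX (ZMod (p ^ (2:ℕ)))) 5
    simpa using this
  have hd1 : d⁄dX (ZMod (p ^ (2:ℕ))) (1 : (ZMod (p ^ (2:ℕ)))⟦X⟧) = 0 := PowerSeries.derivative_one
  simp only [Derivation.leibniz, smul_eq_mul, map_add, map_mul, hd5, hd1, PowerSeries.derivative_X, map_zero, mul_zero,
    PowerSeries.expand_X, map_ofNat, map_one] at e2
  have hu : IsUnit F2 := by
    rw [PowerSeries.isUnit_iff_constantCoeff, h0]; exact isUnit_one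
  have hL : IsUnit (PowerSeries.expand p hp.out.ne_zero F2 +
      C (P2 p) * ρ * PowerSeries.expand p hp.out.ne_zero (d⁄dX (ZMod (p ^ (2:ℕ))) F2)) := by
    rw [h2] at hu
    exact isUnit_of_mul_isUnit_right hu
  have hPP := as_CP_mul p
  generalize PowerSeries.expand p hp.out.ne_zero F1 = F1T at *
  generalize PowerSeries.expand p hp.out.ne_zero F2 = F2T at *
  generalize PowerSeries.expand p hp.out.ne_zero (d⁄dX (ZMod (p ^ (2:ℕ))) F1) = D1T at *
  generalize PowerSeries.expand p hp.out.ne_zero (d⁄dX (ZMod (p ^ (2:ℕ))) F2) = D2T at *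
  generalize (C (P2 p) : (ZMod (p ^ (2:ℕ)))⟦X⟧) = PP at *
  have e3 : (X ^ p + 5) ^ 2 * (F1T + PP * ρ * D1T) =
      (5 * (X ^ p + 1) * (X ^ p + 5) + 20 * PP * ρ) * (F2T + PP * ρ * D2T) := by
    linear_combination (X ^ p + 5) * e1 + PP * ρ * ((X ^ p + 5) * e2 - e1) - 20 * ρ ^ 2 * D2T * hPP
  apply hL.mul_left_injective
  show _ * (F2T + PP * ρ * D2T) = _ * (F2T + PP * ρ * D2T)
  linear_combination (X ^ p + 5) ^ 2 * hM - (X + 5) * (X ^ p + 5) ^ 2 * h1 +
    5 * (X + 1) * (X ^ p + 5) ^ 2 * h2 - (X + 5) * P1 * e3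

theorem hm_hom {R A B : Type*} [CommRing R] [CommRing A] [CommRing B] [Algebra R A] (g : A →+* B) (f : ℕ → R)
    (N : ℕ) (x y : A) : g (hm f N x y) = ∑ k ∈ range (N + 1), g (algebraMap R A (f k)) * g x ^ k * g y ^ (N - k) := by
  unfold hm
  rw [map_sum]
  apply Finset.sum_congr rfl
  intro k _
  rw [map_mul, map_mul, map_pow, map_pow]

open Polynomial in
/-- passage to polynomials and evaluation at `1` -/
theorem asm_eval (h5 : 5 < p) {a2 : ℕ → ZMod (p ^ (2:ℕ))} {Z1 Z2 : PowerSeries (ZMod (p ^ (2:ℕ)))}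
    {Pt Q3t : (ZMod (p ^ (2:ℕ)))[X]}
    (hZ1 : Z1 * ((PowerSeries.X + 1) ^ 4 * (PowerSeries.X ^ 2 - 4 * PowerSeries.X + 5)) = 32 * PowerSeries.X)
    (hZ2 : Z2 * ((PowerSeries.X + 5) ^ 4 * (PowerSeries.X ^ 2 - 4 * PowerSeries.X + 5)) = 32 * PowerSeries.X ^ 5)
    (hmain : (PowerSeries.X + 5) * (∑ k ∈ range p, PowerSeries.C (a2 k) * Z1 ^ k) *
      (5 * (PowerSeries.X ^ p + 1) * (PowerSeries.X ^ p + 5) * (Pt : PowerSeries (ZMod (p ^ (2:ℕ)))) +
        4 * PowerSeries.C (P2 p) * PowerSeries.X ^ p * (Q3t : PowerSeries (ZMod (p ^ (2:ℕ))))) =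
      5 * (PowerSeries.X + 1) * (PowerSeries.X ^ p + 5) ^ 2 * (Pt : PowerSeries (ZMod (p ^ (2:ℕ)))) *
        (∑ k ∈ range p, PowerSeries.C (a2 k) * Z2 ^ k))
    (hPt : IsUnit (Pt.eval 1)) (hQ : red p (Q3t.eval 1) = 0) {t : ZMod (p ^ (2:ℕ))} (ht : 81 * t = 1) :
    ∑ k ∈ range p, a2 k * t ^ k = ∑ k ∈ range p, a2 k := by
  have hp1 : p - 1 + 1 = p := Nat.sub_add_cancel hp.out.one_le
  set d1 : (ZMod (p ^ (2:ℕ)))[X] := (X + 1) ^ 4 * (X ^ 2 - 4 * X + 5) with hd1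
  set d2 : (ZMod (p ^ (2:ℕ)))[X] := (X + 5) ^ 4 * (X ^ 2 - 4 * X + 5) with hd2
  have c4 : ((4 : (ZMod (p ^ (2:ℕ)))[X]) : PowerSeries (ZMod (p ^ (2:ℕ)))) = 4 :=
    map_ofNat (Polynomial.coeToPowerSeries.ringHom) 4
  have c5 : ((5 : (ZMod (p ^ (2:ℕ)))[X]) : PowerSeries (ZMod (p ^ (2:ℕ)))) = 5 :=
    map_ofNat (Polynomial.coeToPowerSeries.ringHom) 5
  have c32 : ((32 : (ZMod (p ^ (2:ℕ)))[X]) : PowerSeries (ZMod (p ^ (2:ℕ)))) = 32 :=
    map_ofNat (Polynomial.coeToPowerSeries.ringHom) 32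
  have csub : ∀ f g : (ZMod (p ^ (2:ℕ)))[X], ((f - g : (ZMod (p ^ (2:ℕ)))[X]) : PowerSeries (ZMod (p ^ (2:ℕ)))) = f - g :=
    fun f g => map_sub (Polynomial.coeToPowerSeries.ringHom) f g
  have cd1 : (d1 : PowerSeries (ZMod (p ^ (2:ℕ)))) =
      (PowerSeries.X + 1) ^ 4 * (PowerSeries.X ^ 2 - 4 * PowerSeries.X + 5) := by
    rw [hd1]
    simp only [Polynomial.coe_mul, Polynomial.coe_pow, Polynomial.coe_add, csub, Polynomial.coe_X, Polynomial.coe_one,
      c4, c5]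
  have cd2 : (d2 : PowerSeries (ZMod (p ^ (2:ℕ)))) =
      (PowerSeries.X + 5) ^ 4 * (PowerSeries.X ^ 2 - 4 * PowerSeries.X + 5) := by
    rw [hd2]
    simp only [Polynomial.coe_mul, Polynomial.coe_pow, Polynomial.coe_add, csub, Polynomial.coe_X, c4, c5]
  have H1 : ((hm a2 (p - 1) (32 * X) d1 : (ZMod (p ^ (2:ℕ)))[X]) : PowerSeries (ZMod (p ^ (2:ℕ)))) =
      (d1 : PowerSeries (ZMod (p ^ (2:ℕ)))) ^ (p - 1) * ∑ k ∈ range p, PowerSeries.C (a2 k) * Z1 ^ k := by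
    rw [hm_coe, hm_eq a2 (p - 1) (z := Z1) (by
      rw [cd1, Polynomial.coe_mul, c32, Polynomial.coe_X, ← hZ1, mul_comm]), hp1]
    rfl
  have H2 : ((hm a2 (p - 1) (32 * X ^ 5) d2 : (ZMod (p ^ (2:ℕ)))[X]) : PowerSeries (ZMod (p ^ (2:ℕ)))) =
      (d2 : PowerSeries (ZMod (p ^ (2:ℕ)))) ^ (p - 1) * ∑ k ∈ range p, PowerSeries.C (a2 k) * Z2 ^ k := by
    rw [hm_coe, hm_eq a2 (p - 1) (z := Z2) (by
      rw [cd2, Polynomial.coe_mul, c32, Polynomial.coe_pow, Polynomial.coe_X, ← hZ2, mul_comm]), hp1]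
    rfl
  have hpoly : (X + 5) * hm a2 (p - 1) (32 * X) d1 * d2 ^ (p - 1) *
      (5 * (X ^ p + 1) * (X ^ p + 5) * Pt + 4 * C (P2 p) * X ^ p * Q3t) =
      5 * (X + 1) * (X ^ p + 5) ^ 2 * Pt * hm a2 (p - 1) (32 * X ^ 5) d2 * d1 ^ (p - 1) := by
    apply Polynomial.coe_injective
    simp only [Polynomial.coe_mul, Polynomial.coe_pow, Polynomial.coe_add, Polynomial.coe_X, Polynomial.coe_one,
      Polynomial.coe_C, c4, c5, H1, H2]
    linear_combination ((d1 : PowerSeries (ZMod (p ^ (2:ℕ)))) ^ (p - 1) *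
      (d2 : PowerSeries (ZMod (p ^ (2:ℕ)))) ^ (p - 1)) * hmain
  have hev := congrArg (Polynomial.evalRingHom (1 : ZMod (p ^ (2:ℕ)))) hpoly
  simp only [map_mul, map_add, map_pow, map_ofNat, map_one, Polynomial.coe_evalRingHom, Polynomial.eval_X,
    Polynomial.eval_C, one_pow] at hev
  have hd1e : (Polynomial.evalRingHom (1 : ZMod (p ^ (2:ℕ)))) d1 = 32 := by
    rw [hd1]
    simp only [map_mul, map_add, map_sub, map_pow, map_ofNat, map_one, Polynomial.coe_evalRingHom, Polynomial.eval_X]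
    norm_num
  have hd2e : (Polynomial.evalRingHom (1 : ZMod (p ^ (2:ℕ)))) d2 = 2592 := by
    rw [hd2]
    simp only [map_mul, map_add, map_sub, map_pow, map_ofNat, map_one, Polynomial.coe_evalRingHom, Polynomial.eval_X]
    norm_num
  have E1 : Polynomial.eval 1 (hm a2 (p - 1) (32 * X) d1) = 32 ^ (p - 1) * ∑ k ∈ range p, a2 k := by
    have h1 := hm_hom (Polynomial.evalRingHom (1 : ZMod (p ^ (2:ℕ)))) a2 (p - 1) (32 * X) d1
    rw [hd1e, hp1] at h1
    rw [Polynomial.coe_evalRingHom] at h1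
    rw [h1, Finset.mul_sum]
    apply Finset.sum_congr rfl
    intro k hk
    rw [mem_range] at hk
    have : (32 : ZMod (p ^ (2:ℕ))) ^ (p - 1) = 32 ^ k * 32 ^ (p - 1 - k) := by rw [← pow_add]; congr 1; omega
    rw [this, Polynomial.algebraMap_eq, Polynomial.eval_C]
    have h2 : Polynomial.eval (1 : ZMod (p ^ (2:ℕ))) (32 * X) = 32 := by
      have := map_mul (Polynomial.evalRingHom (1 : ZMod (p ^ (2:ℕ)))) 32 X
      rw [map_ofNat, Polynomial.coe_evalRingHom, Polynomial.eval_X, mul_one] at this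
      exact this
    rw [h2]
    ring
  have E2 : Polynomial.eval 1 (hm a2 (p - 1) (32 * X ^ 5) d2) = 2592 ^ (p - 1) * ∑ k ∈ range p, a2 k * t ^ k := by
    have h1 := hm_hom (Polynomial.evalRingHom (1 : ZMod (p ^ (2:ℕ)))) a2 (p - 1) (32 * X ^ 5) d2
    rw [hd2e, hp1] at h1
    rw [Polynomial.coe_evalRingHom] at h1
    rw [h1, Finset.mul_sum]
    apply Finset.sum_congr rfl
    intro k hk
    rw [mem_range] at hk
    have : (2592 : ZMod (p ^ (2:ℕ))) ^ (p - 1) = 2592 ^ k * 2592 ^ (p - 1 - k) := by rw [← pow_add]; congr 1; omega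
    rw [this, Polynomial.algebraMap_eq, Polynomial.eval_C]
    have h2 : Polynomial.eval (1 : ZMod (p ^ (2:ℕ))) (32 * X ^ 5) = 2592 * t := by
      have := map_mul (Polynomial.evalRingHom (1 : ZMod (p ^ (2:ℕ)))) 32 (X ^ 5)
      rw [map_ofNat, map_pow, Polynomial.coe_evalRingHom, Polynomial.eval_X, one_pow, mul_one] at this
      rw [this]
      linear_combination (-32) * ht
    rw [h2, mul_pow]
    ring
  have hPQ : P2 p * Q3t.eval 1 = 0 := by
    have := P_mul_congr (x := Q3t.eval 1) (y := 0) (by rw [hQ, map_zero])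
    rw [this, mul_zero]
  have u : ∀ m : ℕ, m ≠ 0 → (∀ r, r.Prime → r ∣ m → r ≤ 5) → IsUnit (m : ZMod (p ^ (2:ℕ))) := by
    intro m hm h
    apply isUnit_num
    intro hd
    exact absurd (h p hp.out hd) (by omega)
  have u32 : IsUnit (32 : ZMod (p ^ (2:ℕ))) := by
    have := u 32 (by norm_num) (by
      intro r hr hd
      have h1 : r ∣ 2 ^ 5 := by simpa using hd
      have := (Nat.prime_dvd_prime_iff_eq hr Nat.prime_two).mp (hr.dvd_of_dvd_pow h1)
      omega)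
    exact_mod_cast this
  have u81 : IsUnit (81 : ZMod (p ^ (2:ℕ))) := IsUnit.of_mul_eq_one t ht
  have u2592 : IsUnit (2592 : ZMod (p ^ (2:ℕ))) := by
    have := u32.mul u81
    norm_num at this
    exact this
  have u360 : IsUnit (360 : ZMod (p ^ (2:ℕ))) := by
    have := u 360 (by norm_num) (by
      intro r hr hd
      have h1 : r ∣ 2 ^ 3 * (3 ^ 2 * 5) := by simpa using hd
      rcases hr.dvd_mul.mp h1 with h2 | h2
      · have := (Nat.prime_dvd_prime_iff_eq hr Nat.prime_two).mp (hr.dvd_of_dvd_pow h2)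
        omega
      · rcases hr.dvd_mul.mp h2 with h3 | h3
        · have := (Nat.prime_dvd_prime_iff_eq hr Nat.prime_three).mp (hr.dvd_of_dvd_pow h3)
          omega
        · have := (Nat.prime_dvd_prime_iff_eq hr Nat.prime_five).mp h3
          omega)
    exact_mod_cast this
  rw [Polynomial.coe_evalRingHom] at hd1e hd2e
  rw [E1, E2, hd1e, hd2e] at hev
  have hunit := (((u360.mul hPt).mul (u32.pow (p - 1))).mul (u2592.pow (p - 1)))
  apply hunit.mul_right_injective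
  show _ * ∑ k ∈ range p, a2 k * t ^ k = _ * ∑ k ∈ range p, a2 k
  linear_combination -hev + (24 * 32 ^ (p - 1) * (∑ k ∈ range p, a2 k) * 2592 ^ (p - 1)) * hPQ

section
variable (R : Type*) [CommRing R]

theorem ci_pA : ci R (pA ℤ) = PowerSeries.X + 1 := by unfold pA; rw [map_add, ci_X, map_one]
theorem ci_pB : ci R (pB ℤ) = PowerSeries.X + 5 := by unfold pB; rw [map_add, ci_X, map_ofNat]
theorem ci_pC : ci R (pC ℤ) = PowerSeries.X ^ 2 - 4 * PowerSeries.X + 5 := by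
  unfold pC; rw [map_add, map_sub, map_mul, map_pow, ci_X, map_ofNat, map_ofNat]
theorem ci_nu (j : ℕ) : ci R (Polynomial.C 32 * Polynomial.X ^ j) = 32 * PowerSeries.X ^ j := by
  rw [map_mul, map_pow, ci_X, ci_C]
  congr 1
  rw [Int.cast_ofNat, map_ofNat]
end

open PowerSeries in
theorem T_eq_P1 (h5 : 5 < p) {n : ℕ} (hpn : p = 4 * n + 1) {q h : ℤ_[p]} (hq : 4 * q = 1) (hh : 2 * h = 1)
    {a : ℕ → ℤ_[p]} (ha : HS q h a) {t : ZMod (p ^ (2:ℕ))} (ht : 81 * t = 1) :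
    ∑ k ∈ range p, φ2 p (a k) * t ^ k = ∑ k ∈ range p, φ2 p (a k) := by
  obtain ⟨z1, z2, h1, h2⟩ := exists_zs h5
  have fe := fe1 hq hh ha h1 h2
  obtain ⟨e2, he, hl, hes⟩ := dwork_one h5 hpn hq hh ha
  have hb := (ha.map (φ2 p)).map (red p)
  have hqb : 4 * red p (φ2 p q) = 1 := by
    have := congrArg (fun x => red p (φ2 p x)) hq
    simp only [map_mul, map_ofNat, map_one] at this
    exact this
  have hhb : 2 * red p (φ2 p h) = 1 := by
    have := congrArg (fun x => red p (φ2 p x)) hh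
    simp only [map_mul, map_ofNat, map_one] at this
    exact this
  have D : Dat p n (red p (φ2 p q)) (red p (φ2 p h)) (red p (e2 0)) (fun k => red p (φ2 p (a k)))
      (fun k => red p (e2 k)) := mkDat h5 hpn hqb hhb hb.zero (fun k _ => hb.succ k) rfl hes hl
  -- the series modulo `p^2`
  have hZ1 := congrArg (PowerSeries.map (φ2 p)) h1
  have hZ2 := congrArg (PowerSeries.map (φ2 p)) h2
  have FE := congrArg (PowerSeries.map (φ2 p)) fe
  simp only [map_mul, map_add, map_sub, map_pow, PowerSeries.map_X, map_ofNat, map_one] at hZ1 hZ2 FE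
  rw [cmp_map, cmp_map] at FE
  generalize PowerSeries.map (φ2 p) z1 = Z1 at *
  generalize PowerSeries.map (φ2 p) z2 = Z2 at *
  -- the series modulo `p`
  have hz1 := congrArg (PowerSeries.map (red p)) hZ1
  have hz2 := congrArg (PowerSeries.map (red p)) hZ2
  have FEb := congrArg (PowerSeries.map (red p)) FE
  simp only [map_mul, map_add, map_sub, map_pow, PowerSeries.map_X, map_ofNat, map_one] at hz1 hz2 FEb
  rw [cmp_map, cmp_map] at FEb
  have hlu : ∀ m k, k < p → red p (φ2 p (a (m * p + k))) = red p (φ2 p (a m)) * red p (φ2 p (a k)) := by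
    intro m k hk
    rw [he m k hk, map_mul, map_add, map_mul, map_mul, red_P]
    ring
  have hPi := pi_eq h5 hpn (a := fun k => red p (φ2 p (a k))) D.a0 hlu (fun k h1 h2 => D.a_zero h1 h2) hz1 hz2 FEb
  obtain ⟨Q3, hQ1, hQ2, hQ31⟩ := exists_Q3 D hPi
  -- the power series `ρ`
  have hP0 := D.pi_coeff_zero
  set Pr1 : Polynomial (ZMod p) := PiP p n (fun k => red p (φ2 p (a k))) (pA ℤ) (pC ℤ) (Polynomial.C 32 * Polynomial.X) with hPr1
  have h5p : (5 : ZMod p) ≠ 0 := by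
    have : ((5 : ℕ) : ZMod p) ≠ 0 := by
      rw [Ne, ZMod.natCast_eq_zero_iff]
      intro h; exact absurd (Nat.le_of_dvd (by norm_num) h) (by omega)
    exact_mod_cast this
  have hρ : ∃ ρ : (ZMod p)⟦X⟧, 5 * (Pr1 : (ZMod p)⟦X⟧) * ρ = X ^ p * (Q3 : (ZMod p)⟦X⟧) := by
    have hne : constantCoeff (5 * (Pr1 : (ZMod p)⟦X⟧)) ≠ 0 := by
      rw [map_mul, map_ofNat, Polynomial.constantCoeff_coe]
      exact mul_ne_zero h5p hP0
    refine ⟨(5 * (Pr1 : (ZMod p)⟦X⟧))⁻¹ * (X ^ p * (Q3 : (ZMod p)⟦X⟧)), ?_⟩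
    rw [← mul_assoc, PowerSeries.mul_inv_cancel _ hne, one_mul]
  obtain ⟨ρ, hρ⟩ := hρ
  obtain ⟨ρ', hρ'⟩ := as_lift ρ
  obtain ⟨δ1, hδ1⟩ := as_delta Z1
  obtain ⟨δ2, hδ2⟩ := as_delta Z2
  have u5 : IsUnit (5 : ZMod (p ^ (2:ℕ))) := by
    have : IsUnit ((5 : ℕ) : ZMod (p ^ (2:ℕ))) := isUnit_num (by
      intro h; exact absurd (Nat.le_of_dvd (by norm_num) h) (by omega))
    exact_mod_cast this
  have hX1 : X ∣ Z1 := by
    rw [PowerSeries.X_dvd_iff]
    have := congrArg constantCoeff hZ1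
    simp only [map_mul, map_add, map_sub, map_pow, PowerSeries.constantCoeff_X, map_ofNat, map_one] at this
    have h3 : 5 * constantCoeff Z1 = 5 * 0 := by linear_combination this
    exact u5.mul_right_injective h3
  have hX2 : X ∣ Z2 := by
    rw [PowerSeries.X_dvd_iff]
    have := congrArg constantCoeff hZ2
    simp only [map_mul, map_add, map_sub, map_pow, PowerSeries.constantCoeff_X, map_ofNat] at this
    have h3 : 5 ^ 5 * constantCoeff Z2 = 5 ^ 5 * 0 := by linear_combination this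
    exact (u5.pow 5).mul_right_injective h3
  have cA : ci (ZMod p) (pA ℤ) ≠ 0 := by
    rw [ci_pA]
    intro h
    have := congrArg constantCoeff h
    simp only [map_add, PowerSeries.constantCoeff_X, map_one, zero_add, map_zero] at this
    exact one_ne_zero this
  have cB : ci (ZMod p) (pB ℤ) ≠ 0 := by
    rw [ci_pB]
    intro h
    have := congrArg constantCoeff h
    simp only [map_add, PowerSeries.constantCoeff_X, map_ofNat, zero_add, map_zero] at this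
    exact h5p this
  have cC : ci (ZMod p) (pC ℤ) ≠ 0 := by
    rw [ci_pC]
    intro h
    have := congrArg constantCoeff h
    simp only [map_add, map_sub, map_mul, map_pow, PowerSeries.constantCoeff_X, map_ofNat, map_zero] at this
    apply h5p
    linear_combination this
  have s5 : C ((5 : ℤ) : ZMod p) = (5 : (ZMod p)⟦X⟧) := by rw [Int.cast_ofNat, map_ofNat]
  have s1 : C ((1 : ℤ) : ZMod p) = (1 : (ZMod p)⟦X⟧) := by rw [Int.cast_one, map_one]
  have hS : ((pS (ZMod p) : Polynomial (ZMod p)) : (ZMod p)⟦X⟧) = ci (ZMod p) (pS ℤ) := by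
    rw [ci_br]; congr 1; unfold br pS; simp
  have hF : ((pF (ZMod p) : Polynomial (ZMod p)) : (ZMod p)⟦X⟧) = ci (ZMod p) (pF ℤ) := by
    rw [ci_br]; congr 1; unfold br pF; simp
  -- first covering
  have n1 : (Polynomial.C 32 * Polynomial.X : Polynomial ℤ) = Polynomial.C 32 * Polynomial.X ^ 1 := by rw [pow_one]
  have zc1 : Z1 * ci (ZMod (p ^ (2:ℕ))) (pA ℤ ^ 4 * pC ℤ) = ci (ZMod (p ^ (2:ℕ))) (Polynomial.C 32 * Polynomial.X) := by
    rw [n1, ci_nu, map_mul, map_pow, ci_pA, ci_pC, pow_one]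
    exact hZ1
  have zc2 : Z2 * ci (ZMod (p ^ (2:ℕ))) (pB ℤ ^ 4 * pC ℤ) = ci (ZMod (p ^ (2:ℕ))) (Polynomial.C 32 * Polynomial.X ^ 5) := by
    rw [ci_nu, map_mul, map_pow, ci_pB, ci_pC]
    exact hZ2
  have zb1 : PowerSeries.map (red p) Z1 * ci (ZMod p) (pA ℤ ^ 4 * pC ℤ) = ci (ZMod p) (Polynomial.C 32 * Polynomial.X) := by
    rw [n1, ci_nu, map_mul, map_pow, ci_pA, ci_pC, pow_one]
    exact hz1
  have zb2 : PowerSeries.map (red p) Z2 * ci (ZMod p) (pB ℤ ^ 4 * pC ℤ) = ci (ZMod p) (Polynomial.C 32 * Polynomial.X ^ 5) := by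
    rw [ci_nu, map_mul, map_pow, ci_pB, ci_pC]
    exact hz2
  have d1 := as_delta_rel zc1 hδ1
  have d2 := as_delta_rel zc2 hδ2
  have w1 := cov_log cov1 zb1 cA
  have w2 := cov_log cov2 zb2 cB
  have q1 : X ^ p * ((QP p n (red p (e2 0)) (fun k => red p (φ2 p (a k))) (fun k => red p (e2 k)) (pA ℤ) (pC ℤ)
      (Polynomial.C 32 * Polynomial.X) : Polynomial (ZMod p)) : (ZMod p)⟦X⟧) =
      C ((5 : ℤ) : ZMod p) * (ci (ZMod p) (pS ℤ)) ^ (3 * p) * (Pr1 : (ZMod p)⟦X⟧) * ρ := by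
    rw [hQ1, Polynomial.coe_mul, Polynomial.coe_pow, hS, s5]
    linear_combination (-(ci (ZMod p) (pS ℤ)) ^ (3 * p)) * hρ
  have q2 : X ^ p * ((QP p n (red p (e2 0)) (fun k => red p (φ2 p (a k))) (fun k => red p (e2 k)) (pB ℤ) (pC ℤ)
      (Polynomial.C 32 * Polynomial.X ^ 5) : Polynomial (ZMod p)) : (ZMod p)⟦X⟧) =
      C ((1 : ℤ) : ZMod p) * (ci (ZMod p) (pF ℤ)) ^ (3 * p) *
        ((PiP p n (fun k => red p (φ2 p (a k))) (pB ℤ) (pC ℤ) (Polynomial.C 32 * Polynomial.X ^ 5) : Polynomial (ZMod p)) : (ZMod p)⟦X⟧) * ρ := by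
    rw [← hPi, s1]
    have hQ2' := congrArg (fun t : Polynomial (ZMod p) => (t : (ZMod p)⟦X⟧)) hQ2
    beta_reduce at hQ2'
    have c5 : ((5 : Polynomial (ZMod p)) : (ZMod p)⟦X⟧) = 5 := map_ofNat (Polynomial.coeToPowerSeries.ringHom) 5
    rw [Polynomial.coe_mul, Polynomial.coe_mul, Polynomial.coe_pow, hF, c5] at hQ2'
    have h5ne : (5 : (ZMod p)⟦X⟧) ≠ 0 := by
      intro h
      have := congrArg constantCoeff h
      simp only [map_ofNat, map_zero] at this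
      exact h5p this
    apply mul_left_cancel₀ h5ne
    linear_combination (X ^ p : (ZMod p)⟦X⟧) * hQ2' - ((ci (ZMod p) (pF ℤ)) ^ (3 * p)) * hρ
  have r1 := rho_rel D n1 zb1 cA cC d1 w1 q1
  have r2 := rho_rel D rfl zb2 cB cC d2 w2 q2
  rw [← hρ'] at r1 r2
  have p1 := asm_phi he hX1 hδ1 r1
  have p2 := asm_phi he hX2 hδ2 r2
  have hm := asm_main FE p1 p2 (by rw [cmp_const, ha.zero, map_one])
  -- lifts of the polynomials
  have hlift : ∀ f : Polynomial (ZMod p), ∃ g : Polynomial (ZMod (p ^ (2:ℕ))), g.map (red p) = f := by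
    intro f
    have hs : Function.Surjective (red p) := by
      intro x
      refine ⟨(x.val : ZMod (p ^ (2:ℕ))), ?_⟩
      rw [map_natCast, ZMod.natCast_zmod_val]
    exact Polynomial.map_surjective (red p) hs f
  obtain ⟨Pt, hPt⟩ := hlift Pr1
  obtain ⟨Q3t, hQ3t⟩ := hlift Q3
  have hcoe : ∀ f : Polynomial (ZMod (p ^ (2:ℕ))), PowerSeries.map (red p) (f : (ZMod (p ^ (2:ℕ)))⟦X⟧) =
      ((f.map (red p) : Polynomial (ZMod p)) : (ZMod p)⟦X⟧) := by
    intro f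
    ext m
    rw [PowerSeries.coeff_map, Polynomial.coeff_coe, Polynomial.coeff_coe, Polynomial.coeff_map]
  have hPρ : C (P2 p) * (5 * (Pt : (ZMod (p ^ (2:ℕ)))⟦X⟧) * ρ') = C (P2 p) * (X ^ p * (Q3t : (ZMod (p ^ (2:ℕ)))⟦X⟧)) := by
    apply as_P_congr
    rw [map_mul, map_mul, map_mul, map_pow, PowerSeries.map_X, map_ofNat, hcoe, hcoe, hPt, hQ3t, hρ']
    exact hρ
  apply asm_eval h5 hZ1 hZ2 (Pt := Pt) (Q3t := Q3t) _ _ _ ht
  · linear_combination (Pt : (ZMod (p ^ (2:ℕ)))⟦X⟧) * hm - (4 * (X + 5) *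
      (∑ k ∈ range p, C (φ2 p (a k)) * Z1 ^ k)) * hPρ
  · rw [isUnit_iff_red]
    have h6 : red p (Pt.eval 1) = Pr1.eval 1 := by
      rw [← hPt, Polynomial.eval_map]
      have := Polynomial.eval₂_at_apply (p := Pt) (red p) 1
      rw [map_one] at this
      rw [this]
    rw [h6, hPr1, D.pi_eval_one]
    apply mul_ne_zero
    · apply pow_ne_zero
      have : ((32 : ℕ) : ZMod p) ≠ 0 := by
        rw [Ne, ZMod.natCast_eq_zero_iff]
        intro h
        have h1 : p ∣ 2 ^ 5 := by simpa using h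
        have := (Nat.prime_dvd_prime_iff_eq hp.out Nat.prime_two).mp (hp.out.dvd_of_dvd_pow h1)
        omega
      exact_mod_cast this
    · exact D.a1
  · have h6 : red p (Q3t.eval 1) = Q3.eval 1 := by
      rw [← hQ3t, Polynomial.eval_map]
      have := Polynomial.eval₂_at_apply (p := Q3t) (red p) 1
      rw [map_one] at this
      rw [this]
    rw [h6, hQ31]

end

end Cec
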