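import Pool.Agent.SC24.JacL

/-!
# MP_cec948_nt: truncated hypergeometric sums modulo `p^2` at an arbitrary argument
-/

namespace Cec

open Finset SC24

section
variable {p : ℕ} [hp : Fact p.Prime]

/-- truncated hypergeometric sum in `ZMod (p^2)` -/
def hz (p : ℕ) (a b c z : ZMod (p ^ (2:ℕ))) : ZMod (p ^ (2:ℕ)) :=
  ∑ k ∈ range p, poch a k * poch b k * (poch c k * (k.factorial : ZMod (p ^ (2:ℕ))))⁻¹ * z ^ k

/-- hypergeometric term over `ℚ` -/
def tz (a b c z : ℚ) (k : ℕ) : ℚ := poch a k * poch b k / (poch c k * (k.factorial : ℚ)) * z ^ k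

lemma isAff_hz {a b c : ZMod (p ^ (2:ℕ)) → ZMod (p ^ (2:ℕ))} (ha : IsAff p a) (hb : IsAff p b)
    (hc : IsAff p c) (h0 : Adm p (c 0)) (z : ZMod (p ^ (2:ℕ))) :
    IsAff p (fun s => hz p (a s) (b s) (c s) z) := by
  unfold hz
  apply IsAff.sum
  intro k hk
  have hk' := mem_range.mp hk
  apply IsAff.mul _ (IsAff.const _)
  apply IsAff.mul ((isAff_poch ha k).mul (isAff_poch hb k))
  apply IsAff.inv ((isAff_poch hc k).mul (IsAff.const _))
  exact (isUnit_poch_adm h0 hk').mul (isUnit_factorial hk')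

lemma red_tz {a b c z : ℚ} {ra rb rc rz : ZMod (p ^ (2:ℕ))} (ha : Red p (p ^ 2) a ra)
    (hb : Red p (p ^ 2) b rb) (hc : Red p (p ^ 2) c rc) (hz : Red p (p ^ 2) z rz)
    (hadm : Adm p rc) {k : ℕ} (hk : k < p) :
    Red p (p ^ 2) (tz a b c z k)
      (poch ra k * poch rb k * (poch rc k * (k.factorial : ZMod (p ^ (2:ℕ))))⁻¹ * rz ^ k) := by
  unfold tz
  have hpp : p ∣ p ^ 2 := dvd_pow_self p two_ne_zero
  apply Red.mul
  · exact Red.div dvd_rfl hpp ((poch_red ha k).mul (poch_red hb k)) ((poch_red hc k).mul (Red.nat _))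
      ((isUnit_poch_adm hadm hk).mul (isUnit_factorial hk))
  · exact hz.pow k

lemma red_hz_nat {N : ℕ} (hN : N < p) {b c z : ℚ} {rb rc rz : ZMod (p ^ (2:ℕ))}
    (hb : Red p (p ^ 2) b rb) (hc : Red p (p ^ 2) c rc) (hz' : Red p (p ^ 2) z rz)
    (hadm : Adm p rc) :
    Red p (p ^ 2) (∑ k ∈ range (N + 1), tz (-(N : ℚ)) b c z k)
      (hz p (-(N : ZMod (p ^ (2:ℕ)))) rb rc rz) := by
  unfold hz
  rw [← Finset.sum_subset (s₁ := range (N + 1)) (s₂ := range p)]
  · apply Red.sum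
    intro k hk
    exact red_tz (Red.nat N).neg hb hc hz' hadm (by have := mem_range.mp hk; omega)
  · intro k hk; rw [mem_range] at hk ⊢; omega
  · intro k hk hk'
    rw [mem_range] at hk hk'
    rw [poch_neg_nat (by omega)]; ring

lemma hz_comm (a b c z : ZMod (p ^ (2:ℕ))) : hz p a b c z = hz p b a c z := by
  unfold hz
  apply Finset.sum_congr rfl
  intro k _; ring

end

end Cec
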