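import Pool.Agent.Cec.Defs
import Pool.Agent.Cec.Hz

/-!
# MP_cec948_nt: the coefficient sequences over `ℤ_[p]` and their reductions
-/

namespace Cec

open Finset SC24

section
variable {p : ℕ} [hp : Fact p.Prime]

/-- reduction `ℤ_p → ℤ/p^2` -/
noncomputable abbrev φ2 (p : ℕ) [Fact p.Prime] : ℤ_[p] →+* ZMod (p ^ (2:ℕ)) := PadicInt.toZModPow 2

lemma exists_pochdiv (q : ℤ_[p]) : ∃ b : ℕ → ℤ_[p], b 0 = 1 ∧
    ∀ k : ℕ, ((k : ℤ_[p]) + 1) * b (k + 1) = (q + k) * b k := by
  refine ⟨fun k => Ring.multichoose q k, Ring.multichoose_zero_right q, fun k => ?_⟩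
  have h1 := Ring.factorial_nsmul_multichoose_eq_ascPochhammer q k
  have h2 := Ring.factorial_nsmul_multichoose_eq_ascPochhammer q (k + 1)
  rw [Polynomial.ascPochhammer_smeval_eq_eval, nsmul_eq_mul] at h1 h2
  rw [ascPochhammer_succ_eval, ← h1, Nat.factorial_succ] at h2
  have hf : ((k.factorial : ℕ) : ℤ_[p]) ≠ 0 := by
    exact_mod_cast Nat.factorial_ne_zero k
  apply mul_left_cancel₀ hf
  push_cast at h2
  linear_combination h2

/-- `a k = (-1)^k choose(-q, k) (-1)^k choose(-h, k)` -/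
theorem exists_HS (q h : ℤ_[p]) : ∃ a : ℕ → ℤ_[p], HS q h a := by
  obtain ⟨b, b0, bs⟩ := exists_pochdiv q
  obtain ⟨c, c0, cs⟩ := exists_pochdiv h
  refine ⟨fun k => b k * c k, by simp [b0, c0], fun k => ?_⟩
  have h1 := bs k
  have h2 := cs k
  show ((k : ℤ_[p]) + 1) ^ 2 * (b (k + 1) * c (k + 1)) = (k + q) * (k + h) * (b k * c k)
  calc ((k : ℤ_[p]) + 1) ^ 2 * (b (k + 1) * c (k + 1))
      = (((k : ℤ_[p]) + 1) * b (k + 1)) * (((k : ℤ_[p]) + 1) * c (k + 1)) := by ring
    _ = _ := by rw [h1, h2]; ring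

theorem HS.map {R S : Type*} [CommRing R] [CommRing S] (f : R →+* S) {q h : R} {a : ℕ → R} (ha : HS q h a) :
    HS (f q) (f h) (fun k => f (a k)) := by
  refine ⟨by show f (a 0) = 1; rw [ha.zero, map_one], fun k => ?_⟩
  have := congrArg f (ha.succ k)
  simpa using this

theorem HS.mul_factorial {R : Type*} [CommRing R] {q h : R} {a : ℕ → R} (ha : HS q h a) (k : ℕ) :
    a k * ((k.factorial : R) * (k.factorial : R)) = poch q k * poch h k := by
  induction k with
  | zero => simp [ha.zero, poch]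
  | succ k ih =>
    have h1 := ha.succ k
    rw [poch_succ, poch_succ, Nat.factorial_succ]
    push_cast
    calc a (k + 1) * (((k : R) + 1) * (k.factorial : R) * (((k : R) + 1) * (k.factorial : R)))
        = (((k : R) + 1) ^ 2 * a (k + 1)) * ((k.factorial : R) * (k.factorial : R)) := by ring
      _ = (k + q) * (k + h) * (a k * ((k.factorial : R) * (k.factorial : R))) := by rw [h1]; ring
      _ = _ := by rw [ih]; ring

lemma cec_poch_one {R : Type*} [CommRing R] (k : ℕ) : poch (1 : R) k = (k.factorial : R) := by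
  induction k with
  | zero => simp [poch]
  | succ k ih => rw [poch_succ, ih, Nat.factorial_succ]; push_cast; ring

theorem HS.sum_eq {q h : ZMod (p ^ (2:ℕ))} {a : ℕ → ZMod (p ^ (2:ℕ))} (ha : HS q h a) (t : ZMod (p ^ (2:ℕ))) :
    ∑ k ∈ range p, a k * t ^ k = hz p q h 1 t := by
  unfold hz
  apply Finset.sum_congr rfl
  intro k hk
  have hk' := mem_range.mp hk
  have hu : IsUnit ((k.factorial : ZMod (p ^ (2:ℕ))) * (k.factorial : ZMod (p ^ (2:ℕ)))) :=
    (isUnit_factorial hk').mul (isUnit_factorial hk')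
  rw [cec_poch_one, ← ha.mul_factorial k, mul_assoc (a k), ZMod.mul_inv_of_unit _ hu, mul_one]

end

end Cec
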