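import Pool.Agent.Cec.PiEq
import Pool.Agent.Cec.Seq

/-!
# MP_cec948_nt: auxiliary lemmas for the assembly (power series modulo `p^2`)
-/

set_option linter.unusedSectionVars false

namespace Cec

open Finset SC24

noncomputable section

variable {p : ℕ} [hp : Fact p.Prime]

section gen
variable (R : Type*) [CommRing R]

/-- `ℤ[X] → R⟦X⟧` -/
def ci : Polynomial ℤ →+* PowerSeries R :=
  (Polynomial.coeToPowerSeries.ringHom).comp (Polynomial.mapRingHom (Int.castRingHom R))

theorem ci_apply (f : Polynomial ℤ) : ci R f = ((f.map (Int.castRingHom R) : Polynomial R) : PowerSeries R) := rfl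

theorem ci_X : ci R Polynomial.X = PowerSeries.X := by simp [ci_apply]

theorem ci_C (c : ℤ) : ci R (Polynomial.C c) = PowerSeries.C (c : R) := by simp [ci_apply]

theorem ci_map {S : Type*} [CommRing S] (g : R →+* S) (f : Polynomial ℤ) :
    PowerSeries.map g (ci R f) = ci S f := by
  ext m
  simp [ci_apply]

theorem ci_expand (f : Polynomial ℤ) : PowerSeries.expand p hp.out.ne_zero (ci R f) =
    ci R (Polynomial.expand ℤ p f) := by
  ext m
  rw [PowerSeries.coeff_expand, ci_apply, ci_apply, Polynomial.coeff_coe, Polynomial.coeff_coe,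
    Polynomial.coeff_map, Polynomial.coeff_map, Polynomial.coeff_expand hp.out.pos]
  split_ifs <;> simp

theorem ci_deriv (f : Polynomial ℤ) : PowerSeries.derivative R (ci R f) = ci R (Polynomial.derivative f) := by
  rw [ci_apply, ci_apply, PowerSeries.derivative_coe, Polynomial.derivative_map]

end gen

theorem ci_br (f : Polynomial ℤ) : ci (ZMod p) f = ((br p f : Polynomial (ZMod p)) : PowerSeries (ZMod p)) := rfl

theorem hm_coe {R : Type*} [CommRing R] (f : ℕ → R) (N : ℕ) (x y : Polynomial R) :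
    ((hm f N x y : Polynomial R) : PowerSeries R) = hm f N (x : PowerSeries R) (y : PowerSeries R) := by
  unfold hm
  have h1 : ∀ (s : Finset ℕ) (g : ℕ → Polynomial R), ((∑ k ∈ s, g k : Polynomial R) : PowerSeries R) =
      ∑ k ∈ s, ((g k : Polynomial R) : PowerSeries R) := by
    intro s g
    exact map_sum (Polynomial.coeToPowerSeries.ringHom) g s
  rw [h1]
  apply Finset.sum_congr rfl
  intro k _
  rw [Polynomial.coe_mul, Polynomial.coe_mul, Polynomial.coe_pow, Polynomial.coe_pow]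
  congr 2
  rw [Polynomial.algebraMap_eq, Polynomial.coe_C]
  rfl

open PowerSeries in
theorem as_expand (f : (ZMod p)⟦X⟧) : PowerSeries.expand p hp.out.ne_zero f = f ^ p := by
  have h := MvPowerSeries.map_frobenius_expand (R := ZMod p) (σ := Unit) (p := p) hp.out.ne_zero (f := f)
  rw [ZMod.frobenius_zmod] at h
  have h2 : MvPowerSeries.map (RingHom.id (ZMod p)) (MvPowerSeries.expand p hp.out.ne_zero f) =
    MvPowerSeries.expand p hp.out.ne_zero f := by rw [MvPowerSeries.map_id]; rfl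
  rw [h2] at h
  exact h

open PowerSeries in
theorem as_of_red {f : (ZMod (p ^ (2:ℕ)))⟦X⟧} (h : PowerSeries.map (red p) f = 0) :
    ∃ g : (ZMod (p ^ (2:ℕ)))⟦X⟧, f = C (P2 p) * g := by
  have h1 : ∀ m, ∃ c, coeff m f = P2 p * c := by
    intro m
    apply exists_P_of_red
    have := congrArg (coeff m) h
    rwa [PowerSeries.coeff_map, map_zero] at this
  choose c hc using h1
  refine ⟨PowerSeries.mk c, ?_⟩
  ext m
  rw [PowerSeries.coeff_C_mul, PowerSeries.coeff_mk, hc]

open PowerSeries in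
theorem as_CP_mul (p : ℕ) : (C (P2 p) : (ZMod (p ^ (2:ℕ)))⟦X⟧) * C (P2 p) = 0 := by
  rw [← map_mul, P2_mul_self, map_zero]

open PowerSeries in
theorem as_P_congr {f g : (ZMod (p ^ (2:ℕ)))⟦X⟧} (h : PowerSeries.map (red p) f = PowerSeries.map (red p) g) :
    C (P2 p) * f = C (P2 p) * g := by
  obtain ⟨u, hu⟩ := as_of_red (f := f - g) (by rw [map_sub, h, sub_self])
  linear_combination C (P2 p) * hu + u * as_CP_mul p

theorem as_red_of_P {x : ZMod (p ^ (2:ℕ))} (h : P2 p * x = 0) : red p x = 0 := by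
  by_contra hx
  have hu := (isUnit_iff_red x).mpr hx
  have h1 : P2 p = 0 := by
    rcases hu with ⟨u, rfl⟩
    have := congrArg (fun t => t * ((u⁻¹ : (ZMod (p ^ (2:ℕ)))ˣ) : ZMod (p ^ (2:ℕ)))) h
    simpa using this
  unfold P2 at h1
  rw [ZMod.natCast_eq_zero_iff] at h1
  have := Nat.le_of_dvd hp.out.pos h1
  have h2 := hp.out.one_lt
  nlinarith

open PowerSeries in
theorem as_P_cancel {f g : (ZMod (p ^ (2:ℕ)))⟦X⟧} (h : C (P2 p) * f = C (P2 p) * g) :
    PowerSeries.map (red p) f = PowerSeries.map (red p) g := by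
  ext m
  rw [PowerSeries.coeff_map, PowerSeries.coeff_map]
  have h1 := congrArg (coeff m) h
  rw [PowerSeries.coeff_C_mul, PowerSeries.coeff_C_mul] at h1
  have h2 := as_red_of_P (x := coeff m f - coeff m g) (by rw [mul_sub, h1, sub_self])
  rw [map_sub] at h2
  exact sub_eq_zero.mp h2

open PowerSeries in
/-- lifting along the reduction -/
theorem as_lift (f : (ZMod p)⟦X⟧) : ∃ g : (ZMod (p ^ (2:ℕ)))⟦X⟧, PowerSeries.map (red p) g = f := by
  have h1 : ∀ x : ZMod p, ∃ y : ZMod (p ^ (2:ℕ)), red p y = x := by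
    intro x
    refine ⟨(x.val : ZMod (p ^ (2:ℕ))), ?_⟩
    rw [map_natCast, ZMod.natCast_zmod_val]
  choose s hs using h1
  refine ⟨PowerSeries.mk fun m => s (coeff m f), ?_⟩
  ext m
  rw [PowerSeries.coeff_map, PowerSeries.coeff_mk, hs]

open PowerSeries in
theorem as_map_expand (f : (ZMod (p ^ (2:ℕ)))⟦X⟧) :
    PowerSeries.map (red p) (PowerSeries.expand p hp.out.ne_zero f) = (PowerSeries.map (red p) f) ^ p := by
  rw [PowerSeries.map_expand, as_expand]

open PowerSeries in
theorem as_delta (z : (ZMod (p ^ (2:ℕ)))⟦X⟧) :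
    ∃ δ : (ZMod (p ^ (2:ℕ)))⟦X⟧, z ^ p = PowerSeries.expand p hp.out.ne_zero z + C (P2 p) * δ := by
  obtain ⟨δ, hδ⟩ := as_of_red (f := z ^ p - PowerSeries.expand p hp.out.ne_zero z) (by
    rw [map_sub, as_map_expand, map_pow, sub_self])
  exact ⟨δ, by linear_combination hδ⟩

open PowerSeries in
/-- the error term of the Frobenius lift in terms of `dl` -/
theorem as_delta_rel {z δ : (ZMod (p ^ (2:ℕ)))⟦X⟧} {den nu : Polynomial ℤ}
    (hz : z * ci (ZMod (p ^ (2:ℕ))) den = ci (ZMod (p ^ (2:ℕ))) nu)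
    (hδ : z ^ p = PowerSeries.expand p hp.out.ne_zero z + C (P2 p) * δ) :
    PowerSeries.map (red p) δ * (ci (ZMod p) den) ^ p =
      (PowerSeries.map (red p) z) ^ p * ci (ZMod p) (dl p den) - ci (ZMod p) (dl p nu) := by
  have hex : ∀ f : Polynomial ℤ, PowerSeries.expand p hp.out.ne_zero (ci (ZMod (p ^ (2:ℕ))) f) =
      (ci (ZMod (p ^ (2:ℕ))) f) ^ p + C (P2 p) * ci (ZMod (p ^ (2:ℕ))) (dl p f) := by
    intro f
    rw [ci_expand, dl_spec, map_add, map_pow, map_mul, ci_C]
    unfold P2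
    push_cast
    rfl
  have h1 := congrArg (PowerSeries.expand p hp.out.ne_zero) hz
  rw [map_mul, hex, hex] at h1
  have h2 := congrArg (fun t => t ^ p) hz
  simp only [mul_pow] at h2
  rw [hδ] at h2
  have h3 : C (P2 p) * (δ * (ci (ZMod (p ^ (2:ℕ))) den) ^ p) =
      C (P2 p) * (PowerSeries.expand p hp.out.ne_zero z * ci (ZMod (p ^ (2:ℕ))) (dl p den) -
        ci (ZMod (p ^ (2:ℕ))) (dl p nu)) := by
    linear_combination h2 - h1
  have h4 := as_P_cancel h3
  rw [map_mul, map_pow, map_sub, map_mul, as_map_expand, ci_map, ci_map, ci_map] at h4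
  exact h4

/-- `dl` of `A^4 c` modulo `p` -/
theorem as_dl_den (A c : Polynomial ℤ) : br p (dl p (A ^ 4 * c)) =
    (br p A) ^ (3 * p) * (4 * (br p c) ^ p * br p (dl p A) + (br p A) ^ p * br p (dl p c)) := by
  have hm : ∀ f g : Polynomial ℤ, br p (dl p (f * g)) = br p f ^ p * br p (dl p g) + br p g ^ p * br p (dl p f) := by
    intro f g
    rw [dl_mul]
    unfold br
    simp only [Polynomial.map_add, Polynomial.map_mul, Polynomial.map_pow, Polynomial.map_C]
    have : (Int.castRingHom (ZMod p)) (p : ℤ) = 0 := by simp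
    rw [this]
    simp
  have hbm : ∀ f g : Polynomial ℤ, br p (f * g) = br p f * br p g := by
    intro f g; unfold br; simp
  rw [show A ^ 4 * c = ((A * A) * (A * A)) * c by ring, hm, hm, hm, hbm, hbm]
  ring

theorem as_dl_nu (j : ℕ) : dl p (Polynomial.C 32 * Polynomial.X ^ j) =
    Polynomial.C (-(K32 p)) * Polynomial.X ^ (p * j) := by
  have h1 := dl_monomial p 32 j
  have hK : (p : ℤ) * K32 p = 32 ^ p - 32 := by
    unfold K32
    apply Int.mul_ediv_cancel'
    have : ((32 ^ p - 32 : ℤ) : ZMod p) = 0 := by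
      push_cast
      rw [ZMod.pow_card, sub_self]
    exact (ZMod.intCast_zmod_eq_zero_iff_dvd _ _).mp this
  have h2 : Polynomial.C (p : ℤ) * dl p (Polynomial.C 32 * Polynomial.X ^ j) =
      Polynomial.C (p : ℤ) * (Polynomial.C (-(K32 p)) * Polynomial.X ^ (p * j)) := by
    rw [h1, ← mul_assoc, ← map_mul]
    congr 2
    linear_combination hK
  have h0 : (Polynomial.C (p : ℤ) : Polynomial ℤ) ≠ 0 := by
    rw [Ne, Polynomial.C_eq_zero]
    exact_mod_cast hp.out.ne_zero
  exact mul_left_cancel₀ h0 h2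

end

end Cec
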