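import Pool.Agent.Cec.AsmA

/-!
# MP_cec948_nt: the common Frobenius lift
-/

set_option linter.unusedSectionVars false

namespace Cec

open Finset SC24

noncomputable section

variable {p : ℕ} [hp : Fact p.Prime] {n : ℕ} {q h l : ZMod p} {a e : ℕ → ZMod p}

open PowerSeries in
/-- logarithmic derivative of the covering -/
theorem cov_log {A c s d nu : Polynomial ℤ} {e0 f0 : ℤ} (H : Cov A c s d nu e0 f0)
    {z : (ZMod p)⟦X⟧} (hz : z * ci (ZMod p) (A ^ 4 * c) = ci (ZMod p) nu) (hA : ci (ZMod p) A ≠ 0) :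
    X * d⁄dX (ZMod p) z * ci (ZMod p) (A * c) = C (f0 : ZMod p) * (ci (ZMod p) s) ^ 3 * z := by
  have h1 := congrArg (fun t => X * d⁄dX (ZMod p) t) hz
  simp only [Derivation.leibniz, smul_eq_mul] at h1
  rw [ci_deriv, ci_deriv] at h1
  have h2 : X * ci (ZMod p) (Polynomial.derivative nu) = C (e0 : ZMod p) * ci (ZMod p) nu := by
    have := congrArg (ci (ZMod p)) H.hnu
    rwa [map_mul, map_mul, ci_X, ci_C] at this
  have h3 : Polynomial.derivative (A ^ 4 * c) = 4 * A ^ 3 * c + A ^ 4 * Polynomial.derivative c := by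
    rw [Polynomial.derivative_mul, Polynomial.derivative_pow, H.hA]
    simp only [Nat.cast_ofNat, mul_one, Nat.reduceSub]
    rw [Polynomial.C_ofNat]
  rw [h3, h2] at h1
  have h4 := congrArg (ci (ZMod p)) H.hw
  simp only [map_mul, map_sub, map_add, map_pow, ci_X, ci_C, map_ofNat] at h1 h4 hz ⊢
  apply mul_left_cancel₀ (pow_ne_zero 3 hA)
  linear_combination h1 - C (e0 : ZMod p) * hz + z * ci (ZMod p) A ^ 3 * h4

open PowerSeries in
theorem cmp_pl (D : Dat p n q h l a e) (z : (ZMod p)⟦X⟧) :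
    (∑ k ∈ range (n + 1), C (a k) * z ^ k) = ∑ k ∈ range p, C (a k) * z ^ k := by
  apply Finset.sum_subset
  · intro k hk
    rw [mem_range] at hk ⊢
    have := D.hpn
    omega
  · intro k hk hk'
    rw [mem_range] at hk hk'
    rw [D.a_zero (by omega) hk, map_zero, zero_mul]

open PowerSeries in
theorem rho_rel (D : Dat p n q h l a e) {A c s nu : Polynomial ℤ} {f0 : ℤ} {j : ℕ}
    (hnu : nu = Polynomial.C 32 * Polynomial.X ^ j) {z δ ρ : (ZMod p)⟦X⟧}
    (hz : z * ci (ZMod p) (A ^ 4 * c) = ci (ZMod p) nu) (hA : ci (ZMod p) A ≠ 0) (hc : ci (ZMod p) c ≠ 0)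
    (hδ : δ * (ci (ZMod p) (A ^ 4 * c)) ^ p =
      z ^ p * ci (ZMod p) (dl p (A ^ 4 * c)) - ci (ZMod p) (dl p nu))
    (hw : X * d⁄dX (ZMod p) z * ci (ZMod p) (A * c) = C (f0 : ZMod p) * (ci (ZMod p) s) ^ 3 * z)
    (hQ : X ^ p * ((QP p n l a e A c nu : Polynomial (ZMod p)) : (ZMod p)⟦X⟧) =
      C (f0 : ZMod p) * (ci (ZMod p) s) ^ (3 * p) * ((PiP p n a A c nu : Polynomial (ZMod p)) : (ZMod p)⟦X⟧) * ρ) :
    (∑ k ∈ range p, C (e k) * z ^ k) * z ^ p + (∑ k ∈ range p, C (a k) * z ^ k) * δ =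
      (∑ k ∈ range p, C (a k) * z ^ k) * (d⁄dX (ZMod p) z) ^ p * ρ := by
  have hpn := D.hpn
  have hb : ∀ f g : Polynomial ℤ, br p (f * g) = br p f * br p g := by
    intro f g; unfold br; simp
  have hbp : ∀ (f : Polynomial ℤ) (m : ℕ), br p (f ^ m) = br p f ^ m := by
    intro f m; unfold br; simp
  have hden : ci (ZMod p) (A ^ 4 * c) ≠ 0 := by
    rw [map_mul, map_pow]; exact mul_ne_zero (pow_ne_zero 4 hA) hc
  -- homogeneous polynomials in terms of `z`
  have hzc : ((br p A ^ 4 * br p c : Polynomial (ZMod p)) : (ZMod p)⟦X⟧) * z =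
      ((br p nu : Polynomial (ZMod p)) : (ZMod p)⟦X⟧) := by
    rw [← ci_br, ← hz, ci_br, hb, hbp, mul_comm]
  have hPi : ((PiP p n a A c nu : Polynomial (ZMod p)) : (ZMod p)⟦X⟧) =
      (ci (ZMod p) (A ^ 4 * c)) ^ n * ∑ k ∈ range p, C (a k) * z ^ k := by
    unfold PiP
    rw [hm_coe, hm_eq a n hzc, ← cmp_pl D, ci_br, hb, hbp]
    rfl
  have hG : ((hm (fun k => e k - l * a k) (2 * n) (br p nu) (br p A ^ 4 * br p c) : Polynomial (ZMod p)) : (ZMod p)⟦X⟧) =
      (ci (ZMod p) (A ^ 4 * c)) ^ (2 * n) * ((∑ k ∈ range p, C (e k) * z ^ k) -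
        C l * ∑ k ∈ range p, C (a k) * z ^ k) := by
    rw [hm_coe, hm_eq _ (2 * n) hzc, ci_br, hb, hbp]
    congr 1
    rw [Finset.mul_sum, ← Finset.sum_sub_distrib]
    have h1 : ∀ k, algebraMap (ZMod p) (ZMod p)⟦X⟧ (e k - l * a k) * z ^ k =
        C (e k) * z ^ k - C l * (C (a k) * z ^ k) := by
      intro k
      show C (e k - l * a k) * z ^ k = _
      rw [map_sub, map_mul]; ring
    rw [Finset.sum_congr rfl (fun k _ => h1 k)]
    apply Finset.sum_subset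
    · intro k hk
      rw [mem_range] at hk ⊢
      omega
    · intro k hk hk'
      rw [mem_range] at hk hk'
      rw [D.a_zero (by omega) hk, D.e_zero (by omega) hk, map_zero]
      ring
  -- `dl`
  have hdl : ci (ZMod p) (dl p (A ^ 4 * c)) = (ci (ZMod p) A) ^ (3 * p) *
      ((4 * (br p c) ^ p * br p (dl p A) + (br p A) ^ p * br p (dl p c) : Polynomial (ZMod p)) : (ZMod p)⟦X⟧) := by
    rw [ci_br, as_dl_den, Polynomial.coe_mul, Polynomial.coe_pow, ci_br]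
  have hdn : ci (ZMod p) (dl p nu) = C l * (z ^ p * (ci (ZMod p) (A ^ 4 * c)) ^ p) := by
    rw [← mul_pow, hz, hnu, as_dl_nu, map_mul, map_mul, map_pow, map_pow, ci_C, ci_C, ci_X, mul_pow, ← pow_mul,
      ← map_pow, mul_comm j p, ← mul_assoc, ← map_mul]
    congr 2
    push_cast
    rw [ZMod.pow_card]
    linear_combination -D.l32
  rw [hdl, hdn] at hδ
  have hrel := congrArg (fun t : Polynomial (ZMod p) => (t : (ZMod p)⟦X⟧)) (QP_rel D A c nu)
  beta_reduce at hrel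
  rw [Polynomial.coe_mul, Polynomial.coe_add, Polynomial.coe_mul, Polynomial.coe_mul, Polynomial.coe_mul, hG,
    Polynomial.coe_pow, Polynomial.coe_pow, ← hbp A 4, ← hb, ← ci_br, ← ci_br, hPi] at hrel
  rw [hPi] at hQ
  have hww := congrArg (fun t => t ^ p) hw
  have hf0 : (C (f0 : ZMod p) : (ZMod p)⟦X⟧) ^ p = C (f0 : ZMod p) := by rw [← map_pow, ZMod.pow_card]
  simp only [mul_pow] at hww
  rw [hf0] at hww
  generalize ((4 * (br p c) ^ p * br p (dl p A) + (br p A) ^ p * br p (dl p c) : Polynomial (ZMod p)) :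
    (ZMod p)⟦X⟧) = Δ at *
  generalize ((QP p n l a e A c nu : Polynomial (ZMod p)) : (ZMod p)⟦X⟧) = Q at *
  generalize (∑ k ∈ range p, C (e k) * z ^ k) = EE at *
  generalize (∑ k ∈ range p, C (a k) * z ^ k) = PP at *
  generalize d⁄dX (ZMod p) z = z' at *
  have hdA : ci (ZMod p) (A ^ 4 * c) = ci (ZMod p) A ^ 3 * ci (ZMod p) (A * c) := by
    rw [← map_pow, ← map_mul]
    congr 1
    ring
  -- the relation for `Q`
  have r1 : (EE * z ^ p + PP * δ) * ci (ZMod p) (A ^ 4 * c) ^ (n + p) =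
      z ^ p * (Q * ci (ZMod p) A ^ (3 * p)) := by
    rw [hrel]
    rw [show n + p = n + p by rfl, pow_add]
    have e1 : ci (ZMod p) (A ^ 4 * c) ^ (3 * n + 1) * (ci (ZMod p) (A ^ 4 * c) ^ (2 * n) * (EE - C l * PP)) =
        ci (ZMod p) (A ^ 4 * c) ^ n * ci (ZMod p) (A ^ 4 * c) ^ p * (EE - C l * PP) := by
      rw [← mul_assoc, ← pow_add, ← pow_add]
      congr 2
      omega
    rw [e1]
    linear_combination (ci (ZMod p) (A ^ 4 * c) ^ n * PP) * hδ
  have r2 : (PP * z' ^ p * ρ) * (X ^ p * ci (ZMod p) (A ^ 4 * c) ^ (n + p)) =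
      z ^ p * (X ^ p * Q) * ci (ZMod p) A ^ (3 * p) := by
    rw [hQ, pow_add]
    have e2 : ci (ZMod p) (A ^ 4 * c) ^ p = ci (ZMod p) A ^ (3 * p) * ci (ZMod p) (A * c) ^ p := by
      rw [hdA, mul_pow, ← pow_mul]
    rw [e2]
    have e3 : ci (ZMod p) s ^ (3 * p) = (ci (ZMod p) s ^ 3) ^ p := by rw [← pow_mul]
    rw [e3]
    linear_combination (PP * ρ * ci (ZMod p) (A ^ 4 * c) ^ n * ci (ZMod p) A ^ (3 * p)) * hww
  have hne : (X ^ p * ci (ZMod p) (A ^ 4 * c) ^ (n + p) : (ZMod p)⟦X⟧) ≠ 0 :=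
    mul_ne_zero (pow_ne_zero _ PowerSeries.X_ne_zero) (pow_ne_zero _ hden)
  apply mul_right_cancel₀ hne
  rw [r2]
  linear_combination (X ^ p : (ZMod p)⟦X⟧) * r1

end

end Cec
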