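import Pool.Agent.Cec.Jac4
import Pool.Agent.Cec.Harm
import Pool.Agent.SC24.Jac1
import Pool.Agent.SC24.JW

/-!
# MP_cec948_nt: the theorem of Chowla, Dwork and Evans

Proof hints.  `jac1` (SC24) with `m = n = n`, `k = ZMod p`, `c` = the integer `val` of
`-(-1)^n C(2n,n) (1 + P (2n (H_{2n} - H_n)))`; `P (H_{2n} - H_n) = Lq 2`, `2 n Lq 2 = -(1/2) Lq 2`.  `alg4` gives
`2 (-(-1)^n u) c = 4 u^2 - p` modulo `p^2` (`witt_dvd2`), `u % 4 = 1`, `u^2 + v^2 = p`; uniqueness of the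
representation gives `u = x`.  (See `SC24/JW.lean`.)
-/

namespace Cec

open Finset SC24

/-- uniqueness of the representation of a prime as a sum of two squares -/
theorem cde_unique {p u v x y : ℤ} (hp : Prime p) (hp0 : 0 < p) (hodd : p % 2 = 1)
    (h1 : u ^ 2 + v ^ 2 = p) (h2 : x ^ 2 + y ^ 2 = p) (hu : u % 4 = 1) (hx : x % 4 = 1) : u = x := by
  have key : ∀ w : ℤ, u ^ 2 + w ^ 2 = p → p ∣ u * y - w * x → u = x := by
    intro w hw hd
    have e1 : (u * x + w * y) ^ 2 + (u * y - w * x) ^ 2 = p ^ 2 := by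
      rw [← hw]
      linear_combination (u ^ 2 + w ^ 2) * (h2 - hw)
    obtain ⟨t, ht⟩ := hd
    have e2 : t ^ 2 ≤ 1 := by
      have h3 : (p * t) ^ 2 ≤ p ^ 2 := by
        rw [← ht]
        nlinarith [sq_nonneg (u * x + w * y)]
      rw [mul_pow] at h3
      have h4 : 0 < p ^ 2 := by positivity
      by_contra hcon
      push Not at hcon
      nlinarith
    have e3 : t = 0 ∨ t ^ 2 = 1 := by
      have h3 : t ≤ 1 := by nlinarith
      have h4 : -1 ≤ t := by nlinarith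
      rcases (by omega : t = 0 ∨ t = 1 ∨ t = -1) with h | h | h
      · exact Or.inl h
      · right; rw [h]; norm_num
      · right; rw [h]; norm_num
    rcases e3 with h3 | h3
    · -- u y = w x
      have h4 : u * y = w * x := by rw [h3, mul_zero] at ht; linarith
      have h5 : p * (u ^ 2 - x ^ 2) = 0 := by
        have h6 : u ^ 2 * y ^ 2 = w ^ 2 * x ^ 2 := by
          rw [← mul_pow, ← mul_pow, h4]
        linear_combination (-(u ^ 2)) * h2 + x ^ 2 * hw + h6
      rcases mul_eq_zero.1 h5 with h6 | h6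
      · omega
      · have h7 : (u - x) * (u + x) = 0 := by linear_combination h6
        rcases mul_eq_zero.1 h7 with h8 | h8 <;> omega
    · exfalso
      have h4 : u * x + w * y = 0 := by
        have h5 : (u * x + w * y) ^ 2 = 0 := by
          rw [ht, mul_pow, h3] at e1
          linarith
        exact pow_eq_zero_iff (two_ne_zero) |>.1 h5
      have h5 : p * (p - (u ^ 2 + x ^ 2)) = 0 := by
        have h6 : u ^ 2 * x ^ 2 = w ^ 2 * y ^ 2 := by
          have h7 : u * x = -(w * y) := by linarith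
          rw [← mul_pow, ← mul_pow, h7, neg_sq]
        have h7 : w ^ 2 = p - u ^ 2 := by linarith
        have h8 : y ^ 2 = p - x ^ 2 := by linarith
        rw [h7, h8] at h6
        linear_combination -h6
      rcases mul_eq_zero.1 h5 with h6 | h6
      · omega
      · obtain ⟨a, ha⟩ : ∃ a, u = 4 * a + 1 := ⟨u / 4, by omega⟩
        obtain ⟨b, hb⟩ : ∃ b, x = 4 * b + 1 := ⟨x / 4, by omega⟩
        have h7 : p = 2 * (8 * a ^ 2 + 4 * a + 8 * b ^ 2 + 4 * b + 1) := by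
          rw [ha, hb] at h6
          linarith
        omega
  have h3 : p ∣ (u * y - v * x) * (u * y - (-v) * x) := by
    refine ⟨u ^ 2 - x ^ 2, ?_⟩
    linear_combination u ^ 2 * h2 - x ^ 2 * h1
  rcases hp.dvd_or_dvd h3 with h4 | h4
  · exact key v h1 h4
  · exact key (-v) (by rw [neg_sq]; exact h1) h4

section
variable {p : ℕ} [hp : Fact p.Prime]

/-- `(2 - Lq 2) C(2n,n) = 2 (2x - p/2x)` -/
theorem cde (h3 : 3 < p) {n : ℕ} (hpn : p = 4 * n + 1) {x y : ℤ} (hxy : (p : ℤ) = x ^ 2 + y ^ 2)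
    (hx : x % 4 = 1) :
    ((2 * n).choose n : ZMod (p ^ (2:ℕ))) * (2 - Lq p 2) =
      2 * (2 * (x : ZMod (p ^ (2:ℕ))) - P2 p * (2 * (x : ZMod (p ^ (2:ℕ))))⁻¹) := by
  classical
  have hn0 : 0 < n := by omega
  have h2 : 2 < p := by omega
  have hPh1 := P_harm_n h2 hpn
  have hPh2 := P_harm_2n h2 hpn
  have hPL := P_mul_Lq (p := p) 2
  have hP : P2 p = 4 * (n : ZMod (p ^ (2:ℕ))) + 1 := by
    have := congrArg (Nat.cast : ℕ → ZMod (p ^ (2:ℕ))) hpn
    push_cast at this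
    exact this
  set L := Lq p 2 with hL
  set c : ZMod (p ^ (2:ℕ)) := - (-1) ^ n * ((n + n).choose n : ZMod (p ^ (2:ℕ))) *
      (1 + (p : ZMod (p ^ (2:ℕ))) *
        (((n + n : ℕ) : ZMod (p ^ (2:ℕ))) * (harm (p ^ 2) (n + n) - harm (p ^ 2) n)
         - (n : ZMod (p ^ (2:ℕ))) * (harm (p ^ 2) n - harm (p ^ 2) n))) with hc
  have hc2 : 2 * c = -(-1) ^ n * ((2 * n).choose n : ZMod (p ^ (2:ℕ))) * (2 - L) := by
    rw [hc, show n + n = 2 * n by ring]
    push_cast
    unfold P2 at hPh1 hPh2 hPL hP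
    linear_combination (-(-1) ^ n * ((2 * n).choose n : ZMod (p ^ (2:ℕ)))) *
      (4 * (n : ZMod (p ^ (2:ℕ))) * (hPh2 - hPh1) - L * hP + hPL)
  -- `c` is a unit
  have hchoose : ¬ p ∣ (n + n).choose n := by
    intro h
    have h4 : p ∣ (n + n).factorial := by
      have h5 := Nat.add_choose_mul_factorial_mul_factorial n n
      rw [← h5]
      exact Dvd.dvd.mul_right (Dvd.dvd.mul_right h _) _
    rw [hp.out.dvd_factorial] at h4
    omega
  have hcu : IsUnit c := by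
    have e1 : c = (- (-1) ^ n * ((n + n).choose n : ZMod (p ^ (2:ℕ)))) + P2 p *
        ((- (-1) ^ n * ((n + n).choose n : ZMod (p ^ (2:ℕ)))) *
        ((((n + n : ℕ) : ZMod (p ^ (2:ℕ))) * (harm (p ^ 2) (n + n) - harm (p ^ 2) n)
         - (n : ZMod (p ^ (2:ℕ))) * (harm (p ^ 2) n - harm (p ^ 2) n)))) := by
      rw [hc]; unfold P2; ring
    rw [e1, isUnit_add_P]
    refine IsUnit.mul ?_ (isUnit_nat (p := p) dvd_rfl hchoose)
    exact ((isUnit_one.neg).pow n).neg
  have hk : Fintype.card (ZMod p) = p := ZMod.card p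
  have j1 := jac1 p h3 hk n n (by omega) hn0 ((c.val : ℕ) : ℤ) (by rw [val_cast])
  set J : WittVector p (ZMod p) := ∑ z : ZMod p, WittVector.teichmuller p z ^ (p - 1 - n) *
        WittVector.teichmuller p (1 - z) ^ (n + n) with hJ
  have hu : ¬ (p : WittVector p (ZMod p)) ∣ J := by
    intro h
    have h6 := dvd_sub h (dvd_trans (dvd_pow_self _ two_ne_zero) j1)
    rw [sub_sub_cancel] at h6
    exact not_dvd_val hcu (witt_dvd1 h6)
  obtain ⟨u, v, huv, hu4, hd⟩ := alg4 p hpn hk J hJ hu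
  have hux : u = x := cde_unique (Nat.prime_iff_prime_int.1 hp.out)
    (by exact_mod_cast hp.out.pos) (by omega) huv hxy.symm hu4 hx
  have h7 := dvd_sub hd (Dvd.dvd.mul_left j1 (2 * ((-(-1) ^ n * u : ℤ) : WittVector p (ZMod p))))
  have h8 : 2 * ((-(-1) ^ n * u : ℤ) : WittVector p (ZMod p)) * J -
        (4 * (u : WittVector p (ZMod p)) ^ 2 - p) -
      2 * ((-(-1) ^ n * u : ℤ) : WittVector p (ZMod p)) *
        (J - ((((c.val : ℕ) : ℤ)) : WittVector p (ZMod p))) =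
      ((2 * (-(-1) ^ n * u) * ((c.val : ℕ) : ℤ) - (4 * u ^ 2 - p) : ℤ) : WittVector p (ZMod p)) := by
    push_cast; ring
  rw [h8] at h7
  have h9 := witt_dvd2 h7
  have h10 : ((2 * (-(-1) ^ n * u) * ((c.val : ℕ) : ℤ) - (4 * u ^ 2 - p) : ℤ) :
      ZMod (p ^ (2:ℕ))) = 0 := by
    rw [ZMod.intCast_zmod_eq_zero_iff_dvd]; exact_mod_cast h9
  rw [Int.cast_sub, Int.cast_mul, val_cast, hux] at h10
  push_cast at h10
  -- `x` is a unit
  have hpx : ¬ (p : ℤ) ∣ x := by
    intro h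
    have h11 : (p : ℤ) ∣ y ^ 2 := by
      have : y ^ 2 = p - x ^ 2 := by linarith
      rw [this]
      exact dvd_sub dvd_rfl (dvd_pow h two_ne_zero)
    have h12 : (p : ℤ) ∣ y := (Nat.prime_iff_prime_int.1 hp.out).dvd_of_dvd_pow h11
    obtain ⟨a, ha⟩ := h
    obtain ⟨b, hb⟩ := h12
    rw [ha, hb] at hxy
    have h13 : (p : ℤ) ≠ 0 := by exact_mod_cast hp.out.ne_zero
    have h14 : (1 : ℤ) = p * (a ^ 2 + b ^ 2) := by
      apply mul_left_cancel₀ h13
      linear_combination hxy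
    have h15 : (p : ℤ) ∣ 1 := ⟨_, h14⟩
    have h16 := Int.le_of_dvd one_pos h15
    omega
  have hxu : IsUnit (x : ZMod (p ^ (2:ℕ))) := by
    rw [isUnit_iff_red]
    intro h
    rw [map_intCast] at h
    exact hpx ((ZMod.intCast_zmod_eq_zero_iff_dvd x p).1 h)
  have h2u : IsUnit (2 : ZMod (p ^ (2:ℕ))) := by
    have h11 : IsUnit ((2 : ℕ) : ZMod (p ^ (2:ℕ))) := isUnit_nat (p := p) dvd_rfl (by
      intro h
      have := Nat.le_of_dvd (by norm_num) h
      omega)
    exact_mod_cast h11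
  have hinv : (2 * (x : ZMod (p ^ (2:ℕ)))) * (2 * (x : ZMod (p ^ (2:ℕ))))⁻¹ = 1 :=
    ZMod.mul_inv_of_unit _ (h2u.mul hxu)
  have hss : ((-1 : ZMod (p ^ (2:ℕ))) ^ n) * (-1) ^ n = 1 := by
    rw [← pow_add, ← two_mul, pow_mul]; norm_num
  apply hxu.mul_left_cancel
  unfold P2
  linear_combination h10 + (-1) ^ n * (x : ZMod (p ^ (2:ℕ))) * hc2 -
    (x : ZMod (p ^ (2:ℕ))) * ((2 * n).choose n : ZMod (p ^ (2:ℕ))) * (2 - L) * hss +
    (p : ZMod (p ^ (2:ℕ))) * hinv

end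

end Cec
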