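import Mathlib

/-!
# MP_cec948_nt: composition of a coefficient sequence with a power series

`cmp a z = ∑ a_k z^k` for a power series `z` without constant term.
-/

namespace Cec

open PowerSeries Finset

noncomputable section

variable {R : Type*} [CommRing R]

/-- the composition `∑ a_k z^k` (used for `X ∣ z` only) -/
def cmp (a : ℕ → R) (z : R⟦X⟧) : R⟦X⟧ :=
  PowerSeries.mk fun m => ∑ k ∈ range (m + 1), a k * coeff m (z ^ k)

/-- coefficients of the formal derivative -/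
def dsq (a : ℕ → R) (k : ℕ) : R := ((k : R) + 1) * a (k + 1)

theorem coeff_cmp (a : ℕ → R) (z : R⟦X⟧) (m : ℕ) :
    coeff m (cmp a z) = ∑ k ∈ range (m + 1), a k * coeff m (z ^ k) := by
  simp [cmp]

theorem coeff_pow_zero {z : R⟦X⟧} (hz : X ∣ z) {m k : ℕ} (h : m < k) : coeff m (z ^ k) = 0 :=
  PowerSeries.X_pow_dvd_iff.mp (pow_dvd_pow_of_dvd hz k) m h

/-- truncation -/
theorem cmp_trunc (a : ℕ → R) {z : R⟦X⟧} (hz : X ∣ z) (K : ℕ) :
    X ^ K ∣ cmp a z - ∑ k ∈ range K, C (a k) * z ^ k := by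
  rw [PowerSeries.X_pow_dvd_iff]
  intro m hm
  rw [map_sub, coeff_cmp, map_sum, sub_eq_zero]
  have h1 : ∀ k ∈ range K, coeff m (C (a k) * z ^ k) = a k * coeff m (z ^ k) := by
    intro k _
    rw [PowerSeries.coeff_C_mul]
  rw [Finset.sum_congr rfl h1]
  apply Finset.sum_subset
  · intro k hk
    rw [mem_range] at hk ⊢
    omega
  · intro k _ hk
    rw [mem_range] at hk
    rw [coeff_pow_zero hz (by omega), mul_zero]

theorem ext_of_dvd {f g : R⟦X⟧} (h : ∀ K, X ^ K ∣ f - g) : f = g := by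
  ext m
  have := PowerSeries.X_pow_dvd_iff.mp (h (m + 1)) m (by omega)
  rwa [map_sub, sub_eq_zero] at this

/-- characterisation of `cmp` by its truncations (along a cofinal sequence) -/
theorem cmp_eq_of (a : ℕ → R) {z f : R⟦X⟧} (hz : X ∣ z)
    (h : ∀ K, ∃ N, K ≤ N ∧ X ^ K ∣ f - ∑ k ∈ range N, C (a k) * z ^ k) : f = cmp a z := by
  apply ext_of_dvd
  intro K
  obtain ⟨N, hN, h1⟩ := h K
  have h2 := (pow_dvd_pow (X : R⟦X⟧) hN).trans (cmp_trunc a hz N)
  have := dvd_sub h1 h2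
  rwa [sub_sub_sub_cancel_right] at this

theorem cmp_map {S : Type*} [CommRing S] (φ : R →+* S) (a : ℕ → R) (z : R⟦X⟧) :
    PowerSeries.map φ (cmp a z) = cmp (fun k => φ (a k)) (PowerSeries.map φ z) := by
  ext m
  rw [coeff_cmp, PowerSeries.coeff_map, coeff_cmp, map_sum]
  apply Finset.sum_congr rfl
  intro k _
  rw [map_mul, ← map_pow, PowerSeries.coeff_map]

theorem cmp_add (a b : ℕ → R) (z : R⟦X⟧) : cmp (fun k => a k + b k) z = cmp a z + cmp b z := by
  ext m
  rw [map_add, coeff_cmp, coeff_cmp, coeff_cmp, ← Finset.sum_add_distrib]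
  apply Finset.sum_congr rfl
  intro k _
  ring

theorem cmp_sub (a b : ℕ → R) (z : R⟦X⟧) : cmp (fun k => a k - b k) z = cmp a z - cmp b z := by
  ext m
  rw [map_sub, coeff_cmp, coeff_cmp, coeff_cmp, ← Finset.sum_sub_distrib]
  apply Finset.sum_congr rfl
  intro k _
  ring

theorem cmp_smul (c : R) (a : ℕ → R) (z : R⟦X⟧) : cmp (fun k => c * a k) z = C c * cmp a z := by
  ext m
  rw [PowerSeries.coeff_C_mul, coeff_cmp, coeff_cmp, Finset.mul_sum]
  apply Finset.sum_congr rfl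
  intro k _
  ring

theorem cmp_zero_seq (z : R⟦X⟧) : cmp (fun _ => (0 : R)) z = 0 := by
  ext m
  rw [coeff_cmp]
  simp

/-- multiplication by `z` shifts the coefficients -/
theorem cmp_shift (a : ℕ → R) {z : R⟦X⟧} (hz : X ∣ z) :
    z * cmp a z = cmp (fun k => match k with | 0 => 0 | k + 1 => a k) z := by
  apply cmp_eq_of _ hz
  intro K
  refine ⟨K + 1, by omega, ?_⟩
  have h1 := cmp_trunc a hz K
  rw [Finset.sum_range_succ']
  simp only [map_zero, zero_mul, add_zero]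
  have h2 : z * cmp a z - ∑ k ∈ range K, C (a k) * z ^ (k + 1) =
      z * (cmp a z - ∑ k ∈ range K, C (a k) * z ^ k) := by
    rw [mul_sub, Finset.mul_sum]
    congr 1
    apply Finset.sum_congr rfl
    intro k _
    ring
  rw [h2]
  exact Dvd.dvd.mul_left h1 _

theorem X_dvd_constantCoeff {z : R⟦X⟧} (hz : X ∣ z) : constantCoeff z = 0 :=
  PowerSeries.X_dvd_iff.mp hz

theorem cmp_const (a : ℕ → R) (z : R⟦X⟧) : constantCoeff (cmp a z) = a 0 := by
  rw [← PowerSeries.coeff_zero_eq_constantCoeff_apply, coeff_cmp]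
  simp

theorem deriv_dvd {f : R⟦X⟧} {K : ℕ} (h : X ^ (K + 1) ∣ f) : X ^ K ∣ d⁄dX R f := by
  rw [PowerSeries.X_pow_dvd_iff] at h ⊢
  intro m hm
  rw [PowerSeries.coeff_derivative, h (m + 1) (by omega), zero_mul]

/-- chain rule -/
theorem cmp_deriv (a : ℕ → R) {z : R⟦X⟧} (hz : X ∣ z) :
    d⁄dX R (cmp a z) = cmp (dsq a) z * d⁄dX R z := by
  apply ext_of_dvd
  intro K
  have h1 := deriv_dvd (cmp_trunc a hz (K + 1))
  have h2 := cmp_trunc (dsq a) hz K
  have h3 : d⁄dX R (∑ k ∈ range (K + 1), C (a k) * z ^ k) =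
      (∑ k ∈ range K, C (dsq a k) * z ^ k) * d⁄dX R z := by
    rw [map_sum, Finset.sum_range_succ', Finset.sum_mul]
    have h4 : d⁄dX R (C (a 0) * z ^ 0) = 0 := by
      rw [pow_zero, mul_one, PowerSeries.derivative_C]
    rw [h4, add_zero]
    apply Finset.sum_congr rfl
    intro k _
    rw [Derivation.leibniz, PowerSeries.derivative_C, smul_zero, add_zero,
      Derivation.leibniz_pow, dsq]
    simp only [smul_eq_mul, nsmul_eq_mul, Nat.add_sub_cancel]
    rw [map_mul, map_add, map_natCast, map_one]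
    push_cast
    ring
  rw [map_sub, h3] at h1
  have h5 : d⁄dX R (cmp a z) - cmp (dsq a) z * d⁄dX R z =
      (d⁄dX R (cmp a z) - (∑ k ∈ range K, C (dsq a k) * z ^ k) * d⁄dX R z) -
      (cmp (dsq a) z - ∑ k ∈ range K, C (dsq a k) * z ^ k) * d⁄dX R z := by ring
  rw [h5]
  exact dvd_sub h1 (Dvd.dvd.mul_right h2 _)

theorem X_dvd_expand {p : ℕ} (hp : p ≠ 0) {z : R⟦X⟧} (hz : X ∣ z) : X ∣ PowerSeries.expand p hp z := by
  rw [PowerSeries.X_dvd_iff, PowerSeries.constantCoeff_expand]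
  exact X_dvd_constantCoeff hz

theorem cmp_expand {p : ℕ} (hp : p ≠ 0) (a : ℕ → R) {z : R⟦X⟧} (hz : X ∣ z) :
    PowerSeries.expand p hp (cmp a z) = cmp a (PowerSeries.expand p hp z) := by
  apply cmp_eq_of _ (X_dvd_expand hp hz)
  intro K
  refine ⟨K, le_rfl, ?_⟩
  have h1 := cmp_trunc a hz K
  obtain ⟨g, hg⟩ := h1
  have h2 := congrArg (PowerSeries.expand p hp) hg
  rw [map_sub, map_sum, map_mul, map_pow, PowerSeries.expand_X] at h2
  have h3 : ∑ k ∈ range K, PowerSeries.expand p hp (C (a k) * z ^ k) =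
      ∑ k ∈ range K, C (a k) * (PowerSeries.expand p hp z) ^ k := by
    apply Finset.sum_congr rfl
    intro k _
    rw [map_mul, map_pow, PowerSeries.expand_C]
  rw [h3] at h2
  rw [h2, ← pow_mul]
  exact Dvd.dvd.mul_right (pow_dvd_pow _ (Nat.le_mul_of_pos_left K (Nat.pos_of_ne_zero hp))) _

/-- Dwork type congruence for composite functions: if `a_{mp+k} = a_m (a_k + P m e_k)` with
`P^2 = 0` and `z^p = zT + P δ`, then `F(z) = A(z) F(zT) + P (E(z) zT + A(z) δ) F'(zT)`. -/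
theorem cmp_dwork {p : ℕ} (hp : 0 < p) (P : R) (hP : P * P = 0) (a b e : ℕ → R)
    (h : ∀ m k, k < p → a (m * p + k) = b m * (a k + P * m * e k))
    {z zT δ : R⟦X⟧} (hz : X ∣ z) (hzT : X ∣ zT) (hd : z ^ p = zT + C P * δ) :
    cmp a z = (∑ k ∈ range p, C (a k) * z ^ k) * cmp b zT +
      C P * ((∑ k ∈ range p, C (e k) * z ^ k) * zT + (∑ k ∈ range p, C (a k) * z ^ k) * δ) *
        cmp (dsq b) zT := by
  symm
  apply cmp_eq_of a hz
  intro K
  refine ⟨(K + 1) * p, by nlinarith, ?_⟩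
  set A := ∑ k ∈ range p, C (a k) * z ^ k with hA
  set E := ∑ k ∈ range p, C (e k) * z ^ k with hE
  have hPP : (C P : R⟦X⟧) * C P = 0 := by rw [← map_mul, hP, map_zero]
  -- powers of zT + Pδ
  have hpow : ∀ m : ℕ, (zT + C P * δ) ^ m = zT ^ m + C P * δ * ((m : R⟦X⟧) * zT ^ (m - 1)) := by
    intro m
    induction m with
    | zero => simp
    | succ m ih =>
      rw [pow_succ, ih, Nat.add_sub_cancel]
      rcases Nat.eq_zero_or_pos m with rfl | hm
      · simp
      · obtain ⟨m', rfl⟩ : ∃ m', m = m' + 1 := ⟨m - 1, by omega⟩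
        rw [Nat.add_sub_cancel]
        push_cast
        linear_combination (δ ^ 2 * (((m' : R⟦X⟧) + 1) * zT ^ m')) * hPP
  -- the double sum
  have hsum : ∀ N : ℕ, ∑ k ∈ range (N * p), C (a k) * z ^ k =
      ∑ m ∈ range N, ∑ k ∈ range p, C (a (m * p + k)) * z ^ (m * p + k) := by
    intro N
    induction N with
    | zero => simp
    | succ N ih => rw [Nat.succ_mul, Finset.sum_range_add, ih, Finset.sum_range_succ]
  have hin : ∀ m : ℕ, ∑ k ∈ range p, C (a (m * p + k)) * z ^ (m * p + k) =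
      C (b m) * (zT ^ m * A + C P * E * ((m : R⟦X⟧) * zT ^ m) +
        C P * δ * A * ((m : R⟦X⟧) * zT ^ (m - 1))) := by
    intro m
    have h1 : ∀ k ∈ range p, C (a (m * p + k)) * z ^ (m * p + k) =
        C (b m) * (z ^ p) ^ m * (C (a k) * z ^ k) +
          C (b m) * (z ^ p) ^ m * (C P * (m : R⟦X⟧)) * (C (e k) * z ^ k) := by
      intro k hk
      rw [h m k (mem_range.mp hk), map_mul, map_add, map_mul, map_mul, map_natCast, pow_add,
        mul_comm m p, pow_mul]
      ring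
    rw [Finset.sum_congr rfl h1, Finset.sum_add_distrib, ← Finset.mul_sum, ← Finset.mul_sum,
      ← hA, ← hE, hd, hpow]
    linear_combination (C (b m) * δ * ((m : R⟦X⟧) * zT ^ (m - 1)) * (m : R⟦X⟧) * E) * hPP
  rw [hsum, Finset.sum_congr rfl (fun m _ => hin m)]
  have t1 := cmp_trunc b hzT (K + 1)
  have t2 := cmp_trunc (dsq b) hzT K
  have hS : ∑ m ∈ range (K + 1), C (b m) * (zT ^ m * A + C P * E * ((m : R⟦X⟧) * zT ^ m) +
        C P * δ * A * ((m : R⟦X⟧) * zT ^ (m - 1))) =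
      A * ∑ m ∈ range (K + 1), C (b m) * zT ^ m +
      C P * (E * zT + A * δ) * ∑ m ∈ range K, C (dsq b m) * zT ^ m := by
    have e1 : ∀ m ∈ range (K + 1), C (b m) * (zT ^ m * A + C P * E * ((m : R⟦X⟧) * zT ^ m) +
        C P * δ * A * ((m : R⟦X⟧) * zT ^ (m - 1))) =
        A * (C (b m) * zT ^ m) + C P * (E * (C (b m) * ((m : R⟦X⟧) * zT ^ m)) +
          A * δ * (C (b m) * ((m : R⟦X⟧) * zT ^ (m - 1)))) := by
      intro m _; ring
    rw [Finset.sum_congr rfl e1, Finset.sum_add_distrib, ← Finset.mul_sum, ← Finset.mul_sum,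
      Finset.sum_add_distrib, ← Finset.mul_sum, ← Finset.mul_sum]
    have e2 : ∑ m ∈ range (K + 1), C (b m) * ((m : R⟦X⟧) * zT ^ m) =
        zT * ∑ m ∈ range K, C (dsq b m) * zT ^ m := by
      rw [Finset.sum_range_succ', Finset.mul_sum]
      simp only [Nat.cast_zero, zero_mul, mul_zero, add_zero]
      apply Finset.sum_congr rfl
      intro m _
      rw [dsq, map_mul, map_add, map_natCast, map_one]
      push_cast
      ring
    have e3 : ∑ m ∈ range (K + 1), C (b m) * ((m : R⟦X⟧) * zT ^ (m - 1)) =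
        ∑ m ∈ range K, C (dsq b m) * zT ^ m := by
      rw [Finset.sum_range_succ']
      simp only [Nat.cast_zero, zero_mul, mul_zero, add_zero]
      apply Finset.sum_congr rfl
      intro m _
      rw [dsq, map_mul, map_add, map_natCast, map_one, Nat.add_sub_cancel]
      push_cast
      ring
    rw [e2, e3]
    ring
  rw [hS]
  have hfin : A * cmp b zT + C P * (E * zT + A * δ) * cmp (dsq b) zT -
      (A * ∑ m ∈ range (K + 1), C (b m) * zT ^ m +
      C P * (E * zT + A * δ) * ∑ m ∈ range K, C (dsq b m) * zT ^ m) =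
      A * (cmp b zT - ∑ m ∈ range (K + 1), C (b m) * zT ^ m) +
      C P * (E * zT + A * δ) * (cmp (dsq b) zT - ∑ m ∈ range K, C (dsq b m) * zT ^ m) := by ring
  rw [hfin]
  exact dvd_add (Dvd.dvd.mul_left ((pow_dvd_pow X (Nat.le_succ K)).trans t1) _)
    (Dvd.dvd.mul_left t2 _)

end

end Cec
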