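import Pool.Agent.Cec.Hom

/-!
# The `p`-derivation on `ℤ[X]` attached to the Frobenius lift `X ↦ X^p`

Proof hints.
* `exists_dl`: `ZMod.expand_card` after `map (Int.castRingHom (ZMod p))`, then
  `C p ∣ g` iff all coefficients are divisible.
* `dl_deriv`: differentiate `dl_spec` (`Polynomial.derivative_expand`), cancel `C p`.
* `dl_mul`, `dl_monomial`: cancel `C p`.
* `exists_kap`: `sub_pow_char` after reduction.  `kap_hm`: multiply by `C p`, use
  `hm_smul`, `hm_add`, `hm_X_pow`, `hm_one_sub_pow`.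
* `dl_den`: exactly in `ℤ[X]`, `dl (ν + s^4 d) = dl ν + dl (s^4 d) + κ_h(ν, A^4 c)` where
  `p κ_h(x, y) = x^p - y^p + (y-x)^p` (`kap_hm`); and modulo `p`
  `dl (A^4 c) = A^{3p} (4 c^p δA + A^p δc)`, `dl (s^4 d) = s^{3p} (4 d^p δs + s^p δd)` by `dl_mul`.
-/

namespace Cec

open Finset Polynomial

noncomputable section

variable (p : ℕ) [hp : Fact p.Prime]

theorem dlt_dvd_of_map (g : ℤ[X]) (h : g.map (Int.castRingHom (ZMod p)) = 0) :
    ∃ k : ℤ[X], g = C (p : ℤ) * k := by
  have : C (p : ℤ) ∣ g := by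
    rw [Polynomial.C_dvd_iff_dvd_coeff]
    intro i
    have h1 := congrArg (fun q : (ZMod p)[X] => q.coeff i) h
    simp only [coeff_map, coeff_zero, eq_intCast] at h1
    exact (ZMod.intCast_zmod_eq_zero_iff_dvd _ p).mp h1
  exact this

theorem dlt_Cp_ne : C (p : ℤ) ≠ (0 : ℤ[X]) := by
  have := hp.out.ne_zero
  rw [Ne, C_eq_zero]
  exact_mod_cast this

theorem dlt_cancel {f g : ℤ[X]} (h : C (p : ℤ) * f = C (p : ℤ) * g) : f = g :=
  mul_left_cancel₀ (dlt_Cp_ne p) h

theorem exists_dl (f : ℤ[X]) : ∃ g : ℤ[X], expand ℤ p f = f ^ p + C (p : ℤ) * g := by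
  obtain ⟨k, hk⟩ := dlt_dvd_of_map p (expand ℤ p f - f ^ p) (by
    rw [Polynomial.map_sub, Polynomial.map_pow, Polynomial.map_expand, ZMod.expand_card, sub_self])
  exact ⟨k, by rw [← hk]; ring⟩

/-- `(f(X^p) - f^p)/p` -/
def dl (f : ℤ[X]) : ℤ[X] := (exists_dl p f).choose

theorem dl_spec (f : ℤ[X]) : expand ℤ p f = f ^ p + C (p : ℤ) * dl p f := (exists_dl p f).choose_spec

/-- reduction modulo `p` of a polynomial -/
def br (f : ℤ[X]) : (ZMod p)[X] := f.map (Int.castRingHom (ZMod p))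

theorem dl_deriv (f : ℤ[X]) : derivative (dl p f) =
    X ^ (p - 1) * expand ℤ p (derivative f) - f ^ (p - 1) * derivative f := by
  have h := congrArg derivative (dl_spec p f)
  rw [derivative_expand, derivative_add, derivative_pow, derivative_C_mul] at h
  apply dlt_cancel p
  have e1 : (C (p : ℤ) : ℤ[X]) = (p : ℤ[X]) := by simp
  rw [e1] at h ⊢
  linear_combination -h

/-- derivative of `dl` modulo `p` -/
theorem br_dl_deriv (f : ℤ[X]) : derivative (br p (dl p f)) =
    X ^ (p - 1) * (derivative (br p f)) ^ p - (br p f) ^ (p - 1) * derivative (br p f) := by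
  unfold br
  rw [derivative_map, dl_deriv]
  simp only [Polynomial.map_sub, Polynomial.map_mul, Polynomial.map_pow, map_X,
    Polynomial.map_expand, ZMod.expand_card, derivative_map]

theorem dl_mul (f g : ℤ[X]) : dl p (f * g) = f ^ p * dl p g + g ^ p * dl p f + C (p : ℤ) * (dl p f * dl p g) := by
  apply dlt_cancel p
  have h1 := dl_spec p f
  have h2 := dl_spec p g
  have h3 := dl_spec p (f * g)
  rw [map_mul, h1, h2] at h3
  rw [mul_pow] at h3
  linear_combination -h3

/-- `dl` of a monomial `c X^j` -/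
theorem dl_monomial (c : ℤ) (j : ℕ) : C (p : ℤ) * dl p (C c * X ^ j) = C (c - c ^ p) * X ^ (p * j) := by
  have h := dl_spec p (C c * X ^ j)
  rw [map_mul, map_pow, expand_C, expand_X, mul_pow, ← pow_mul, ← pow_mul, mul_comm j p] at h
  rw [C_sub, C_pow]
  linear_combination -h

theorem exists_kap : ∃ g : ℤ[X], C (p : ℤ) * g = X ^ p - 1 + (1 - X) ^ p := by
  obtain ⟨k, hk⟩ := dlt_dvd_of_map p (X ^ p - 1 + (1 - X) ^ p) (by
    simp only [Polynomial.map_add, Polynomial.map_sub, Polynomial.map_pow, map_X, Polynomial.map_one]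
    rw [sub_pow_char, one_pow]
    ring)
  exact ⟨k, hk.symm⟩

/-- `(X^p - 1 + (1-X)^p)/p` -/
def kap : ℤ[X] := (exists_kap p).choose

theorem kap_spec : C (p : ℤ) * kap p = X ^ p - 1 + (1 - X) ^ p := (exists_kap p).choose_spec

theorem kap_natDegree (h2 : 2 < p) : (kap p).natDegree ≤ p := by
  have h0 : (p : ℤ) ≠ 0 := by exact_mod_cast hp.out.ne_zero
  have h1 : (C (p : ℤ) * kap p).natDegree = (kap p).natDegree := natDegree_C_mul h0
  rw [← h1, kap_spec]
  refine (natDegree_add_le _ _).trans (max_le ?_ ?_)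
  · refine (natDegree_sub_le _ _).trans (max_le ?_ ?_)
    · exact natDegree_X_pow_le p
    · simp
  · refine natDegree_pow_le.trans ?_
    have : (1 - X : ℤ[X]).natDegree ≤ 1 := by
      refine (natDegree_sub_le _ _).trans (max_le ?_ ?_)
      · simp
      · exact natDegree_X_le
    calc p * (1 - X : ℤ[X]).natDegree ≤ p * 1 := Nat.mul_le_mul_left _ this
      _ = p := mul_one p

theorem kap_deriv : derivative (kap p) = X ^ (p - 1) - (1 - X) ^ (p - 1) := by
  have h := congrArg derivative (kap_spec p)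
  rw [derivative_C_mul, derivative_add, derivative_sub, derivative_pow, derivative_pow] at h
  apply dlt_cancel p
  rw [h]
  simp only [derivative_X, derivative_one, derivative_sub, map_natCast]
  ring

theorem br_kap_deriv (h2 : 2 < p) : derivative (br p (kap p)) = X ^ (p - 1) - (1 - X) ^ (p - 1) := by
  unfold br
  rw [derivative_map, kap_deriv]
  simp

theorem kap_eval_one : (kap p).eval 1 = 0 := by
  have h := congrArg (fun q : ℤ[X] => q.eval 1) (kap_spec p)
  have h0 : (p : ℤ) ≠ 0 := by exact_mod_cast hp.out.ne_zero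
  have hp0 : p ≠ 0 := hp.out.ne_zero
  simp only [eval_mul, eval_C, eval_add, eval_sub, eval_pow, eval_X, eval_one, one_pow, sub_self,
    zero_pow hp0, add_zero] at h
  exact (mul_eq_zero.mp h).resolve_left h0

theorem br_kap_eval (h2 : 2 < p) : (br p (kap p)).eval 1 = 0 := by
  unfold br
  have h : (eval (Int.castRingHom (ZMod p) 1) ((kap p).map (Int.castRingHom (ZMod p)))) =
      (Int.castRingHom (ZMod p)) ((kap p).eval 1) := by
    rw [eval_map, eval₂_at_apply]
  rw [map_one] at h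
  rw [h, kap_eval_one, map_zero]

/-- homogenised version -/
theorem kap_hm (h2 : 2 < p) (x y : ℤ[X]) :
    C (p : ℤ) * hm (fun k => (kap p).coeff k) p x y = x ^ p - y ^ p + (y - x) ^ p := by
  have h1 : C (p : ℤ) * hm (fun k => (kap p).coeff k) p x y =
      hm (fun k => (p : ℤ) * (kap p).coeff k) p x y := by
    rw [hm_smul]; rfl
  have h3 : (fun k => (p : ℤ) * (kap p).coeff k) =
      fun k => (((X : ℤ[X]) ^ p).coeff k - ((X : ℤ[X]) ^ 0).coeff k) + ((1 - X : ℤ[X]) ^ p).coeff k := by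
    funext k
    have h := congrArg (fun q : ℤ[X] => q.coeff k) (kap_spec p)
    simp only [coeff_C_mul, coeff_add, coeff_sub] at h
    rw [h, pow_zero]
  rw [h1, h3, hm_add (fun k => ((X : ℤ[X]) ^ p).coeff k - ((X : ℤ[X]) ^ 0).coeff k)
    (fun k => ((1 - X : ℤ[X]) ^ p).coeff k), hm_sub (fun k => ((X : ℤ[X]) ^ p).coeff k)
    (fun k => ((X : ℤ[X]) ^ 0).coeff k), hm_X_pow le_rfl, hm_X_pow (Nat.zero_le p), hm_one_sub_pow]
  simp

theorem dlt_br_add (f g : ℤ[X]) : br p (f + g) = br p f + br p g := by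
  simp [br]

theorem dlt_br_mul (f g : ℤ[X]) : br p (f * g) = br p f * br p g := by
  simp [br]

theorem dlt_br_pow (f : ℤ[X]) (n : ℕ) : br p (f ^ n) = br p f ^ n := by
  simp [br]

theorem dlt_br_Cp : br p (C (p : ℤ)) = 0 := by
  simp [br]

theorem dlt_br_dl_mul (f g : ℤ[X]) : br p (dl p (f * g)) =
    br p f ^ p * br p (dl p g) + br p g ^ p * br p (dl p f) := by
  rw [dl_mul, dlt_br_add, dlt_br_add, dlt_br_mul, dlt_br_mul, dlt_br_mul, dlt_br_Cp, dlt_br_pow,
    dlt_br_pow]
  ring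

theorem dlt_br_dl_quartic (A c : ℤ[X]) : br p (dl p (A ^ 4 * c)) =
    (br p A) ^ (3 * p) * (4 * (br p c) ^ p * br p (dl p A) + (br p A) ^ p * br p (dl p c)) := by
  have e : A ^ 4 = A * (A * (A * A)) := by ring
  rw [dlt_br_dl_mul, dlt_br_pow, e, dlt_br_dl_mul, dlt_br_dl_mul, dlt_br_dl_mul]
  simp only [dlt_br_mul, mul_pow]
  have e3 : br p A ^ (3 * p) = br p A ^ p * br p A ^ p * br p A ^ p := by
    rw [mul_comm, pow_mul]; ring
  have e4 : (br p A ^ 4) ^ p = br p A ^ p * br p A ^ p * br p A ^ p * br p A ^ p := by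
    rw [← pow_mul, mul_comm, pow_mul]; ring
  rw [e3, e4]
  ring

theorem dlt_br_hm (f : ℕ → ℤ) (N : ℕ) (x y : ℤ[X]) :
    br p (hm f N x y) = hm (fun k => ((f k : ℤ) : ZMod p)) N (br p x) (br p y) := by
  unfold hm br
  rw [Polynomial.map_sum]
  refine Finset.sum_congr rfl fun k _ => ?_
  simp only [Polynomial.map_mul, Polynomial.map_pow]
  congr 2
  rw [← Polynomial.C_eq_algebraMap, ← Polynomial.C_eq_algebraMap, Polynomial.map_C]
  simp

/-- the key relation: if `A^4 c = nu + s^4 d` then modulo `p`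
`A^{3p} (4 c^p δA + A^p δc) = δ nu + κ(nu, A^4 c) + s^{3p} (4 d^p δs + s^p δd)`. -/
theorem dl_den (h2 : 2 < p) {A c s d nu : ℤ[X]} (h : A ^ 4 * c = nu + s ^ 4 * d) :
    (br p A) ^ (3 * p) * (4 * (br p c) ^ p * br p (dl p A) + (br p A) ^ p * br p (dl p c)) =
    br p (dl p nu) + hm (fun k => ((kap p).coeff k : ZMod p)) p (br p nu) (br p A ^ 4 * br p c) +
    (br p s) ^ (3 * p) * (4 * (br p d) ^ p * br p (dl p s) + (br p s) ^ p * br p (dl p d)) := by
  have key : dl p (A ^ 4 * c) = dl p nu + hm (fun k => (kap p).coeff k) p nu (A ^ 4 * c) +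
      dl p (s ^ 4 * d) := by
    apply dlt_cancel p
    have h1 := dl_spec p (A ^ 4 * c)
    have h3 := dl_spec p nu
    have h4 := dl_spec p (s ^ 4 * d)
    have h5 := kap_hm p h2 nu (A ^ 4 * c)
    have h6 : expand ℤ p (A ^ 4 * c) = expand ℤ p nu + expand ℤ p (s ^ 4 * d) := by
      rw [h, map_add]
    have h7 : A ^ 4 * c - nu = s ^ 4 * d := by rw [h]; ring
    rw [h7] at h5
    rw [h1, h3, h4] at h6
    linear_combination h6 - h5
  have h8 := congrArg (br p) key
  rw [dlt_br_add, dlt_br_add, dlt_br_dl_quartic, dlt_br_dl_quartic, dlt_br_hm, dlt_br_mul,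
    dlt_br_pow] at h8
  exact h8

end

end Cec
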