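import Pool.Agent.Cec.WZ
import Pool.Agent.Cec.Harm

/-!
# MP_cec948_nt: the sum `S_p`

Proof hints.  `q - P q = -n`, `h + P h = 2n+1`, `1 + P h = 2n + 3/2`; `h - P h = -2n`, `q + P q = n + 1/2`,
`1 - P h = 1/2 - 2n`.
* `V1_half`: `red_hz_nat` and `V1 n`: value `* ∏_{i<n} (4n+3+2i) = 9^n ∏_{i<n} (2i+1)`, `4n+3+2i = p + 2(i+1)`;
  `eq_of_Lq`: both sides are units, equal modulo `p` (`9^n = legendreSym`, `4^n = 2^{(p-1)/2} = (-1)^n` by the
  supplementary law) and `Lq` of both sides agree (`Lq_add_P`, `P_harm_n`, `Lq_factorial`, `Lq_choose`).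
* `W1_half`: value `* 9^n C(4n,n) = 16^n C(2n,n)`, `C(p-1,n) = (-1)^n ∏ (1 - p/i)`.
* `S_one`: `f s = hz (q + P s) (h - 2 P s) (1 - 2 P s) t` is affine; `s = ∓ q`; average.
* `S_three`: `N = (3p-1)/4`, `red` of `hz (-N) (2N+1) (2N+3/2) t`; by `V1 N`, `∏_{i<N} (4N+3+2i) = ∏ (3p+2+2i)`
  is prime to `p` and `∏_{i<N} (2i+1)` is divisible by `p`.
-/

namespace Cec

open Finset SC24

section
variable {p : ℕ} [hp : Fact p.Prime]

lemma sp_isUnit_two (h3 : 3 < p) : IsUnit (2 : ZMod (p ^ (2:ℕ))) := isUnit_two (by omega)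

omit hp in
lemma sp_not_dvd_two (h3 : 3 < p) : ¬ p ∣ 2 := fun h =>
  absurd (Nat.le_of_dvd (by norm_num) h) (by omega)

omit hp in
lemma sp_not_dvd_three (h3 : 3 < p) : ¬ p ∣ 3 := fun h =>
  absurd (Nat.le_of_dvd (by norm_num) h) (by omega)

/-- `a^{(p-1)/2}` modulo `p^2` -/
lemma sp_half_pow {n : ℕ} (hpn : p = 4 * n + 1) {h : ZMod (p ^ (2:ℕ))}
    (hh : 2 * h = 1) {a : ℕ} (ha : ¬ p ∣ a) :
    (a : ZMod (p ^ (2:ℕ))) ^ (2 * n) =
      (legendreSym p a : ZMod (p ^ (2:ℕ))) * (1 + h * Lq p (a : ZMod (p ^ (2:ℕ)))) := by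
  have hu : IsUnit (a : ZMod (p ^ (2:ℕ))) := isUnit_num ha
  obtain ⟨c, hc⟩ := Lq_P (p := p) (a : ZMod (p ^ (2:ℕ)))
  have hP : P2 p = 4 * (n : ZMod (p ^ (2:ℕ))) + 1 := by
    have := congrArg (Nat.cast : ℕ → ZMod (p ^ (2:ℕ))) hpn
    push_cast at this
    exact this
  have hleg : (legendreSym p a : ZMod (p ^ (2:ℕ))) = 1 ∨ (legendreSym p a : ZMod (p ^ (2:ℕ))) = -1 := by
    have h1 : ((a : ℤ) : ZMod p) ≠ 0 := by
      rw [Int.cast_natCast, Ne, ZMod.natCast_eq_zero_iff]; exact ha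
    rcases legendreSym.eq_one_or_neg_one p h1 with h2 | h2
    · left; rw [h2]; norm_num
    · right; rw [h2]; norm_num
  have hLr : Lq p ((legendreSym p a : ZMod (p ^ (2:ℕ))) * (1 + h * Lq p (a : ZMod (p ^ (2:ℕ))))) =
      -(h * Lq p (a : ZMod (p ^ (2:ℕ)))) := by
    have e1 : Lq p (1 + h * Lq p (a : ZMod (p ^ (2:ℕ)))) = -(h * Lq p (a : ZMod (p ^ (2:ℕ)))) := by
      have e2 : h * Lq p (a : ZMod (p ^ (2:ℕ))) = P2 p * (h * c) := by rw [hc]; ring
      rw [e2, Lq_one_add]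
    rcases hleg with h2 | h2
    · rw [h2, one_mul, e1]
    · rw [h2, neg_one_mul, Lq_neg (by have := hp.out.two_le; omega), e1]
  apply eq_of_Lq (hu.pow _)
  · rw [map_pow, map_natCast, map_mul, map_add, map_mul, hc, map_mul, red_P, map_one, map_intCast,
      legendreSym.eq_pow]
    have : p / 2 = 2 * n := by omega
    rw [this]
    push_cast
    ring
  · rw [Lq_pow hu, hLr]
    have h2 : ((2 * n : ℕ) : ZMod (p ^ (2:ℕ))) = h * P2 p - h := by
      rw [hP]; push_cast; linear_combination (-2 * (n : ZMod (p ^ (2:ℕ)))) * hh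
    rw [h2]
    have h3 := P_mul_Lq (p := p) (a : ZMod (p ^ (2:ℕ)))
    linear_combination h * h3

lemma sp_leg_two {n : ℕ} (hpn : p = 4 * n + 1) : legendreSym p 2 = (-1) ^ n := by
  have hp2 : p ≠ 2 := by omega
  rw [legendreSym.at_two hp2]
  have h1 : p % 8 = 1 ∧ n % 2 = 0 ∨ p % 8 = 5 ∧ n % 2 = 1 := by omega
  rcases h1 with ⟨h1, h2⟩ | ⟨h1, h2⟩
  · have h3 : (p : ZMod 8) = 1 := by
      have := (ZMod.natCast_mod p 8)
      rw [h1] at this
      simpa using this.symm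
    rw [h3, Even.neg_one_pow (Nat.even_iff.2 h2)]
    decide
  · have h3 : (p : ZMod 8) = 5 := by
      have := (ZMod.natCast_mod p 8)
      rw [h1] at this
      simpa using this.symm
    rw [h3, Odd.neg_one_pow (Nat.odd_iff.2 h2)]
    decide

lemma sp_prod_odd (n : ℕ) : (∏ i ∈ range n, (2 * i + 1)) * (2 ^ n * n.factorial) = (2 * n).factorial := by
  induction n with
  | zero => simp
  | succ n ih =>
    rw [prod_range_succ, show 2 * (n + 1) = 2 * n + 1 + 1 by ring, Nat.factorial_succ (2 * n + 1),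
      Nat.factorial_succ (2 * n), ← ih, Nat.factorial_succ n, pow_succ]
    ring

lemma sp_inv {i : ℕ} (hi : i + 1 < p) :
    ((i + 1 : ℕ) : ZMod (p ^ (2:ℕ))) * ((i + 1 : ℕ) : ZMod (p ^ (2:ℕ)))⁻¹ = 1 :=
  ZMod.mul_inv_of_unit _ (isUnit_num (fun h => absurd (Nat.le_of_dvd (by omega) h) (by omega)))

lemma sp_prod_P {h : ZMod (p ^ (2:ℕ))} (hh : 2 * h = 1) (n : ℕ) (hn : n < p) :
    ∏ i ∈ range n, (P2 p + 2 * ((i + 1 : ℕ) : ZMod (p ^ (2:ℕ)))) =
      2 ^ n * (n.factorial : ZMod (p ^ (2:ℕ))) * (1 + P2 p * harm (p ^ 2) n * h) := by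
  induction n with
  | zero => simp [harm]
  | succ n ih =>
    have h1 := sp_inv (p := p) (i := n) hn
    have h2 : harm (p ^ 2) (n + 1) = harm (p ^ 2) n + ((n + 1 : ℕ) : ZMod (p ^ (2:ℕ)))⁻¹ := by
      unfold harm; rw [sum_range_succ]
    rw [prod_range_succ, ih (by omega), h2, Nat.factorial_succ, pow_succ (2 : ZMod (p ^ (2:ℕ))) n]
    push_cast at h1 ⊢
    generalize ((n : ZMod (p ^ (2:ℕ))) + 1)⁻¹ = y at *
    have hP := P2_mul_self p
    generalize P2 p = P at *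
    generalize harm (p ^ 2) n = H at *
    generalize (n.factorial : ZMod (p ^ (2:ℕ))) = F at *
    linear_combination (2 ^ n * F * H * h) * hP - (2 ^ n * F * (2 * P * h)) * h1 -
      (2 ^ n * F * P) * hh

lemma sp_prod_Pm (n : ℕ) (hn : n < p) :
    ∏ i ∈ range n, (P2 p - ((i + 1 : ℕ) : ZMod (p ^ (2:ℕ)))) =
      (-1) ^ n * (n.factorial : ZMod (p ^ (2:ℕ))) * (1 - P2 p * harm (p ^ 2) n) := by
  induction n with
  | zero => simp [harm]
  | succ n ih =>
    have h1 := sp_inv (p := p) (i := n) hn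
    have h2 : harm (p ^ 2) (n + 1) = harm (p ^ 2) n + ((n + 1 : ℕ) : ZMod (p ^ (2:ℕ)))⁻¹ := by
      unfold harm; rw [sum_range_succ]
    rw [prod_range_succ, ih (by omega), h2, Nat.factorial_succ, pow_succ (-1 : ZMod (p ^ (2:ℕ))) n]
    push_cast at h1 ⊢
    generalize ((n : ZMod (p ^ (2:ℕ))) + 1)⁻¹ = y at *
    have hP := P2_mul_self p
    generalize P2 p = P at *
    generalize harm (p ^ 2) n = H at *
    generalize (n.factorial : ZMod (p ^ (2:ℕ))) = F at *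
    linear_combination (-(-1) ^ n * F * H) * hP - ((-1) ^ n * F * P) * h1

omit hp in
/-- reduction of `a / 2` -/
lemma sp_red_half (h3 : 3 < p) {x : ℚ} {r : ZMod (p ^ (2:ℕ))} (a : ℤ) (hx : x * 2 = a)
    (hr : r * 2 = a) : Red p (p ^ 2) x r :=
  ⟨a, 2, fun h => sp_not_dvd_two h3 (by exact_mod_cast h), by exact_mod_cast hx, by exact_mod_cast hr⟩

omit hp in
lemma sp_red_t (h3 : 3 < p) {t : ZMod (p ^ (2:ℕ))} (ht : -3 * t = 1) :
    Red p (p ^ 2) (-1 / 3) t := by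
  refine ⟨1, -3, fun h => sp_not_dvd_three h3 ?_, by norm_num, ?_⟩
  · exact_mod_cast (Int.dvd_neg).1 h
  · push_cast; linear_combination ht

lemma sp_leg_sq (h3 : 3 < p) : (legendreSym p 3 : ZMod (p ^ (2:ℕ))) * legendreSym p 3 = 1 := by
  have h1 : ((3 : ℤ) : ZMod p) ≠ 0 := by
    have : ((3 : ℕ) : ZMod p) ≠ 0 := by
      rw [Ne, ZMod.natCast_eq_zero_iff]; exact sp_not_dvd_three h3
    exact_mod_cast this
  have h2 := legendreSym.sq_one p h1
  have h4 : (legendreSym p 3) * (legendreSym p 3) = 1 := by rw [← h2]; ring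
  exact_mod_cast congrArg (Int.cast : ℤ → ZMod (p ^ (2:ℕ))) h4

omit hp in
lemma sp_eps_sq (n : ℕ) : ((-1 : ZMod (p ^ (2:ℕ))) ^ n) * (-1) ^ n = 1 := by
  rw [← mul_pow]; simp

lemma sp_nine (h3 : 3 < p) {n : ℕ} (hpn : p = 4 * n + 1) {h : ZMod (p ^ (2:ℕ))} (hh : 2 * h = 1) :
    (9 : ZMod (p ^ (2:ℕ))) ^ n = (legendreSym p 3 : ZMod (p ^ (2:ℕ))) * (1 + h * Lq p 3) := by
  have e := sp_half_pow hpn hh (sp_not_dvd_three h3)
  push_cast at e
  rw [pow_mul] at e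
  rw [← e]; norm_num

lemma sp_four (h3 : 3 < p) {n : ℕ} (hpn : p = 4 * n + 1) {h : ZMod (p ^ (2:ℕ))} (hh : 2 * h = 1) :
    (4 : ZMod (p ^ (2:ℕ))) ^ n = (-1) ^ n * (1 + h * Lq p 2) := by
  have e := sp_half_pow hpn hh (sp_not_dvd_two h3)
  simp only [Nat.cast_ofNat] at e
  rw [sp_leg_two hpn] at e
  push_cast at e
  rw [pow_mul] at e
  rw [← e]; norm_num

lemma sp_sixteen (h3 : 3 < p) {n : ℕ} (hpn : p = 4 * n + 1) :
    (16 : ZMod (p ^ (2:ℕ))) ^ n = 1 + Lq p 2 := by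
  rw [Lq_unit (sp_isUnit_two h3)]
  have : p - 1 = 4 * n := by omega
  rw [this, pow_mul]; norm_num

theorem V1_half (h3 : 3 < p) {n : ℕ} (hpn : p = 4 * n + 1) {q h t : ZMod (p ^ (2:ℕ))} (hq : 4 * q = 1)
    (hh : 2 * h = 1) (ht : -3 * t = 1) :
    hz p (q - P2 p * q) (h + P2 p * h) (1 + P2 p * h) t =
      (legendreSym p 3 : ZMod (p ^ (2:ℕ))) * (-1) ^ n * ((2 * n).choose n : ZMod (p ^ (2:ℕ))) *
        (1 + h * Lq p 3 + Lq p 2) := by
  have h2 : 2 < p := by omega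
  have hP : P2 p = 4 * (n : ZMod (p ^ (2:ℕ))) + 1 := by
    have := congrArg (Nat.cast : ℕ → ZMod (p ^ (2:ℕ))) hpn
    push_cast at this
    exact this
  have ea : q - P2 p * q = -(n : ZMod (p ^ (2:ℕ))) := by
    rw [hP]; linear_combination (-(n : ZMod (p ^ (2:ℕ)))) * hq
  have hadm : Adm p (1 + P2 p * h) := by
    unfold Adm; rw [map_add, map_mul, red_P, zero_mul, add_zero, map_one]
  have r1 := red_hz_nat (p := p) (N := n) (by omega) (b := 2 * n + 1) (c := 2 * n + 3 / 2)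
    (z := -1 / 3) (rb := h + P2 p * h) (rc := 1 + P2 p * h) (rz := t)
    (sp_red_half h3 (4 * n + 2) (by push_cast; ring)
      (by push_cast; rw [hP]; linear_combination (4 * (n : ZMod (p ^ (2:ℕ))) + 2) * hh))
    (sp_red_half h3 (4 * n + 3) (by push_cast; ring)
      (by push_cast; rw [hP]; linear_combination (4 * (n : ZMod (p ^ (2:ℕ))) + 1) * hh))
    (sp_red_t h3 ht) hadm
  have r2 : Red p (p ^ 2) (∏ i ∈ range n, (4 * (n : ℚ) + 3 + 2 * i))
      (∏ i ∈ range n, (P2 p + 2 * ((i + 1 : ℕ) : ZMod (p ^ (2:ℕ))))) := by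
    refine Red.prod _ _ _ fun i _ => ?_
    have := Red.int (p := p) (M := p ^ 2) (4 * n + 3 + 2 * i)
    have e1 : ((4 * n + 3 + 2 * i : ℤ) : ℚ) = 4 * (n : ℚ) + 3 + 2 * i := by push_cast; ring
    have e2 : ((4 * n + 3 + 2 * i : ℤ) : ZMod (p ^ 2)) =
        P2 p + 2 * ((i + 1 : ℕ) : ZMod (p ^ (2:ℕ))) := by rw [hP]; push_cast; ring
    rwa [e1, e2] at this
  have r3 : Red p (p ^ 2) (9 ^ n * ∏ i ∈ range n, (2 * (i : ℚ) + 1))
      (9 ^ n * ((∏ i ∈ range n, (2 * i + 1) : ℕ) : ZMod (p ^ (2:ℕ)))) := by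
    have := Red.nat (p := p) (M := p ^ 2) (9 ^ n * ∏ i ∈ range n, (2 * i + 1))
    push_cast at this ⊢
    exact this
  have r4 := r1.mul r2
  rw [V1 n] at r4
  have key := r4.uniq dvd_rfl r3
  rw [ea]
  set V := hz p (-(n : ZMod (p ^ (2:ℕ)))) (h + P2 p * h) (1 + P2 p * h) t with hV
  rw [sp_prod_P hh n (by omega)] at key
  have e5 : ((∏ i ∈ range n, (2 * i + 1) : ℕ) : ZMod (p ^ (2:ℕ))) *
      (2 ^ n * (n.factorial : ZMod (p ^ (2:ℕ)))) =
      ((2 * n).choose n : ZMod (p ^ (2:ℕ))) * (n.factorial : ZMod (p ^ (2:ℕ))) *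
        (n.factorial : ZMod (p ^ (2:ℕ))) := by
    have e6 := sp_prod_odd n
    have e7 := Nat.choose_mul_factorial_mul_factorial (show n ≤ 2 * n by omega)
    rw [show 2 * n - n = n by omega, ← e6] at e7
    have e8 := congrArg (Nat.cast : ℕ → ZMod (p ^ (2:ℕ))) e7
    push_cast at e8 ⊢
    exact e8.symm
  have hF := isUnit_factorial (p := p) (show n < p by omega)
  have hH := P_harm_n h2 hpn
  have h4 := sp_four h3 hpn hh
  have h9 := sp_nine h3 hpn hh
  have hs := sp_leg_sq h3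
  have hε := sp_eps_sq (p := p) n
  have hBB := Lq_mul_Lq (p := p) 2 2
  have hAB := Lq_mul_Lq (p := p) 3 2
  generalize (n.factorial : ZMod (p ^ (2:ℕ))) = F at *
  generalize ((∏ i ∈ range n, (2 * i + 1) : ℕ) : ZMod (p ^ (2:ℕ))) = O at *
  generalize ((2 * n).choose n : ZMod (p ^ (2:ℕ))) = C at *
  generalize (legendreSym p 3 : ZMod (p ^ (2:ℕ))) = σ at *
  have h22 : (2 : ZMod (p ^ (2:ℕ))) ^ n * 2 ^ n = 4 ^ n := by rw [← mul_pow]; norm_num
  generalize (2 : ZMod (p ^ (2:ℕ))) ^ n = w at *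
  generalize (4 : ZMod (p ^ (2:ℕ))) ^ n = w4 at *
  generalize (9 : ZMod (p ^ (2:ℕ))) ^ n = w9 at *
  generalize (-1 : ZMod (p ^ (2:ℕ))) ^ n = ε at *
  generalize Lq p 2 = B at *
  generalize Lq p 3 = A at *
  generalize P2 p * harm (p ^ 2) n = PH at *
  clear_value V
  -- V w F (1 + PH h) = w9 O
  have k1 : V * w4 * (1 + PH * h) = w9 * C := by
    apply (hF.mul hF).mul_right_injective
    show F * F * (V * w4 * (1 + PH * h)) = F * F * (w9 * C)
    linear_combination (w * F) * key + w9 * e5 - (V * F * F * (1 + PH * h)) * h22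
  rw [hH, h4, h9] at k1
  -- V ε (1 - B) = σ (1 + h A) C
  have k2 : V * ε * (1 - B) = σ * (1 + h * A) * C := by
    linear_combination k1 + V * ε * (3 * h * h) * hBB + V * ε * B * hh
  linear_combination (ε * (1 + B)) * k2 - V * (1 - B * B) * hε + V * hBB + σ * C * ε * h * hAB

theorem W1_half (h3 : 3 < p) {n : ℕ} (hpn : p = 4 * n + 1) {q h t : ZMod (p ^ (2:ℕ))} (hq : 4 * q = 1)
    (hh : 2 * h = 1) (ht : -3 * t = 1) :
    hz p (q + P2 p * q) (h - P2 p * h) (1 - P2 p * h) t =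
      (legendreSym p 3 : ZMod (p ^ (2:ℕ))) * (-1) ^ n * ((2 * n).choose n : ZMod (p ^ (2:ℕ))) *
        (1 - h * Lq p 3 - 2 * Lq p 2) := by
  have h2 : 2 < p := by omega
  have hP : P2 p = 4 * (n : ZMod (p ^ (2:ℕ))) + 1 := by
    have := congrArg (Nat.cast : ℕ → ZMod (p ^ (2:ℕ))) hpn
    push_cast at this
    exact this
  have ea : h - P2 p * h = -((2 * n : ℕ) : ZMod (p ^ (2:ℕ))) := by
    rw [hP]; push_cast; linear_combination (-(2 * (n : ZMod (p ^ (2:ℕ))))) * hh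
  have hadm : Adm p (1 - P2 p * h) := by
    unfold Adm; rw [map_sub, map_mul, red_P, zero_mul, sub_zero, map_one]
  have hq2 : 2 * (2 * q) = 1 := by linear_combination hq
  have r1 := red_hz_nat (p := p) (N := 2 * n) (by omega) (b := n + 1 / 2) (c := 1 / 2 - 2 * n)
    (z := -1 / 3) (rb := q + P2 p * q) (rc := 1 - P2 p * h) (rz := t)
    (sp_red_half h3 (2 * n + 1) (by push_cast; ring) (by
      apply (isUnit_two h2).mul_right_injective
      show 2 * ((q + P2 p * q) * 2) = 2 * ((2 * n + 1 : ℤ) : ZMod (p ^ (2:ℕ)))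
      rw [hP]; push_cast; linear_combination (4 * (n : ZMod (p ^ (2:ℕ))) + 2) * hq))
    (sp_red_half h3 (1 - 4 * n) (by push_cast; ring)
      (by push_cast; rw [hP]; linear_combination (-(4 * (n : ZMod (p ^ (2:ℕ))) + 1)) * hh))
    (sp_red_t h3 ht) hadm
  have r2 : Red p (p ^ 2) (9 ^ n * ((4 * n).choose n : ℚ))
      (9 ^ n * ((4 * n).choose n : ZMod (p ^ (2:ℕ)))) := by
    have := Red.nat (p := p) (M := p ^ 2) (9 ^ n * (4 * n).choose n)
    push_cast at this ⊢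
    exact this
  have r3 : Red p (p ^ 2) (16 ^ n * ((2 * n).choose n : ℚ))
      (16 ^ n * ((2 * n).choose n : ZMod (p ^ (2:ℕ)))) := by
    have := Red.nat (p := p) (M := p ^ 2) (16 ^ n * (2 * n).choose n)
    push_cast at this ⊢
    exact this
  have r4 := r1.mul r2
  rw [W1 n] at r4
  have key := r4.uniq dvd_rfl r3
  rw [hz_comm, ea]
  set V := hz p (-((2 * n : ℕ) : ZMod (p ^ (2:ℕ)))) (q + P2 p * q) (1 - P2 p * h) t with hV
  have hF := isUnit_factorial (p := p) (show n < p by omega)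
  have hH := P_harm_n h2 hpn
  have h16 := sp_sixteen h3 hpn
  have h9 := sp_nine h3 hpn hh
  have hs := sp_leg_sq h3
  have hε := sp_eps_sq (p := p) n
  have hBB := Lq_mul_Lq (p := p) 2 2
  have hAB := Lq_mul_Lq (p := p) 3 2
  have hAA := Lq_mul_Lq (p := p) 3 3
  have hch : ((4 * n).choose n : ZMod (p ^ (2:ℕ))) = (-1) ^ n * (1 - P2 p * harm (p ^ 2) n) := by
    apply hF.mul_right_injective
    show (n.factorial : ZMod (p ^ (2:ℕ))) * _ = (n.factorial : ZMod (p ^ (2:ℕ))) * _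
    have e1 : (n.factorial : ZMod (p ^ (2:ℕ))) * ((4 * n).choose n : ZMod (p ^ (2:ℕ))) =
        ((4 * n).descFactorial n : ZMod (p ^ (2:ℕ))) := by
      rw [Nat.descFactorial_eq_factorial_mul_choose]; push_cast; ring
    have e2 : ((4 * n).descFactorial n : ZMod (p ^ (2:ℕ))) =
        ∏ i ∈ range n, (P2 p - ((i + 1 : ℕ) : ZMod (p ^ (2:ℕ)))) := by
      rw [Nat.descFactorial_eq_prod_range]
      push_cast
      refine Finset.prod_congr rfl fun i hi => ?_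
      have hi' := mem_range.mp hi
      rw [Nat.cast_sub (by omega), hP]; push_cast; ring
    rw [e1, e2, sp_prod_Pm n (by omega)]
    ring
  rw [hch, hH, h16, h9] at key
  generalize ((2 * n).choose n : ZMod (p ^ (2:ℕ))) = C at *
  generalize (legendreSym p 3 : ZMod (p ^ (2:ℕ))) = σ at *
  generalize (-1 : ZMod (p ^ (2:ℕ))) ^ n = ε at *
  generalize Lq p 2 = B at *
  generalize Lq p 3 = A at *
  clear_value V
  -- key : V (σ (1+hA) ε (1+3B)) = (1+B) C
  have k0 : (1 + 3 * B) * (1 - 3 * B) = 1 := by linear_combination (-9) * hBB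
  have k1 : (1 + h * A) * (1 - h * A) = 1 := by linear_combination (-(h * h)) * hAA
  have k2 : V = σ * ε * (1 - h * A) * (1 - 3 * B) * ((1 + B) * C) := by
    linear_combination (σ * ε * (1 - h * A) * (1 - 3 * B)) * key -
      V * (σ * σ) * (ε * ε) * (1 + h * A) * (1 - h * A) * k0 - V * (σ * σ) * (ε * ε) * k1 -
      V * (σ * σ) * hε - V * hs
  rw [k2]
  linear_combination (σ * ε * C) * ((-3 + 3 * h * A) * hBB + 2 * h * hAB)

/-- `p = 4 n + 1` -/
theorem S_one (h3 : 3 < p) {n : ℕ} (hpn : p = 4 * n + 1) {q h t : ZMod (p ^ (2:ℕ))} (hq : 4 * q = 1)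
    (hh : 2 * h = 1) (ht : -3 * t = 1) :
    2 * hz p q h 1 t = (legendreSym p 3 : ZMod (p ^ (2:ℕ))) * (-1) ^ n *
      ((2 * n).choose n : ZMod (p ^ (2:ℕ))) * (2 - Lq p 2) := by
  have hqh : 2 * q = h := by
    apply (isUnit_two (p := p) (by omega)).mul_right_injective
    show 2 * (2 * q) = 2 * h
    rw [hh]; linear_combination hq
  have hA : IsAff p (fun s => hz p (q + P2 p * (1 * s)) (h + P2 p * (-2 * s)) (1 + P2 p * (-2 * s)) t) :=
    isAff_hz (IsAff.lin q 1) (IsAff.lin h (-2)) (IsAff.lin 1 (-2)) (by simp [Adm]) t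
  obtain ⟨D, hD⟩ := hA
  have e1 := hD (-q)
  have e2 := hD q
  simp only [mul_zero, add_zero] at e1 e2
  have f1 : q + P2 p * (1 * -q) = q - P2 p * q := by ring
  have f2 : h + P2 p * (-2 * -q) = h + P2 p * h := by rw [← hqh]; ring
  have f3 : 1 + P2 p * (-2 * -q) = 1 + P2 p * h := by rw [← hqh]; ring
  have g1 : q + P2 p * (1 * q) = q + P2 p * q := by ring
  have g2 : h + P2 p * (-2 * q) = h - P2 p * h := by rw [← hqh]; ring
  have g3 : 1 + P2 p * (-2 * q) = 1 - P2 p * h := by rw [← hqh]; ring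
  rw [f1, f2, f3, V1_half h3 hpn hq hh ht] at e1
  rw [g1, g2, g3, W1_half h3 hpn hq hh ht] at e2
  linear_combination -e1 - e2

/-- `p = 3 mod 4` -/
theorem S_three (h3 : 3 < p) (hp4 : p % 4 = 3) {q h t : ZMod (p ^ (2:ℕ))} (hq : 4 * q = 1)
    (hh : 2 * h = 1) (ht : -3 * t = 1) : red p (hz p q h 1 t) = 0 := by
  have h2 : 2 < p := by omega
  obtain ⟨N, hN⟩ : ∃ N, 4 * N + 1 = 3 * p := ⟨(3 * p - 1) / 4, by omega⟩
  have hNp : N < p := by omega
  have hP : 3 * P2 p = 4 * (N : ZMod (p ^ (2:ℕ))) + 1 := by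
    have := congrArg (Nat.cast : ℕ → ZMod (p ^ (2:ℕ))) hN
    push_cast at this
    exact this.symm
  have hqh : 2 * q = h := by
    apply (isUnit_two (p := p) h2).mul_right_injective
    show 2 * (2 * q) = 2 * h
    rw [hh]; linear_combination hq
  have hA : IsAff p (fun s => hz p (q + P2 p * (1 * s)) (h + P2 p * (-2 * s)) (1 + P2 p * (-2 * s)) t) :=
    isAff_hz (IsAff.lin q 1) (IsAff.lin h (-2)) (IsAff.lin 1 (-2)) (by simp [Adm]) t
  have e0 := red_hs_eq hA (-3 * q)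
  simp only [mul_zero, add_zero] at e0
  have f1 : q + P2 p * (1 * (-3 * q)) = -(N : ZMod (p ^ (2:ℕ))) := by
    linear_combination (-q) * hP - (N : ZMod (p ^ (2:ℕ))) * hq
  have f2 : h + P2 p * (-2 * (-3 * q)) = h + 3 * P2 p * h := by rw [← hqh]; ring
  have f3 : 1 + P2 p * (-2 * (-3 * q)) = 1 + 3 * P2 p * h := by rw [← hqh]; ring
  rw [f1, f2, f3] at e0
  rw [e0]
  have hadm : Adm p (1 + 3 * P2 p * h) := by
    unfold Adm; rw [map_add, map_mul, map_mul, red_P, mul_zero, zero_mul, add_zero, map_one]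
  have r1 := red_hz_nat (p := p) (N := N) hNp (b := 2 * N + 1) (c := 2 * N + 3 / 2)
    (z := -1 / 3) (rb := h + 3 * P2 p * h) (rc := 1 + 3 * P2 p * h) (rz := t)
    (sp_red_half h3 (4 * N + 2) (by push_cast; ring)
      (by push_cast; rw [hP]; linear_combination (4 * (N : ZMod (p ^ (2:ℕ))) + 2) * hh))
    (sp_red_half h3 (4 * N + 3) (by push_cast; ring)
      (by push_cast; rw [hP]; linear_combination (4 * (N : ZMod (p ^ (2:ℕ))) + 1) * hh))
    (sp_red_t h3 ht) hadm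
  have r2 : Red p (p ^ 2) (∏ i ∈ range N, (4 * (N : ℚ) + 3 + 2 * i))
      ((∏ i ∈ range N, (3 * p + 2 * (i + 1)) : ℕ) : ZMod (p ^ (2:ℕ))) := by
    have := Red.nat (p := p) (M := p ^ 2) (∏ i ∈ range N, (3 * p + 2 * (i + 1)))
    have e : ((∏ i ∈ range N, (3 * p + 2 * (i + 1)) : ℕ) : ℚ) =
        ∏ i ∈ range N, (4 * (N : ℚ) + 3 + 2 * i) := by
      push_cast
      refine Finset.prod_congr rfl fun i _ => ?_
      have : (4 : ℚ) * N + 1 = 3 * p := by exact_mod_cast hN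
      linear_combination -this
    rwa [e] at this
  have r3 : Red p (p ^ 2) (9 ^ N * ∏ i ∈ range N, (2 * (i : ℚ) + 1))
      ((9 ^ N * ∏ i ∈ range N, (2 * i + 1) : ℕ) : ZMod (p ^ (2:ℕ))) := by
    have := Red.nat (p := p) (M := p ^ 2) (9 ^ N * ∏ i ∈ range N, (2 * i + 1))
    have e : ((9 ^ N * ∏ i ∈ range N, (2 * i + 1) : ℕ) : ℚ) =
        9 ^ N * ∏ i ∈ range N, (2 * (i : ℚ) + 1) := by push_cast; ring
    rwa [e] at this
  have r4 := r1.mul r2
  rw [V1 N] at r4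
  have key := congrArg (red p) (r4.uniq dvd_rfl r3)
  rw [map_mul, map_natCast, map_natCast] at key
  have z1 : ((9 ^ N * ∏ i ∈ range N, (2 * i + 1) : ℕ) : ZMod p) = 0 := by
    rw [ZMod.natCast_eq_zero_iff]
    refine Dvd.dvd.mul_left ?_ _
    have hi : (p - 1) / 2 ∈ range N := mem_range.mpr (by omega)
    have := Finset.dvd_prod_of_mem (fun i => 2 * i + 1) hi
    have e : 2 * ((p - 1) / 2) + 1 = p := by omega
    rwa [e] at this
  have z2 : ((∏ i ∈ range N, (3 * p + 2 * (i + 1)) : ℕ) : ZMod p) ≠ 0 := by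
    rw [Ne, ZMod.natCast_eq_zero_iff, hp.out.prime.dvd_finsetProd_iff]
    rintro ⟨i, hi, hd⟩
    have hi' := mem_range.mp hi
    have h4 : p ∣ 2 * (i + 1) := (Nat.dvd_add_right (Dvd.intro_left 3 rfl)).mp hd
    rcases (Nat.Prime.dvd_mul hp.out).mp h4 with h5 | h5
    · exact sp_not_dvd_two h3 h5
    · exact absurd (Nat.le_of_dvd (by omega) h5) (by omega)
  rw [z1] at key
  exact (mul_eq_zero.mp key).resolve_right z2

end

end Cec
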