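import Pool.Agent.Cec.PiEq
import Pool.Agent.Cec.Dwork
import Pool.Agent.Cec.FE
import Pool.Agent.Cec.Zs

/-!
# MP_cec948_nt: the sum `T_p` for `p = 3 mod 4`

Proof hints.  `p = 4 r + 3`.  In `ZMod p`: `q = r + 1`, `2 r + 1 + h = 0`, `r + q' = 0`.
* `euler_mod`: `G = (1-X)^{r+1} ∑_{k ≤ r} b_k X^k` satisfies `θ^2 G = X (θ+q)(θ+h) G`
  (from `θ^2 b = X(θ+q')(θ+h) b`), degree `2r+1 < p`, `G(0) = 1`, hence its coefficients are `a_k`.
* `T_three`: `FE.fe1`, `FE.fe3` over `ℤ_[p]`, reduced (`cmp_map`), `dwork_three`, `pi_three` with `m = 2 r + 1`: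
  `Π1 A (5-X)^p = Π2 B (1-X)^p`.  `Π1 = hm P m ν den` is divisible by `(den - ν)^{r+1} = ((1-X)^4 D)^{r+1}`
  (`euler_mod`, `hm_mul`, `hm_one_sub_pow`), `4 (r+1) = p + 1`.  So `(1-X) ∣ Π2 B`, i.e. `Π2(1) = 0`, and
  `Π2(1) = 2592^m ∑ a_k 81^{-k}` (`32 = 2592/81`).
-/

namespace Cec

open Finset SC24

noncomputable section

variable {p : ℕ} [hp : Fact p.Prime]

section
open Polynomial

lemma three_coeff_pl {R : Type*} [CommRing R] (f : ℕ → R) (N k : ℕ) :
    (pl f N).coeff k = if k ≤ N then f k else 0 := by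
  unfold pl
  rw [finsetSum_coeff]
  simp only [coeff_C_mul_X_pow]
  by_cases h : k ≤ N
  · rw [if_pos h, Finset.sum_eq_single k]
    · simp
    · intro j _ hj
      rw [if_neg (fun h => hj h.symm)]
    · intro hk
      exact absurd (mem_range.2 (by omega)) hk
  · rw [if_neg h]
    apply Finset.sum_eq_zero
    intro j hj
    rw [mem_range] at hj
    rw [if_neg (by omega)]

/-- recursion and differential equation -/
lemma three_ode {K : Type*} [CommRing K] (F : K[X]) (q h : K) :
    (∀ k : ℕ, ((k : K) + 1) ^ 2 * F.coeff (k + 1) = (k + q) * (k + h) * F.coeff k) ↔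
    (1 - X) * (derivative F + X * derivative (derivative F)) =
      C (q + h) * (X * derivative F) + C (q * h) * F := by
  have key : ∀ k : ℕ, ((1 - X) * (derivative F + X * derivative (derivative F))
      - (C (q + h) * (X * derivative F) + C (q * h) * F)).coeff k =
      ((k : K) + 1) ^ 2 * F.coeff (k + 1) - (k + q) * (k + h) * F.coeff k := by
    intro k
    rw [sub_mul, one_mul]
    rcases k with _ | k
    · simp [coeff_derivative]
    · simp only [coeff_sub, coeff_add, coeff_X_mul, coeff_C_mul, coeff_derivative]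
      rcases k with _ | k
      · simp [coeff_derivative]
        ring
      · simp only [coeff_X_mul, coeff_derivative]
        push_cast
        ring
  constructor
  · intro h
    rw [← sub_eq_zero]
    ext k
    rw [key, h k, sub_self, coeff_zero]
  · intro h k
    rw [← sub_eq_zero] at h
    have := key k
    rw [h, coeff_zero] at this
    exact (sub_eq_zero.1 this.symm)

end

open Polynomial in
/-- Euler's transformation modulo `p`: `P = (1-X)^{(p+1)/4} P~` -/
theorem euler_mod {r : ℕ} (hpr : p = 4 * r + 3) {q h q' : ZMod p} (hq : 4 * q = 1) (hh : 2 * h = 1)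
    (hq' : 4 * q' = 3) {a b : ℕ → ZMod p} (a0 : a 0 = 1) (b0 : b 0 = 1)
    (as : ∀ k, k + 1 < p → ((k : ZMod p) + 1) ^ 2 * a (k + 1) = (k + q) * (k + h) * a k)
    (bs : ∀ k, k + 1 < p → ((k : ZMod p) + 1) ^ 2 * b (k + 1) = (k + q') * (k + h) * b k) :
    (∀ k, 2 * r + 1 < k → k < p → a k = 0) ∧ pl a (2 * r + 1) = (1 - X) ^ (r + 1) * pl b r := by
  have hp0 : ((4 * r + 3 : ℕ) : ZMod p) = 0 := by rw [← hpr]; exact ZMod.natCast_self p
  push_cast at hp0
  have h2u : (2 : ZMod p) ≠ 0 := by
    intro h2
    rw [h2, zero_mul] at hh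
    exact zero_ne_one hh
  have h4u : (4 : ZMod p) ≠ 0 := by
    intro h4
    rw [h4, zero_mul] at hq
    exact zero_ne_one hq
  have hqr : (r : ZMod p) + 1 = q := by
    apply mul_left_cancel₀ h4u
    linear_combination hp0 - hq
  have hhr : 2 * (r : ZMod p) + 1 + h = 0 := by
    apply mul_left_cancel₀ h2u
    linear_combination hp0 + hh
  have hqr' : (r : ZMod p) + q' = 0 := by
    apply mul_left_cancel₀ h4u
    linear_combination hp0 + hq'
  have hunit : ∀ k : ℕ, k + 1 < p → ((k : ZMod p) + 1) ^ 2 ≠ 0 := by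
    intro k hk
    apply pow_ne_zero
    have h1 : ((k + 1 : ℕ) : ZMod p) ≠ 0 := by
      rw [Ne, ZMod.natCast_eq_zero_iff]
      exact fun hd => absurd (Nat.le_of_dvd (by omega) hd) (by omega)
    exact_mod_cast h1
  have hvan : ∀ k, 2 * r + 1 < k → k < p → a k = 0 := by
    intro k hk
    induction k with
    | zero => omega
    | succ k ih =>
      intro hkp
      have h1 := as k hkp
      have h2 : ((k : ZMod p) + q) * (k + h) * a k = 0 := by
        by_cases hkr : k = 2 * r + 1
        · subst hkr
          push_cast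
          rw [hhr]
          ring
        · rw [ih (by omega) (by omega), mul_zero]
      rw [h2] at h1
      exact (mul_eq_zero.1 h1).resolve_left (hunit k hkp)
  refine ⟨hvan, ?_⟩
  -- the truncated `b`
  have hB : ∀ k : ℕ, ((k : ZMod p) + 1) ^ 2 * (pl b r).coeff (k + 1) =
      (k + q') * (k + h) * (pl b r).coeff k := by
    intro k
    rw [three_coeff_pl, three_coeff_pl]
    by_cases hk : k + 1 ≤ r
    · rw [if_pos hk, if_pos (by omega)]
      exact bs k (by omega)
    · rw [if_neg hk]
      by_cases hk' : k ≤ r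
      · have : k = r := by omega
        subst this
        rw [if_pos hk', hqr']
        ring
      · rw [if_neg hk']
        ring
  rw [three_ode] at hB
  set B := pl b r with hBdef
  set v : (ZMod p)[X] := (1 - X) ^ r with hv
  have hv' : (1 - X) * derivative v = -(C (r : ZMod p) * v) := by
    rw [hv]
    rcases r with _ | r
    · simp
    · rw [derivative_pow]
      simp only [derivative_sub, derivative_one, derivative_X, Nat.add_sub_cancel]
      simp only [Nat.cast_add, Nat.cast_one, C_add, C_1, map_natCast]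
      ring
  have hG : (1 - X) ^ (r + 1) * B = (1 - X) * v * B := by rw [hv]; ring
  have hG1 : derivative ((1 - X) * v * B) = -(C q * v * B) + (1 - X) * v * derivative B := by
    rw [derivative_mul, derivative_mul, derivative_sub, derivative_one, derivative_X]
    have : C q = C (r : ZMod p) + 1 := by rw [← hqr, C_add, C_1]
    rw [this]
    linear_combination B * hv'
  have hG2 : (1 - X) * derivative (derivative ((1 - X) * v * B)) =
      C q * C (r : ZMod p) * v * B - 2 * C q * ((1 - X) * v * derivative B)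
        + (1 - X) ^ 2 * v * derivative (derivative B) := by
    rw [hG1]
    simp only [derivative_mul, derivative_add, derivative_neg, derivative_sub, derivative_one,
      derivative_X, derivative_C]
    have : C q = C (r : ZMod p) + 1 := by rw [← hqr, C_add, C_1]
    rw [this]
    linear_combination (-(C (r : ZMod p) + 1) * B + (1 - X) * derivative B) * hv'
  have hGode : ∀ k : ℕ, ((k : ZMod p) + 1) ^ 2 * ((1 - X) * v * B).coeff (k + 1) =
      (k + q) * (k + h) * ((1 - X) * v * B).coeff k := by
    rw [three_ode]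
    have e1 : C q' = 3 * C q := by
      have : q' = 3 * q := by
        apply mul_left_cancel₀ h4u
        linear_combination hq' - 3 * hq
      rw [this, C_mul]
      congr 1
    have e2 : C h = 2 * C q := by
      have : h = 2 * q := by
        apply mul_left_cancel₀ h4u
        linear_combination 2 * hh - 2 * hq
      rw [this, C_mul]
      congr 1
    have e3 : C (r : ZMod p) = C q - 1 := by
      rw [← hqr, C_add, C_1]; ring
    have e4 : 4 * C q = 1 := by
      have : C (4 * q) = (1 : (ZMod p)[X]) := by rw [hq, C_1]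
      rw [C_mul] at this
      exact this
    have hB' := hB
    rw [C_add, C_mul, e1, e2] at hB'
    rw [C_add, C_mul, e2]
    rw [e3] at hG2
    linear_combination (exp := 1) (1 - X - (C q + 2 * C q) * X) * hG1 + X * hG2 + v * (1 - X) * hB'
      + (v * B * C q) * e4
  have hcoef : ∀ k, k < p → ((1 - X) * v * B).coeff k = a k := by
    intro k
    induction k with
    | zero =>
      intro _
      rw [a0, coeff_zero_eq_eval_zero, eval_mul, eval_mul, hv, eval_pow, eval_sub, eval_one,
        eval_X, sub_zero, one_pow, ← coeff_zero_eq_eval_zero, hBdef, three_coeff_pl,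
        if_pos (Nat.zero_le _), b0]
      ring
    | succ k ih =>
      intro hk
      have h1 := hGode k
      rw [ih (by omega), ← as k hk] at h1
      exact mul_left_cancel₀ (hunit k hk) h1
  rw [hG]
  ext k
  rw [three_coeff_pl]
  by_cases hk : k ≤ 2 * r + 1
  · rw [if_pos hk, hcoef k (by omega)]
  · rw [if_neg hk]
    symm
    apply coeff_eq_zero_of_natDegree_lt
    have d1 : B.natDegree ≤ r := by
      rw [natDegree_le_iff_coeff_eq_zero]
      intro N hN
      rw [hBdef, three_coeff_pl, if_neg (by omega)]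
    have d2 : v.natDegree ≤ r := by
      rw [hv]
      refine (natDegree_pow_le).trans ?_
      have : (1 - X : (ZMod p)[X]).natDegree ≤ 1 := by
        refine (natDegree_sub_le _ _).trans ?_
        simp
      calc r * (1 - X : (ZMod p)[X]).natDegree ≤ r * 1 := Nat.mul_le_mul_left _ this
        _ = r := mul_one _
    have d3 : (1 - X : (ZMod p)[X]).natDegree ≤ 1 := by
      refine (natDegree_sub_le _ _).trans ?_
      simp
    have d4 := natDegree_mul_le (p := (1 - X) * v) (q := B)
    have d5 := natDegree_mul_le (p := (1 - X : (ZMod p)[X])) (q := v)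
    omega

theorem T_three (h3 : 3 < p) (hp4 : p % 4 = 3) {q h : ℤ_[p]} (hq : 4 * q = 1) (hh : 2 * h = 1)
    {a : ℕ → ℤ_[p]} (ha : HS q h a) {t : ZMod p} (ht : 81 * t = 1) :
    ∑ k ∈ range p, red p (φ2 p (a k)) * t ^ k = 0 := by
  obtain ⟨r, hr⟩ : ∃ r, p = 4 * r + 3 := ⟨p / 4, by omega⟩
  have h5 : 5 < p := by omega
  obtain ⟨z1, z2, hz1, hz2⟩ := exists_zs (p := p) h5
  obtain ⟨_, _, q', _, _, hq'⟩ := exists_qh (p := p) (by omega)
  obtain ⟨b, hb⟩ := exists_HS q' h
  let ρ : ℤ_[p] →+* ZMod p := (red p).comp (φ2 p)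
  have hρq : 4 * ρ q = 1 := by
    have := congrArg ρ hq
    rwa [map_mul, map_ofNat, map_one] at this
  have hρh : 2 * ρ h = 1 := by
    have := congrArg ρ hh
    rwa [map_mul, map_ofNat, map_one] at this
  have hρq' : 4 * ρ q' = 3 := by
    have := congrArg ρ hq'
    rwa [map_mul, map_ofNat, map_ofNat] at this
  have hA := ha.map ρ
  have hB := hb.map ρ
  obtain ⟨hvan, heul⟩ := euler_mod hr hρq hρh hρq' (a := fun k => ρ (a k)) (b := fun k => ρ (b k))
    hA.zero hB.zero (fun k _ => hA.succ k) (fun k _ => hB.succ k)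
  have fe1 := fe1 hq hh ha hz1 hz2
  have fe3 := fe3 hq' hh hb hz1 hz2
  have fe1' := congrArg (PowerSeries.map ρ) fe1
  have fe3' := congrArg (PowerSeries.map ρ) fe3
  have hz1' := congrArg (PowerSeries.map ρ) hz1
  have hz2' := congrArg (PowerSeries.map ρ) hz2
  simp only [map_mul, map_add, map_sub, map_pow, map_one, PowerSeries.map_X, map_ofNat,
    cmp_map] at fe1' fe3' hz1' hz2'
  have hpi := pi_three (p := p) (m := 2 * r + 1) h5 (by omega) (a := fun k => ρ (a k))
    (b := fun k => ρ (b k)) hB.zero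
    (fun m k hk => dwork_three h3 hp4 hq hh hq' ha hb m k hk) hvan hz1' hz2' fe1' fe3'
  set α : ℕ → ZMod p := fun k => ρ (a k) with hα
  set β : ℕ → ZMod p := fun k => ρ (b k) with hβ
  have bA : br p (pA ℤ) = Polynomial.X + 1 := by simp [br, pA]
  have bB : br p (pB ℤ) = Polynomial.X + 5 := by simp [br, pB]
  have bC : br p (pC ℤ) = Polynomial.X ^ 2 - 4 * Polynomial.X + 5 := by simp [br, pC]
  have bn1 : br p (Polynomial.C 32 * Polynomial.X) = 32 * Polynomial.X := by simp [br]
  have bn2 : br p (Polynomial.C 32 * Polynomial.X ^ 5) = 32 * Polynomial.X ^ 5 := by simp [br]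
  -- the first polynomial is divisible by a high power of `1 - X`
  have hdiv : (1 - Polynomial.X : Polynomial (ZMod p)) ^ (p + 1) ∣
      PiP p (2 * r + 1) α (pA ℤ) (pC ℤ) (Polynomial.C 32 * Polynomial.X) := by
    unfold PiP
    rw [hm_coeff (pl α (2 * r + 1)) (N := 2 * r + 1) (by
      rw [Polynomial.natDegree_le_iff_coeff_eq_zero]
      intro N hN
      rw [three_coeff_pl, if_neg (by omega)]) α (by
      intro k hk
      rw [three_coeff_pl, if_pos hk])]
    have e : 2 * r + 1 = (r + 1) + r := by omega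
    rw [heul, e, hm_mul _ _ (by
      refine (Polynomial.natDegree_pow_le).trans ?_
      have : (1 - Polynomial.X : Polynomial (ZMod p)).natDegree ≤ 1 := by
        refine (Polynomial.natDegree_sub_le _ _).trans ?_
        simp
      calc (r + 1) * (1 - Polynomial.X : Polynomial (ZMod p)).natDegree ≤ (r + 1) * 1 :=
            Nat.mul_le_mul_left _ this
        _ = r + 1 := mul_one _) (by
      rw [Polynomial.natDegree_le_iff_coeff_eq_zero]
      intro N hN
      rw [three_coeff_pl, if_neg (by omega)]), hm_one_sub_pow, bA, bC, bn1]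
    apply Dvd.dvd.mul_right
    have e2 : ((Polynomial.X + 1) ^ 4 * (Polynomial.X ^ 2 - 4 * Polynomial.X + 5)
        - 32 * Polynomial.X : Polynomial (ZMod p)) =
        (1 - Polynomial.X) ^ 4 * (Polynomial.X ^ 2 + 4 * Polynomial.X + 5) := by ring
    rw [e2, mul_pow, ← pow_mul]
    have e3 : 4 * (r + 1) = p + 1 := by omega
    rw [e3]
    exact dvd_mul_right _ _
  have hS0 : (1 - Polynomial.X : Polynomial (ZMod p)) ≠ 0 := by
    intro h0
    have := congrArg (Polynomial.eval 0) h0
    simp at this
  -- hence the second one vanishes at `1`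
  have h2 : (1 - Polynomial.X : Polynomial (ZMod p)) ∣
      PiP p (2 * r + 1) α (pB ℤ) (pC ℤ) (Polynomial.C 32 * Polynomial.X ^ 5) * pB (ZMod p) := by
    have h4 : (1 - Polynomial.X : Polynomial (ZMod p)) ^ (p + 1) ∣
        PiP p (2 * r + 1) α (pB ℤ) (pC ℤ) (Polynomial.C 32 * Polynomial.X ^ 5) * pB (ZMod p) *
          (1 - Polynomial.X) ^ p := by
      have h5 := (hdiv.mul_right (pA (ZMod p))).mul_right (pF (ZMod p) ^ p)
      rw [hpi] at h5
      exact h5
    rw [pow_succ', mul_dvd_mul_iff_right (pow_ne_zero _ hS0)] at h4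
    exact h4
  obtain ⟨Y, hY⟩ := h2
  have h6 := congrArg (Polynomial.eval 1) hY
  have h7 : Polynomial.eval 1 (pB (ZMod p)) = 6 := by
    simp [pB]
    norm_num
  rw [Polynomial.eval_mul, Polynomial.eval_mul, h7, Polynomial.eval_sub, Polynomial.eval_one,
    Polynomial.eval_X, sub_self, zero_mul] at h6
  have hne : ∀ m : ℕ, 0 < m → m < p → ((m : ℕ) : ZMod p) ≠ 0 := by
    intro m hm hmp
    rw [Ne, ZMod.natCast_eq_zero_iff]
    exact fun hd => absurd (Nat.le_of_dvd hm hd) (by omega)
  have h6' : (6 : ZMod p) ≠ 0 := by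
    have := hne 6 (by omega) (by omega)
    exact_mod_cast this
  have h8 := (mul_eq_zero.1 h6).resolve_right h6'
  unfold PiP hm at h8
  rw [bB, bC, bn2, Polynomial.eval_finsetSum] at h8
  have h9 : ∀ k ∈ range (2 * r + 1 + 1), Polynomial.eval 1 (algebraMap (ZMod p)
      (Polynomial (ZMod p)) (α k) * (32 * Polynomial.X ^ 5) ^ k *
        ((Polynomial.X + 5) ^ 4 * (Polynomial.X ^ 2 - 4 * Polynomial.X + 5)) ^ (2 * r + 1 - k)) =
      2592 ^ (2 * r + 1) * (α k * t ^ k) := by
    intro k hk
    rw [mem_range] at hk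
    have e4 : (2592 : ZMod p) ^ (2 * r + 1) = 2592 ^ k * 2592 ^ (2 * r + 1 - k) := by
      rw [← pow_add]; congr 1; omega
    have e5 : (32 : ZMod p) ^ k = 2592 ^ k * t ^ k := by
      rw [← mul_pow]; congr 1; linear_combination -32 * ht
    rw [Polynomial.eval_mul, Polynomial.eval_mul, Polynomial.algebraMap_eq, Polynomial.eval_C]
    simp only [Polynomial.eval_pow, Polynomial.eval_mul, Polynomial.eval_add, Polynomial.eval_sub,
      Polynomial.eval_X, Polynomial.eval_ofNat, one_pow, mul_one]
    rw [e5, e4]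
    norm_num
    ring
  rw [Finset.sum_congr rfl h9, ← Finset.mul_sum] at h8
  have h2592 : (2592 : ZMod p) ≠ 0 := by
    have h2 : (2 : ZMod p) ≠ 0 := by
      have := hne 2 (by omega) (by omega)
      exact_mod_cast this
    have h3 : (3 : ZMod p) ≠ 0 := by
      have := hne 3 (by omega) (by omega)
      exact_mod_cast this
    have : (2592 : ZMod p) = 2 ^ 5 * 3 ^ 4 := by norm_num
    rw [this]
    exact mul_ne_zero (pow_ne_zero _ h2) (pow_ne_zero _ h3)
  have h10 := (mul_eq_zero.1 h8).resolve_left (pow_ne_zero _ h2592)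
  rw [← h10]
  symm
  apply Finset.sum_subset
  · intro k hk
    rw [mem_range] at hk ⊢
    omega
  · intro k hk hk'
    rw [mem_range] at hk hk'
    have h11 : α k = 0 := hvan k (by omega) hk
    show α k * t ^ k = 0
    rw [h11, zero_mul]

end

end Cec
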