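import Pool.Agent.Cec.Asm
import Pool.Agent.Cec.Three
import Pool.Agent.Cec.SPart
import Pool.Agent.Cec.Cde

/-!
# MP_cec948_nt: assembly
-/

namespace Cec

open Finset SC24

section
variable {p : ℕ} [hp : Fact p.Prime]

theorem final_S (h3 : 3 < p) {n : ℕ} (hpn : p = 4 * n + 1) {x y : ℤ} (hxy : (p : ℤ) = x ^ 2 + y ^ 2)
    (hx : x % 4 = 1) {q h t : ZMod (p ^ (2:ℕ))} (hq : 4 * q = 1) (hh : 2 * h = 1) (ht : -3 * t = 1) :
    hz p q h 1 t = (legendreSym p 3 : ZMod (p ^ (2:ℕ))) * (-1) ^ n *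
      (2 * (x : ZMod (p ^ (2:ℕ))) - P2 p * (2 * (x : ZMod (p ^ (2:ℕ))))⁻¹) := by
  have h1 := S_one h3 hpn hq hh ht
  have h2 := cde h3 hpn hxy hx
  have hu : IsUnit (2 : ZMod (p ^ (2:ℕ))) := isUnit_two (by omega)
  apply hu.mul_right_injective
  show 2 * hz p q h 1 t = 2 * _
  rw [h1]
  linear_combination ((legendreSym p 3 : ZMod (p ^ (2:ℕ))) * (-1) ^ n) * h2

/-- lifting the parameters to `ℤ_[p]` -/
theorem final_lift (h2 : 2 < p) {q h : ZMod (p ^ (2:ℕ))} (hq : 4 * q = 1) (hh : 2 * h = 1) :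
    ∃ (q' h' : ℤ_[p]) (a : ℕ → ℤ_[p]), 4 * q' = 1 ∧ 2 * h' = 1 ∧ HS q' h' a ∧ φ2 p q' = q ∧ φ2 p h' = h := by
  obtain ⟨q', h', -, hq', hh', -⟩ := exists_qh (p := p) h2
  obtain ⟨a, ha⟩ := exists_HS q' h'
  refine ⟨q', h', a, hq', hh', ha, ?_, ?_⟩
  · have h4 : 4 * φ2 p q' = 1 := by
      have := congrArg (φ2 p) hq'
      rwa [map_mul, map_ofNat, map_one] at this
    have hu : IsUnit (4 : ZMod (p ^ (2:ℕ))) := IsUnit.of_mul_eq_one q hq
    apply hu.mul_right_injective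
    show 4 * φ2 p q' = 4 * q
    rw [h4, hq]
  · have h4 : 2 * φ2 p h' = 1 := by
      have := congrArg (φ2 p) hh'
      rwa [map_mul, map_ofNat, map_one] at this
    have hu : IsUnit (2 : ZMod (p ^ (2:ℕ))) := IsUnit.of_mul_eq_one h hh
    apply hu.mul_right_injective
    show 2 * φ2 p h' = 2 * h
    rw [h4, hh]

theorem final_T (h5 : 5 < p) {n : ℕ} (hpn : p = 4 * n + 1) {x y : ℤ} (hxy : (p : ℤ) = x ^ 2 + y ^ 2)
    (hx : x % 4 = 1) {q h t : ZMod (p ^ (2:ℕ))} (hq : 4 * q = 1) (hh : 2 * h = 1) (ht : 81 * t = 1) :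
    hz p q h 1 t = (-1) ^ n *
      (2 * (x : ZMod (p ^ (2:ℕ))) - P2 p * (2 * (x : ZMod (p ^ (2:ℕ))))⁻¹) := by
  obtain ⟨q', h', a, hq', hh', ha, e1, e2⟩ := final_lift (by omega) hq hh
  have h1 := T_eq_P1 h5 hpn hq' hh' ha ht
  have hm := ha.map (φ2 p)
  rw [e1, e2] at hm
  have s1 := hm.sum_eq t
  have s2 := hm.sum_eq 1
  simp only [one_pow, mul_one] at s2
  rw [s1, s2] at h1
  rw [h1]
  have g1 := gauss_one (by omega) hpn hq hh
  have h2 := cde (by omega) hpn hxy hx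
  have hu : IsUnit (2 : ZMod (p ^ (2:ℕ))) := isUnit_two (by omega)
  apply hu.mul_right_injective
  show 2 * hz p q h 1 1 = 2 * _
  rw [g1]
  linear_combination ((-1) ^ n : ZMod (p ^ (2:ℕ))) * h2

theorem final_T3 (h3 : 3 < p) (hp4 : p % 4 = 3) {q h t : ZMod (p ^ (2:ℕ))} (hq : 4 * q = 1) (hh : 2 * h = 1)
    (ht : 81 * t = 1) : red p (hz p q h 1 t) = 0 := by
  obtain ⟨q', h', a, hq', hh', ha, e1, e2⟩ := final_lift (by omega) hq hh
  have ht' : 81 * red p t = 1 := by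
    have := congrArg (red p) ht
    rwa [map_mul, map_ofNat, map_one] at this
  have h1 := T_three h3 hp4 hq' hh' ha ht'
  have hm := ha.map (φ2 p)
  rw [e1, e2] at hm
  rw [← hm.sum_eq t, map_sum, ← h1]
  apply Finset.sum_congr rfl
  intro k _
  rw [map_mul, map_pow]

end

end Cec
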