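import Pool.Agent.Cec.Defs

/-!
# Homogenised polynomials
-/

namespace Cec

open Finset Polynomial

noncomputable section

section
variable {R A : Type*} [CommRing R] [CommRing A] [Algebra R A]

/-- if `y z = x` then `hm f N x y = y^N ∑ f_k z^k` -/
theorem hm_eq (f : ℕ → R) (N : ℕ) {x y z : A} (h : y * z = x) :
    hm f N x y = y ^ N * ∑ k ∈ range (N + 1), algebraMap R A (f k) * z ^ k := by
  unfold hm
  rw [Finset.mul_sum]
  refine Finset.sum_congr rfl fun k hk => ?_
  have hk' : k ≤ N := Nat.lt_succ_iff.1 (Finset.mem_range.1 hk)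
  obtain ⟨m, rfl⟩ := Nat.exists_eq_add_of_le hk'
  rw [Nat.add_sub_cancel_left, ← h, mul_pow, pow_add]
  ring

theorem hm_coeff (F : R[X]) {N : ℕ} (hN : F.natDegree ≤ N) (f : ℕ → R) (hf : ∀ k ≤ N, f k = F.coeff k)
    (x y : A) : hm f N x y = hm (fun k => F.coeff k) N x y := by
  unfold hm
  refine Finset.sum_congr rfl fun k hk => ?_
  rw [hf k (Nat.lt_succ_iff.1 (Finset.mem_range.1 hk))]

/-- multiplicativity -/
theorem hm_mul (F G : R[X]) {N M : ℕ} (hF : F.natDegree ≤ N) (hG : G.natDegree ≤ M) (x y : A) :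
    hm (fun k => (F * G).coeff k) (N + M) x y =
      hm (fun k => F.coeff k) N x y * hm (fun k => G.coeff k) M x y := by
  unfold hm
  rw [Finset.sum_mul_sum, ← Finset.sum_product']
  have h1 : ∀ q ∈ range (N + 1) ×ˢ range (M + 1), q.1 + q.2 ∈ range (N + M + 1) := by
    intro q hq
    rw [Finset.mem_product, Finset.mem_range, Finset.mem_range] at hq
    rw [Finset.mem_range]
    omega
  rw [← Finset.sum_fiberwise_of_maps_to (g := fun q : ℕ × ℕ => q.1 + q.2) h1]
  refine Finset.sum_congr rfl fun k hk => ?_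
  beta_reduce
  rw [Polynomial.coeff_mul, map_sum, Finset.sum_mul, Finset.sum_mul]
  symm
  refine Finset.sum_subset_zero_on_sdiff ?_ ?_ ?_
  · intro q hq
    rw [Finset.mem_filter] at hq
    rw [Finset.HasAntidiagonal.mem_antidiagonal]
    exact hq.2
  · intro q hq
    rw [Finset.mem_sdiff, Finset.HasAntidiagonal.mem_antidiagonal, Finset.mem_filter, Finset.mem_product,
      Finset.mem_range, Finset.mem_range] at hq
    have h2 : N < q.1 ∨ M < q.2 := by
      by_contra hcon
      push Not at hcon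
      exact hq.2 ⟨⟨by omega, by omega⟩, hq.1⟩
    rcases h2 with h2 | h2
    · rw [Polynomial.coeff_eq_zero_of_natDegree_lt (lt_of_le_of_lt hF h2)]
      simp
    · rw [Polynomial.coeff_eq_zero_of_natDegree_lt (p := G) (lt_of_le_of_lt hG h2)]
      simp
  · intro q hq
    rw [Finset.mem_filter, Finset.mem_product, Finset.mem_range, Finset.mem_range] at hq
    obtain ⟨⟨h2, h3⟩, h4⟩ := hq
    have h5 : N + M - k = (N - q.1) + (M - q.2) := by omega
    rw [h5, pow_add, ← h4, pow_add, map_mul]
    ring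

theorem hm_add (f g : ℕ → R) (N : ℕ) (x y : A) :
    hm (fun k => f k + g k) N x y = hm f N x y + hm g N x y := by
  unfold hm
  rw [← Finset.sum_add_distrib]
  refine Finset.sum_congr rfl fun k _ => ?_
  rw [map_add]
  ring

theorem hm_sub (f g : ℕ → R) (N : ℕ) (x y : A) :
    hm (fun k => f k - g k) N x y = hm f N x y - hm g N x y := by
  unfold hm
  rw [← Finset.sum_sub_distrib]
  refine Finset.sum_congr rfl fun k _ => ?_
  rw [map_sub]
  ring

theorem hm_smul (c : R) (f : ℕ → R) (N : ℕ) (x y : A) :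
    hm (fun k => c * f k) N x y = algebraMap R A c * hm f N x y := by
  unfold hm
  rw [Finset.mul_sum]
  refine Finset.sum_congr rfl fun k _ => ?_
  rw [map_mul]
  ring

/-- homogenisation of `X^j` -/
theorem hm_X_pow {j N : ℕ} (h : j ≤ N) (x y : A) :
    hm (fun k => ((X : R[X]) ^ j).coeff k) N x y = x ^ j * y ^ (N - j) := by
  unfold hm
  rw [Finset.sum_eq_single j]
  · beta_reduce
    rw [Polynomial.coeff_X_pow, if_pos rfl, map_one, one_mul]
  · intro k _ hk
    beta_reduce
    rw [Polynomial.coeff_X_pow, if_neg hk, map_zero, zero_mul, zero_mul]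
  · intro hj
    exact absurd (Finset.mem_range.2 (by omega)) hj

/-- raising the degree -/
theorem hm_raise (F : R[X]) {N : ℕ} (hF : F.natDegree ≤ N) (M : ℕ) (x y : A) :
    hm (fun k => F.coeff k) (N + M) x y = hm (fun k => F.coeff k) N x y * y ^ M := by
  have h1 := hm_mul F (1 : R[X]) hF (M := M) (by rw [Polynomial.natDegree_one]; omega) x y
  rw [mul_one] at h1
  rw [h1]
  have h2 := hm_X_pow (R := R) (j := 0) (N := M) (Nat.zero_le _) x y
  rw [pow_zero, pow_zero, one_mul, Nat.sub_zero] at h2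
  rw [h2]

/-- homogenisation of `(1-X)^N` -/
theorem hm_one_sub_pow (N : ℕ) (x y : A) :
    hm (fun k => ((1 - X : R[X]) ^ N).coeff k) N x y = (y - x) ^ N := by
  have hd : (1 - X : R[X]).natDegree ≤ 1 :=
    (Polynomial.natDegree_sub_le _ _).trans (by simp [Polynomial.natDegree_X_le])
  induction N with
  | zero =>
    have h2 := hm_X_pow (R := R) (j := 0) (N := 0) (Nat.zero_le _) x y
    simpa using h2
  | succ N ih =>
    have h1 := hm_mul ((1 - X : R[X]) ^ N) (1 - X) (N := N) (M := 1)
      ((Polynomial.natDegree_pow_le_of_le N hd).trans (by omega)) hd x y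
    rw [← pow_succ] at h1
    rw [h1, ih, pow_succ]
    congr 1
    unfold hm
    rw [Finset.sum_range_succ, Finset.sum_range_one]
    simp [Polynomial.coeff_one, Polynomial.coeff_X]
    ring

end

section
variable {K : Type*} [CommRing K]

/-- derivative of a homogenised polynomial along `(nu, A^4 c)` where `X nu' = e0 nu`, `A' = 1`,
`e0 A c - 4 X c - X A c' = w`: `X A c (hm f)' = w (hm (k f_k)) + N (e0 A c - w) hm f`. -/
theorem hm_deriv (f : ℕ → K) (N : ℕ) {A c nu w : K[X]} {e0 : K} (hA : derivative A = 1)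
    (hnu : X * derivative nu = C e0 * nu)
    (hw : C e0 * A * c - 4 * X * c - X * A * derivative c = w) :
    X * A * c * derivative (hm f N nu (A ^ 4 * c)) =
      w * hm (fun k => (k : K) * f k) N nu (A ^ 4 * c) +
      (N : K[X]) * (C e0 * A * c - w) * hm f N nu (A ^ 4 * c) := by
  have h1 : ∀ k : ℕ, X * derivative (nu ^ k) = (k : K[X]) * C e0 * nu ^ k := by
    intro k
    cases k with
    | zero => simp
    | succ k =>
      rw [Polynomial.derivative_pow, Nat.add_sub_cancel]
      have : X * (C ((k + 1 : ℕ) : K) * nu ^ k * derivative nu) =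
          C ((k + 1 : ℕ) : K) * nu ^ k * (X * derivative nu) := by ring
      rw [this, hnu, map_natCast]
      ring
  have h2 : X * A * c * derivative (A ^ 4 * c) = (C e0 * A * c - w) * (A ^ 4 * c) := by
    rw [Polynomial.derivative_mul, Polynomial.derivative_pow, hA, ← hw]
    simp only [Nat.cast_ofNat, map_ofNat]
    ring
  have h3 : ∀ m : ℕ, X * A * c * derivative ((A ^ 4 * c) ^ m) =
      (m : K[X]) * (C e0 * A * c - w) * (A ^ 4 * c) ^ m := by
    intro m
    cases m with
    | zero => simp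
    | succ m =>
      rw [Polynomial.derivative_pow, Nat.add_sub_cancel]
      have : X * A * c * (C ((m + 1 : ℕ) : K) * (A ^ 4 * c) ^ m * derivative (A ^ 4 * c)) =
          C ((m + 1 : ℕ) : K) * (A ^ 4 * c) ^ m * (X * A * c * derivative (A ^ 4 * c)) := by ring
      rw [this, h2, map_natCast]
      ring
  unfold hm
  rw [Polynomial.derivative_sum, Finset.mul_sum, Finset.mul_sum, Finset.mul_sum,
    ← Finset.sum_add_distrib]
  refine Finset.sum_congr rfl fun k hk => ?_
  have hk' : k ≤ N := Nat.lt_succ_iff.1 (Finset.mem_range.1 hk)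
  rw [Polynomial.derivative_mul, Polynomial.derivative_mul, Polynomial.algebraMap_eq,
    Polynomial.derivative_C, zero_mul, zero_add]
  have h4 : X * A * c * (C (f k) * derivative (nu ^ k) * (A ^ 4 * c) ^ (N - k) +
      C (f k) * nu ^ k * derivative ((A ^ 4 * c) ^ (N - k))) =
      C (f k) * (A * c) * (X * derivative (nu ^ k)) * (A ^ 4 * c) ^ (N - k) +
      C (f k) * nu ^ k * (X * A * c * derivative ((A ^ 4 * c) ^ (N - k))) := by ring
  rw [h4, h1, h3, Nat.cast_sub hk', map_mul, map_natCast]
  ring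

theorem hm_natDegree_le (f : ℕ → K) (N : ℕ) {x y : K[X]} {dx dy : ℕ} (hx : x.natDegree ≤ dx)
    (hy : y.natDegree ≤ dy) (B : ℕ) (hB : ∀ k ≤ N, f k ≠ 0 → dx * k + dy * (N - k) ≤ B) :
    (hm f N x y).natDegree ≤ B := by
  unfold hm
  refine Polynomial.natDegree_sum_le_of_forall_le _ _ fun k hk => ?_
  have hk' : k ≤ N := Nat.lt_succ_iff.1 (Finset.mem_range.1 hk)
  by_cases hf : f k = 0
  · rw [hf, map_zero, zero_mul, zero_mul, Polynomial.natDegree_zero]
    exact Nat.zero_le _
  · refine le_trans ?_ (hB k hk' hf)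
    rw [Polynomial.algebraMap_eq]
    have h1 : (C (f k) * x ^ k).natDegree ≤ dx * k := by
      refine (Polynomial.natDegree_C_mul_le _ _).trans ?_
      refine (Polynomial.natDegree_pow_le_of_le k hx).trans (le_of_eq (mul_comm _ _))
    have h2 : (y ^ (N - k)).natDegree ≤ dy * (N - k) :=
      (Polynomial.natDegree_pow_le_of_le (N - k) hy).trans (le_of_eq (mul_comm _ _))
    exact (Polynomial.natDegree_mul_le).trans (Nat.add_le_add h1 h2)

end

end

end Cec
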