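import Pool.Agent.SC24.Alg

/-!
# MP_cec948_nt: the quartic Jacobi sum, algebraic part

`J = J(χ, χ^2)` with `χ` a quartic character with values in the Witt vectors.  With `t = χ g`,
`t^2 = -1`: `J = A + B t` with integers `A`, `B`; `A^2 + B^2 = p`, and `A ≡ -(-1)^n mod 4`.
`J` is a unit, so `J ≡ 2 A - p / (2 A) mod p^2`.

Proof hints.  `ψ = teich^{p-1-n}` (order 4), `J = jacobiSum ψ (ψ^2)`; `four_split` for `jacobiSum ψ (ψ^2)` and
for the inverse character (`t^3 = -t`): `J = A + B t`, `J' = A - B t`, `J J' = p` (`jac_mul_inv` or `qa_mul` in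
`SC24/Alg.lean`), so `A^2 + B^2 = p`, `2 A J - (4 A^2 - p) = - J'^2 = -(p/J)^2`.
Sign: `J(ψ,ψ^2) = ψ(4) J(ψ,ψ)` and in `J(ψ,ψ) = ∑ ψ(z) ψ(1-z) = ∑ t^{l z + l (1-z)}` the involution
`z ↦ 1-z` of `k \ {0,1}` has the only fixed point `1/2`: the counts `N_j` are even except the one with
`j = 2 l(1/2) mod 4`, which is `0` for `n` even (`2` is a square) and `2` for `n` odd.
`J(ψ,ψ) = A' + B' t`, `A' = N_0 - N_2`, `B' = N_1 - N_3`, `∑ N_j = p - 2`: for `n` even
`A' + B' ≡ p - 2 = -1 mod 4` and `4 ∣ B'`; for `n` odd `A' + B' ≡ p - 4 ≡ 1 mod 4`, `B' ≡ 2 mod 4`;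
so `A' ≡ -1 mod 4`, and `A = (-1)^n A'` (`ψ(4) = (2/p) = (-1)^n`).  Alternatively treat
`J(ψ,ψ^2)` directly with the involutions `z ↦ ...`.
-/

namespace Cec

open Finset SC24

/-- `A + B t` from a sum of powers of `t`, `t^2 = -1` -/
theorem four_split {ι : Type*} (S : Finset ι) (i : ι → ℕ) {R : Type*} [CommRing R] {t : R}
    (h : t ^ 2 = -1) :
    ∑ x ∈ S, t ^ i x = (((S.filter (fun x => i x % 4 = 0)).card : ℤ) - (S.filter (fun x => i x % 4 = 2)).card : ℤ) +
      (((S.filter (fun x => i x % 4 = 1)).card : ℤ) - (S.filter (fun x => i x % 4 = 3)).card : ℤ) * t := by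
  have h4 : t ^ 4 = 1 := by
    calc t ^ 4 = (t ^ 2) ^ 2 := by ring
      _ = 1 := by rw [h]; ring
  push_cast
  simp only [Finset.card_filter]
  push_cast
  rw [← Finset.sum_sub_distrib, ← Finset.sum_sub_distrib, Finset.sum_mul, ← Finset.sum_add_distrib]
  refine Finset.sum_congr rfl fun x _ => ?_
  rw [pow_eq_pow_mod (i x) h4]
  have h5 : i x % 4 < 4 := Nat.mod_lt _ (by norm_num)
  have h3 : t ^ 3 = -t := by rw [pow_succ, h]; ring
  interval_cases i x % 4 <;> simp [h, h3]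

/-- parity of the size of a set with a fixed point free involution -/
theorem even_of_inv {ι : Type*} [DecidableEq ι] (S : Finset ι) (f : ι → ι) (hf : ∀ x ∈ S, f x ∈ S)
    (hff : ∀ x ∈ S, f (f x) = x) (hne : ∀ x ∈ S, f x ≠ x) : S.card % 2 = 0 := by
  have h1 : ∑ _x ∈ S, (1 : ZMod 2) = 0 :=
    Finset.sum_involution (fun x _ => f x) (fun _ _ => by decide) (fun x hx _ => hne x hx) hf hff
  rw [Finset.sum_const, nsmul_eq_mul, mul_one, ZMod.natCast_eq_zero_iff] at h1
  omega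

section
variable {p : ℕ} [Fact p.Prime] {k : Type*} [Field k] [Fintype k] [CharP k p]

open Alg

theorem pow_iff4 {W : Type*} [CommRing W] [IsDomain W] [CharZero W] {t : W} (h : t ^ 2 = -1)
    (a b : ℕ) : t ^ a = t ^ b ↔ a % 4 = b % 4 := by
  have h4 : t ^ 4 = 1 := by
    calc t ^ 4 = (t ^ 2) ^ 2 := by ring
      _ = 1 := by rw [h]; ring
  have h2 : (2 : W) ≠ 0 := two_ne_zero
  have ht1 : t ≠ 1 := by
    rintro rfl
    apply h2
    linear_combination h
  have ht2 : t ≠ -1 := by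
    rintro rfl
    apply h2
    linear_combination h
  have ht0 : t ≠ 0 := by
    rintro rfl
    norm_num at h
  have h3 : t ^ 3 = -t := by rw [pow_succ, h]; ring
  rw [pow_eq_pow_mod a h4, pow_eq_pow_mod b h4]
  have ha : a % 4 < 4 := Nat.mod_lt _ (by norm_num)
  have hb : b % 4 < 4 := Nat.mod_lt _ (by norm_num)
  refine ⟨fun h5 => ?_, fun h5 => by rw [h5]⟩
  generalize a % 4 = x at *
  generalize b % 4 = y at *
  have hm : (-1 : W) ≠ 1 := by
    intro h6; apply h2; linear_combination -h6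
  interval_cases x <;> interval_cases y <;> first
    | rfl
    | (exfalso
       simp only [pow_zero, pow_one, h, h3] at h5
       first
         | exact ht1 h5
         | exact ht1 h5.symm
         | exact ht2 h5
         | exact ht2 h5.symm
         | exact hm h5
         | exact hm h5.symm
         | exact ht1 (by linear_combination -h5)
         | exact ht1 (by linear_combination h5)
         | exact ht2 (by linear_combination -h5)
         | exact ht2 (by linear_combination h5)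
         | exact ht0 (mul_left_cancel₀ h2 (by linear_combination h5))
         | exact ht0 (mul_left_cancel₀ h2 (by linear_combination -h5)))

theorem teich_four [DecidableEq k] {n : ℕ} (hn : 0 < n) (hcard : Fintype.card kˣ = 4 * n) {g : kˣ}
    (hg : ∀ x, x ∈ Subgroup.zpowers g) : ((teich p k ^ (3 * n)) g) ^ 2 = -1 := by
  have hord : orderOf g = 4 * n := by
    rw [orderOf_eq_card_of_forall_mem_zpowers hg, Nat.card_eq_fintype_card, hcard]
  set t := (teich p k ^ (3 * n)) g with ht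
  have hpow : ∀ m, t ^ m = 1 ↔ 4 * n ∣ 3 * n * m := by
    intro m
    rw [ht, MulChar.pow_apply_coe, ← pow_mul, ← hord, orderOf_dvd_iff_pow_eq_one]
    constructor
    · intro h
      have h1 : teich p k ((g ^ (3 * n * m) : kˣ) : k) = teich p k 1 := by
        rw [Units.val_pow_eq_pow_val, map_pow, h, map_one]
      exact Units.ext (teich_inj h1)
    · intro h
      rw [← map_pow, ← Units.val_pow_eq_pow_val, h, Units.val_one, map_one]
  have h4 : t ^ 4 = 1 := (hpow 4).2 ⟨3, by ring⟩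
  have h2 : t ^ 2 ≠ 1 := by
    intro h
    obtain ⟨c, hc⟩ := (hpow 2).1 h
    have h1 : 4 * c = 6 := by
      apply Nat.eq_of_mul_eq_mul_left hn
      linarith
    omega
  have e1 : (t ^ 2 - 1) * (t ^ 2 + 1) = 0 := by linear_combination h4
  rcases mul_eq_zero.1 e1 with h | h
  · exact absurd (sub_eq_zero.1 h) h2
  · linear_combination h


/-- the value at the fixed point `-1` -/
theorem two_pow_aux [DecidableEq k] {n : ℕ} (hk : Fintype.card k = 4 * n + 1) (h2 : ringChar k ≠ 2) :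
    (-1 : k) ^ (3 * n) * 2 ^ (2 * n) = 1 := by
  have h1 := quadraticChar_two (F := k) h2
  have h3 := quadraticChar_eq_pow_of_char_ne_two' h2 (2 : k)
  rw [h1, hk, show (4 * n + 1) / 2 = 2 * n by omega] at h3
  rw [← h3, ZMod.χ₈_nat_eq_if_mod_eight]
  have h4 : (4 * n + 1) % 2 ≠ 0 := by omega
  rw [if_neg h4]
  rcases Nat.even_or_odd' n with ⟨m, rfl | rfl⟩
  · rw [if_pos (by omega), show 3 * (2 * m) = 2 * (3 * m) by ring, pow_mul]
    simp
  · rw [if_neg (by omega), show 3 * (2 * m + 1) = 2 * (3 * m + 1) + 1 by ring, pow_succ, pow_mul]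
    simp

end

/-- algebraic part -/
theorem alg4 (p : ℕ) [Fact p.Prime] {n : ℕ} (hpn : p = 4 * n + 1) {k : Type*} [Field k] [Fintype k]
    [DecidableEq k] [CharP k p] (hk : Fintype.card k = p) (J : WittVector p k)
    (hJ : J = ∑ z : k, WittVector.teichmuller p z ^ (p - 1 - n) *
        WittVector.teichmuller p (1 - z) ^ (n + n))
    (hu : ¬ (p : WittVector p k) ∣ J) :
    ∃ u v : ℤ, u ^ 2 + v ^ 2 = (p : ℤ) ∧ u % 4 = 1 ∧
      ((p : WittVector p k) ^ 2) ∣ 2 * ((-(-1) ^ n * u : ℤ) : WittVector p k) * J -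
        (4 * (u : WittVector p k) ^ 2 - p) := by
  have hp2 := (Fact.out : p.Prime).two_le
  have hn0 : 0 < n := by omega
  have hcard : Fintype.card kˣ = 4 * n := by
    rw [Fintype.card_units, hk]; omega
  obtain ⟨g, hg⟩ := IsCyclic.exists_generator (α := kˣ)
  obtain ⟨l, hl⟩ := Alg.exists_log hg
  have hz : CharZero (WittVector p k) := Alg.charZero_witt
  set ψ : MulChar k (WittVector p k) := Alg.teich p k ^ (3 * n) with hψdef
  have ht : (ψ g) ^ 2 = -1 := teich_four hn0 hcard hg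
  set t := ψ g with htdef
  have hψ4 : ψ ^ 4 = 1 := by
    rw [MulChar.eq_iff hg, MulChar.pow_apply_coe, MulChar.one_apply_coe]
    calc t ^ 4 = (t ^ 2) ^ 2 := by ring
      _ = 1 := by rw [ht]; ring
  have hne : ∀ m, m % 4 ≠ 0 → ψ ^ m ≠ 1 := by
    intro m hm h
    have h1 : (ψ g) ^ m = 1 := by rw [← MulChar.pow_apply_coe, h, MulChar.one_apply_coe]
    have h2 := (pow_iff4 ht m 0).1 (by rw [pow_zero]; exact h1)
    exact hm (by simpa using h2)
  have hψ1 : ψ ≠ 1 := by
    have := hne 1 (by norm_num)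
    rwa [pow_one] at this
  have hJ1 : J = jacobiSum ψ (ψ ^ 2) := by
    rw [hJ, show p - 1 - n = 3 * n by omega]
    have h1 : ψ ^ 2 = Alg.teich p k ^ (2 * n) := by
      have h2 : Alg.teich p k ^ (4 * n) = 1 := by
        rw [← hcard]; exact MulChar.pow_card_eq_one _
      rw [hψdef, ← pow_mul, show 3 * n * 2 = 4 * n + 2 * n by ring, pow_add, h2, one_mul]
    rw [h1, hψdef]
    unfold jacobiSum
    refine Finset.sum_congr rfl fun z _ => ?_
    rw [MulChar.pow_apply' _ (by positivity), MulChar.pow_apply' _ (by positivity),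
      show n + n = 2 * n by ring]
    rfl
  set J' := jacobiSum (ψ ^ 3) (ψ ^ 6) with hJ'
  have hJJ : J * J' = p := by
    have h1 := Alg.jac_mul_inv ψ (ψ ^ 2) hψ1 (hne 2 (by norm_num))
      (by rw [← pow_succ']; exact hne 3 (by norm_num))
    have e1 : ψ⁻¹ = ψ ^ 3 := by
      rw [inv_eq_iff_mul_eq_one, ← pow_succ', hψ4]
    have e2 : (ψ ^ 2)⁻¹ = ψ ^ 6 := by
      rw [← inv_pow, e1, ← pow_mul]
    rw [e1, e2, hk] at h1
    rw [hJ1, hJ', h1]
  have hl2 := Alg.jac_index l hl ψ 1 2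
  have hl3 := Alg.jac_index l hl ψ 3 6
  rw [pow_one, ← hJ1] at hl2
  rw [← hJ'] at hl3
  set S : Finset k := univ \ {0, 1} with hS
  set e : k → ℕ := fun z => 1 * l z + 2 * l (1 - z) with he
  have hl2' : J = ∑ z ∈ S, t ^ e z := hl2
  have ht' : (-t) ^ 2 = -1 := by rw [neg_sq]; exact ht
  have hl3' : J' = ∑ z ∈ S, (-t) ^ e z := by
    rw [hl3]
    refine Finset.sum_congr rfl fun z _ => ?_
    have h3 : -t = t ^ 3 := by rw [pow_succ, ht]; ring
    rw [h3, ← pow_mul]
    congr 1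
    simp only [he]; ring
  rw [four_split S e ht] at hl2'
  rw [four_split S e ht'] at hl3'
  -- parity
  set N : ℕ → ℕ := fun j => (S.filter (fun x => e x % 4 = j)).card with hN
  have hkey : ∀ z : k, z ≠ 0 → ψ z = t ^ l z := by
    intro z hz0
    have h1 : z = (g ^ l z : kˣ) := by
      rw [Units.val_pow_eq_pow_val]; exact (hl z hz0).symm
    conv_lhs => rw [h1]
    rw [Units.val_pow_eq_pow_val, map_pow]
  have hmemS : ∀ z, z ∈ S ↔ z ≠ 0 ∧ z ≠ 1 := by
    intro z
    simp only [hS, mem_sdiff, mem_univ, mem_insert, mem_singleton, true_and, not_or, ne_eq]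
  have hte : ∀ z ∈ S, t ^ e z = ψ z * ψ (1 - z) ^ 2 := by
    intro z hzS
    obtain ⟨h0, h1⟩ := (hmemS z).1 hzS
    rw [hkey z h0, hkey (1 - z) (sub_ne_zero.2 (Ne.symm h1)), ← pow_mul, ← pow_add]
    congr 1
    simp only [he]; ring
  have hψ4' : ∀ z : k, z ≠ 0 → ψ z ^ 4 = 1 := by
    intro z hz0
    rw [← MulChar.pow_apply' ψ (by norm_num), hψ4, MulChar.one_apply (isUnit_iff_ne_zero.2 hz0)]
  have hm1 : ψ (-1) ^ 2 = 1 := by rw [← map_pow]; norm_num
  have hinvS : ∀ z ∈ S, z⁻¹ ∈ S := by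
    intro z hzS
    obtain ⟨h0, h1⟩ := (hmemS z).1 hzS
    exact (hmemS _).2 ⟨inv_ne_zero h0, fun h => h1 (inv_eq_one.1 h)⟩
  have hinv : ∀ z ∈ S, e z⁻¹ % 4 = e z % 4 := by
    intro z hzS
    obtain ⟨h0, h1⟩ := (hmemS z).1 hzS
    rw [← pow_iff4 ht, hte _ (hinvS z hzS), hte z hzS]
    have e1 : 1 - z⁻¹ = -1 * ((1 - z) * z⁻¹) := by field_simp; ring
    rw [e1, map_mul, map_mul]
    have h2 : ψ z⁻¹ * ψ z = 1 := by rw [← map_mul, inv_mul_cancel₀ h0, map_one]
    have h3 := hψ4' z⁻¹ (inv_ne_zero h0)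
    calc ψ z⁻¹ * (ψ (-1) * (ψ (1 - z) * ψ z⁻¹)) ^ 2 =
        (ψ (-1) ^ 2) * ψ (1 - z) ^ 2 * (ψ z⁻¹ ^ 3) := by ring
      _ = ψ (1 - z) ^ 2 * ψ z⁻¹ ^ 3 * (ψ z⁻¹ * ψ z) := by rw [hm1, h2]; ring
      _ = ψ z⁻¹ ^ 4 * (ψ z * ψ (1 - z) ^ 2) := by ring
      _ = _ := by rw [h3, one_mul]
  have hchar : ringChar k ≠ 2 := by
    have h1 : ringChar k = p := (ringChar.eq_iff).2 inferInstance
    rw [h1]; omega
  have h2k : (2 : k) ≠ 0 := Ring.two_ne_zero hchar
  have hfix : (-1 : k) ∈ S → e (-1) % 4 = 0 := by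
    intro hm
    have h3 : e (-1) % 4 = 0 % 4 := by
      rw [← pow_iff4 ht, hte _ hm, pow_zero]
      have e2 : (1 : k) - -1 = 2 := by norm_num
      rw [e2, ← map_pow, ← map_mul, hψdef, MulChar.pow_apply' _ (by positivity), ← map_pow]
      have h4 := two_pow_aux (k := k) (n := n) (by omega) hchar
      have h5 : (2 : k) ^ (4 * n) = 1 := by
        rw [← hcard, ← Units.val_mk0 h2k, ← Units.val_pow_eq_pow_val, pow_card_eq_one, Units.val_one]
      have h6 : ((-1 : k) * 2 ^ 2) ^ (3 * n) = 1 := by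
        rw [mul_pow, ← pow_mul, show 2 * (3 * n) = 2 * n + 4 * n by ring, pow_add, h5, mul_one, h4]
      rw [h6, map_one]
    simpa using h3
  have hodd : ∀ j, j = 1 ∨ j = 2 ∨ j = 3 → N j % 2 = 0 := by
    intro j hj
    refine even_of_inv _ (fun z => z⁻¹) ?_ (fun z _ => inv_inv z) ?_
    · intro z hzf
      rw [mem_filter] at hzf ⊢
      exact ⟨hinvS z hzf.1, by rw [hinv z hzf.1]; exact hzf.2⟩
    · intro z hzf hzz
      rw [mem_filter] at hzf
      obtain ⟨h0, h1⟩ := (hmemS z).1 hzf.1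
      have h2 : z * z = 1 := by
        have h3 : z * z⁻¹ = 1 := mul_inv_cancel₀ h0
        rwa [hzz] at h3
      rcases mul_self_eq_one_iff.1 h2 with h3 | h3
      · exact h1 h3
      · rw [h3] at hzf
        have h4 := hfix hzf.1
        rw [hzf.2] at h4
        omega
  have hcardS : S.card = 4 * n - 1 := by
    have h1 : ({0, 1} : Finset k).card = 2 := by
      rw [Finset.card_insert_of_notMem (by simp), Finset.card_singleton]
    rw [hS, Finset.card_sdiff_of_subset (Finset.subset_univ _), h1, Finset.card_univ, hk]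
    omega
  have hsum : N 0 + N 1 + N 2 + N 3 = 4 * n - 1 := by
    rw [← hcardS, hN]
    simp only [Finset.card_filter]
    rw [← Finset.sum_add_distrib, ← Finset.sum_add_distrib, ← Finset.sum_add_distrib,
      Finset.card_eq_sum_ones]
    refine Finset.sum_congr rfl fun z _ => ?_
    have h5 : e z % 4 < 4 := Nat.mod_lt _ (by norm_num)
    interval_cases e z % 4 <;> simp
  obtain ⟨a1, h1⟩ : ∃ a, N 1 = 2 * a := ⟨N 1 / 2, by have := hodd 1 (by norm_num); omega⟩
  obtain ⟨a2, h2⟩ : ∃ a, N 2 = 2 * a := ⟨N 2 / 2, by have := hodd 2 (by norm_num); omega⟩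
  obtain ⟨a3, h3⟩ : ∃ a, N 3 = 2 * a := ⟨N 3 / 2, by have := hodd 3 (by norm_num); omega⟩
  set A : ℤ := (N 0 : ℤ) - N 2 with hA
  set B : ℤ := (N 1 : ℤ) - N 3 with hB
  have hJA : J = (A : WittVector p k) + (B : WittVector p k) * t := hl2'
  have hJ'A : J' = (A : WittVector p k) + (B : WittVector p k) * (-t) := hl3'
  have hAB : A ^ 2 + B ^ 2 = (p : ℤ) := by
    have h4 : ((A ^ 2 + B ^ 2 : ℤ) : WittVector p k) = ((p : ℤ) : WittVector p k) := by
      push_cast
      rw [← hJJ, hJA, hJ'A]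
      linear_combination (B : WittVector p k) ^ 2 * ht
    exact Int.cast_injective h4
  have hAm : (A + 1 + 2 * n) % 4 = 0 := by
    have h4 : A = 4 * n - 1 - 4 * (a2 + a3) - 2 * ((a1 : ℤ) - a3) := by omega
    have h5 : B = 2 * ((a1 : ℤ) - a3) := by omega
    set b : ℤ := (a1 : ℤ) - a3 with hb
    obtain ⟨c, hc⟩ : ∃ c : ℤ, A = 2 * c + 1 := ⟨2 * n - 1 - 2 * (a2 + a3) - b, by rw [h4]; ring⟩
    have h6 : c * (c + 1) + b ^ 2 = n := by
      rw [hc, h5, hpn] at hAB
      push_cast at hAB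
      linarith [hAB]
    have h7 : (c * (c + 1)) % 2 = 0 := Int.even_iff.1 (Int.even_mul_succ_self c)
    have h8 : b ^ 2 % 2 = b % 2 := by
      rcases Int.even_or_odd' b with ⟨m, hm | hm⟩
      · rw [hm]; ring_nf; omega
      · rw [hm]; ring_nf; omega
    omega
  have hs2 : ((-1 : ℤ) ^ n) * (-1) ^ n = 1 := by
    rw [← pow_add, ← two_mul, pow_mul]; norm_num
  refine ⟨-(-1) ^ n * A, B, ?_, ?_, ?_⟩
  · rw [← hAB]
    linear_combination A ^ 2 * hs2
  · rcases Nat.even_or_odd' n with ⟨m, hm | hm⟩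
    · rw [hm, pow_mul]
      norm_num
      omega
    · rw [hm, pow_succ, pow_mul]
      norm_num
      omega
  · have h4 : (-(-1) ^ n * (-(-1) ^ n * A) : ℤ) = A := by linear_combination A * hs2
    rw [h4]
    have h5 : ((-(-1) ^ n * A : ℤ) : WittVector p k) ^ 2 = (A : WittVector p k) ^ 2 := by
      have h6 : (-(-1) ^ n * A : ℤ) ^ 2 = A ^ 2 := by linear_combination A ^ 2 * hs2
      exact_mod_cast congrArg (Int.cast : ℤ → WittVector p k) h6
    have h7 : 2 * (A : WittVector p k) * J - (4 * ((-(-1) ^ n * A : ℤ) : WittVector p k) ^ 2 - p) =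
        -(J' ^ 2) := by
      rw [h5, ← hJJ, hJA, hJ'A]
      ring
    rw [h7, dvd_neg]
    apply pow_dvd_pow_of_dvd
    obtain ⟨x, hx⟩ := Alg.isUnit_of_not_dvd hu
    refine ⟨(x⁻¹ : (WittVector p k)ˣ), ?_⟩
    rw [← hJJ, ← hx, mul_comm (x : WittVector p k), mul_assoc, Units.mul_inv, mul_one]

end Cec
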