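import Pool.Agent.Cec.QQ

/-!
# MP_cec948_nt: equality of the two polynomials `Π`, and its analogue for `p = 3 mod 4`

Proof hints.  `cmp_lucas`: `cmp_dwork` with `P = 0` and `zT = z^p`, and `cmp b (z^p) = (cmp b z)^p` in
characteristic `p`.  `pi_eq`: with `F_i = cmp a z_i` (unit, constant coefficient `1`),
`F_i = P(z_i) F_i^p` and `(X+5) F_1 = 5 (X+1) F_2` give
`P(z_1) (5(X+1))^{p-1} = P(z_2) (X+5)^{p-1}`; multiply by powers of the denominators
(`hm_eq`, `A^{4n} = A^{p-1}`, `5^{p-1} = 1`).  The embedding `Polynomial → PowerSeries` is injective.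
`pi_three`: the same with `F_i = P(z_i) (cmp b z_i)^p`, `4 m = 2 p - 2`, `5^p = 5`.
-/

namespace Cec

open Finset

noncomputable section

variable {p : ℕ} [hp : Fact p.Prime]

open PowerSeries in
theorem pe_charP : CharP (ZMod p)⟦X⟧ p := charP_of_injective_algebraMap
  (algebraMap (ZMod p) (ZMod p)⟦X⟧).injective p

open PowerSeries in
/-- Lucas type factorisation of a composite function in characteristic `p` -/
theorem cmp_lucas {a b : ℕ → ZMod p} (hl : ∀ m k, k < p → a (m * p + k) = b m * a k) {z : (ZMod p)⟦X⟧}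
    (hz : X ∣ z) : cmp a z = (∑ k ∈ range p, C (a k) * z ^ k) * cmp b z ^ p := by
  haveI : CharP (ZMod p)⟦X⟧ p := pe_charP
  have hp0 : p ≠ 0 := hp.out.ne_zero
  have hzp : X ∣ z ^ p := dvd_pow hz hp0
  have h1 := cmp_dwork (p := p) hp.out.pos (0 : ZMod p) (by ring) a b (fun _ => 0)
    (fun m k hk => by rw [hl m k hk]; ring) (z := z) (zT := z ^ p) (δ := 0) hz hzp (by simp)
  rw [map_zero, zero_mul, zero_mul, add_zero] at h1
  rw [h1]
  congr 1
  symm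
  apply cmp_eq_of b hzp
  intro K
  refine ⟨K, le_rfl, ?_⟩
  have h2 : ∑ k ∈ range K, C (b k) * (z ^ p) ^ k = (∑ k ∈ range K, C (b k) * z ^ k) ^ p := by
    rw [sum_pow_char]
    apply Finset.sum_congr rfl
    intro k _
    rw [mul_pow, ← map_pow, ZMod.pow_card, ← pow_mul, ← pow_mul, mul_comm p k]
  rw [h2, ← sub_pow_char]
  exact (cmp_trunc b hz K).trans (dvd_pow_self _ hp0)

open PowerSeries in
theorem pe_coe_hm (f : ℕ → ZMod p) (N : ℕ) (x y : Polynomial (ZMod p)) :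
    ((hm f N x y : Polynomial (ZMod p)) : (ZMod p)⟦X⟧) =
      hm f N (x : (ZMod p)⟦X⟧) (y : (ZMod p)⟦X⟧) := by
  unfold hm
  rw [← Polynomial.coeToPowerSeries.ringHom_apply, map_sum]
  apply Finset.sum_congr rfl
  intro k _
  rw [map_mul, map_mul, map_pow, map_pow, Polynomial.coeToPowerSeries.ringHom_apply,
    Polynomial.coeToPowerSeries.ringHom_apply, Polynomial.coeToPowerSeries.ringHom_apply,
    Polynomial.algebraMap_eq, Polynomial.coe_C]
  rfl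

open PowerSeries in
theorem pe_coe_br1 : ((br p (Polynomial.C 32 * Polynomial.X) : Polynomial (ZMod p)) : (ZMod p)⟦X⟧) =
    32 * X := by
  unfold br
  rw [Polynomial.map_mul, Polynomial.map_C, Polynomial.map_X, Polynomial.coe_mul,
    Polynomial.coe_C, Polynomial.coe_X, map_ofNat, map_ofNat]

open PowerSeries in
theorem pe_coe_br2 : ((br p (Polynomial.C 32 * Polynomial.X ^ 5) : Polynomial (ZMod p)) :
    (ZMod p)⟦X⟧) = 32 * X ^ 5 := by
  unfold br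
  rw [Polynomial.map_mul, Polynomial.map_pow, Polynomial.map_C, Polynomial.map_X,
    Polynomial.coe_mul, Polynomial.coe_pow, Polynomial.coe_C, Polynomial.coe_X, map_ofNat,
    map_ofNat]

open PowerSeries in
theorem pe_coe_pA : ((pA (ZMod p) : Polynomial (ZMod p)) : (ZMod p)⟦X⟧) = X + 1 := by
  simp [pA]

open PowerSeries in
theorem pe_coe_five : ((5 : Polynomial (ZMod p)) : (ZMod p)⟦X⟧) = 5 := by
  have := map_ofNat (Polynomial.coeToPowerSeries.ringHom (R := ZMod p)) 5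
  rwa [Polynomial.coeToPowerSeries.ringHom_apply] at this

open PowerSeries in
theorem pe_coe_four : ((4 : Polynomial (ZMod p)) : (ZMod p)⟦X⟧) = 4 := by
  have := map_ofNat (Polynomial.coeToPowerSeries.ringHom (R := ZMod p)) 4
  rwa [Polynomial.coeToPowerSeries.ringHom_apply] at this

open PowerSeries in
theorem pe_coe_pB : ((pB (ZMod p) : Polynomial (ZMod p)) : (ZMod p)⟦X⟧) = X + 5 := by
  simp [pB, pe_coe_five]

open PowerSeries in
theorem pe_coe_pC : ((pC (ZMod p) : Polynomial (ZMod p)) : (ZMod p)⟦X⟧) = X ^ 2 - 4 * X + 5 := by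
  simp [pC, pe_coe_five, pe_coe_four]

open PowerSeries in
theorem pe_coe_pS : ((pS (ZMod p) : Polynomial (ZMod p)) : (ZMod p)⟦X⟧) = 1 - X := by
  simp [pS]

open PowerSeries in
theorem pe_coe_pF : ((pF (ZMod p) : Polynomial (ZMod p)) : (ZMod p)⟦X⟧) = 5 - X := by
  simp [pF, pe_coe_five]

theorem pe_br_pA : br p (pA ℤ) = pA (ZMod p) := by simp [br, pA]

theorem pe_br_pB : br p (pB ℤ) = pB (ZMod p) := by simp [br, pB]

theorem pe_br_pC : br p (pC ℤ) = pC (ZMod p) := by simp [br, pC]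

open PowerSeries in
/-- the two homogenised polynomials as power series -/
theorem pe_coe_PiP {N : ℕ} {a : ℕ → ZMod p} (hN : N < p) (hv : ∀ k, N < k → k < p → a k = 0)
    {A nu : Polynomial ℤ} {z B ν : (ZMod p)⟦X⟧} (hA : ((br p A : Polynomial (ZMod p)) : (ZMod p)⟦X⟧) = B)
    (hν : ((br p nu : Polynomial (ZMod p)) : (ZMod p)⟦X⟧) = ν)
    (h : z * (B ^ 4 * (X ^ 2 - 4 * X + 5)) = ν) :
    ((PiP p N a A (pC ℤ) nu : Polynomial (ZMod p)) : (ZMod p)⟦X⟧) =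
      (B ^ 4 * (X ^ 2 - 4 * X + 5)) ^ N * ∑ k ∈ range p, C (a k) * z ^ k := by
  have hy : (B ^ 4 * (X ^ 2 - 4 * X + 5)) * z = ν := by rw [← h]; ring
  unfold PiP
  rw [pe_coe_hm, Polynomial.coe_mul, Polynomial.coe_pow, hA, hν, pe_br_pC, pe_coe_pC, hm_eq a N hy]
  congr 1
  have hsub : range (N + 1) ⊆ range p := by
    intro k hk
    rw [mem_range] at hk ⊢
    omega
  rw [← Finset.sum_subset hsub]
  · rfl
  · intro k hk hk'
    rw [mem_range] at hk hk'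
    rw [hv k (by omega) hk, map_zero, zero_mul]

open PowerSeries in
theorem pe_X_dvd_z1 (h5 : 5 < p) {z1 : (ZMod p)⟦X⟧}
    (h1 : z1 * ((X + 1) ^ 4 * (X ^ 2 - 4 * X + 5)) = 32 * X) : X ∣ z1 := by
  rw [PowerSeries.X_dvd_iff]
  have h := congrArg (constantCoeff (R := ZMod p)) h1
  simp only [map_mul, map_pow, map_add, map_sub, map_one, map_ofNat, constantCoeff_X] at h
  have h5' : (5 : ZMod p) ≠ 0 := by
    intro h0
    have : ((5 : ℕ) : ZMod p) = 0 := by exact_mod_cast h0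
    rw [ZMod.natCast_eq_zero_iff] at this
    exact absurd (Nat.le_of_dvd (by norm_num) this) (by omega)
  have h2 : constantCoeff z1 * 5 = 0 := by linear_combination h
  exact (mul_eq_zero.mp h2).resolve_right h5'

open PowerSeries in
theorem pe_X_dvd_z2 (h5 : 5 < p) {z2 : (ZMod p)⟦X⟧}
    (h2 : z2 * ((X + 5) ^ 4 * (X ^ 2 - 4 * X + 5)) = 32 * X ^ 5) : X ∣ z2 := by
  rw [PowerSeries.X_dvd_iff]
  have h := congrArg (constantCoeff (R := ZMod p)) h2
  simp only [map_mul, map_pow, map_add, map_sub, map_ofNat, constantCoeff_X] at h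
  have h5' : (5 : ZMod p) ≠ 0 := by
    intro h0
    have : ((5 : ℕ) : ZMod p) = 0 := by exact_mod_cast h0
    rw [ZMod.natCast_eq_zero_iff] at this
    exact absurd (Nat.le_of_dvd (by norm_num) this) (by omega)
  have h3 : constantCoeff z2 * 5 ^ 5 = 0 := by linear_combination h
  exact (mul_eq_zero.mp h3).resolve_right (pow_ne_zero _ h5')

open PowerSeries in
theorem pe_ne_zero {f : (ZMod p)⟦X⟧} (h : constantCoeff f ≠ 0) : f ≠ 0 := by
  rintro rfl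
  exact h (map_zero _)

theorem pe_five_ne (h5 : 5 < p) : (5 : ZMod p) ≠ 0 := by
  intro h0
  have : ((5 : ℕ) : ZMod p) = 0 := by exact_mod_cast h0
  rw [ZMod.natCast_eq_zero_iff] at this
  exact absurd (Nat.le_of_dvd (by norm_num) this) (by omega)

open PowerSeries in
theorem pi_eq (h5 : 5 < p) {n : ℕ} (hpn : p = 4 * n + 1) {a : ℕ → ZMod p} (a0 : a 0 = 1)
    (hlu : ∀ m k, k < p → a (m * p + k) = a m * a k) (hv : ∀ k, n < k → k < p → a k = 0)
    {z1 z2 : (ZMod p)⟦X⟧}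
    (h1 : z1 * ((X + 1) ^ 4 * (X ^ 2 - 4 * X + 5)) = 32 * X)
    (h2 : z2 * ((X + 5) ^ 4 * (X ^ 2 - 4 * X + 5)) = 32 * X ^ 5)
    (fe : (X + 5) * cmp a z1 = 5 * (X + 1) * cmp a z2) :
    PiP p n a (pA ℤ) (pC ℤ) (Polynomial.C 32 * Polynomial.X) =
      PiP p n a (pB ℤ) (pC ℤ) (Polynomial.C 32 * Polynomial.X ^ 5) := by
  have hz1 := pe_X_dvd_z1 h5 h1
  have hz2 := pe_X_dvd_z2 h5 h2
  have e1 := cmp_lucas hlu hz1
  have e2 := cmp_lucas hlu hz2
  rw [← Polynomial.coe_inj,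
    pe_coe_PiP (by omega) hv (A := pA ℤ) (nu := Polynomial.C 32 * Polynomial.X) (z := z1) (B := X + 1)
      (ν := 32 * X) (by rw [pe_br_pA, pe_coe_pA]) pe_coe_br1 h1,
    pe_coe_PiP (by omega) hv (A := pB ℤ) (nu := Polynomial.C 32 * Polynomial.X ^ 5) (z := z2)
      (B := X + 5) (ν := 32 * X ^ 5) (by rw [pe_br_pB, pe_coe_pB]) pe_coe_br2 h2]
  set F1 := cmp a z1 with hF1
  set F2 := cmp a z2 with hF2
  set P1 := ∑ k ∈ range p, C (a k) * z1 ^ k with hP1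
  set P2 := ∑ k ∈ range p, C (a k) * z2 ^ k with hP2
  have hF1' : F1 ≠ 0 := pe_ne_zero (by rw [hF1, cmp_const, a0]; exact one_ne_zero)
  have hF2' : F2 ≠ 0 := pe_ne_zero (by rw [hF2, cmp_const, a0]; exact one_ne_zero)
  have hpp : p = (p - 1) + 1 := by omega
  have g1 : P1 * F1 ^ (p - 1) = 1 := by
    apply mul_right_cancel₀ hF1'
    rw [one_mul, mul_assoc, ← pow_succ, ← hpp]
    exact e1.symm
  have g2 : P2 * F2 ^ (p - 1) = 1 := by
    apply mul_right_cancel₀ hF2'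
    rw [one_mul, mul_assoc, ← pow_succ, ← hpp]
    exact e2.symm
  have h5p : (5 : (ZMod p)⟦X⟧) ^ (p - 1) = 1 := by
    have : (C ((5 : ZMod p) ^ (p - 1)) : (ZMod p)⟦X⟧) = 1 := by
      rw [ZMod.pow_card_sub_one_eq_one (pe_five_ne h5), map_one]
    rwa [map_pow, map_ofNat] at this
  have g3 : (X + 5 : (ZMod p)⟦X⟧) ^ (p - 1) * F1 ^ (p - 1) = (X + 1) ^ (p - 1) * F2 ^ (p - 1) := by
    rw [← mul_pow, fe, mul_pow, mul_pow, h5p, one_mul]
  have g4 : (X + 5 : (ZMod p)⟦X⟧) ^ (p - 1) * P2 = (X + 1) ^ (p - 1) * P1 := by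
    calc (X + 5 : (ZMod p)⟦X⟧) ^ (p - 1) * P2 = (X + 5) ^ (p - 1) * P2 * (P1 * F1 ^ (p - 1)) := by
          rw [g1, mul_one]
      _ = ((X + 5) ^ (p - 1) * F1 ^ (p - 1)) * (P1 * P2) := by ring
      _ = ((X + 1) ^ (p - 1) * F2 ^ (p - 1)) * (P1 * P2) := by rw [g3]
      _ = (X + 1) ^ (p - 1) * P1 * (P2 * F2 ^ (p - 1)) := by ring
      _ = (X + 1) ^ (p - 1) * P1 := by rw [g2, mul_one]
  have h4n : p - 1 = 4 * n := by omega
  rw [h4n, pow_mul, pow_mul] at g4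
  rw [mul_pow, mul_pow]
  linear_combination (-(X ^ 2 - 4 * X + 5 : (ZMod p)⟦X⟧) ^ n) * g4

open PowerSeries in
/-- `p = 2 m + 1`, `a k = 0` for `m < k < p`; `a` and `b` related by Dwork's congruence -/
theorem pi_three {m : ℕ} (h5 : 5 < p) (hpm : p = 2 * m + 1) {a b : ℕ → ZMod p} (b0 : b 0 = 1)
    (hlu : ∀ r k, k < p → a (r * p + k) = b r * a k) (hv : ∀ k, m < k → k < p → a k = 0)
    {z1 z2 : (ZMod p)⟦X⟧}
    (h1 : z1 * ((X + 1) ^ 4 * (X ^ 2 - 4 * X + 5)) = 32 * X)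
    (h2 : z2 * ((X + 5) ^ 4 * (X ^ 2 - 4 * X + 5)) = 32 * X ^ 5)
    (fea : (X + 5) * cmp a z1 = 5 * (X + 1) * cmp a z2)
    (feb : (X + 5) ^ 2 * (1 - X) * cmp b z1 = 5 * (X + 1) ^ 2 * (5 - X) * cmp b z2) :
    PiP p m a (pA ℤ) (pC ℤ) (Polynomial.C 32 * Polynomial.X) * pA (ZMod p) * pF (ZMod p) ^ p =
      PiP p m a (pB ℤ) (pC ℤ) (Polynomial.C 32 * Polynomial.X ^ 5) * pB (ZMod p) * pS (ZMod p) ^ p := by
  have hz1 := pe_X_dvd_z1 h5 h1
  have hz2 := pe_X_dvd_z2 h5 h2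
  have e1 := cmp_lucas hlu hz1
  have e2 := cmp_lucas hlu hz2
  rw [← Polynomial.coe_inj, Polynomial.coe_mul, Polynomial.coe_mul, Polynomial.coe_mul,
    Polynomial.coe_mul, Polynomial.coe_pow, Polynomial.coe_pow, pe_coe_pA, pe_coe_pB, pe_coe_pF, pe_coe_pS,
    pe_coe_PiP (by omega) hv (A := pA ℤ) (nu := Polynomial.C 32 * Polynomial.X) (z := z1) (B := X + 1)
      (ν := 32 * X) (by rw [pe_br_pA, pe_coe_pA]) pe_coe_br1 h1,
    pe_coe_PiP (by omega) hv (A := pB ℤ) (nu := Polynomial.C 32 * Polynomial.X ^ 5) (z := z2)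
      (B := X + 5) (ν := 32 * X ^ 5) (by rw [pe_br_pB, pe_coe_pB]) pe_coe_br2 h2]
  set F1 := cmp a z1 with hF1
  set F2 := cmp a z2 with hF2
  set G1 := cmp b z1 with hG1
  set G2 := cmp b z2 with hG2
  set P1 := ∑ k ∈ range p, C (a k) * z1 ^ k with hP1
  set P2 := ∑ k ∈ range p, C (a k) * z2 ^ k with hP2
  have h50 := pe_five_ne h5
  have hG1' : G1 ≠ 0 := pe_ne_zero (by rw [hG1, cmp_const, b0]; exact one_ne_zero)
  have hG2' : G2 ≠ 0 := pe_ne_zero (by rw [hG2, cmp_const, b0]; exact one_ne_zero)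
  have h5' : (5 : (ZMod p)⟦X⟧) ≠ 0 := pe_ne_zero (by rw [map_ofNat]; exact h50)
  have hA0 : (X + 1 : (ZMod p)⟦X⟧) ≠ 0 := pe_ne_zero (by simp)
  have hB0 : (X + 5 : (ZMod p)⟦X⟧) ≠ 0 :=
    pe_ne_zero (by rw [map_add, map_ofNat, constantCoeff_X, zero_add]; exact h50)
  have h5p : (5 : (ZMod p)⟦X⟧) ^ p = 5 := by
    have : (C ((5 : ZMod p) ^ p) : (ZMod p)⟦X⟧) = C 5 := by rw [ZMod.pow_card]
    rwa [map_pow, map_ofNat] at this
  have g1 : (X + 5) * (P1 * G1 ^ p) = 5 * (X + 1) * (P2 * G2 ^ p) := by rw [← e1, ← e2, fea]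
  have g2 : ((X + 5) ^ 2) ^ p * (1 - X) ^ p * G1 ^ p =
      5 * ((X + 1 : (ZMod p)⟦X⟧) ^ 2) ^ p * (5 - X) ^ p * G2 ^ p := by
    have h := congrArg (· ^ p) feb
    simp only [mul_pow, h5p] at h
    exact h
  have hp2 : ∀ B : (ZMod p)⟦X⟧, (B ^ 2) ^ p = (B ^ 4) ^ m * (B * B) := by
    intro B
    have h2p : 2 * p = 4 * m + 2 := by omega
    rw [← pow_mul, ← pow_mul, h2p]
    ring
  rw [hp2, hp2] at g2
  have hne : 5 * (X + 1) * (X + 5) * (G1 ^ p * G2 ^ p) ≠ 0 :=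
    mul_ne_zero (mul_ne_zero (mul_ne_zero h5' hA0) hB0)
      (mul_ne_zero (pow_ne_zero _ hG1') (pow_ne_zero _ hG2'))
  apply mul_left_cancel₀ hne
  rw [mul_pow, mul_pow]
  linear_combination (5 * (X + 1) * ((X + 1) ^ 4) ^ m * (X ^ 2 - 4 * X + 5) ^ m * (X + 1) *
      (5 - X) ^ p * G2 ^ p : (ZMod p)⟦X⟧) * g1 -
    (5 * (X + 1) * P2 * G2 ^ p * (X ^ 2 - 4 * X + 5) ^ m : (ZMod p)⟦X⟧) * g2

end

end Cec
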