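import Pool.Agent.Cec.QQ

/-!
# The polynomial `Π`

`a k = C(n,k) C(2k,k) (-q)^k` modulo `p` (`q = 1/4 = -n`), hence `hm a n x y` is the coefficient of
`X^n` in `(-q x (1+X)^2 + y X)^n`; the substitution `X ↦ -X` and `(1+X)^2 - 4X = (1-X)^2` give
Pfaff's transformation.
-/

namespace Cec

open Finset Polynomial

noncomputable section

variable {p : ℕ} [hp : Fact p.Prime] {n : ℕ} {q h l : ZMod p} {a e : ℕ → ZMod p}

private theorem cast_ne_zero_of_lt {k : ℕ} (hk : k + 1 < p) : ((k : ZMod p) + 1) ≠ 0 := by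
  have h1 : ((k + 1 : ℕ) : ZMod p) ≠ 0 := by
    rw [Ne, ZMod.natCast_eq_zero_iff]
    intro h2
    exact absurd (Nat.le_of_dvd (by omega) h2) (by omega)
  push_cast at h1
  exact h1

/-- closed form of the coefficients -/
private theorem Dat.a_eq (D : Dat p n q h l a e) : ∀ k, k < p →
    a k = (n.choose k : ZMod p) * ((2 * k).choose k : ZMod p) * (-q) ^ k := by
  have hqn : q = -(n : ZMod p) := by
    have h1 : ((4 * n + 1 : ℕ) : ZMod p) = 0 := by
      rw [← D.hpn]
      exact CharP.cast_eq_zero _ p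
    push_cast at h1
    have h2 : (4 : ZMod p) * (q + n) = 0 := by linear_combination D.hq + h1
    have h4 : (4 : ZMod p) ≠ 0 := by
      intro h4
      have := D.hq
      rw [h4, zero_mul] at this
      exact zero_ne_one this
    have h3 := (mul_eq_zero.mp h2).resolve_left h4
    linear_combination h3
  intro k
  induction k with
  | zero =>
    intro _
    rw [D.a0]
    simp
  | succ k ih =>
    intro hk
    have h1 := D.as k hk
    rw [ih (by omega)] at h1
    have h2 := cast_ne_zero_of_lt hk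
    have h3 : ((k : ZMod p) + 1) ^ 2 ≠ 0 := pow_ne_zero _ h2
    apply mul_left_cancel₀ h3
    rw [h1]
    have e1 : ((n.choose (k + 1) : ℕ) : ZMod p) * ((k : ZMod p) + 1) =
        (n.choose k : ZMod p) * ((n : ZMod p) - k) := by
      rcases le_or_gt k n with hkn | hkn
      · have := congrArg (Nat.cast : ℕ → ZMod p) (Nat.choose_succ_right_eq n k)
        push_cast [Nat.cast_sub hkn] at this
        exact this
      · rw [Nat.choose_eq_zero_of_lt hkn, Nat.choose_eq_zero_of_lt (by omega)]
        simp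
    have e2 : (((2 * (k + 1)).choose (k + 1) : ℕ) : ZMod p) * ((k : ZMod p) + 1) =
        ((2 * k).choose k : ZMod p) * (2 * (2 * k + 1)) := by
      have := congrArg (Nat.cast : ℕ → ZMod p) (Nat.succ_mul_centralBinom_succ k)
      simp only [Nat.centralBinom] at this
      push_cast at this
      linear_combination this
    have e3 : (4 : ZMod p) * q = 1 := D.hq
    have e4 : (2 : ZMod p) * h = 1 := D.hh
    have e5 : ((k : ZMod p) + h) = 2 * (2 * k + 1) * q := by
      have h2ne : (2 : ZMod p) ≠ 0 := by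
        intro h0
        rw [h0, zero_mul] at e4
        exact zero_ne_one e4
      apply mul_left_cancel₀ h2ne
      linear_combination e4 - (2 * k + 1) * e3
    calc ((k : ZMod p) + q) * (k + h) * ((n.choose k : ZMod p) * ((2 * k).choose k : ZMod p) *
        (-q) ^ k)
        = -((n.choose k : ZMod p) * ((n : ZMod p) - k)) * (((2 * k).choose k : ZMod p) *
          (2 * (2 * k + 1))) * q * (-q) ^ k := by
          rw [e5, hqn]; ring
      _ = -(((n.choose (k + 1) : ℕ) : ZMod p) * ((k : ZMod p) + 1)) *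
          ((((2 * (k + 1)).choose (k + 1) : ℕ) : ZMod p) * ((k : ZMod p) + 1)) * q * (-q) ^ k := by
          rw [e1, e2]
      _ = _ := by ring

private theorem Dat.a_zero' (D : Dat p n q h l a e) {k : ℕ} (hk : n < k) (hkp : k < p) :
    a k = 0 := by
  rw [D.a_eq k hkp, Nat.choose_eq_zero_of_lt hk]
  simp

/-- `hm a n x y` as a coefficient -/
private theorem Dat.hm_coeff_eq (D : Dat p n q h l a e) {A : Type*} [CommRing A]
    [Algebra (ZMod p) A] (x y : A) :
    hm a n x y = coeff ((C (-(algebraMap (ZMod p) A q * x)) * (X + 1) ^ 2 + C y * X) ^ n) n := by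
  rw [add_pow, finsetSum_coeff, hm]
  apply Finset.sum_congr rfl
  intro k hk
  rw [mem_range] at hk
  have hkp : k < p := by
    have := D.hpn
    omega
  rw [D.a_eq k hkp]
  have h1 : (C (-(algebraMap (ZMod p) A q * x)) * (X + 1) ^ 2) ^ k * (C y * X) ^ (n - k) *
      ((n.choose k : ℕ) : A[X]) =
      C ((-(algebraMap (ZMod p) A q * x)) ^ k * y ^ (n - k) * (n.choose k : A)) *
        ((X + 1) ^ (2 * k) * X ^ (n - k)) := by
    rw [mul_pow, mul_pow, map_mul, map_mul, map_pow, map_pow, map_natCast, ← pow_mul]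
    ring
  rw [h1, coeff_C_mul, coeff_mul_X_pow', if_pos (by omega), show n - (n - k) = k by omega,
    coeff_X_add_one_pow]
  rw [map_mul, map_mul, map_natCast, map_natCast, map_pow, map_neg]
  ring

/-- Pfaff's transformation for the truncated series modulo `p`, homogeneous form -/
theorem Dat.pfaff (D : Dat p n q h l a e) {A : Type*} [CommRing A] [Algebra (ZMod p) A] (x y : A) :
    hm a n x y = hm a n (-x) (y - x) := by
  rw [D.hm_coeff_eq, D.hm_coeff_eq]
  set Q : A := algebraMap (ZMod p) A q with hQ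
  have h4 : (4 : A) * Q = 1 := by
    have := congrArg (algebraMap (ZMod p) A) D.hq
    rw [map_mul, map_ofNat, map_one] at this
    exact this
  set G : A[X] := (C (-(Q * -x)) * (X + 1) ^ 2 + C (y - x) * X) ^ n with hG
  set F : A[X] := (C (-(Q * x)) * (X + 1) ^ 2 + C y * X) ^ n with hF
  have h1 : G.comp (C (-1) * X) = (-1) ^ n * F := by
    rw [hG, hF, ← mul_pow, pow_comp]
    congr 1
    simp only [add_comp, mul_comp, C_comp, pow_comp, X_comp, one_comp]
    have h5 : (C y : A[X]) - C x = C (y - x) := by rw [C_sub]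
    have h6 : (4 : A[X]) * C Q = 1 := by
      have := congrArg (C : A → A[X]) h4
      rw [C_mul, C_1] at this
      exact this
    rw [C_sub, C_neg, C_neg, C_neg, C_mul, C_mul, C_neg, C_1]
    linear_combination (-(C x * X)) * h6
  have h2 := comp_C_mul_X_coeff (p := G) (r := (-1 : A)) (n := n)
  rw [h1] at h2
  have h3 : ((-1 : A[X]) ^ n * F).coeff n = (-1) ^ n * F.coeff n := by
    have : ((-1 : A[X]) ^ n) = C ((-1) ^ n) := by
      rw [C_pow, C_neg, C_1]
    rw [this, coeff_C_mul]
  rw [h3] at h2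
  have h7 : ((-1 : A) ^ n) * (-1) ^ n = 1 := by
    rw [← mul_pow]; simp
  calc F.coeff n = ((-1) ^ n * (-1) ^ n) * F.coeff n := by rw [h7, one_mul]
    _ = (-1) ^ n * (G.coeff n * (-1) ^ n) := by rw [← h2]; ring
    _ = (((-1) ^ n) * (-1) ^ n) * G.coeff n := by ring
    _ = G.coeff n := by rw [h7, one_mul]

private theorem hm_comp (f : ℕ → ZMod p) (N : ℕ) (x y z : (ZMod p)[X]) :
    (hm f N x y).comp z = hm f N (x.comp z) (y.comp z) := by
  rw [hm, hm, ← coe_compRingHom_apply, map_sum]
  apply Finset.sum_congr rfl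
  intro k _
  rw [coe_compRingHom_apply, mul_comp, mul_comp, pow_comp, pow_comp, ← C_eq_algebraMap, C_comp]

/-- `Π` is even -/
theorem Dat.pi_even (D : Dat p n q h l a e) :
    (PiP p n a (pA ℤ) (pC ℤ) (C 32 * X)).comp (-X) = PiP p n a (pA ℤ) (pC ℤ) (C 32 * X) := by
  rw [PiP, hm_comp]
  conv_rhs => rw [D.pfaff]
  congr 1
  · simp only [br, Polynomial.map_mul, Polynomial.map_X, Polynomial.map_C, mul_comp, C_comp, X_comp]
    ring
  · simp only [br, pA, pC, Polynomial.map_mul, Polynomial.map_X, Polynomial.map_C, mul_comp,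
      X_comp, Polynomial.map_add, Polynomial.map_sub, Polynomial.map_pow,
      Polynomial.map_one, Polynomial.map_ofNat, add_comp, sub_comp, pow_comp, one_comp, ofNat_comp]
    simp only [map_ofNat]
    ring

private theorem br_nu : br p (C 32 * X : ℤ[X]) = C 32 * X := by
  simp only [br, Polynomial.map_mul, Polynomial.map_X, Polynomial.map_C]
  simp

private theorem br_den : br p (pA ℤ) ^ 4 * br p (pC ℤ) = (X + 1) ^ 4 * (X ^ 2 - 4 * X + 5) := by
  simp only [br, pA, pC, Polynomial.map_mul, Polynomial.map_X, Polynomial.map_add,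
    Polynomial.map_sub, Polynomial.map_pow, Polynomial.map_one, Polynomial.map_ofNat]

private theorem Dat.piP_eq (D : Dat p n q h l a e) :
    PiP p n a (pA ℤ) (pC ℤ) (C 32 * X) = ∑ k ∈ range (n + 1),
      C (a k) * (C 32 * X) ^ k * ((X + 1) ^ 4 * (X ^ 2 - 4 * X + 5)) ^ (n - k) := by
  rw [PiP, br_nu, br_den, hm]
  rfl

private theorem monic_den : ((X + 1) ^ 4 * (X ^ 2 - 4 * X + 5) : (ZMod p)[X]).Monic := by
  have h1 : (X ^ 2 - 4 * X + 5 : (ZMod p)[X]) = X ^ 2 + (C (-4) * X + C 5) := by
    simp only [map_neg, map_ofNat]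
    ring
  have h2 : (X + 1 : (ZMod p)[X]) = X + C 1 := by simp
  rw [h1, h2]
  refine ((monic_X_add_C 1).pow 4).mul ?_
  apply monic_X_pow_add
  refine lt_of_le_of_lt (degree_linear_le) ?_
  norm_num

private theorem natDegree_den :
    ((X + 1) ^ 4 * (X ^ 2 - 4 * X + 5) : (ZMod p)[X]).natDegree = 6 := by
  compute_degree!

theorem Dat.pi_natDegree (D : Dat p n q h l a e) :
    (PiP p n a (pA ℤ) (pC ℤ) (C 32 * X)).natDegree = 6 * n := by
  rw [D.piP_eq, Finset.sum_range_succ']
  have hm1 := monic_den (p := p)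
  have hd := natDegree_den (p := p)
  set den : (ZMod p)[X] := (X + 1) ^ 4 * (X ^ 2 - 4 * X + 5) with hden
  have h0 : (C (a 0) * (C 32 * X) ^ 0 * den ^ (n - 0)).natDegree = 6 * n := by
    rw [D.a0, C_1, pow_zero, one_mul, one_mul, Nat.sub_zero, hm1.natDegree_pow, hd]
    ring
  have hn := D.hn
  have h1 : (∑ k ∈ range n, C (a (k + 1)) * (C 32 * X) ^ (k + 1) * den ^ (n - (k + 1))).natDegree
      ≤ 6 * n - 1 := by
    apply natDegree_sum_le_of_forall_le
    intro k hk
    rw [mem_range] at hk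
    refine natDegree_mul_le.trans ?_
    have h2 : (den ^ (n - (k + 1))).natDegree = (n - (k + 1)) * 6 := by
      rw [hm1.natDegree_pow, hd]
    have h3 : (C (a (k + 1)) * (C 32 * X : (ZMod p)[X]) ^ (k + 1)).natDegree ≤ k + 1 := by
      rw [mul_pow, ← C_pow, ← mul_assoc, ← C_mul]
      exact natDegree_C_mul_X_pow_le _ _
    rw [h2]
    omega
  rw [natDegree_add_eq_right_of_natDegree_lt (by rw [h0]; omega), h0]

theorem Dat.pi_coeff_zero (D : Dat p n q h l a e) :
    (PiP p n a (pA ℤ) (pC ℤ) (C 32 * X)).coeff 0 ≠ 0 := by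
  rw [coeff_zero_eq_eval_zero, D.piP_eq, eval_finsetSum, Finset.sum_range_succ']
  have h1 : ∑ k ∈ range n, eval 0 (C (a (k + 1)) * (C 32 * X) ^ (k + 1) *
      ((X + 1) ^ 4 * (X ^ 2 - 4 * X + 5)) ^ (n - (k + 1))) = 0 := by
    apply Finset.sum_eq_zero
    intro k _
    simp
  rw [h1, zero_add]
  simp only [pow_zero, mul_one, Nat.sub_zero, eval_mul, eval_C, eval_pow, eval_add, eval_X,
    eval_one, eval_sub, zero_add, one_pow, one_mul, D.a0]
  have h5 : (5 : ZMod p) ≠ 0 := by
    have h6 : ((5 : ℕ) : ZMod p) ≠ 0 := by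
      rw [Ne, ZMod.natCast_eq_zero_iff]
      intro h7
      have := Nat.le_of_dvd (by norm_num) h7
      have h8 := D.hpn
      have h9 := D.hn
      omega
    exact_mod_cast h6
  apply pow_ne_zero
  simpa using h5

/-- `Π(1) = 32^n P(1)` -/
theorem Dat.pi_eval_one (D : Dat p n q h l a e) :
    (PiP p n a (pA ℤ) (pC ℤ) (C 32 * X)).eval 1 = 32 ^ n * ∑ k ∈ range p, a k := by
  have hsub : range (n + 1) ⊆ range p := by
    intro k hk
    rw [mem_range] at hk ⊢
    have := D.hpn
    omega
  rw [D.piP_eq, eval_finsetSum, ← Finset.sum_subset hsub, Finset.mul_sum]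
  · apply Finset.sum_congr rfl
    intro k hk
    rw [mem_range] at hk
    simp only [eval_mul, eval_C, eval_pow, eval_add, eval_X, eval_one, eval_sub, mul_one, eval_ofNat,
      one_pow]
    have h1 : ((1 + 1) ^ 4 * (1 - 4 + 5) : ZMod p) = 32 := by norm_num
    rw [h1]
    have h2 : (32 : ZMod p) ^ n = 32 ^ k * 32 ^ (n - k) := by
      rw [← pow_add]
      congr 1
      omega
    rw [h2]
    ring
  · intro k hk hk'
    rw [mem_range] at hk hk'
    exact D.a_zero' (by omega) hk

end

end Cec
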