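import Pool.Agent.Cec.Defs

/-!
# The polynomials `P = ∑ a_k X^k` and `E = ∑ e_k X^k` modulo `p`

`n + q = 0` and `2n + h = 0` in `ZMod p`.
* `a_zero`: the factor `(k+q)` vanishes at `k = n`; `e_zero`: for `k > n` the recursion of `e` is
  homogeneous and `(k+h)` vanishes at `k = 2n`.
* `wr`: `W = P^2 + X (P E' - E P')` satisfies `(1-X) W' = (q+h) W` (`θ^2 P = X(θ+q)(θ+h)P`,
  `θ^2 E + 2θP = X(θ+q)(θ+h)E + X(2θ+q+h)P` for `θ = X d/dX`; all degrees `< p`), `q+h = -3n`,
  `W(0) = 1`, `deg W ≤ 3n < p`; so the coefficients obey `(k+1) w_{k+1} = (k+q+h) w_k` and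
  `W = (1-X)^{3n}`.
* `ndiv`: `N = P κ + X^p E`, `N' P - N P' = X^{p-1} (1-X)^{3n} - (1-X)^{p-1} P^2` is divisible by
  `(1-X)^{3n}`; `N(1) = 0`, `P(1) ≠ 0`.  If `N = (1-X)^j G`, `1 ≤ j ≤ 3n`, then
  `(1-X)^{j-1} (-j G P + (1-X)(G'P - GP'))` is divisible by `(1-X)^{3n}`, so `G(1) = 0`.
-/

namespace Cec

open Finset Polynomial

noncomputable section

variable {p : ℕ} [hp : Fact p.Prime] {n : ℕ} {q h l : ZMod p} {a e : ℕ → ZMod p}

theorem pf_natCast_ne {k : ℕ} (hk : 0 < k) (hkp : k < p) : (k : ZMod p) ≠ 0 := by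
  rw [Ne, ZMod.natCast_eq_zero_iff]
  exact Nat.not_dvd_of_pos_of_lt hk hkp

theorem pf_succ_ne {k : ℕ} (hkp : k + 1 < p) : (k : ZMod p) + 1 ≠ 0 := by
  have := pf_natCast_ne (p := p) (Nat.succ_pos k) hkp
  push_cast at this
  exact this

theorem Dat.pf_cast_p (D : Dat p n q h l a e) : 4 * (n : ZMod p) + 1 = 0 := by
  have h1 : ((p : ℕ) : ZMod p) = 0 := ZMod.natCast_self p
  have h2 : ((p : ℕ) : ZMod p) = ((4 * n + 1 : ℕ) : ZMod p) := by
    exact congrArg (fun m : ℕ => (m : ZMod p)) D.hpn
  rw [h1] at h2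
  push_cast at h2
  exact h2.symm

theorem Dat.pf_four_ne (D : Dat p n q h l a e) : (4 : ZMod p) ≠ 0 := by
  intro h4
  have := D.hq
  rw [h4, zero_mul] at this
  exact zero_ne_one this

theorem Dat.pf_two_ne (D : Dat p n q h l a e) : (2 : ZMod p) ≠ 0 := by
  intro h2
  have := D.hh
  rw [h2, zero_mul] at this
  exact zero_ne_one this

theorem Dat.pf_nq (D : Dat p n q h l a e) : (n : ZMod p) + q = 0 := by
  have h1 : (4 : ZMod p) * ((n : ZMod p) + q) = 0 := by
    linear_combination D.pf_cast_p + D.hq
  exact (mul_eq_zero.1 h1).resolve_left D.pf_four_ne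

theorem Dat.pf_nh (D : Dat p n q h l a e) : 2 * (n : ZMod p) + h = 0 := by
  have h1 : (2 : ZMod p) * (2 * (n : ZMod p) + h) = 0 := by
    linear_combination D.pf_cast_p + D.hh
  exact (mul_eq_zero.1 h1).resolve_left D.pf_two_ne

/-- `(1/4)_k = 0` for `k > n` -/
theorem Dat.a_zero (D : Dat p n q h l a e) {k : ℕ} (hk : n < k) (hkp : k < p) : a k = 0 := by
  induction k, hk using Nat.le_induction with
  | base =>
    have h1 := D.as n hkp
    rw [D.pf_nq, zero_mul, zero_mul] at h1
    exact (mul_eq_zero.1 h1).resolve_left (pow_ne_zero 2 (pf_succ_ne hkp))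
  | succ k hk ih =>
    have h1 := D.as k hkp
    rw [ih (by omega), mul_zero] at h1
    exact (mul_eq_zero.1 h1).resolve_left (pow_ne_zero 2 (pf_succ_ne hkp))

theorem Dat.e_zero (D : Dat p n q h l a e) {k : ℕ} (hk : 2 * n < k) (hkp : k < p) : e k = 0 := by
  have hn := D.hn
  induction k, hk using Nat.le_induction with
  | base =>
    have h1 := D.es (2 * n) hkp
    have e1 : a (2 * n + 1) = 0 := D.a_zero (by omega) hkp
    have e2 : a (2 * n) = 0 := D.a_zero (by omega) (by omega)
    have e3 : ((2 * n : ℕ) : ZMod p) + h = 0 := by push_cast; exact D.pf_nh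
    rw [e1, e2, e3] at h1
    simp only [mul_zero, add_zero, zero_mul] at h1
    exact (mul_eq_zero.1 h1).resolve_left (pow_ne_zero 2 (pf_succ_ne hkp))
  | succ k hk ih =>
    have h1 := D.es k hkp
    have e1 : a (k + 1) = 0 := D.a_zero (by omega) hkp
    have e2 : a k = 0 := D.a_zero (by omega) (by omega)
    rw [e1, e2, ih (by omega)] at h1
    simp only [mul_zero, add_zero] at h1
    exact (mul_eq_zero.1 h1).resolve_left (pow_ne_zero 2 (pf_succ_ne hkp))

theorem pf_coeff_pl {R : Type*} [CommRing R] (f : ℕ → R) (N k : ℕ) :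
    (pl f N).coeff k = if k ≤ N then f k else 0 := by
  unfold pl
  rw [finsetSum_coeff]
  simp only [coeff_C_mul, coeff_X_pow]
  by_cases hk : k ≤ N
  · rw [Finset.sum_eq_single k]
    · simp [hk]
    · intro b _ hb
      rw [if_neg (Ne.symm hb), mul_zero]
    · intro hk'
      exact absurd (Finset.mem_range.2 (by omega)) hk'
  · rw [if_neg hk]
    refine Finset.sum_eq_zero (fun b hb => ?_)
    have : b ≠ k := by have := Finset.mem_range.1 hb; omega
    rw [if_neg (Ne.symm this), mul_zero]

theorem pf_natDegree_pl_le {R : Type*} [CommRing R] (f : ℕ → R) (N : ℕ) :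
    (pl f N).natDegree ≤ N := by
  rw [natDegree_le_iff_coeff_eq_zero]
  intro k hk
  rw [pf_coeff_pl, if_neg (by omega)]

/-- the operator `X d/dX` -/
def pfTh (f : (ZMod p)[X]) : (ZMod p)[X] := X * derivative f

theorem pf_coeff_th (f : (ZMod p)[X]) (k : ℕ) : (pfTh f).coeff k = (k : ZMod p) * f.coeff k := by
  unfold pfTh
  cases k with
  | zero => simp
  | succ k => rw [coeff_X_mul, coeff_derivative]; push_cast; ring

theorem Dat.pf_odeP (D : Dat p n q h l a e) :
    pfTh (pfTh (pl a n)) = X * (pfTh (pfTh (pl a n)) + C (q + h) * pfTh (pl a n) + C (q * h) * pl a n) := by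
  have hp4 := D.hpn
  ext k
  cases k with
  | zero => rw [pf_coeff_th]; simp
  | succ k =>
    rw [coeff_X_mul]
    simp only [coeff_add, coeff_C_mul, pf_coeff_th, pf_coeff_pl]
    by_cases h1 : k + 1 ≤ n
    · rw [if_pos h1, if_pos (by omega)]
      have := D.as k (by omega)
      push_cast
      linear_combination this
    · rw [if_neg h1]
      by_cases h2 : k ≤ n
      · have h3 : k = n := by omega
        subst h3
        rw [if_pos le_rfl]
        have := D.pf_nq
        linear_combination -((k : ZMod p) + h) * a k * this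
      · rw [if_neg h2]; simp

theorem Dat.pf_odeE (D : Dat p n q h l a e) :
    pfTh (pfTh (pl e (2 * n))) + C 2 * pfTh (pl a n) =
      X * (pfTh (pfTh (pl e (2 * n))) + C (q + h) * pfTh (pl e (2 * n)) + C (q * h) * pl e (2 * n) +
        C 2 * pfTh (pl a n) + C (q + h) * pl a n) := by
  have hp4 := D.hpn
  have hn := D.hn
  ext k
  cases k with
  | zero => simp only [coeff_add, coeff_C_mul, pf_coeff_th]; simp
  | succ k =>
    rw [coeff_X_mul]
    simp only [coeff_add, coeff_C_mul, pf_coeff_th, pf_coeff_pl]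
    have ha : ∀ j, j < p → (if j ≤ n then a j else 0) = a j := by
      intro j hj
      by_cases h1 : j ≤ n
      · rw [if_pos h1]
      · rw [if_neg h1, D.a_zero (by omega) hj]
    by_cases h1 : k + 1 ≤ 2 * n
    · rw [if_pos h1, if_pos (by omega : k ≤ 2 * n), ha k (by omega), ha (k + 1) (by omega)]
      have := D.es k (by omega)
      push_cast
      linear_combination this
    · rw [if_neg h1]
      by_cases h2 : k ≤ 2 * n
      · have h3 : k = 2 * n := by omega
        subst h3
        rw [if_pos le_rfl, if_neg (by omega), if_neg (by omega)]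
        have := D.pf_nh
        push_cast
        linear_combination -(2 * (n : ZMod p) + q) * e (2 * n) * this
      · rw [if_neg h2, if_neg (by omega), if_neg (by omega)]; simp

theorem pfTh_mul (f g : (ZMod p)[X]) : pfTh (f * g) = pfTh f * g + f * pfTh g := by
  unfold pfTh; rw [derivative_mul]; ring

theorem pfTh_add (f g : (ZMod p)[X]) : pfTh (f + g) = pfTh f + pfTh g := by
  unfold pfTh; rw [derivative_add]; ring

theorem pfTh_sub (f g : (ZMod p)[X]) : pfTh (f - g) = pfTh f - pfTh g := by
  unfold pfTh; rw [derivative_sub]; ring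

/-- Two polynomials of degree `< p` with `(1-X) f' = c f` and the same constant term agree. -/
theorem pf_eq_of_ode {c : ZMod p} {f g : (ZMod p)[X]} (hf : (1 - X) * derivative f = C c * f)
    (hg : (1 - X) * derivative g = C c * g) (h0 : f.coeff 0 = g.coeff 0)
    (df : f.natDegree < p) (dg : g.natDegree < p) : f = g := by
  have key : ∀ F : (ZMod p)[X], (1 - X) * derivative F = C c * F → ∀ k : ℕ,
      ((k : ZMod p) + 1) * F.coeff (k + 1) = ((k : ZMod p) + c) * F.coeff k := by
    intro F hF k
    have h1 := congrArg (fun P => P.coeff k) hF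
    simp only [sub_mul, one_mul, coeff_sub, coeff_C_mul, coeff_derivative] at h1
    cases k with
    | zero =>
      rw [mul_coeff_zero, coeff_X_zero] at h1
      push_cast at h1 ⊢
      linear_combination h1
    | succ k =>
      rw [coeff_X_mul, coeff_derivative] at h1
      push_cast at h1 ⊢
      linear_combination h1
  have hk : ∀ k, k < p → f.coeff k = g.coeff k := by
    intro k
    induction k with
    | zero => intro _; exact h0
    | succ k ih =>
      intro hk
      have h1 := key f hf k
      have h2 := key g hg k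
      rw [ih (by omega), ← h2] at h1
      exact mul_left_cancel₀ (pf_succ_ne hk) h1
  ext k
  by_cases hkp : k < p
  · exact hk k hkp
  · rw [coeff_eq_zero_of_natDegree_lt (by omega), coeff_eq_zero_of_natDegree_lt (by omega)]

/-- Wronskian identity -/
theorem Dat.wr (D : Dat p n q h l a e) :
    pl a n ^ 2 + X * (pl a n * derivative (pl e (2 * n)) - pl e (2 * n) * derivative (pl a n)) =
      (1 - X) ^ (3 * n) := by
  have hp4 := D.hpn
  have hn := D.hn
  set P := pl a n with hP
  set E := pl e (2 * n) with hE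
  have hoP := D.pf_odeP
  have hoE := D.pf_odeE
  rw [← hP] at hoP
  rw [← hP, ← hE] at hoE
  have hW : P ^ 2 + X * (P * derivative E - E * derivative P) = P * P + P * pfTh E - E * pfTh P := by
    unfold pfTh; ring
  refine pf_eq_of_ode (c := q + h) ?_ ?_ ?_ ?_ ?_
  · -- the differential equation of W
    have h1 : pfTh (P * P + P * pfTh E - E * pfTh P) =
        X * (pfTh (P * P + P * pfTh E - E * pfTh P) + C (q + h) * (P * P + P * pfTh E - E * pfTh P)) := by
      simp only [pfTh_mul, pfTh_add, pfTh_sub]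
      have c2 : (C (2 : ZMod p) : (ZMod p)[X]) = 2 := C_ofNat 2
      rw [c2] at hoE
      linear_combination P * hoE - E * hoP
    rw [hW]
    set W := P * P + P * pfTh E - E * pfTh P with hWd
    have h2 : X * ((1 - X) * derivative W - C (q + h) * W) = 0 := by
      have : pfTh W = X * derivative W := rfl
      rw [this] at h1
      linear_combination h1
    have h3 := (mul_eq_zero.1 h2).resolve_left X_ne_zero
    linear_combination h3
  · have h3 : q + h = -((3 * n : ℕ) : ZMod p) := by
      push_cast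
      linear_combination D.pf_nq + D.pf_nh
    have h4 : 3 * n = (3 * n - 1) + 1 := by omega
    rw [h3, derivative_pow, derivative_sub, derivative_one, derivative_X]
    conv_rhs => rw [h4, pow_succ]
    rw [← h4]
    simp only [map_neg, map_natCast]
    ring
  · rw [hW]
    simp only [coeff_add, coeff_sub, mul_coeff_zero, pf_coeff_th]
    have h0 : P.coeff 0 = 1 := by rw [hP, pf_coeff_pl, if_pos (by omega), D.a0]
    have h1 : ((1 - X : (ZMod p)[X]) ^ (3 * n)).coeff 0 = 1 := by
      rw [coeff_zero_eq_eval_zero]; simp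
    rw [h0, h1]
    simp
  · have dP : P.natDegree ≤ n := pf_natDegree_pl_le a n
    have dE : E.natDegree ≤ 2 * n := pf_natDegree_pl_le e (2 * n)
    have dthE : (pfTh E).natDegree ≤ 2 * n := by
      rw [natDegree_le_iff_coeff_eq_zero]
      intro k hk
      rw [pf_coeff_th, coeff_eq_zero_of_natDegree_lt (by omega), mul_zero]
    have dthP : (pfTh P).natDegree ≤ n := by
      rw [natDegree_le_iff_coeff_eq_zero]
      intro k hk
      rw [pf_coeff_th, coeff_eq_zero_of_natDegree_lt (by omega), mul_zero]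
    rw [hW]
    have d1 : (P * P).natDegree ≤ 3 * n := natDegree_mul_le.trans (by omega)
    have d2 : (P * pfTh E).natDegree ≤ 3 * n := natDegree_mul_le.trans (by omega)
    have d3 : (E * pfTh P).natDegree ≤ 3 * n := natDegree_mul_le.trans (by omega)
    have d4 : (P * P + P * pfTh E - E * pfTh P).natDegree ≤ 3 * n :=
      (natDegree_sub_le _ _).trans (max_le ((natDegree_add_le _ _).trans (max_le d1 d2)) d3)
    omega
  · have h1 : ((1 - X : (ZMod p)[X]) ^ (3 * n)).natDegree ≤ 3 * n := by
      refine natDegree_pow_le.trans ?_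
      have : (1 - X : (ZMod p)[X]).natDegree ≤ 1 := by
        refine (natDegree_sub_le _ _).trans ?_
        simp
      nlinarith
    omega

theorem pf_eval_pl {R : Type*} [CommRing R] (f : ℕ → R) (N : ℕ) :
    (pl f N).eval 1 = ∑ k ∈ range (N + 1), f k := by
  unfold pl
  rw [eval_finsetSum]
  simp

theorem Dat.eval_a (D : Dat p n q h l a e) : (pl a n).eval 1 = ∑ k ∈ range p, a k := by
  have hp4 := D.hpn
  rw [pf_eval_pl]
  refine Finset.sum_subset (Finset.range_subset_range.2 (by omega)) (fun k hk hk' => ?_)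
  rw [Finset.mem_range] at hk hk'
  exact D.a_zero (by omega) hk

theorem Dat.eval_e (D : Dat p n q h l a e) : (pl e (2 * n)).eval 1 = 0 := by
  have hp4 := D.hpn
  rw [pf_eval_pl, ← D.e1]
  refine Finset.sum_subset (Finset.range_subset_range.2 (by omega)) (fun k hk hk' => ?_)
  rw [Finset.mem_range] at hk hk'
  exact D.e_zero (by omega) hk

/-- local exponent at `X = 1` of the inhomogeneous solution -/
theorem Dat.ndiv (D : Dat p n q h l a e) {κ : (ZMod p)[X]}
    (hκ : derivative κ = X ^ (p - 1) - (1 - X) ^ (p - 1)) (hκ1 : κ.eval 1 = 0) :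
    (1 - X) ^ (3 * n + 1) ∣ pl a n * κ + X ^ p * pl e (2 * n) := by
  have hp4 := D.hpn
  have hn := D.hn
  have hwr := D.wr
  have ha1 : (pl a n).eval 1 ≠ 0 := by rw [D.eval_a]; exact D.a1
  have he1 := D.eval_e
  set P := pl a n with hP
  set E := pl e (2 * n) with hE
  set N := P * κ + X ^ p * E with hN
  have hX1 : (1 - X : (ZMod p)[X]) ≠ 0 := by
    intro h0
    have := congrArg (fun f => f.coeff 1) h0
    simp [coeff_one] at this
  -- the derivative identity
  have hder : derivative N * P - N * derivative P =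
      X ^ (p - 1) * (1 - X) ^ (3 * n) - (1 - X) ^ (p - 1) * P ^ 2 := by
    have hXp : derivative (X ^ p : (ZMod p)[X]) = 0 := by
      rw [derivative_X_pow]; simp
    have hpp : (X : (ZMod p)[X]) ^ p = X ^ (p - 1) * X := by
      rw [← pow_succ, Nat.sub_add_cancel hp.out.one_le]
    rw [hN, derivative_add, derivative_mul, derivative_mul, hκ, hXp, ← hwr, hpp]
    ring
  have hdvd : (1 - X) ^ (3 * n) ∣ derivative N * P - N * derivative P := by
    rw [hder]
    refine dvd_sub (Dvd.intro_left _ rfl) ?_
    refine Dvd.dvd.mul_right (pow_dvd_pow _ (by omega)) _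
  have hN1 : N.eval 1 = 0 := by
    rw [hN]
    simp [hκ1, he1]
  have hroot : ∀ G : (ZMod p)[X], G.eval 1 = 0 → (1 - X) ∣ G := by
    intro G hG
    have h1 : (X - C 1) ∣ G := dvd_iff_isRoot.2 hG
    have h2 : (1 - X : (ZMod p)[X]) = -(X - C 1) := by simp
    rw [h2, neg_dvd]
    exact h1
  have main : ∀ j : ℕ, 1 ≤ j → j ≤ 3 * n + 1 → (1 - X) ^ j ∣ N := by
    intro j hj
    induction j, hj using Nat.le_induction with
    | base => intro _; rw [pow_one]; exact hroot N hN1
    | succ j hj ih =>
      intro hj2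
      obtain ⟨G, hG⟩ := ih (by omega)
      obtain ⟨j', rfl⟩ : ∃ j', j = j' + 1 := ⟨j - 1, by omega⟩
      have hd : derivative N * P - N * derivative P = (1 - X) ^ j' *
          (-((j' + 1 : ℕ) : (ZMod p)[X]) * G * P + (1 - X) * (derivative G * P - G * derivative P)) := by
        rw [hG, derivative_mul, derivative_pow, derivative_sub, derivative_one, derivative_X]
        simp only [Nat.add_sub_cancel, map_natCast]
        ring
      rw [hd] at hdvd
      have hsplit : (1 - X : (ZMod p)[X]) ^ (3 * n) = (1 - X) ^ j' * ((1 - X) ^ (3 * n - j' - 1) * (1 - X)) := by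
        rw [← pow_succ, ← pow_add]
        congr 1
        omega
      rw [hsplit] at hdvd
      have h2 := (mul_dvd_mul_iff_left (pow_ne_zero j' hX1)).1 hdvd
      have h3 : (1 - X : (ZMod p)[X]) ∣ _ := (Dvd.intro_left _ rfl).trans h2
      obtain ⟨Q, hQ⟩ := h3
      have h4 := congrArg (fun f => f.eval (1 : ZMod p)) hQ
      simp only [eval_add, eval_mul, eval_neg, eval_natCast, eval_sub, eval_one, eval_X, sub_self,
        zero_mul, add_zero] at h4
      have h5 : ((j' + 1 : ℕ) : ZMod p) ≠ 0 := pf_natCast_ne (by omega) (by omega)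
      have h6 : G.eval 1 = 0 := by
        by_contra hG1
        have : ((j' + 1 : ℕ) : ZMod p) * G.eval 1 * P.eval 1 ≠ 0 := mul_ne_zero (mul_ne_zero h5 hG1) ha1
        apply this
        linear_combination -h4
      obtain ⟨G', hG'⟩ := hroot G h6
      refine ⟨G', ?_⟩
      rw [hG, hG', pow_succ (1 - X) (j' + 1), mul_assoc]
  exact main (3 * n + 1) (by omega) le_rfl

end

end Cec
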