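import Pool.Agent.Cec.Delta
import Pool.Agent.Cec.PolyF
import Pool.Agent.Cec.Hom

/-!
# The polynomials `Q` (generic part)

Proof hints (`δ f = dl p f`, everything modulo `p`, `Δ = 4 c^p δA + A^p δc`, `w = f0 s^3`,
`W = 4 X c + X A c' = e0 A c - w`, `4n = p - 1`).
* `QP_deriv`: `X Δ' = W^p - (A c)^{p-1} W = - w^p + (A c)^{p-1} w` (`br_dl_deriv`, `e0^p = e0`).
  With `Π_θ = hm (k a_k)`, `Γ_θ = hm (k (e_k - l a_k))` and `hm_deriv`:
  `X A c Π' = w Π_θ + n W Π`, `X A c Γ' = w Γ_θ + 2 n W Γ`, hence (as `3n+1 = 1/4`, `n = -1/4`)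
  `X ((A c^{3n+1} Γ)' Π - A c^{3n+1} Γ Π') = c^{3n} w (Π Γ_θ - Γ Π_θ)`, and `Dat.wr` homogenised in
  degree `3n` gives `Π Γ_θ - Γ Π_θ = (s^4 d)^{3n} - Π^2 (A^4 c)^n`.  Now `c^{3n} (A^4 c)^n = (A c)^{p-1}`,
  `w s^{12 n} = f0 s^{3p}`, `w^p = f0 s^{3p}`.
* `QP_rel`: `A^{3p+1} = A^{4(3n+1)}`.
* `QP_div`: by `QP_rel` and `dl_den`,
  `Q A^{3p} = Π (δν + κ_h + s^{3p} (4 d^p δs + s^p δd)) + den^{3n+1} Γ`; multiply by `den^n`
  (`Π den^n = hm a (2n)`), `δν = l ν^p` (because `32 l = -(32^p-32)/p`), `den^{4n+1} = den^p`,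
  `den^p Γ = den^p hm e (2n) - l den^p Π den^n`, `ν^p - den^p = -(s^4 d)^p`, and
  `ν^p hm e (2n) + Π den^n κ_h = hm (P κ + X^p E)(2n+p)` is divisible by `(s^4 d)^{3n+1}` by `Dat.ndiv`
  (`12 n + 4 = 3 p + 1`).
* `QP_natDegree`: `δA` has degree `≤ p-1`, `δC` degree `≤ 2p-1`; the `k`-th term of `Γ` has degree
  `j k + 6 (2n-k) ≤ 12 n - 1` for `k ≥ 1` and the coefficient for `k = 0` vanishes (`e 0 = l a 0`).
-/

namespace Cec

open Finset Polynomial

noncomputable section

variable (p : ℕ) [hp : Fact p.Prime]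

/-- `Π = hm a n nu (A^4 c)` -/
def PiP (n : ℕ) (a : ℕ → ZMod p) (A c nu : ℤ[X]) : (ZMod p)[X] :=
  hm a n (br p nu) (br p A ^ 4 * br p c)

/-- `Q = Π (4 c^p δA + A^p δc) + A c^{3n+1} Γ` with `Γ = hm (e - l a) (2n) nu (A^4 c)` -/
def QP (n : ℕ) (l : ZMod p) (a e : ℕ → ZMod p) (A c nu : ℤ[X]) : (ZMod p)[X] :=
  PiP p n a A c nu * (4 * (br p c) ^ p * br p (dl p A) + (br p A) ^ p * br p (dl p c)) +
    br p A * br p c ^ (3 * n + 1) * hm (fun k => e k - l * a k) (2 * n) (br p nu) (br p A ^ 4 * br p c)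

/-- the situation of the two coverings -/
structure Cov (A c s d nu : ℤ[X]) (e0 f0 : ℤ) : Prop where
  hA : derivative A = 1
  hden : A ^ 4 * c = nu + s ^ 4 * d
  hnu : X * derivative nu = C e0 * nu
  hw : C e0 * A * c - 4 * X * c - X * A * derivative c = C f0 * s ^ 3

variable {p} {n : ℕ} {q h l : ZMod p} {a e : ℕ → ZMod p}


/-! ### auxiliary facts -/

theorem br_add (f g : ℤ[X]) : br p (f + g) = br p f + br p g := Polynomial.map_add _
theorem br_mul (f g : ℤ[X]) : br p (f * g) = br p f * br p g := Polynomial.map_mul _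
theorem br_pow (f : ℤ[X]) (k : ℕ) : br p (f ^ k) = br p f ^ k := Polynomial.map_pow _ _
theorem br_X : br p (X : ℤ[X]) = X := Polynomial.map_X _
theorem br_sub (f g : ℤ[X]) : br p (f - g) = br p f - br p g := Polynomial.map_sub _
theorem four_eq : (4 : (ZMod p)[X]) = C 4 := (map_ofNat (C : ZMod p →+* (ZMod p)[X]) 4).symm
theorem br_four : br p (4 : ℤ[X]) = 4 := Polynomial.map_ofNat _ _
theorem br_C (z : ℤ) : br p (C z) = C (z : ZMod p) := by
  rw [br, Polynomial.map_C, eq_intCast]
theorem br_deriv (f : ℤ[X]) : br p (derivative f) = derivative (br p f) :=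
  (Polynomial.derivative_map f (Int.castRingHom (ZMod p))).symm

theorem C_pow_p (z : ZMod p) : (C z : (ZMod p)[X]) ^ p = C z := by
  rw [← C_pow, ZMod.pow_card]

theorem Dat.n4 (D : Dat p n q h l a e) : (4 : ZMod p) * n = -1 := by
  have h1 : ((p : ℕ) : ZMod p) = 0 := CharP.cast_eq_zero _ _
  have h2 : ((p : ℕ) : ZMod p) = ((4 * n + 1 : ℕ) : ZMod p) := congrArg _ D.hpn
  push_cast at h2
  linear_combination h1 - h2

theorem cov_mod {A c s d nu : ℤ[X]} {e0 f0 : ℤ} (H : Cov A c s d nu e0 f0) :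
    derivative (br p A) = 1 ∧ br p A ^ 4 * br p c = br p nu + br p s ^ 4 * br p d ∧
    X * derivative (br p nu) = C (e0 : ZMod p) * br p nu ∧
    C (e0 : ZMod p) * br p A * br p c - 4 * X * br p c - X * br p A * derivative (br p c) =
      C (f0 : ZMod p) * br p s ^ 3 := by
  refine ⟨?_, ?_, ?_, ?_⟩
  · rw [← br_deriv, H.hA]; exact Polynomial.map_one _
  · rw [← br_pow, ← br_mul, H.hden, br_add, br_mul, br_pow]
  · have := congrArg (br p) H.hnu
    rwa [br_mul, br_mul, br_X, br_deriv, br_C] at this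
  · have := congrArg (br p) H.hw
    rwa [br_sub, br_sub, br_mul, br_mul, br_mul, br_mul, br_mul, br_mul, br_mul, br_C, br_C,
      br_four, br_X, br_deriv, br_pow] at this

/-- derivative of `Δ = 4 c^p δA + A^p δc` -/
theorem Delta_deriv {A c : ℤ[X]} {w : (ZMod p)[X]} {e0 : ZMod p} (hA : derivative (br p A) = 1)
    (hw : C e0 * br p A * br p c - 4 * X * br p c - X * br p A * derivative (br p c) = w) :
    X * derivative (4 * (br p c) ^ p * br p (dl p A) + (br p A) ^ p * br p (dl p c)) =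
      - w ^ p + (br p A * br p c) ^ (p - 1) * w := by
  have hp0 : p ≠ 0 := hp.out.ne_zero
  have h4 : (4 : (ZMod p)[X]) ^ p = 4 := by
    rw [four_eq, C_pow_p]
  have hd : ∀ f : (ZMod p)[X], derivative (f ^ p) = 0 := by
    intro f
    rw [derivative_pow, CharP.cast_eq_zero, C_0, zero_mul, zero_mul]
  have hd4 : derivative (4 : (ZMod p)[X]) = 0 := by
    rw [four_eq, derivative_C]
  have e1 : (X : (ZMod p)[X]) ^ (p - 1) * X = X ^ p := pow_sub_one_mul hp0 _
  have e2 : br p A ^ (p - 1) * br p A = br p A ^ p := pow_sub_one_mul hp0 _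
  have e3 : br p c ^ (p - 1) * br p c = br p c ^ p := pow_sub_one_mul hp0 _
  have hwp : w ^ p = C e0 * br p A ^ p * br p c ^ p - 4 * X ^ p * br p c ^ p -
      X ^ p * br p A ^ p * derivative (br p c) ^ p := by
    rw [← hw, sub_pow_char, sub_pow_char]
    simp only [mul_pow]
    rw [C_pow_p, h4]
  rw [hwp, derivative_add, derivative_mul, derivative_mul, derivative_mul, hd, hd, hd4,
    br_dl_deriv, br_dl_deriv, hA, one_pow, mul_pow, ← hw]
  generalize (X : (ZMod p)[X]) ^ (p - 1) = X1 at *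
  generalize br p A ^ (p - 1) = A1 at *
  generalize br p c ^ (p - 1) = c1 at *
  generalize (X : (ZMod p)[X]) ^ p = Xp at *
  generalize br p A ^ p = Ap at *
  generalize br p c ^ p = cp at *
  generalize derivative (br p c) ^ p = dp at *
  generalize br p A = A' at *
  generalize br p c = c' at *
  generalize derivative c' = d' at *
  subst e1 e2 e3
  ring

theorem pl_coeff {R : Type*} [CommRing R] (f : ℕ → R) (N k : ℕ) :
    (pl f N).coeff k = if k ≤ N then f k else 0 := by
  unfold pl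
  rw [finsetSum_coeff]
  simp only [coeff_C_mul, coeff_X_pow, mul_ite, mul_one, mul_zero]
  rw [Finset.sum_ite_eq]
  simp only [mem_range, Nat.lt_succ_iff]

theorem pl_natDegree {R : Type*} [CommRing R] (f : ℕ → R) (N : ℕ) : (pl f N).natDegree ≤ N := by
  rw [natDegree_le_iff_coeff_eq_zero]
  intro k hk
  rw [pl_coeff, if_neg (by omega)]

theorem XD_coeff {R : Type*} [CommRing R] (F : R[X]) (k : ℕ) :
    (X * derivative F).coeff k = (k : R) * F.coeff k := by
  cases k with
  | zero => simp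
  | succ k => rw [coeff_X_mul, coeff_derivative]; push_cast; ring

theorem XD_natDegree {R : Type*} [CommRing R] {F : R[X]} {N : ℕ} (h : F.natDegree ≤ N) :
    (X * derivative F).natDegree ≤ N := by
  rw [natDegree_le_iff_coeff_eq_zero] at h ⊢
  intro k hk
  rw [XD_coeff, h k hk, mul_zero]

/-- the homogenised Wronskian -/
theorem wr_hm (D : Dat p n q h l a e) {x y : (ZMod p)[X]} :
    hm a n x y * hm (fun k => (k : ZMod p) * (e k - l * a k)) (2 * n) x y -
      hm (fun k => e k - l * a k) (2 * n) x y * hm (fun k => (k : ZMod p) * a k) n x y =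
    (y - x) ^ (3 * n) - hm a n x y ^ 2 * y ^ n := by
  set P := pl a n with hP
  set E := pl e (2 * n) with hE
  set G := E - C l * P with hG
  have hPd : P.natDegree ≤ n := pl_natDegree _ _
  have hEd : E.natDegree ≤ 2 * n := pl_natDegree _ _
  have hGd : G.natDegree ≤ 2 * n := by
    refine (natDegree_sub_le _ _).trans (max_le hEd ?_)
    exact (natDegree_C_mul_le _ _).trans (hPd.trans (by omega))
  have hGc : ∀ k ≤ 2 * n, e k - l * a k = G.coeff k := by
    intro k hk
    rw [hG, coeff_sub, coeff_C_mul, hE, hP, pl_coeff, pl_coeff, if_pos hk]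
    split_ifs with h1
    · rfl
    · rw [D.a_zero (by omega) (by have := D.hpn; omega)]
  have hPc : ∀ k ≤ n, a k = P.coeff k := by
    intro k hk
    rw [hP, pl_coeff, if_pos hk]
  have e1 : hm a n x y = hm (fun k => P.coeff k) n x y := hm_coeff P hPd a hPc x y
  have e2 : hm (fun k => e k - l * a k) (2 * n) x y = hm (fun k => G.coeff k) (2 * n) x y :=
    hm_coeff G hGd _ hGc x y
  have e3 : hm (fun k => (k : ZMod p) * a k) n x y =
      hm (fun k => (X * derivative P).coeff k) n x y :=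
    hm_coeff _ (XD_natDegree hPd) _ (fun k hk => by rw [XD_coeff, hPc k hk]) x y
  have e4 : hm (fun k => (k : ZMod p) * (e k - l * a k)) (2 * n) x y =
      hm (fun k => (X * derivative G).coeff k) (2 * n) x y :=
    hm_coeff _ (XD_natDegree hGd) _ (fun k hk => by rw [XD_coeff, hGc k hk]) x y
  have hW : P * (X * derivative G) - G * (X * derivative P) = (1 - X) ^ (3 * n) - P * P := by
    have h1 := D.wr
    rw [← hP, ← hE] at h1
    have h2 : derivative G = derivative E - C l * derivative P := by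
      rw [hG, derivative_sub, derivative_C_mul]
    rw [h2, ← h1, hG]
    ring
  have m1 : hm (fun k => (P * (X * derivative G)).coeff k) (3 * n) x y =
      hm (fun k => P.coeff k) n x y * hm (fun k => (X * derivative G).coeff k) (2 * n) x y := by
    have := hm_mul P (X * derivative G) hPd (XD_natDegree hGd) x y
    rwa [show n + 2 * n = 3 * n by ring] at this
  have m2 : hm (fun k => (G * (X * derivative P)).coeff k) (3 * n) x y =
      hm (fun k => G.coeff k) (2 * n) x y * hm (fun k => (X * derivative P).coeff k) n x y := by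
    have := hm_mul G (X * derivative P) hGd (XD_natDegree hPd) x y
    rwa [show 2 * n + n = 3 * n by ring] at this
  have m3 : hm (fun k => (P * P).coeff k) (3 * n) x y =
      hm (fun k => P.coeff k) n x y ^ 2 * y ^ n := by
    have h1 := hm_mul P P hPd hPd x y
    have hPP : (P * P).natDegree ≤ n + n := natDegree_mul_le.trans (by omega)
    have h2 := hm_raise (P * P) hPP n x y
    rw [show n + n + n = 3 * n by ring] at h2
    rw [h2, h1]
    ring
  rw [e1, e2, e3, e4, ← m1, ← m2, ← hm_sub, ← m3, ← hm_one_sub_pow (R := ZMod p) (3 * n) x y,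
    ← hm_sub]
  congr 1
  funext k
  rw [← coeff_sub, ← coeff_sub, hW]

/-- Claim 2 -/
theorem QP_deriv (D : Dat p n q h l a e) {A c s d nu : ℤ[X]} {e0 f0 : ℤ} (H : Cov A c s d nu e0 f0) :
    X * (derivative (QP p n l a e A c nu) * PiP p n a A c nu -
      QP p n l a e A c nu * derivative (PiP p n a A c nu)) =
    C (f0 : ZMod p) * br p s ^ (3 * p) * ((br p c * br p d) ^ (3 * n) - PiP p n a A c nu ^ 2) := by
  obtain ⟨hA, hden, hnu, hw⟩ := cov_mod (p := p) H
  have hΔ := Delta_deriv (p := p) hA hw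
  have hPi := hm_deriv a n hA hnu hw
  have hΓ := hm_deriv (fun k => e k - l * a k) (2 * n) hA hnu hw
  have hwr := wr_hm D (x := br p nu) (y := br p A ^ 4 * br p c)
  have hn : (4 : (ZMod p)[X]) * (n : (ZMod p)[X]) + 1 = 0 := by
    have h1 := D.n4
    have h2 : (4 : (ZMod p)[X]) * (n : (ZMod p)[X]) = C ((4 : ZMod p) * n) := by
      rw [C_mul, ← four_eq, map_natCast]
    rw [h2, h1, C_neg, C_1, neg_add_cancel]
  have hwp : (C (f0 : ZMod p) * br p s ^ 3) ^ p = C (f0 : ZMod p) * br p s ^ (3 * p) := by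
    rw [mul_pow, C_pow_p, ← pow_mul]
  have hden' : br p A ^ 4 * br p c - br p nu = br p s ^ 4 * br p d := by
    rw [hden]; ring
  rw [hden'] at hwr
  have hc3 : br p c ^ (3 * n) * (br p A ^ 4 * br p c) ^ n = (br p A * br p c) ^ (p - 1) := by
    have h1 : p - 1 = 4 * n := by have := D.hpn; omega
    rw [h1, mul_pow, mul_pow, ← pow_mul]
    rw [show 4 * n = 3 * n + n by ring, pow_add (br p c)]
    ring
  have hs3 : br p c ^ (3 * n) * (C (f0 : ZMod p) * br p s ^ 3) * (br p s ^ 4 * br p d) ^ (3 * n) =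
      C (f0 : ZMod p) * br p s ^ (3 * p) * (br p c * br p d) ^ (3 * n) := by
    have h1 : 3 * p = 3 + 4 * (3 * n) := by have := D.hpn; omega
    rw [h1, pow_add (br p s), mul_pow, mul_pow, ← pow_mul]
    ring
  have hcd : derivative (br p c ^ (3 * n + 1)) =
      (3 * (n : (ZMod p)[X]) + 1) * br p c ^ (3 * n) * derivative (br p c) := by
    rw [derivative_pow, Nat.add_sub_cancel, map_natCast]
    push_cast
    rfl
  have hc1 : br p c ^ (3 * n + 1) = br p c ^ (3 * n) * br p c := pow_succ _ _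
  rw [hwp] at hΔ
  unfold QP PiP
  rw [derivative_add, derivative_mul (f := hm a n _ _), derivative_mul (f := br p A * _),
    derivative_mul (f := br p A), hcd, hA, hc1]
  have h2n : ((2 * n : ℕ) : (ZMod p)[X]) = 2 * (n : (ZMod p)[X]) := by push_cast; rfl
  rw [h2n] at hΓ
  generalize derivative (4 * (br p c) ^ p * br p (dl p A) + (br p A) ^ p * br p (dl p c)) = Δ1 at *
  generalize 4 * (br p c) ^ p * br p (dl p A) + (br p A) ^ p * br p (dl p c) = Δ at *
  generalize derivative (hm a n (br p nu) (br p A ^ 4 * br p c)) = Pi1 at *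
  generalize hm a n (br p nu) (br p A ^ 4 * br p c) = Pi0 at *
  generalize derivative (hm (fun k => e k - l * a k) (2 * n) (br p nu) (br p A ^ 4 * br p c)) = Γ1 at *
  generalize hm (fun k => e k - l * a k) (2 * n) (br p nu) (br p A ^ 4 * br p c) = Γ at *
  generalize hm (fun k => (k : ZMod p) * (e k - l * a k)) (2 * n) (br p nu) (br p A ^ 4 * br p c) = Γθ at *
  generalize hm (fun k => (k : ZMod p) * a k) n (br p nu) (br p A ^ 4 * br p c) = Pith at *
  linear_combination Pi0 ^ 2 * hΔ + br p c ^ (3 * n) * Pi0 * hΓ - br p c ^ (3 * n) * Γ * hPi +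
    br p c ^ (3 * n) * (C (f0 : ZMod p) * br p s ^ 3) * hwr + hs3 -
    Pi0 ^ 2 * (C (f0 : ZMod p) * br p s ^ 3) * hc3 +
    (n : (ZMod p)[X]) * br p c ^ (3 * n) * Γ * Pi0 * hw +
    br p c ^ (3 * n) * Γ * Pi0 * (X * br p c + X * br p A * derivative (br p c)) * hn

/-- the relation used in the comparison of the two lifts -/
theorem QP_rel (D : Dat p n q h l a e) (A c nu : ℤ[X]) :
    QP p n l a e A c nu * br p A ^ (3 * p) =
      PiP p n a A c nu * br p A ^ (3 * p) *
        (4 * (br p c) ^ p * br p (dl p A) + (br p A) ^ p * br p (dl p c)) +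
      (br p A ^ 4 * br p c) ^ (3 * n + 1) *
        hm (fun k => e k - l * a k) (2 * n) (br p nu) (br p A ^ 4 * br p c) := by
  have h1 : (br p A ^ 4 * br p c) ^ (3 * n + 1) =
      br p A * br p A ^ (3 * p) * br p c ^ (3 * n + 1) := by
    rw [mul_pow, ← pow_mul, ← pow_succ']
    congr 2
    have := D.hpn
    omega
  rw [h1]
  unfold QP
  ring

theorem K32_spec : (p : ℤ) * K32 p = 32 ^ p - 32 := by
  unfold K32
  apply Int.mul_ediv_cancel'
  rw [← ZMod.intCast_zmod_eq_zero_iff_dvd]
  push_cast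
  rw [ZMod.pow_card, sub_self]

theorem br_dl_nu (D : Dat p n q h l a e) {nu : ℤ[X]} {j : ℕ} (hnu : nu = C 32 * X ^ j) :
    br p (dl p nu) = C l * br p nu ^ p := by
  have h1 := dl_monomial p 32 j
  have h2 : dl p nu = C (-K32 p) * X ^ (p * j) := by
    have hp0 : (C (p : ℤ) : ℤ[X]) ≠ 0 := by
      rw [Ne, C_eq_zero]
      exact_mod_cast hp.out.ne_zero
    apply mul_left_cancel₀ hp0
    rw [hnu, h1, ← mul_assoc, ← C_mul]
    congr 2
    have := K32_spec (p := p)
    linarith
  have h3 : br p nu = C 32 * X ^ j := by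
    rw [hnu, br_mul, br_pow, br_X, br_C]
    norm_num
  have h4 : ((-K32 p : ℤ) : ZMod p) = l * 32 := by
    push_cast
    linear_combination -D.l32
  rw [h2, h3, br_mul, br_pow, br_X, br_C, h4, mul_pow, C_pow_p, ← pow_mul, C_mul, mul_comm j p,
    mul_assoc]

/-- Claim 1 -/
theorem QP_div (D : Dat p n q h l a e) {A c s d nu : ℤ[X]} (hden : A ^ 4 * c = nu + s ^ 4 * d)
    {j : ℕ} (hnu : nu = C 32 * X ^ j) : ∃ Y : (ZMod p)[X],
    QP p n l a e A c nu * br p A ^ (3 * p) * (br p A ^ 4 * br p c) ^ n =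
      br p s ^ (3 * p) * (br p s * Y + 4 * br p d ^ p * br p (dl p s) * PiP p n a A c nu *
        (br p A ^ 4 * br p c) ^ n) := by
  have hpn := D.hpn
  have h2 : 2 < p := by have := D.hn; omega
  have hd := dl_den (p := p) h2 hden
  have hr := QP_rel D A c nu
  have hδν := br_dl_nu D hnu
  have hden' : br p A ^ 4 * br p c = br p nu + br p s ^ 4 * br p d := by
    rw [← br_pow, ← br_mul, hden, br_add, br_mul, br_pow]
  set x := br p nu with hx
  set y := br p A ^ 4 * br p c with hy
  set P := pl a n with hP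
  set E := pl e (2 * n) with hE
  set κ := br p (kap p) with hκ
  have hκd : κ.natDegree ≤ p := natDegree_map_le.trans (kap_natDegree p h2)
  have hPd : P.natDegree ≤ n := pl_natDegree _ _
  have hEd : E.natDegree ≤ 2 * n := pl_natDegree _ _
  obtain ⟨M, hM⟩ := D.ndiv (br_kap_deriv p h2) (br_kap_eval p h2)
  rw [← hP, ← hE, ← hκ] at hM
  -- identify the homogenised pieces
  have e1 : hm a n x y = hm (fun k => P.coeff k) n x y :=
    hm_coeff P hPd a (fun k hk => by rw [hP, pl_coeff, if_pos hk]) x y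
  have e2 : hm (fun k => e k) (2 * n) x y = hm (fun k => E.coeff k) (2 * n) x y :=
    hm_coeff E hEd _ (fun k hk => by rw [hE, pl_coeff, if_pos hk]) x y
  have e3 : hm a (2 * n) x y = hm a n x y * y ^ n := by
    have h3 := hm_raise P hPd n x y
    rw [e1, ← h3, show n + n = 2 * n by ring]
    refine hm_coeff P (hPd.trans (by omega)) a (fun k hk => ?_) x y
    rw [hP, pl_coeff]
    split_ifs with h4
    · rfl
    · exact D.a_zero (by omega) (by omega)
  have e4 : hm (fun k => ((kap p).coeff k : ZMod p)) p x y = hm (fun k => κ.coeff k) p x y := by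
    congr 1
    funext k
    rw [hκ, br, coeff_map, eq_intCast]
  have e5 : hm (fun k => e k - l * a k) (2 * n) x y =
      hm (fun k => E.coeff k) (2 * n) x y - C l * (hm (fun k => P.coeff k) n x y * y ^ n) := by
    rw [hm_sub, e2, hm_smul, e3, e1]
    rfl
  -- the divisibility
  have hN : hm (fun k => (P * κ + X ^ p * E).coeff k) (2 * n + p) x y =
      hm (fun k => P.coeff k) n x y * hm (fun k => κ.coeff k) p x y * y ^ n +
        x ^ p * hm (fun k => E.coeff k) (2 * n) x y := by
    have h3 : (P * κ).natDegree ≤ n + p := natDegree_mul_le.trans (by omega)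
    have h4 := hm_raise (P * κ) h3 n x y
    rw [show n + p + n = 2 * n + p by ring] at h4
    have h5 := hm_mul (X ^ p : (ZMod p)[X]) E (natDegree_X_pow_le p) hEd x y
    rw [show p + 2 * n = 2 * n + p by ring, hm_X_pow le_rfl, Nat.sub_self, pow_zero, mul_one] at h5
    have h6 := hm_mul P κ hPd hκd x y
    rw [← h6, ← h4, ← h5, ← hm_add]
    simp only [coeff_add]
  have hMd : M.natDegree ≤ 3 * n := by
    by_cases hM0 : M = 0
    · rw [hM0]; simp
    have h1X : (1 - X : (ZMod p)[X]).natDegree = 1 := by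
      rw [show (1 - X : (ZMod p)[X]) = -(X - C 1) by rw [C_1]; ring, natDegree_neg,
        natDegree_X_sub_C]
    have h1X0 : (1 - X : (ZMod p)[X]) ≠ 0 := by
      intro h0
      rw [h0, natDegree_zero] at h1X
      exact one_ne_zero h1X.symm
    have h3 : (P * κ + X ^ p * E).natDegree ≤ 2 * n + p := by
      refine natDegree_add_le_of_degree_le ?_ ?_
      · exact natDegree_mul_le.trans (by omega)
      · refine natDegree_mul_le.trans ?_
        have := natDegree_X_pow_le (R := ZMod p) p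
        omega
    rw [hM, natDegree_mul (pow_ne_zero _ h1X0) hM0, natDegree_pow, h1X] at h3
    omega
  have hNM : hm (fun k => (P * κ + X ^ p * E).coeff k) (2 * n + p) x y =
      (br p s ^ 4 * br p d) ^ (3 * n + 1) * hm (fun k => M.coeff k) (3 * n) x y := by
    have h3 : ((1 - X : (ZMod p)[X]) ^ (3 * n + 1)).natDegree ≤ 3 * n + 1 := by
      refine natDegree_pow_le.trans ?_
      have : (1 - X : (ZMod p)[X]).natDegree ≤ 1 := by
        refine (natDegree_sub_le _ _).trans ?_
        simp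
      calc (3 * n + 1) * (1 - X : (ZMod p)[X]).natDegree ≤ (3 * n + 1) * 1 :=
            Nat.mul_le_mul_left _ this
        _ = _ := mul_one _
    have h4 := hm_mul _ M h3 hMd x y
    rw [hm_one_sub_pow, ← hM, show 3 * n + 1 + 3 * n = 2 * n + p by omega] at h4
    rw [h4, hden']
    ring
  have hyp : y ^ (3 * n + 1) * y ^ n = x ^ p + br p s ^ (4 * p) * br p d ^ p := by
    rw [← pow_add, show 3 * n + 1 + n = p by omega, hden', add_pow_char, mul_pow, ← pow_mul]
  have hs1 : (br p s ^ 4 * br p d) ^ (3 * n + 1) =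
      br p s ^ (3 * p) * br p s * br p d ^ (3 * n + 1) := by
    rw [mul_pow, ← pow_mul, ← pow_succ]
    congr 2
    omega
  have hs2 : br p s ^ (4 * p) = br p s ^ (3 * p) * br p s * br p s ^ (p - 1) := by
    rw [mul_assoc, mul_pow_sub_one hp.out.ne_zero, ← pow_add]
    congr 1
    ring
  have hs3 : br p s ^ p = br p s * br p s ^ (p - 1) := (mul_pow_sub_one hp.out.ne_zero _).symm
  refine ⟨br p d ^ (3 * n + 1) * hm (fun k => M.coeff k) (3 * n) x y + br p s ^ (p - 1) *
    (br p d ^ p * hm (fun k => E.coeff k) (2 * n) x y -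
      C l * hm (fun k => P.coeff k) n x y * y ^ n * br p d ^ p +
      hm (fun k => P.coeff k) n x y * y ^ n * br p (dl p d)), ?_⟩
  rw [hN, hs1] at hNM
  rw [hs2] at hyp
  rw [hδν, e4] at hd
  rw [e5] at hr
  have hPi : PiP p n a A c nu = hm (fun k => P.coeff k) n x y := by
    rw [← e1]; rfl
  rw [hPi] at hr ⊢
  rw [hr]
  rw [hs3] at hd
  generalize (4 * (br p c) ^ p * br p (dl p A) + (br p A) ^ p * br p (dl p c)) = Δ at *
  generalize hm (fun k => P.coeff k) n x y = Pi0 at *
  generalize hm (fun k => E.coeff k) (2 * n) x y = E0 at *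
  generalize hm (fun k => κ.coeff k) p x y = κ0 at *
  generalize hm (fun k => M.coeff k) (3 * n) x y = M0 at *
  generalize y ^ (3 * n + 1) = y3 at *
  generalize y ^ n = yn at *
  linear_combination Pi0 * yn * hd + hNM + (E0 - C l * (Pi0 * yn)) * hyp

theorem dl_natDegree {f : ℤ[X]} (hf : f.Monic) {m : ℕ} (hm : f.natDegree = m) (hm1 : 1 ≤ m) :
    (br p (dl p f)).natDegree ≤ p * m - 1 := by
  have hp1 : 1 ≤ p := hp.out.one_lt.le
  refine natDegree_map_le.trans ?_
  rw [natDegree_le_iff_coeff_eq_zero]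
  intro k hk
  have h1 := congrArg (fun g => coeff g k) (dl_spec p f)
  simp only [coeff_add, coeff_C_mul] at h1
  have hk' : p * m ≤ k := by
    have : 1 ≤ p * m := Nat.one_le_iff_ne_zero.2 (by positivity)
    omega
  have h2 : (expand ℤ p f).coeff k = (f ^ p).coeff k := by
    have m1 : (expand ℤ p f).Monic := hf.expand hp.out.pos
    have m2 : (f ^ p).Monic := hf.pow p
    have d1 : (expand ℤ p f).natDegree = p * m := by rw [natDegree_expand, hm, mul_comm]
    have d2 : (f ^ p).natDegree = p * m := by rw [hf.natDegree_pow, hm]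
    rcases hk'.eq_or_lt with h | h
    · have a1 := m1.coeff_natDegree
      rw [d1, h] at a1
      have a2 := m2.coeff_natDegree
      rw [d2, h] at a2
      rw [a1, a2]
    · rw [coeff_eq_zero_of_natDegree_lt (by omega), coeff_eq_zero_of_natDegree_lt (by omega)]
  rw [h2] at h1
  have h3 : (p : ℤ) * (dl p f).coeff k = 0 := by linarith
  have hp0 : (p : ℤ) ≠ 0 := by exact_mod_cast hp.out.ne_zero
  exact (mul_eq_zero.1 h3).resolve_left hp0

/-- degree bounds -/
theorem QP_natDegree (D : Dat p n q h l a e) {A : ℤ[X]} {α : ℤ} (hA : A = X + C α) {j : ℕ} (hj : 1 ≤ j)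
    (hj5 : j ≤ 5) : (QP p n l a e A (pC ℤ) (C 32 * X ^ j)).natDegree ≤ 3 * p - 1 + 6 * n := by
  have hpn := D.hpn
  have hAm : A.Monic := by rw [hA]; exact monic_X_add_C α
  have hAd : A.natDegree = 1 := by rw [hA]; exact natDegree_X_add_C α
  have hCd : (pC ℤ).natDegree = 2 := by unfold pC; compute_degree!
  have hCm : (pC ℤ).Monic := by unfold pC; monicity!
  have dA : (br p A).natDegree ≤ 1 := natDegree_map_le.trans hAd.le
  have dC : (br p (pC ℤ)).natDegree ≤ 2 := natDegree_map_le.trans hCd.le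
  have dδA : (br p (dl p A)).natDegree ≤ p * 1 - 1 := dl_natDegree hAm hAd le_rfl
  have dδC : (br p (dl p (pC ℤ))).natDegree ≤ p * 2 - 1 := dl_natDegree hCm hCd (by omega)
  have dx : (br p (C 32 * X ^ j)).natDegree ≤ j := by
    refine natDegree_map_le.trans ?_
    exact natDegree_C_mul_X_pow_le _ _
  have dy : (br p A ^ 4 * br p (pC ℤ)).natDegree ≤ 6 := by
    refine natDegree_mul_le.trans ?_
    have := natDegree_pow_le (p := br p A) (n := 4)
    omega
  have dPi : (PiP p n a A (pC ℤ) (C 32 * X ^ j)).natDegree ≤ 6 * n := by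
    unfold PiP
    refine hm_natDegree_le a n dx dy (6 * n) ?_
    intro k hk _
    have : j * k ≤ 6 * k := Nat.mul_le_mul_right _ (by omega)
    omega
  have dΓ : (hm (fun k => e k - l * a k) (2 * n) (br p (C 32 * X ^ j))
      (br p A ^ 4 * br p (pC ℤ))).natDegree ≤ 12 * n - 1 := by
    refine hm_natDegree_le _ (2 * n) dx dy (12 * n - 1) ?_
    intro k hk hne
    have hk0 : k ≠ 0 := by
      rintro rfl
      apply hne
      change e 0 - l * a 0 = 0
      rw [D.e0, D.a0]
      ring
    have : j * k ≤ 5 * k := Nat.mul_le_mul_right _ hj5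
    omega
  have dAp : ((br p A) ^ p).natDegree ≤ p := by
    have := natDegree_pow_le_of_le p dA
    omega
  have dCp : ((br p (pC ℤ)) ^ p).natDegree ≤ 2 * p := by
    have := natDegree_pow_le_of_le p dC
    omega
  have dC3 : ((br p (pC ℤ)) ^ (3 * n + 1)).natDegree ≤ 6 * n + 2 := by
    have := natDegree_pow_le_of_le (3 * n + 1) dC
    omega
  have d4 : (4 : (ZMod p)[X]).natDegree ≤ 0 := by rw [four_eq, natDegree_C]
  unfold QP
  refine natDegree_add_le_of_degree_le ?_ ?_
  · refine natDegree_mul_le.trans ?_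
    have h1 : (4 * (br p (pC ℤ)) ^ p * br p (dl p A) +
        (br p A) ^ p * br p (dl p (pC ℤ))).natDegree ≤ 3 * p - 1 := by
      refine natDegree_add_le_of_degree_le ?_ ?_
      · refine natDegree_mul_le.trans ?_
        have := natDegree_mul_le (p := (4 : (ZMod p)[X])) (q := (br p (pC ℤ)) ^ p)
        omega
      · refine natDegree_mul_le.trans ?_
        omega
    omega
  · refine natDegree_mul_le.trans ?_
    have := natDegree_mul_le (p := br p A) (q := (br p (pC ℤ)) ^ (3 * n + 1))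
    have := D.hn
    omega

end

end Cec
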