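import Pool.Agent.Cec.Hz
import Pool.Agent.SC24.Hyp

/-!
# MP_cec948_nt: two strange evaluations at `-1/3`, by creative telescoping

Certificates (as in `SC24/Hyp.lean`, `tele_step`).  `u_k`, `w_k` the terms for `N`, `N+1`.
* `V1`: `ρ = 3(4N+3)(4N+5)/((6N+5)(6N+7))`, `c = 2N+3/2`, `b = 2N+1`,
  `B(k) = -ρ (12N²+18N+7+3(2N+1)k)/(4(2N+1))`, `∑_{k≤m} (w_k - ρ u_k) = γ_m u_m`,
  `γ_m = B(m+1)(b+m)/(3(c+m)(c+m+1))`.
* `W1`: `ρ = 4(3m+1)(3m+2)/(3(4m+1)(4m+3))`, `B(k) = -(24m²+36m+14-12(m+1)k)/((4m+1)(4m+3))`,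
  `γ_M = -B(M+1)(m+1/2+M)/(3(2m+1-M))` for `M ≤ 2m`; at the end
  `w_{2m+1} + w_{2m+2} = -γ_{2m} u_{2m}`.
-/

namespace Cec

open Finset SC24

lemma tz_zero (a b c z : ℚ) : tz a b c z 0 = 1 := by simp [tz, poch_zero]

lemma tz_succ (a b c z : ℚ) (k : ℕ) :
    tz a b c z (k + 1) = tz a b c z k * ((a + k) * (b + k) / ((c + k) * (k + 1)) * z) := by
  unfold tz
  rw [poch_succ, poch_succ, poch_succ, Nat.factorial_succ, pow_succ]
  push_cast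
  by_cases h1 : poch c k = 0
  · simp [h1]
  by_cases h2 : c + k = 0
  · simp [h2]
  have : (k.factorial : ℚ) ≠ 0 := by positivity
  have : (k : ℚ) + 1 ≠ 0 := by positivity
  field_simp

lemma tz_succ_pos (a b c : ℚ) (k : ℕ) :
    tz (-a) b c (-1 / 3) (k + 1) =
      tz (-a) b c (-1 / 3) k * ((a - k) * (b + k) / ((c + k) * (k + 1) * 3)) := by
  rw [tz_succ, div_mul_div_comm]
  congr 2
  ring

lemma tz_succ_neg (a b c : ℚ) (k : ℕ) :
    tz (-a) b (-c) (-1 / 3) (k + 1) =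
      tz (-a) b (-c) (-1 / 3) k * (-((a - k) * (b + k) / ((c - k) * (k + 1) * 3))) := by
  rw [tz_succ, div_mul_div_comm, show (-a + (k : ℚ)) * (b + k) * -1 = (a - k) * (b + k) by ring,
    show (-c + (k : ℚ)) * (k + 1) * 3 = -((c - k) * (k + 1) * 3) by ring, div_neg]

theorem V1_step (N : ℕ) :
    ∑ k ∈ range (N + 2), tz (-((N + 1 : ℕ) : ℚ)) (2 * ((N + 1 : ℕ) : ℚ) + 1)
      (2 * ((N + 1 : ℕ) : ℚ) + 3 / 2) (-1 / 3) k =
    (3 * (4 * N + 3) * (4 * N + 5) / ((6 * N + 5) * (6 * N + 7)) : ℚ) *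
      ∑ k ∈ range (N + 1), tz (-(N : ℚ)) (2 * N + 1) (2 * N + 3 / 2) (-1 / 3) k := by
  apply tele_step _ _
    (fun k => (((N : ℚ) + 1) / ((N : ℚ) + 1 - k)) *
      (((2 * (N : ℚ) + 1) + k) * ((2 * (N : ℚ) + 2) + k) / ((2 * (N : ℚ) + 1) * (2 * (N : ℚ) + 2))) *
      ((2 * (N : ℚ) + 3 / 2) * (2 * (N : ℚ) + 5 / 2) /
        ((2 * (N : ℚ) + 3 / 2 + k) * (2 * (N : ℚ) + 5 / 2 + k))))
    (fun k => -(3 * (4 * (N : ℚ) + 3) * (4 * (N : ℚ) + 5) / ((6 * (N : ℚ) + 5) * (6 * (N : ℚ) + 7)) *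
      (12 * (N : ℚ) ^ 2 + 18 * N + 7 + 3 * (2 * N + 1) * ((k : ℚ) + 1)) / (4 * (2 * (N : ℚ) + 1))) *
      ((2 * (N : ℚ) + 1) + k) / (3 * ((2 * (N : ℚ) + 3 / 2) + k) * ((2 * (N : ℚ) + 5 / 2) + k)))
    (fun k => ((N : ℚ) - k) * ((2 * (N : ℚ) + 1) + k) / (((2 * (N : ℚ) + 3 / 2) + k) * (k + 1) * 3))
    (fun k => (((N + 1 : ℕ) : ℚ) - k) * ((2 * ((N + 1 : ℕ) : ℚ) + 1) + k) /
      (((2 * ((N + 1 : ℕ) : ℚ) + 3 / 2) + k) * (k + 1) * 3))
  · exact tz_zero _ _ _ _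
  · exact tz_zero _ _ _ _
  · simp only [Nat.cast_zero, sub_zero, add_zero]
    field_simp
  · intro k; exact tz_succ_pos _ _ _ _
  · intro k; exact tz_succ_pos _ _ _ _
  · intro k hk
    obtain ⟨j, rfl⟩ : ∃ j, N = k + 1 + j := ⟨N - (k + 1), by omega⟩
    push_cast
    have e1 : ((k : ℚ) + 1 + j) - k = 1 + j := by ring
    have e2 : ((k : ℚ) + 1 + j) + 1 - k = 2 + j := by ring
    have e3 : ((k : ℚ) + 1 + j) + 1 - (k + 1) = 1 + j := by ring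
    simp only [e1, e2, e3]
    field_simp
    ring
  · simp only [Nat.cast_zero, sub_zero, add_zero]
    field_simp
    ring
  · intro k hk
    obtain ⟨j, rfl⟩ : ∃ j, N = k + 1 + j := ⟨N - (k + 1), by omega⟩
    push_cast
    have e1 : ((k : ℚ) + 1 + j) - k = 1 + j := by ring
    have e2 : ((k : ℚ) + 1 + j) + 1 - k = 2 + j := by ring
    have e3 : ((k : ℚ) + 1 + j) + 1 - (k + 1) = 1 + j := by ring
    simp only [e1, e2, e3]
    field_simp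
    ring
  · push_cast
    have e1 : (N : ℚ) + 1 - N = 1 := by ring
    simp only [e1]
    field_simp
    ring

/-- shift of the odd product -/
lemma V1_prod (N : ℕ) :
    (∏ i ∈ range (N + 1), (4 * ((N + 1 : ℕ) : ℚ) + 3 + 2 * i)) * ((4 * N + 3) * (4 * N + 5)) =
    (∏ i ∈ range N, (4 * (N : ℚ) + 3 + 2 * i)) * ((6 * N + 3) * (6 * N + 5) * (6 * N + 7)) := by
  have h1 : (∏ i ∈ range (N + 3), (4 * (N : ℚ) + 3 + 2 * i)) =
      (∏ i ∈ range N, (4 * (N : ℚ) + 3 + 2 * i)) * ((6 * N + 3) * (6 * N + 5) * (6 * N + 7)) := by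
    rw [prod_range_succ, prod_range_succ, prod_range_succ]
    push_cast
    ring
  have h2 : (∏ i ∈ range (N + 3), (4 * (N : ℚ) + 3 + 2 * i)) =
      (∏ i ∈ range (N + 1), (4 * ((N + 1 : ℕ) : ℚ) + 3 + 2 * i)) * ((4 * N + 3) * (4 * N + 5)) := by
    rw [prod_range_succ', prod_range_succ']
    push_cast
    rw [mul_assoc]
    congr 1
    · apply prod_congr rfl
      intro i _
      ring
    · ring
  rw [← h2, h1]

/-- `F(-N, 2N+1; 2N+3/2; -1/3)` -/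
theorem V1 (N : ℕ) : (∑ k ∈ range (N + 1), tz (-(N : ℚ)) (2 * N + 1) (2 * N + 3 / 2) (-1 / 3) k) *
    (∏ i ∈ range N, (4 * (N : ℚ) + 3 + 2 * i)) = 9 ^ N * ∏ i ∈ range N, (2 * (i : ℚ) + 1) := by
  induction N with
  | zero => simp [tz_zero]
  | succ N ih =>
    rw [V1_step, prod_range_succ (fun i => (2 * (i : ℚ) + 1)), pow_succ]
    have h := V1_prod N
    have h3 : (4 * (N : ℚ) + 3) * (4 * N + 5) ≠ 0 := by positivity
    have h4 : (6 * (N : ℚ) + 5) * (6 * N + 7) ≠ 0 := by positivity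
    have h5 : (∏ i ∈ range (N + 1), (4 * ((N + 1 : ℕ) : ℚ) + 3 + 2 * i)) =
        (∏ i ∈ range N, (4 * (N : ℚ) + 3 + 2 * i)) * ((6 * N + 3) * (6 * N + 5) * (6 * N + 7)) /
          ((4 * N + 3) * (4 * N + 5)) := by
      rw [eq_div_iff h3, h]
    rw [h5]
    generalize (∏ i ∈ range N, (4 * (N : ℚ) + 3 + 2 * i)) = P at *
    generalize (∏ i ∈ range N, (2 * (i : ℚ) + 1)) = Q at *
    generalize (∑ k ∈ range (N + 1), tz (-(N : ℚ)) (2 * N + 1) (2 * N + 3 / 2) (-1 / 3) k) = S at *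
    have h6 : (3 * (4 * (N : ℚ) + 3) * (4 * N + 5) / ((6 * N + 5) * (6 * N + 7))) * S *
        (P * ((6 * N + 3) * (6 * N + 5) * (6 * N + 7)) / ((4 * N + 3) * (4 * N + 5))) =
        S * P * (9 * (2 * N + 1)) := by
      field_simp
      ring
    rw [h6, ih]
    ring

/-- the quotient `w_k / u_k` in `W1` -/
def WC (m : ℕ) (k : ℕ) : ℚ := ((2 * (m : ℚ) + 2) * (2 * m + 1) /
      ((2 * (m : ℚ) + 2 - k) * (2 * (m : ℚ) + 1 - k))) * (((m : ℚ) + 1 / 2 + k) / (m + 1 / 2)) *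
      ((2 * (m : ℚ) + 1 / 2 - k) * (2 * (m : ℚ) + 3 / 2 - k) /
        ((2 * (m : ℚ) + 1 / 2) * (2 * m + 3 / 2)))

/-- the ratio `u_{k+1} / u_k` in `W1` -/
def Wr (m : ℕ) (k : ℕ) : ℚ := -((2 * (m : ℚ) - k) * ((m : ℚ) + 1 / 2 + k) /
      ((2 * (m : ℚ) - 1 / 2 - k) * (k + 1) * 3))

/-- the ratio `w_{k+1} / w_k` in `W1` -/
def Ws (m : ℕ) (k : ℕ) : ℚ := -((2 * (m : ℚ) + 2 - k) * ((m : ℚ) + 3 / 2 + k) /
      ((2 * (m : ℚ) + 3 / 2 - k) * (k + 1) * 3))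

/-- the certificate in `W1` -/
def Wg (m : ℕ) (k : ℕ) : ℚ := (24 * (m : ℚ) ^ 2 + 36 * m + 14 - 12 * (m + 1) * (k + 1)) /
    ((4 * m + 1) * (4 * m + 3)) * ((m : ℚ) + 1 / 2 + k) / (3 * (2 * m + 1 - k))

lemma WC_ratio (m k j : ℕ) (hj : 2 * m = k + 1 + j) : WC m (k + 1) * Wr m k = WC m k * Ws m k := by
  have hm : (m : ℚ) = (k + 1 + j) / 2 := by
    have : (2 : ℚ) * m = k + 1 + j := by exact_mod_cast hj
    linarith
  unfold WC Wr Ws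
  push_cast
  have e1 : 2 * (m : ℚ) + 2 - k = 3 + j := by rw [hm]; ring
  have e2 : 2 * (m : ℚ) + 1 - k = 2 + j := by rw [hm]; ring
  have e3 : 2 * (m : ℚ) - k = 1 + j := by rw [hm]; ring
  have e4 : 2 * (m : ℚ) + 2 - (k + 1) = 2 + j := by rw [hm]; ring
  have e5 : 2 * (m : ℚ) + 1 - (k + 1) = 1 + j := by rw [hm]; ring
  have e6 : 2 * (m : ℚ) + 1 / 2 - k = (2 * j + 3) / 2 := by rw [hm]; ring
  have e7 : 2 * (m : ℚ) + 3 / 2 - k = (2 * j + 5) / 2 := by rw [hm]; ring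
  have e8 : 2 * (m : ℚ) + 1 / 2 - (k + 1) = (2 * j + 1) / 2 := by rw [hm]; ring
  have e9 : 2 * (m : ℚ) + 3 / 2 - (k + 1) = (2 * j + 3) / 2 := by rw [hm]; ring
  have e10 : 2 * (m : ℚ) - 1 / 2 - k = (2 * j + 1) / 2 := by rw [hm]; ring
  simp only [e1, e2, e3, e4, e5, e6, e7, e8, e9, e10]
  field_simp
  ring

lemma WC_key (m k j : ℕ) (hj : 2 * m = k + 1 + j) :
    (WC m (k + 1) - (4 * (3 * m + 1) * (3 * m + 2) / (3 * (4 * m + 1) * (4 * m + 3)) : ℚ)) * Wr m k =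
      Wg m (k + 1) * Wr m k - Wg m k := by
  have hm : (m : ℚ) = (k + 1 + j) / 2 := by
    have : (2 : ℚ) * m = k + 1 + j := by exact_mod_cast hj
    linarith
  unfold WC Wr Wg
  push_cast
  have e1 : 2 * (m : ℚ) + 2 - k = 3 + j := by rw [hm]; ring
  have e2 : 2 * (m : ℚ) + 1 - k = 2 + j := by rw [hm]; ring
  have e3 : 2 * (m : ℚ) - k = 1 + j := by rw [hm]; ring
  have e4 : 2 * (m : ℚ) + 2 - (k + 1) = 2 + j := by rw [hm]; ring
  have e5 : 2 * (m : ℚ) + 1 - (k + 1) = 1 + j := by rw [hm]; ring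
  have e6 : 2 * (m : ℚ) + 1 / 2 - k = (2 * j + 3) / 2 := by rw [hm]; ring
  have e7 : 2 * (m : ℚ) + 3 / 2 - k = (2 * j + 5) / 2 := by rw [hm]; ring
  have e8 : 2 * (m : ℚ) + 1 / 2 - (k + 1) = (2 * j + 1) / 2 := by rw [hm]; ring
  have e9 : 2 * (m : ℚ) + 3 / 2 - (k + 1) = (2 * j + 3) / 2 := by rw [hm]; ring
  have e10 : 2 * (m : ℚ) - 1 / 2 - k = (2 * j + 1) / 2 := by rw [hm]; ring
  simp only [e1, e2, e3, e4, e5, e6, e7, e8, e9, e10]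
  rw [hm]
  field_simp
  ring

lemma WC_zero (m : ℕ) : WC m 0 = 1 := by
  unfold WC
  simp only [Nat.cast_zero, sub_zero, add_zero]
  field_simp

lemma Wg_zero (m : ℕ) :
    WC m 0 - (4 * (3 * m + 1) * (3 * m + 2) / (3 * (4 * m + 1) * (4 * m + 3)) : ℚ) = Wg m 0 := by
  rw [WC_zero]
  unfold Wg
  simp only [Nat.cast_zero, sub_zero, add_zero, zero_add]
  field_simp
  ring

lemma Wg_last (m : ℕ) :
    WC m (2 * m) * Ws m (2 * m) + WC m (2 * m) * Ws m (2 * m) * Ws m (2 * m + 1) =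
      - Wg m (2 * m) := by
  unfold WC Ws Wg
  push_cast
  have e1 : 2 * (m : ℚ) + 2 - 2 * m = 2 := by ring
  have e2 : 2 * (m : ℚ) + 1 - 2 * m = 1 := by ring
  have e3 : 2 * (m : ℚ) + 1 / 2 - 2 * m = 1 / 2 := by ring
  have e4 : 2 * (m : ℚ) + 3 / 2 - 2 * m = 3 / 2 := by ring
  have e5 : 2 * (m : ℚ) + 2 - (2 * m + 1) = 1 := by ring
  have e6 : 2 * (m : ℚ) + 3 / 2 - (2 * m + 1) = 1 / 2 := by ring
  simp only [e1, e2, e3, e4, e5, e6]
  field_simp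
  ring

theorem W1_step (m : ℕ) :
    ∑ k ∈ range (2 * (m + 1) + 1), tz (-(2 * (m : ℚ) + 2)) ((m : ℚ) + 3 / 2)
      (-(2 * (m : ℚ) + 3 / 2)) (-1 / 3) k =
    (4 * (3 * m + 1) * (3 * m + 2) / (3 * (4 * m + 1) * (4 * m + 3)) : ℚ) *
      ∑ k ∈ range (2 * m + 1), tz (-(2 * (m : ℚ))) (m + 1 / 2) (-(2 * (m : ℚ) - 1 / 2))
        (-1 / 3) k := by
  have hus : ∀ k, tz (-(2 * (m : ℚ))) (m + 1 / 2) (-(2 * (m : ℚ) - 1 / 2)) (-1 / 3) (k + 1) =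
      tz (-(2 * (m : ℚ))) (m + 1 / 2) (-(2 * (m : ℚ) - 1 / 2)) (-1 / 3) k * Wr m k :=
    fun k => tz_succ_neg _ _ _ _
  have hws : ∀ k, tz (-(2 * (m : ℚ) + 2)) ((m : ℚ) + 3 / 2) (-(2 * (m : ℚ) + 3 / 2)) (-1 / 3)
      (k + 1) = tz (-(2 * (m : ℚ) + 2)) ((m : ℚ) + 3 / 2) (-(2 * (m : ℚ) + 3 / 2)) (-1 / 3) k *
        Ws m k := fun k => tz_succ_neg _ _ _ _
  have hu0 : tz (-(2 * (m : ℚ))) (m + 1 / 2) (-(2 * (m : ℚ) - 1 / 2)) (-1 / 3) 0 = 1 :=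
    tz_zero _ _ _ _
  have hw0 : tz (-(2 * (m : ℚ) + 2)) ((m : ℚ) + 3 / 2) (-(2 * (m : ℚ) + 3 / 2)) (-1 / 3) 0 = 1 :=
    tz_zero _ _ _ _
  generalize tz (-(2 * (m : ℚ))) (m + 1 / 2) (-(2 * (m : ℚ) - 1 / 2)) (-1 / 3) = u at *
  generalize tz (-(2 * (m : ℚ) + 2)) ((m : ℚ) + 3 / 2) (-(2 * (m : ℚ) + 3 / 2)) (-1 / 3) = w at *
  have hwC : ∀ k ≤ 2 * m, w k = WC m k * u k := by
    intro k
    induction k with
    | zero => intro _; rw [hu0, hw0, WC_zero]; ring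
    | succ k ih =>
      intro hk
      rw [hws, ih (by omega), hus]
      obtain ⟨j, hj⟩ : ∃ j, 2 * m = k + 1 + j := ⟨2 * m - (k + 1), by omega⟩
      linear_combination (-(u k)) * WC_ratio m k j hj
  have h1 := tele2 u w (WC m) (Wg m) (Wr m) (2 * m) _ hwC (fun k _ => hus k) (Wg_zero m)
    (fun k hk => WC_key m k (2 * m - (k + 1)) (by omega)) (2 * m) le_rfl
  rw [show 2 * (m + 1) + 1 = 2 * m + 1 + 1 + 1 by ring, sum_range_succ, sum_range_succ, h1,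
    hws (2 * m + 1), hws (2 * m), hwC (2 * m) le_rfl]
  linear_combination (u (2 * m)) * Wg_last m

lemma choose_four (m : ℕ) : ((4 * (m + 1)).choose (m + 1) : ℚ) * ((m + 1) * (3 * m + 3) *
    (3 * m + 2) * (3 * m + 1)) = ((4 * m).choose m : ℚ) *
      ((4 * m + 4) * (4 * m + 3) * (4 * m + 2) * (4 * m + 1)) := by
  have h1 := Nat.choose_mul_factorial_mul_factorial (n := 4 * m) (k := m) (by omega)
  have h2 := Nat.choose_mul_factorial_mul_factorial (n := 4 * (m + 1)) (k := m + 1) (by omega)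
  rw [show 4 * m - m = 3 * m by omega] at h1
  rw [show 4 * (m + 1) - (m + 1) = 3 * m + 3 by omega, show 4 * (m + 1) = 4 * m + 4 by ring,
    Nat.factorial_succ m, show 3 * m + 3 = 3 * m + 1 + 1 + 1 by ring,
    Nat.factorial_succ (3 * m + 1 + 1), Nat.factorial_succ (3 * m + 1), Nat.factorial_succ (3 * m),
    show (4 * m + 4).factorial = (4 * m + 3 + 1) * ((4 * m + 2 + 1) * ((4 * m + 1 + 1) *
      ((4 * m + 1) * (4 * m).factorial))) by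
      rw [← Nat.factorial_succ, ← Nat.factorial_succ, ← Nat.factorial_succ,
        ← Nat.factorial_succ], ← h1] at h2
  rw [show 4 * (m + 1) = 4 * m + 4 by ring]
  have h3 : (m.factorial : ℚ) * ((3 * m).factorial : ℚ) ≠ 0 := by positivity
  have h4 : (((4 * m + 4).choose (m + 1) * ((m + 1) * m.factorial) * ((3 * m + 1 + 1 + 1) *
      ((3 * m + 1 + 1) * ((3 * m + 1) * (3 * m).factorial))) : ℕ) : ℚ) =
      (((4 * m + 3 + 1) * ((4 * m + 2 + 1) * ((4 * m + 1 + 1) *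
      ((4 * m + 1) * ((4 * m).choose m * m.factorial * (3 * m).factorial)))) : ℕ) : ℚ) := by
    exact_mod_cast h2
  push_cast at h4
  apply mul_left_cancel₀ h3
  linear_combination h4

lemma choose_two (m : ℕ) : ((2 * (m + 1)).choose (m + 1) : ℚ) * (m + 1) =
    ((2 * m).choose m : ℚ) * (2 * (2 * m + 1)) := by
  have h := Nat.succ_mul_centralBinom_succ m
  rw [Nat.centralBinom, Nat.centralBinom] at h
  have h1 : (((m + 1) * (2 * (m + 1)).choose (m + 1) : ℕ) : ℚ) =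
    ((2 * (2 * m + 1) * (2 * m).choose m : ℕ) : ℚ) := by exact_mod_cast h
  push_cast at h1
  linear_combination h1

/-- `F(-2m, m+1/2; 1/2-2m; -1/3)` -/
theorem W1 (m : ℕ) : (∑ k ∈ range (2 * m + 1), tz (-((2 * m : ℕ) : ℚ)) (m + 1 / 2) (1 / 2 - 2 * m) (-1 / 3) k) *
    (9 ^ m * ((4 * m).choose m : ℚ)) = 16 ^ m * ((2 * m).choose m : ℚ) := by
  induction m with
  | zero => simp [tz_zero]
  | succ m ih =>
    have h1 := W1_step m
    have e1 : (-((2 * (m + 1) : ℕ) : ℚ)) = -(2 * (m : ℚ) + 2) := by push_cast; ring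
    have e2 : (((m + 1 : ℕ) : ℚ) + 1 / 2) = (m : ℚ) + 3 / 2 := by push_cast; ring
    have e3 : (1 / 2 - 2 * ((m + 1 : ℕ) : ℚ)) = -(2 * (m : ℚ) + 3 / 2) := by push_cast; ring
    have e4 : (-((2 * m : ℕ) : ℚ)) = -(2 * (m : ℚ)) := by push_cast; ring
    have e5 : (1 / 2 - 2 * (m : ℚ)) = -(2 * (m : ℚ) - 1 / 2) := by ring
    rw [e1, e2, e3, h1]
    rw [e4, e5] at ih
    generalize (∑ k ∈ range (2 * m + 1), tz (-(2 * (m : ℚ))) (m + 1 / 2)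
      (-(2 * (m : ℚ) - 1 / 2)) (-1 / 3) k) = S at *
    have h2 := choose_four m
    have h3 := choose_two m
    have hp : ((m : ℚ) + 1) * (3 * m + 3) * (3 * m + 2) * (3 * m + 1) ≠ 0 := by positivity
    have hp2 : ((m : ℚ) + 1) ≠ 0 := by positivity
    rw [← eq_div_iff hp] at h2
    rw [← eq_div_iff hp2] at h3
    rw [h2, h3]
    have h6 : (4 * (3 * (m : ℚ) + 1) * (3 * m + 2) / (3 * (4 * m + 1) * (4 * m + 3))) * S *
        (9 ^ (m + 1) * (((4 * m).choose m : ℚ) * ((4 * m + 4) * (4 * m + 3) * (4 * m + 2) *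
          (4 * m + 1)) / ((m + 1) * (3 * m + 3) * (3 * m + 2) * (3 * m + 1)))) =
        (S * (9 ^ m * ((4 * m).choose m : ℚ))) * (32 * (2 * m + 1) / (m + 1)) := by
      rw [pow_succ]
      field_simp
      ring
    rw [h6, ih, pow_succ]
    field_simp
    ring

end Cec
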